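import Mathlib
import Pool.Agent.Lib.MP_6d896a_gt.Lite

/-!
Project UC (the Kannan-Lovasz-Simonovits inequality for unconditional log-concave measures):
definitions.
-/

set_option autoImplicit false

namespace Pool.Agent.Lib.MP_6d896a_gt.UC

open MeasureTheory Filter Topology Set
open scoped ENNReal NNReal ContDiff

abbrev Eu (n : ℕ) := EuclideanSpace ℝ (Fin n)

variable {n : ℕ}

/-- partial derivative -/
noncomputable def pd (i : Fin n) (f : Eu n → ℝ) (x : Eu n) : ℝ := fderiv ℝ f x (ej i)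

/-- test functions -/
structure TT (f : Eu n → ℝ) : Prop where
  cd : ContDiff ℝ ∞ f
  cs : HasCompactSupport f

/-- even in all coordinates -/
def Ev (f : Eu n → ℝ) : Prop := ∀ i x, f (Rf i x) = f x

/-- odd in the coordinate `i` -/
def Od (i : Fin n) (f : Eu n → ℝ) : Prop := ∀ x, f (Rf i x) = - f x

/-- expectation -/
noncomputable def Ex (V f : Eu n → ℝ) : ℝ := ∫ x, f x * Real.exp (-V x)

/-- Dirichlet form -/
noncomputable def Df (V f g : Eu n → ℝ) : ℝ := ∑ j, Ex V (fun x => pd j f x * pd j g x)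

/-- the generator -/
noncomputable def LL (V f : Eu n → ℝ) (x : Eu n) : ℝ :=
  ∑ j, pd j (pd j f) x - ∑ j, pd j V x * pd j f x

/-- unconditional strongly convex potentials of probability densities, with second moments of the
coordinates at most `S` -/
structure UP (V : Eu n → ℝ) (κ Λ S : ℝ) : Prop where
  kpos : 0 < κ
  Spos : 0 < S
  cd : ContDiff ℝ 2 V
  conv : ∀ x v, κ * ‖v‖ ^ 2 ≤ fderiv ℝ (fderiv ℝ V) x v v
  bd : ∀ x v, fderiv ℝ (fderiv ℝ V) x v v ≤ Λ * ‖v‖ ^ 2
  even : Ev V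
  int : Integrable (fun x => Real.exp (-V x))
  mass : Ex V (fun _ => 1) = 1
  momi : ∀ i, Integrable (fun x : Eu n => x i ^ 2 * Real.exp (-V x))
  mom : ∀ i, Ex V (fun x => x i ^ 2) ≤ S

/-- Poincare inequality for odd test functions -/
def Hodd (V : Eu n → ℝ) (c : ℝ) : Prop :=
  ∀ (i : Fin n) (f : Eu n → ℝ), TT f → Od i f → Ex V (fun x => f x ^ 2) ≤ c * Df V f f

/-- Poincare inequality for even test functions -/
def Hev (V : Eu n → ℝ) (c : ℝ) : Prop :=
  ∀ f : Eu n → ℝ, TT f → Ev f → Ex V (fun x => f x ^ 2) - (Ex V f) ^ 2 ≤ c * Df V f f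

/-- iterated integrals of the density in the direction `i` -/
noncomputable def Tk (V : Eu n → ℝ) (i : Fin n) : ℕ → Eu n → ℝ≥0∞
  | 0, x => ENNReal.ofReal (Real.exp (-V x))
  | k + 1, x => ∫⁻ t in Ioi (0 : ℝ), Tk V i k (x + t • ej i)

/-- weighted integrals over the half-space -/
noncomputable def Ik (V : Eu n → ℝ) (i : Fin n) (k : ℕ) (f : Eu n → ℝ) : ℝ≥0∞ :=
  ∫⁻ x in {x : Eu n | 0 < x i}, ENNReal.ofReal |f x| * Tk V i k x

/-- weighted means -/
noncomputable def Jk (V : Eu n → ℝ) (i : Fin n) (k : ℕ) (f : Eu n → ℝ) : ℝ := (Ik V i k f).toReal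

/-- energy excess of even functions -/
noncomputable def Sf (V : Eu n → ℝ) (l : ℝ) (g : Eu n → ℝ) : ℝ :=
  Df V g g - l * (Ex V (fun x => g x ^ 2) - (Ex V g) ^ 2)

end Pool.Agent.Lib.MP_6d896a_gt.UC
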