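import Mathlib
import Pool.Agent.Lib.MP_6d896a_gt.UC.Defs

/-!
Calculus of test functions, coordinate derivatives, expectations and Dirichlet forms.
-/

set_option autoImplicit false
set_option linter.all false

namespace Pool.Agent.Lib.MP_6d896a_gt.UC

open MeasureTheory Filter Topology Set ProbabilityTheory
open scoped ENNReal NNReal ContDiff

variable {n : ℕ} {V f g u : Eu n → ℝ} {κ Λ S : ℝ} {i j : Fin n}

/-! ### test functions -/

lemma TT.add (hf : TT f) (hg : TT g) : TT (fun x => f x + g x) :=
  ⟨hf.cd.add hg.cd, hf.cs.add hg.cs⟩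

lemma TT.const_mul (hf : TT f) (c : ℝ) : TT (fun x => c * f x) :=
  ⟨contDiff_const.mul hf.cd, hf.cs.mul_left (f := fun _ => c)⟩

lemma TT.sub (hf : TT f) (hg : TT g) : TT (fun x => f x - g x) := by
  have h := hf.add (hg.const_mul (-1))
  have e : (fun x => f x - g x) = fun x => f x + (-1) * g x := by
    funext x; ring
  rw [e]; exact h

lemma TT.mul (hf : TT f) (hg : TT g) : TT (fun x => f x * g x) :=
  ⟨hf.cd.mul hg.cd, hf.cs.mul_right (f' := g)⟩

lemma TT.sq (hf : TT f) : TT (fun x => f x ^ 2) := by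
  have h := hf.mul hf
  have e : (fun x => f x ^ 2) = fun x => f x * f x := by
    funext x; ring
  rw [e]; exact h

lemma pd_contDiff {m k : WithTop ℕ∞} (hf : ContDiff ℝ k f) (hmk : m + 1 ≤ k) (i : Fin n) :
    ContDiff ℝ m (pd i f) :=
  (hf.fderiv_right hmk).clm_apply contDiff_const

lemma pd_cs (hf : HasCompactSupport f) (i : Fin n) : HasCompactSupport (pd i f) :=
  hf.fderiv_apply (𝕜 := ℝ) (ej i)

lemma TT.pd (hf : TT f) (i : Fin n) : TT (pd i f) :=
  ⟨pd_contDiff hf.cd (by norm_num) i, pd_cs hf.cs i⟩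

lemma TT.comp_Rf (hf : TT f) (i : Fin n) : TT (fun x => f (Rf i x)) :=
  ⟨hf.cd.comp (Rf i).toContinuousLinearEquiv.contDiff,
    hf.cs.comp_homeomorph (Rf i).toHomeomorph⟩

lemma TT.zero : TT (fun _ : Eu n => (0 : ℝ)) :=
  ⟨contDiff_const, HasCompactSupport.zero⟩

lemma TT.sum {ι : Type*} (s : Finset ι) {F : ι → Eu n → ℝ} (h : ∀ k ∈ s, TT (F k)) :
    TT (fun x => ∑ k ∈ s, F k x) := by
  classical
  induction s using Finset.induction_on with
  | empty => simpa using (TT.zero (n := n))
  | insert a s ha ih =>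
    simp only [Finset.sum_insert ha]
    exact (h a (Finset.mem_insert_self a s)).add
      (ih fun k hk => h k (Finset.mem_insert_of_mem hk))

lemma TT.continuous (hf : TT f) : Continuous f := hf.cd.continuous

lemma TT.differentiable (hf : TT f) : Differentiable ℝ f := hf.cd.differentiable (by norm_num)

/-! ### coordinate derivatives -/

lemma pd_add (hf : Differentiable ℝ f) (hg : Differentiable ℝ g) (i : Fin n) (x : Eu n) :
    pd i (fun x => f x + g x) x = pd i f x + pd i g x := by
  unfold pd
  rw [fderiv_fun_add (hf x) (hg x)]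
  rfl

lemma pd_sub (hf : Differentiable ℝ f) (hg : Differentiable ℝ g) (i : Fin n) (x : Eu n) :
    pd i (fun x => f x - g x) x = pd i f x - pd i g x := by
  unfold pd
  rw [fderiv_fun_sub (hf x) (hg x)]
  rfl

lemma pd_const_mul (hf : Differentiable ℝ f) (c : ℝ) (i : Fin n) (x : Eu n) :
    pd i (fun x => c * f x) x = c * pd i f x := by
  unfold pd
  rw [fderiv_const_mul (hf x)]
  rfl

lemma pd_mul (hf : Differentiable ℝ f) (hg : Differentiable ℝ g) (i : Fin n) (x : Eu n) :
    pd i (fun x => f x * g x) x = pd i f x * g x + f x * pd i g x := by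
  unfold pd
  rw [fderiv_fun_mul (hf x) (hg x)]
  simp only [ContinuousLinearMap.add_apply, ContinuousLinearMap.smul_apply, smul_eq_mul]
  ring

lemma pd_comm (hf : ContDiff ℝ 2 f) (i j : Fin n) : pd i (pd j f) = pd j (pd i f) := by
  have hd : Differentiable ℝ (fderiv ℝ f) :=
    (hf.fderiv_right (m := 1) (by norm_num)).differentiable (by norm_num)
  have key : ∀ (i j : Fin n) (x : Eu n), pd i (pd j f) x = fderiv ℝ (fderiv ℝ f) x (ej i) (ej j) := by
    intro i j x
    unfold pd
    rw [fderiv_clm_apply (hd x) (differentiableAt_const _)]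
    simp
  funext x
  rw [key, key]
  have hs : IsSymmSndFDerivAt ℝ f x :=
    hf.contDiffAt.isSymmSndFDerivAt (by simp)
  exact hs _ _

/-- coordinate derivatives of the reflected function -/
lemma pd_comp_Rf (hf : Differentiable ℝ f) (i j : Fin n) (x : Eu n) :
    pd j (fun x => f (Rf i x)) x = (if j = i then -1 else 1) * pd j f (Rf i x) := by
  unfold pd
  have h1 : HasFDerivAt f (fderiv ℝ f (Rf i x)) (Rf i x) := (hf _).hasFDerivAt
  have h2 : HasFDerivAt (fun x => Rf i x)
    ((Rf i).toContinuousLinearEquiv : Eu n →L[ℝ] Eu n) x :=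
    (Rf i).toContinuousLinearEquiv.hasFDerivAt
  have h3 := h1.comp x h2
  have h4 : fderiv ℝ (fun x => f (Rf i x)) x = _ := h3.fderiv
  rw [h4]
  have h5 : Rf i (ej j) = (if j = i then (-1 : ℝ) else 1) • ej j := by
    ext k
    rw [Rf_apply]
    by_cases hji : j = i
    · subst hji
      by_cases hk : k = j
      · subst hk; simp
      · simp [hk]
    · by_cases hk : k = i
      · subst hk
        simp [hji, Ne.symm hji]
      · simp [hji, hk]
  show fderiv ℝ f (Rf i x) (Rf i (ej j)) = _
  rw [h5, map_smul, smul_eq_mul]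

lemma Ev.pd_odd (he : Ev f) (hf : Differentiable ℝ f) (i : Fin n) : Od i (pd i f) := by
  intro x
  have h := pd_comp_Rf hf i i x
  have e : (fun x => f (Rf i x)) = f := funext (he i)
  rw [e] at h
  simp only [if_true] at h
  linarith

lemma Ev.pd_even (he : Ev f) (hf : Differentiable ℝ f) {i j : Fin n} (hij : j ≠ i) (x : Eu n) :
    pd j f (Rf i x) = pd j f x := by
  have h := pd_comp_Rf hf i j x
  have e : (fun x => f (Rf i x)) = f := funext (he i)
  rw [e] at h
  simp only [hij, if_false] at h
  linarith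

lemma Od.zero (ho : Od i f) {x : Eu n} (hx : x i = 0) : f x = 0 := by
  have h1 : Rf i x = x := by
    ext k
    rw [Rf_apply]
    by_cases hk : k = i
    · subst hk; simp [hx]
    · simp [hk]
  have h := ho x
  rw [h1] at h
  linarith

lemma norm_fderiv_sq (f : Eu n → ℝ) (x : Eu n) : ‖fderiv ℝ f x‖ ^ 2 = ∑ j, pd j f x ^ 2 :=
  opNorm_sq _

/-! ### expectations -/

lemma int_cs (hV : Continuous V) (hf : Continuous f) (hc : HasCompactSupport f) :
    Integrable (fun x => f x * Real.exp (-V x)) :=
  (hf.mul (Real.continuous_exp.comp hV.neg)).integrable_of_hasCompactSupport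
    (hc.mul_right (f' := fun x => Real.exp (-V x)))

lemma TT.int (hf : TT f) (hV : Continuous V) : Integrable (fun x => f x * Real.exp (-V x)) :=
  int_cs hV hf.continuous hf.cs

lemma Ex_add (hf : Integrable (fun x => f x * Real.exp (-V x)))
    (hg : Integrable (fun x => g x * Real.exp (-V x))) :
    Ex V (fun x => f x + g x) = Ex V f + Ex V g := by
  unfold Ex
  rw [← integral_add hf hg]
  congr 1; funext x; ring

lemma Ex_sub (hf : Integrable (fun x => f x * Real.exp (-V x)))
    (hg : Integrable (fun x => g x * Real.exp (-V x))) :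
    Ex V (fun x => f x - g x) = Ex V f - Ex V g := by
  unfold Ex
  rw [← integral_sub hf hg]
  congr 1; funext x; ring

lemma Ex_const_mul (V f : Eu n → ℝ) (c : ℝ) : Ex V (fun x => c * f x) = c * Ex V f := by
  unfold Ex
  rw [← integral_const_mul]
  congr 1; funext x; ring

lemma Ex_neg (V f : Eu n → ℝ) : Ex V (fun x => - f x) = - Ex V f := by
  have h := Ex_const_mul V f (-1)
  have e : (fun x => (-1 : ℝ) * f x) = fun x => - f x := by funext x; ring
  rw [e] at h
  rw [h]; ring

lemma Ex_sum {ι : Type*} (s : Finset ι) {F : ι → Eu n → ℝ}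
    (h : ∀ k ∈ s, Integrable (fun x => F k x * Real.exp (-V x))) :
    Ex V (fun x => ∑ k ∈ s, F k x) = ∑ k ∈ s, Ex V (F k) := by
  unfold Ex
  rw [← integral_finsetSum s h]
  congr 1; funext x; rw [Finset.sum_mul]

lemma Ex_nonneg (h : ∀ x, 0 ≤ f x) : 0 ≤ Ex V f :=
  integral_nonneg fun x => mul_nonneg (h x) (Real.exp_pos _).le

lemma Ex_mono (hf : Integrable (fun x => f x * Real.exp (-V x)))
    (hg : Integrable (fun x => g x * Real.exp (-V x))) (h : ∀ x, f x ≤ g x) :
    Ex V f ≤ Ex V g :=
  integral_mono hf hg fun x => mul_le_mul_of_nonneg_right (h x) (Real.exp_pos _).le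

/-- Cauchy-Schwarz -/
lemma Ex_cs (hf : Integrable (fun x => f x ^ 2 * Real.exp (-V x)))
    (hg : Integrable (fun x => g x ^ 2 * Real.exp (-V x)))
    (hfg : Integrable (fun x => (f x * g x) * Real.exp (-V x))) :
    (Ex V (fun x => f x * g x)) ^ 2 ≤ Ex V (fun x => f x ^ 2) * Ex V (fun x => g x ^ 2) := by
  set A := Ex V (fun x => f x ^ 2) with hA
  set B := Ex V (fun x => f x * g x) with hB
  set C := Ex V (fun x => g x ^ 2) with hC
  have key : ∀ t : ℝ, 0 ≤ A * (t * t) + (2 * B) * t + C := by
    intro t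
    have h1 : 0 ≤ Ex V (fun x => (t * f x + g x) ^ 2) := Ex_nonneg fun x => sq_nonneg _
    have e : (fun x => (t * f x + g x) ^ 2) =
        fun x => ((t * t) * f x ^ 2 + (2 * t) * (f x * g x)) + g x ^ 2 := by
      funext x; ring
    rw [e] at h1
    have i1 : Integrable (fun x => (t * t) * f x ^ 2 * Real.exp (-V x)) := by
      have := hf.const_mul (t * t)
      simpa only [mul_assoc] using this
    have i2 : Integrable (fun x => (2 * t) * (f x * g x) * Real.exp (-V x)) := by
      have := hfg.const_mul (2 * t)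
      simpa only [mul_assoc] using this
    have i3 : Integrable (fun x => ((t * t) * f x ^ 2 + (2 * t) * (f x * g x)) *
        Real.exp (-V x)) := by
      have := i1.add i2
      refine this.congr (Filter.Eventually.of_forall fun x => ?_)
      simp only [Pi.add_apply]; ring
    rw [Ex_add i3 hg, Ex_add i1 i2, Ex_const_mul, Ex_const_mul] at h1
    rw [← hA, ← hB, ← hC] at h1
    linarith
  have h2 := discrim_le_zero key
  unfold discrim at h2
  nlinarith

lemma Ex_comp_Rf (hV : Ev V) (i : Fin n) (f : Eu n → ℝ) :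
    Ex V (fun x => f (Rf i x)) = Ex V f := by
  have hme : MeasurableEmbedding (Rf i : Eu n → Eu n) := (Rf i).toHomeomorph.measurableEmbedding
  have h1 := ((Rf i).measurePreserving).integral_comp hme (fun x => f x * Real.exp (-V x))
  unfold Ex
  rw [← h1]
  congr 1; funext x
  show f (Rf i x) * Real.exp (-V x) = f (Rf i x) * Real.exp (-V (Rf i x))
  rw [hV i x]

/-! ### the Dirichlet form -/

lemma Df_nonneg (V f : Eu n → ℝ) : 0 ≤ Df V f f :=
  Finset.sum_nonneg fun j _ => Ex_nonneg fun x => mul_self_nonneg _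

lemma Df_comm (V f g : Eu n → ℝ) : Df V f g = Df V g f := by
  unfold Df
  refine Finset.sum_congr rfl fun j _ => ?_
  congr 1; funext x; ring

lemma Df_add_left (hV : Continuous V) (hf : TT f) (hg : TT g) (hu : TT u) :
    Df V (fun x => f x + g x) u = Df V f u + Df V g u := by
  unfold Df
  rw [← Finset.sum_add_distrib]
  refine Finset.sum_congr rfl fun j _ => ?_
  rw [← Ex_add (((hf.pd j).mul (hu.pd j)).int hV) (((hg.pd j).mul (hu.pd j)).int hV)]
  congr 1; funext x
  rw [pd_add hf.differentiable hg.differentiable]; ring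

lemma Df_sub_left (hV : Continuous V) (hf : TT f) (hg : TT g) (hu : TT u) :
    Df V (fun x => f x - g x) u = Df V f u - Df V g u := by
  unfold Df
  rw [← Finset.sum_sub_distrib]
  refine Finset.sum_congr rfl fun j _ => ?_
  rw [← Ex_sub (((hf.pd j).mul (hu.pd j)).int hV) (((hg.pd j).mul (hu.pd j)).int hV)]
  congr 1; funext x
  rw [pd_sub hf.differentiable hg.differentiable]; ring

lemma Df_add_right (hV : Continuous V) (hf : TT f) (hg : TT g) (hu : TT u) :
    Df V u (fun x => f x + g x) = Df V u f + Df V u g := by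
  rw [Df_comm, Df_add_left hV hf hg hu, Df_comm V f u, Df_comm V g u]

lemma Df_sub_right (hV : Continuous V) (hf : TT f) (hg : TT g) (hu : TT u) :
    Df V u (fun x => f x - g x) = Df V u f - Df V u g := by
  rw [Df_comm, Df_sub_left hV hf hg hu, Df_comm V f u, Df_comm V g u]

lemma Df_const_mul_left (V : Eu n → ℝ) (hf : Differentiable ℝ f) (c : ℝ) (u : Eu n → ℝ) :
    Df V (fun x => c * f x) u = c * Df V f u := by
  unfold Df
  rw [Finset.mul_sum]
  refine Finset.sum_congr rfl fun j _ => ?_
  rw [← Ex_const_mul]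
  congr 1; funext x
  rw [pd_const_mul hf]; ring

lemma Df_const_mul_right (V : Eu n → ℝ) (hf : Differentiable ℝ f) (c : ℝ) (u : Eu n → ℝ) :
    Df V u (fun x => c * f x) = c * Df V u f := by
  rw [Df_comm, Df_const_mul_left V hf, Df_comm]

lemma Df_add (hV : Continuous V) (hf : TT f) (hg : TT g) :
    Df V (fun x => f x + g x) (fun x => f x + g x) = Df V f f + 2 * Df V f g + Df V g g := by
  rw [Df_add_left hV hf hg (hf.add hg), Df_add_right hV hf hg hf, Df_add_right hV hf hg hg,
    Df_comm V g f]
  ring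

lemma Df_sub (hV : Continuous V) (hf : TT f) (hg : TT g) :
    Df V (fun x => f x - g x) (fun x => f x - g x) = Df V f f - 2 * Df V f g + Df V g g := by
  rw [Df_sub_left hV hf hg (hf.sub hg), Df_sub_right hV hf hg hf, Df_sub_right hV hf hg hg,
    Df_comm V g f]
  ring

lemma Df_comp_Rf (hV : Ev V) (hf : Differentiable ℝ f) (i : Fin n) :
    Df V (fun x => f (Rf i x)) (fun x => f (Rf i x)) = Df V f f := by
  unfold Df
  refine Finset.sum_congr rfl fun j _ => ?_
  rw [← Ex_comp_Rf hV i (fun x => pd j f x * pd j f x)]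
  congr 1; funext x
  rw [pd_comp_Rf hf]
  by_cases h : j = i
  · simp only [h, if_true]; ring
  · simp only [h, if_false]; ring

lemma Df_eq (V : Eu n → ℝ) (hf : TT f) (hV : Continuous V) :
    Df V f f = ∫ x, ‖fderiv ℝ f x‖ ^ 2 * Real.exp (-V x) := by
  have h := Ex_sum (V := V) Finset.univ (F := fun j x => pd j f x * pd j f x)
    (fun j _ => ((hf.pd j).mul (hf.pd j)).int hV)
  unfold Df
  rw [← h]
  unfold Ex
  congr 1; funext x
  rw [norm_fderiv_sq]
  congr 1
  exact Finset.sum_congr rfl fun j _ => by ring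

end Pool.Agent.Lib.MP_6d896a_gt.UC
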