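import Pool.Agent.Lib.MP_6d896a_gt.UC.Defs

set_option autoImplicit false
set_option linter.all false

namespace Pool.Agent.Lib.MP_6d896a_gt.UC

open MeasureTheory Filter Topology Set ProbabilityTheory
open scoped ENNReal NNReal ContDiff

variable {n : ℕ} {V f g u : Eu n → ℝ} {κ Λ S : ℝ} {i j : Fin n}

/-- the bump with radii `1/(2(k+1))`, `1/(k+1)` -/
noncomputable def bmp (n k : ℕ) : ContDiffBump (0 : Eu n) where
  rIn := 1 / (2 * ((k : ℝ) + 1))
  rOut := 1 / ((k : ℝ) + 1)
  rIn_pos := by positivity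
  rIn_lt_rOut := by
    rw [div_lt_div_iff₀ (by positivity) (by positivity)]
    have : (0 : ℝ) ≤ k := Nat.cast_nonneg k
    linarith

noncomputable def eta (k : ℕ) (x : Eu n) : ℝ := (bmp n k).normed volume x

noncomputable def cvl (k : ℕ) (q : Eu n → ℝ) (x : Eu n) : ℝ := ∫ y, eta k (x - y) * q y

lemma eta_TT (k : ℕ) : TT (eta (n := n) k) :=
  ⟨(bmp n k).contDiff_normed, (bmp n k).hasCompactSupport_normed⟩

lemma eta_nonneg (k : ℕ) (x : Eu n) : 0 ≤ eta k x := (bmp n k).nonneg_normed x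

lemma eta_int (k : ℕ) : ∫ x : Eu n, eta k x = 1 := (bmp n k).integral_normed

lemma eta_zero {k : ℕ} {x : Eu n} (h : 1 / ((k : ℝ) + 1) ≤ ‖x‖) : eta k x = 0 := by
  have h1 := (bmp n k).support_normed_eq (μ := volume)
  by_contra hx
  have h2 : x ∈ Function.support ((bmp n k).normed volume) := hx
  rw [h1, mem_ball_zero_iff] at h2
  exact absurd h2 (not_lt.2 h)

private lemma moll_conv_eq (g q : Eu n → ℝ) :
    (fun x => ∫ y, g (x - y) * q y) =
      convolution q g (ContinuousLinearMap.lsmul ℝ ℝ) volume := by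
  funext x
  simp only [convolution, ContinuousLinearMap.lsmul_apply, smul_eq_mul]
  exact integral_congr_ae (Eventually.of_forall fun y => mul_comm _ _)

private lemma moll_smooth {g q : Eu n → ℝ} (hg : TT g) (hq : LocallyIntegrable q) :
    ContDiff ℝ ∞ (fun x => ∫ y, g (x - y) * q y) := by
  rw [moll_conv_eq]
  exact hg.cs.contDiff_convolution_right _ hq hg.cd

private lemma moll_pd {g q : Eu n → ℝ} (hg : TT g) (hq : LocallyIntegrable q) (j : Fin n)
    (x : Eu n) :
    pd j (fun x => ∫ y, g (x - y) * q y) x = ∫ y, pd j g (x - y) * q y := by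
  have h1 : ContDiff ℝ 1 g := hg.cd.of_le (by exact_mod_cast le_top)
  have e : (∫ y, pd j g (x - y) * q y) =
      convolution q (pd j g) (ContinuousLinearMap.lsmul ℝ ℝ) volume x := by
    rw [← moll_conv_eq]
  rw [e, moll_conv_eq, pd, (hg.cs.hasFDerivAt_convolution_right
    (ContinuousLinearMap.lsmul ℝ ℝ) hq h1 x).fderiv,
    convolution_precompR_apply (ContinuousLinearMap.lsmul ℝ ℝ) hq (hg.cs.fderiv ℝ)
      (h1.continuous_fderiv one_ne_zero)]
  rfl

private lemma moll_TT_pd {g : Eu n → ℝ} (hg : TT g) (j : Fin n) : TT (pd j g) := by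
  refine ⟨?_, ?_⟩
  · have h1 : ContDiff ℝ ∞ (fderiv ℝ g) := hg.cd.fderiv_right (by norm_cast)
    exact h1.clm_apply contDiff_const
  · exact (hg.cs.fderiv ℝ).comp_left (g := fun L : Eu n →L[ℝ] ℝ => L (ej j)) (by simp)

lemma cvl_smooth {q : Eu n → ℝ} (hq : LocallyIntegrable q) (k : ℕ) : ContDiff ℝ ∞ (cvl k q) :=
  moll_smooth (eta_TT k) hq

lemma pd_cvl {q : Eu n → ℝ} (hq : LocallyIntegrable q) (k : ℕ) (j : Fin n) (x : Eu n) :
    pd j (cvl k q) x = ∫ y, pd j (eta k) (x - y) * q y :=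
  moll_pd (eta_TT k) hq j x

lemma pd2_cvl {q : Eu n → ℝ} (hq : LocallyIntegrable q) (k : ℕ) (i j : Fin n) (x : Eu n) :
    pd i (pd j (cvl k q)) x = ∫ y, pd i (pd j (eta k)) (x - y) * q y := by
  have h : pd j (cvl k q) = fun x => ∫ y, pd j (eta k) (x - y) * q y :=
    funext fun x => pd_cvl hq k j x
  rw [h]
  exact moll_pd (moll_TT_pd (eta_TT k) j) hq i x

/-! ### convergence in `L2` -/

private lemma moll_cont {q : Eu n → ℝ} (hq : MemLp q 2 volume) {ε : ℝ} (hε : 0 < ε) :
    ∃ δ > 0, ∀ z : Eu n, ‖z‖ < δ →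
      eLpNorm (fun x => q (x - z) - q x) 2 volume ≤ ENNReal.ofReal ε := by
  let g : Eu n → C(Eu n, Eu n) := fun z => ⟨fun x => x - z, by fun_prop⟩
  have hgc : Continuous g := by
    let G : C(Eu n × Eu n, Eu n) := ⟨fun p => p.2 - p.1, by fun_prop⟩
    exact G.curry.continuous
  have hgm : ∀ z, MeasurePreserving (g z) (volume : Measure (Eu n)) volume := fun z =>
    measurePreserving_sub_right volume z
  have hcont : Continuous (fun z => Lp.compMeasurePreserving (g z) (hgm z) (hq.toLp q)) :=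
    continuous_const.compMeasurePreservingLp hgc hgm (by norm_num)
  have hae : ∀ z, (Lp.compMeasurePreserving (g z) (hgm z) (hq.toLp q) : Eu n → ℝ) =ᵐ[volume]
      fun x => q (x - z) := by
    intro z
    refine (Lp.coeFn_compMeasurePreserving _ (hgm z)).trans ?_
    exact (hgm z).quasiMeasurePreserving.ae_eq_comp hq.coeFn_toLp
  obtain ⟨δ, hδ, h⟩ := Metric.continuous_iff.1 hcont 0 ε hε
  refine ⟨δ, hδ, fun z hz => ?_⟩
  have h2 := h z (by simpa using hz)
  rw [dist_eq_norm, Lp.norm_def] at h2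
  have h3 : eLpNorm (fun x => q (x - z) - q x) 2 volume =
      eLpNorm (Lp.compMeasurePreserving (g z) (hgm z) (hq.toLp q) -
        Lp.compMeasurePreserving (g 0) (hgm 0) (hq.toLp q) : Lp ℝ 2 volume) 2 volume := by
    refine eLpNorm_congr_ae ?_
    filter_upwards [Lp.coeFn_sub (Lp.compMeasurePreserving (g z) (hgm z) (hq.toLp q))
      (Lp.compMeasurePreserving (g 0) (hgm 0) (hq.toLp q)), hae z, hae 0] with x h1 h4 h5
    rw [h1, Pi.sub_apply, h4, h5, sub_zero]
  rw [h3]
  refine (ENNReal.le_ofReal_iff_toReal_le (Lp.eLpNorm_ne_top _) hε.le).2 h2.le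

private lemma moll_cs (ν : Measure (Eu n)) [IsProbabilityMeasure ν] {h : Eu n → ℝ≥0∞}
    (hh : AEMeasurable h ν) : (∫⁻ z, h z ∂ν) ^ 2 ≤ ∫⁻ z, h z ^ 2 ∂ν := by
  have h1 := ENNReal.lintegral_mul_le_Lp_mul_Lq ν Real.HolderConjugate.two_two
    (f := fun _ => 1) (g := h) aemeasurable_const hh
  simp only [Pi.mul_apply, one_mul, ENNReal.one_rpow, lintegral_const, measure_univ, mul_one,
    ENNReal.rpow_two, one_pow] at h1
  calc (∫⁻ z, h z ∂ν) ^ 2 ≤ ((∫⁻ z, h z ^ 2 ∂ν) ^ ((1 : ℝ) / 2)) ^ 2 :=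
        pow_le_pow_left₀ zero_le h1 2
    _ = ∫⁻ z, h z ^ 2 ∂ν := by
        rw [← ENNReal.rpow_two, ← ENNReal.rpow_mul]
        norm_num

private lemma moll_prob (k : ℕ) : IsProbabilityMeasure
    ((volume : Measure (Eu n)).withDensity fun z => ENNReal.ofReal (eta k z)) := by
  refine ⟨?_⟩
  rw [withDensity_apply _ MeasurableSet.univ, Measure.restrict_univ,
    ← ofReal_integral_eq_lintegral_ofReal
      ((eta_TT k).cd.continuous.integrable_of_hasCompactSupport (eta_TT k).cs)
      (Eventually.of_forall (eta_nonneg k)), eta_int, ENNReal.ofReal_one]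

private lemma moll_jensen (k : ℕ) {q : Eu n → ℝ} (hqm : Measurable q)
    (hq : LocallyIntegrable q) (x : Eu n) :
    ‖cvl k q x - q x‖ₑ ^ 2 ≤
      ∫⁻ z, ENNReal.ofReal (eta k z) * ‖q (x - z) - q x‖ₑ ^ 2 := by
  have hec : Continuous (eta (n := n) k) := (eta_TT k).cd.continuous
  have hem : Measurable fun z : Eu n => ENNReal.ofReal (eta k z) :=
    ENNReal.measurable_ofReal.comp hec.measurable
  have e1 : cvl k q x = ∫ z, eta k z * q (x - z) := by
    rw [cvl, ← integral_sub_left_eq_self (fun z => eta k z * q (x - z)) volume x]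
    refine integral_congr_ae (Eventually.of_forall fun y => ?_)
    simp
  have e2 : q x = ∫ z : Eu n, eta k z * q x := by
    rw [integral_mul_const, eta_int, one_mul]
  have i1 : Integrable (fun z => eta k z * q (x - z)) := by
    have h := (eta_TT k).cs.convolutionExists_right (ContinuousLinearMap.lsmul ℝ ℝ) hq hec x
    have h2 : Integrable (fun y => eta k (x - y) * q y) := by
      refine h.congr (Eventually.of_forall fun y => ?_)
      simp [mul_comm]
    have h3 := h2.comp_sub_left x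
    refine h3.congr (Eventually.of_forall fun y => ?_)
    simp
  have i2 : Integrable (fun z : Eu n => eta k z * q x) :=
    (hec.integrable_of_hasCompactSupport (eta_TT k).cs).mul_const _
  have e3 : cvl k q x - q x = ∫ z, eta k z * (q (x - z) - q x) := by
    conv_lhs => rw [e1, e2]
    rw [← integral_sub i1 i2]
    refine integral_congr_ae (Eventually.of_forall fun y => ?_)
    simp [mul_sub]
  have hpr := moll_prob (n := n) k
  have hmeas : Measurable fun z => ‖q (x - z) - q x‖ₑ := by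
    exact ((hqm.comp (measurable_const.sub measurable_id)).sub measurable_const).enorm
  calc ‖cvl k q x - q x‖ₑ ^ 2 ≤
        (∫⁻ z, ‖eta k z * (q (x - z) - q x)‖ₑ) ^ 2 := by
        rw [e3]
        exact pow_le_pow_left₀ zero_le (enorm_integral_le_lintegral_enorm _) 2
    _ = (∫⁻ z, ENNReal.ofReal (eta k z) * ‖q (x - z) - q x‖ₑ) ^ 2 := by
        congr 1
        refine lintegral_congr fun z => ?_
        rw [enorm_mul, Real.enorm_of_nonneg (eta_nonneg k z)]
    _ = (∫⁻ z, ‖q (x - z) - q x‖ₑ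
          ∂((volume : Measure (Eu n)).withDensity fun z => ENNReal.ofReal (eta k z))) ^ 2 := by
        rw [lintegral_withDensity_eq_lintegral_mul _ hem hmeas]
        rfl
    _ ≤ ∫⁻ z, ‖q (x - z) - q x‖ₑ ^ 2
          ∂((volume : Measure (Eu n)).withDensity fun z => ENNReal.ofReal (eta k z)) :=
        moll_cs _ hmeas.aemeasurable
    _ = _ := by
        rw [lintegral_withDensity_eq_lintegral_mul _ hem (hmeas.pow_const 2)]
        rfl

private lemma moll_tonelli (k : ℕ) {q : Eu n → ℝ} (hqm : Measurable q)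
    (hq : LocallyIntegrable q) {ε : ℝ≥0∞}
    (hε : ∀ z : Eu n, eta k z ≠ 0 → eLpNorm (fun x => q (x - z) - q x) 2 volume ≤ ε) :
    ∫⁻ x, ‖cvl k q x - q x‖ₑ ^ 2 ≤ ε ^ 2 := by
  have hec : Continuous (eta (n := n) k) := (eta_TT k).cd.continuous
  have hem : Measurable fun z : Eu n => ENNReal.ofReal (eta k z) :=
    ENNReal.measurable_ofReal.comp hec.measurable
  have hpr := moll_prob (n := n) k
  have hone : ∫⁻ z : Eu n, ENNReal.ofReal (eta k z) = 1 := by
    have := hpr.measure_univ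
    rwa [withDensity_apply _ MeasurableSet.univ, Measure.restrict_univ] at this
  have hsw : ∫⁻ x, ∫⁻ z, ENNReal.ofReal (eta k z) * ‖q (x - z) - q x‖ₑ ^ 2 =
      ∫⁻ z, ∫⁻ x, ENNReal.ofReal (eta k z) * ‖q (x - z) - q x‖ₑ ^ 2 := by
    refine lintegral_lintegral_swap ?_
    refine Measurable.aemeasurable ?_
    refine (hem.comp measurable_snd).mul ?_
    refine (((hqm.comp (measurable_fst.sub measurable_snd)).sub
      (hqm.comp measurable_fst)).enorm).pow_const 2
  calc ∫⁻ x, ‖cvl k q x - q x‖ₑ ^ 2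
      ≤ ∫⁻ x, ∫⁻ z, ENNReal.ofReal (eta k z) * ‖q (x - z) - q x‖ₑ ^ 2 :=
        lintegral_mono fun x => moll_jensen k hqm hq x
    _ = ∫⁻ z, ∫⁻ x, ENNReal.ofReal (eta k z) * ‖q (x - z) - q x‖ₑ ^ 2 := hsw
    _ ≤ ∫⁻ z : Eu n, ENNReal.ofReal (eta k z) * ε ^ 2 := by
        refine lintegral_mono fun z => ?_
        rw [lintegral_const_mul' _ _ ENNReal.ofReal_ne_top]
        by_cases hz : eta k z = 0
        · simp [hz]
        · refine mul_le_mul_right ?_ _
          have h1 := hε z hz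
          rw [eLpNorm_eq_lintegral_rpow_enorm_toReal (by norm_num) (by norm_num)] at h1
          simp only [ENNReal.toReal_ofNat, ENNReal.rpow_two] at h1
          have h2 := pow_le_pow_left₀ zero_le h1 2
          rw [← ENNReal.rpow_two, ← ENNReal.rpow_mul] at h2
          norm_num at h2
          exact h2
    _ = ε ^ 2 := by rw [lintegral_mul_const _ hem, hone, one_mul]

theorem moll_tendsto {q : Eu n → ℝ} (hq : MemLp q 2 volume) :
    (∀ k, Integrable (fun x => (cvl k q x - q x) ^ 2)) ∧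
    Tendsto (fun k => ∫ x, (cvl k q x - q x) ^ 2) atTop (𝓝 0) := by
  -- reduction to a measurable function
  obtain ⟨q', hq'm, hqq'⟩ : ∃ q' : Eu n → ℝ, Measurable q' ∧ q =ᵐ[volume] q' :=
    ⟨hq.1.mk q, hq.1.stronglyMeasurable_mk.measurable, hq.1.ae_eq_mk⟩
  have hq' : MemLp q' 2 volume := (memLp_congr_ae hqq').1 hq
  have hli : LocallyIntegrable q' := hq'.locallyIntegrable (by norm_num)
  have hcvl : ∀ k, cvl k q = cvl k q' := by
    intro k
    funext x
    refine integral_congr_ae ?_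
    filter_upwards [hqq'] with y hy
    rw [hy]
  have hae : ∀ k, (fun x => (cvl k q x - q x) ^ 2) =ᵐ[volume]
      fun x => (cvl k q' x - q' x) ^ 2 := by
    intro k
    filter_upwards [hqq'] with x hx
    rw [hcvl, hx]
  have hmeas : ∀ k, AEStronglyMeasurable (fun x => (cvl k q' x - q' x) ^ 2)
      (volume : Measure (Eu n)) := by
    intro k
    have h1 : Continuous (cvl k q') := (cvl_smooth hli k).continuous
    exact ((h1.measurable.sub hq'm).pow_const 2).aestronglyMeasurable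
  have hen : ∀ k x, ENNReal.ofReal ((cvl k q' x - q' x) ^ 2) = ‖cvl k q' x - q' x‖ₑ ^ 2 := by
    intro k x
    rw [Real.enorm_eq_ofReal_abs, ← ENNReal.ofReal_pow (abs_nonneg _), sq_abs]
  have hfin : ∀ k, ∫⁻ x, ‖cvl k q' x - q' x‖ₑ ^ 2 < ⊤ := by
    intro k
    refine lt_of_le_of_lt (moll_tonelli k hq'm hli (ε := eLpNorm q' 2 volume +
      eLpNorm q' 2 volume) ?_) ?_
    · intro z _
      have hmp := measurePreserving_sub_right (volume : Measure (Eu n)) z
      have h1 : eLpNorm (fun x => q' (x - z)) 2 volume = eLpNorm q' 2 volume :=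
        eLpNorm_comp_measurePreserving hq'.1 hmp
      have h2 : AEStronglyMeasurable (fun x => q' (x - z)) (volume : Measure (Eu n)) :=
        hq'.1.comp_measurePreserving hmp
      calc eLpNorm (fun x => q' (x - z) - q' x) 2 volume
          ≤ eLpNorm (fun x => q' (x - z)) 2 volume + eLpNorm q' 2 volume :=
            eLpNorm_sub_le h2 hq'.1 (by norm_num)
        _ = _ := by rw [h1]
    · have := hq'.2
      exact ENNReal.pow_lt_top (ENNReal.add_lt_top.2 ⟨this, this⟩)
  have hint : ∀ k, Integrable (fun x => (cvl k q' x - q' x) ^ 2) := by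
    intro k
    refine ⟨hmeas k, ?_⟩
    rw [hasFiniteIntegral_iff_ofReal (Eventually.of_forall fun x => sq_nonneg _)]
    simp only [hen]
    exact hfin k
  refine ⟨fun k => (hint k).congr (hae k).symm, ?_⟩
  have heq : ∀ k, ∫ x, (cvl k q x - q x) ^ 2 = (∫⁻ x, ‖cvl k q' x - q' x‖ₑ ^ 2).toReal := by
    intro k
    rw [integral_congr_ae (hae k), integral_eq_lintegral_of_nonneg_ae
      (Eventually.of_forall fun x => sq_nonneg _) (hmeas k)]
    simp only [hen]
  simp only [heq]
  rw [← ENNReal.toReal_zero]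
  refine (ENNReal.tendsto_toReal ENNReal.zero_ne_top).comp ?_
  rw [ENNReal.tendsto_nhds_zero]
  intro ε hε
  -- choose a real `ε' > 0` with `ε' ^ 2 ≤ ε`
  obtain ⟨ε', hε'0, hε'⟩ : ∃ ε' : ℝ, 0 < ε' ∧ ENNReal.ofReal ε' ^ 2 ≤ ε := by
    rcases eq_or_ne ε ⊤ with rfl | ht
    · exact ⟨1, one_pos, le_top⟩
    · refine ⟨Real.sqrt ε.toReal, Real.sqrt_pos.2 (ENNReal.toReal_pos hε.ne' ht), ?_⟩
      rw [← ENNReal.ofReal_pow (Real.sqrt_nonneg _), Real.sq_sqrt ENNReal.toReal_nonneg,
        ENNReal.ofReal_toReal ht]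
  obtain ⟨δ, hδ, h⟩ := moll_cont hq' hε'0
  obtain ⟨K, hK⟩ := exists_nat_one_div_lt hδ
  refine eventually_atTop.2 ⟨K, fun k hk => ?_⟩
  refine (moll_tonelli k hq'm hli (ε := ENNReal.ofReal ε') ?_).trans hε'
  intro z hz
  refine h z ?_
  by_contra hcon
  refine hz (eta_zero ?_)
  have h1 : 1 / ((k : ℝ) + 1) ≤ 1 / ((K : ℝ) + 1) := by
    have : (K : ℝ) ≤ k := by exact_mod_cast hk
    exact one_div_le_one_div_of_le (by positivity) (by linarith)
  linarith [not_lt.1 hcon]

end Pool.Agent.Lib.MP_6d896a_gt.UC
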