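import Mathlib
import Pool.Agent.Lib.MP_6d896a_gt.UC.Moll

/-!
Uniqueness for Schroedinger operators.
-/

set_option autoImplicit false
set_option linter.all false

namespace Pool.Agent.Lib.MP_6d896a_gt.UC

open MeasureTheory Filter Topology Set
open scoped ENNReal NNReal ContDiff

variable {n : ℕ}

/-! ### limits of bilinear forms -/

private lemma sc_cs {f g : Eu n → ℝ} (hf : MemLp f 2 volume) (hg : MemLp g 2 volume) :
    |∫ x, f x * g x| ≤ Real.sqrt (∫ x, f x ^ 2) * Real.sqrt (∫ x, g x ^ 2) := by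
  have hf2 := hf.integrable_sq
  have hg2 := hg.integrable_sq
  have hfg : Integrable (fun x => f x * g x) := hf.integrable_mul hg
  have h1 : ∀ t : ℝ, 0 ≤ (∫ x, f x ^ 2) * (t * t) + (2 * ∫ x, f x * g x) * t + ∫ x, g x ^ 2 := by
    intro t
    have h2 : 0 ≤ ∫ x, (t * f x + g x) ^ 2 := integral_nonneg fun x => sq_nonneg _
    have h3 : ∫ x, (t * f x + g x) ^ 2 =
        (∫ x, f x ^ 2) * (t * t) + (2 * ∫ x, f x * g x) * t + ∫ x, g x ^ 2 := by
      have e : (fun x => (t * f x + g x) ^ 2) =
          fun x => ((t * t) * f x ^ 2 + (2 * t) * (f x * g x)) + g x ^ 2 := by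
        funext x; ring
      have a1 : Integrable (fun x => (t * t) * f x ^ 2) := hf2.const_mul _
      have a2 : Integrable (fun x => (2 * t) * (f x * g x)) := hfg.const_mul _
      have a3 : Integrable (fun x => (t * t) * f x ^ 2 + (2 * t) * (f x * g x)) := a1.add a2
      rw [e, integral_add a3 hg2, integral_add a1 a2, integral_const_mul, integral_const_mul]
      ring
    rwa [h3] at h2
  have h4 := discrim_le_zero h1
  rw [discrim] at h4
  have h5 : (∫ x, f x * g x) ^ 2 ≤ (∫ x, f x ^ 2) * ∫ x, g x ^ 2 := by nlinarith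
  rw [← Real.sqrt_mul (integral_nonneg fun x => sq_nonneg _)]
  exact Real.abs_le_sqrt h5

private lemma sc_lim {a b : ℕ → Eu n → ℝ} {a' b' : Eu n → ℝ}
    (ha : ∀ k, MemLp (a k) 2 volume) (hb : ∀ k, MemLp (b k) 2 volume)
    (ha' : MemLp a' 2 volume) (hb' : MemLp b' 2 volume)
    (h1 : Tendsto (fun k => ∫ x, (a k x - a' x) ^ 2) atTop (𝓝 0))
    (h2 : Tendsto (fun k => ∫ x, (b k x - b' x) ^ 2) atTop (𝓝 0)) :
    Tendsto (fun k => ∫ x, a k x * b k x) atTop (𝓝 (∫ x, a' x * b' x)) := by
  rw [tendsto_iff_norm_sub_tendsto_zero]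
  have hs1 : Tendsto (fun k => Real.sqrt (∫ x, (a k x - a' x) ^ 2)) atTop (𝓝 0) := by
    simpa using h1.sqrt
  have hs2 : Tendsto (fun k => Real.sqrt (∫ x, (b k x - b' x) ^ 2)) atTop (𝓝 0) := by
    simpa using h2.sqrt
  have hlim : Tendsto (fun k => Real.sqrt (∫ x, (a k x - a' x) ^ 2) *
      Real.sqrt (∫ x, (b k x - b' x) ^ 2) +
      Real.sqrt (∫ x, (a k x - a' x) ^ 2) * Real.sqrt (∫ x, b' x ^ 2) +
      Real.sqrt (∫ x, a' x ^ 2) * Real.sqrt (∫ x, (b k x - b' x) ^ 2)) atTop (𝓝 0) := by
    have := ((hs1.mul hs2).add (hs1.mul_const (Real.sqrt (∫ x, b' x ^ 2)))).add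
      (hs2.const_mul (Real.sqrt (∫ x, a' x ^ 2)))
    simpa using this
  refine squeeze_zero (fun _ => norm_nonneg _) (fun k => ?_) hlim
  have da : MemLp (fun x => a k x - a' x) 2 volume := (ha k).sub ha'
  have db : MemLp (fun x => b k x - b' x) 2 volume := (hb k).sub hb'
  have e : (∫ x, a k x * b k x) - ∫ x, a' x * b' x =
      (∫ x, (a k x - a' x) * (b k x - b' x)) + (∫ x, (a k x - a' x) * b' x) +
        ∫ x, a' x * (b k x - b' x) := by
    have m1 : Integrable (fun x => a k x * b k x) := (ha k).integrable_mul (hb k)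
    have m2 : Integrable (fun x => a' x * b' x) := ha'.integrable_mul hb'
    have m3 : Integrable (fun x => (a k x - a' x) * (b k x - b' x)) := da.integrable_mul db
    have m4 : Integrable (fun x => (a k x - a' x) * b' x) := da.integrable_mul hb'
    have m5 : Integrable (fun x => a' x * (b k x - b' x)) := ha'.integrable_mul db
    have m6 : Integrable (fun x => (a k x - a' x) * (b k x - b' x) + (a k x - a' x) * b' x) :=
      m3.add m4
    rw [← integral_sub m1 m2, ← integral_add m3 m4, ← integral_add m6 m5]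
    refine integral_congr_ae (Eventually.of_forall fun x => ?_)
    simp only
    ring
  rw [e, Real.norm_eq_abs]
  refine (abs_add_le _ _).trans (add_le_add ((abs_add_le _ _).trans (add_le_add ?_ ?_)) ?_)
  · exact sc_cs da db
  · exact sc_cs da hb'
  · exact sc_cs ha' db

private lemma sc_mul {m : Eu n → ℝ} (hm : Continuous m) (hmc : HasCompactSupport m)
    {a : Eu n → ℝ} (ha : MemLp a 2 volume) : MemLp (fun x => m x * a x) 2 volume := by
  obtain ⟨M, hM⟩ := hmc.exists_bound_of_continuous hm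
  refine MemLp.mono (ha.const_mul M) (hm.aestronglyMeasurable.mul ha.1) ?_
  refine Eventually.of_forall fun x => ?_
  rw [norm_mul, norm_mul]
  gcongr
  exact (hM x).trans (le_abs_self M)

private lemma sc_limw {m : Eu n → ℝ} (hm : Continuous m) (hmc : HasCompactSupport m)
    {a b : ℕ → Eu n → ℝ} {a' b' : Eu n → ℝ}
    (ha : ∀ k, MemLp (a k) 2 volume) (hb : ∀ k, MemLp (b k) 2 volume)
    (ha' : MemLp a' 2 volume) (hb' : MemLp b' 2 volume)
    (h1 : Tendsto (fun k => ∫ x, (a k x - a' x) ^ 2) atTop (𝓝 0))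
    (h2 : Tendsto (fun k => ∫ x, (b k x - b' x) ^ 2) atTop (𝓝 0)) :
    Tendsto (fun k => ∫ x, m x * (a k x * b k x)) atTop (𝓝 (∫ x, m x * (a' x * b' x))) := by
  obtain ⟨M, hM⟩ := hmc.exists_bound_of_continuous hm
  have h3 : Tendsto (fun k => ∫ x, (m x * a k x - m x * a' x) ^ 2) atTop (𝓝 0) := by
    have h4 : Tendsto (fun k => M ^ 2 * ∫ x, (a k x - a' x) ^ 2) atTop (𝓝 0) := by
      simpa using h1.const_mul (M ^ 2)
    refine squeeze_zero (fun k => integral_nonneg fun x => sq_nonneg _) (fun k => ?_) h4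
    rw [← integral_const_mul]
    refine integral_mono_of_nonneg (Eventually.of_forall fun x => sq_nonneg _)
      (((ha k).sub ha').integrable_sq.const_mul _) (Eventually.of_forall fun x => ?_)
    simp only [Pi.sub_apply]
    rw [← mul_sub, mul_pow]
    refine mul_le_mul_of_nonneg_right ?_ (sq_nonneg _)
    rw [← sq_abs]
    exact pow_le_pow_left₀ (abs_nonneg _) (hM x) 2
  have h5 := sc_lim (fun k => sc_mul hm hmc (ha k)) hb (sc_mul hm hmc ha') hb' h3 h2
  simpa only [mul_assoc] using h5

/-! ### the energy identity -/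

private lemma sc_ibp {F G : Eu n → ℝ} (hF : ContDiff ℝ ∞ F) (hFc : HasCompactSupport F)
    (hG : ContDiff ℝ ∞ G) (j : Fin n) :
    ∫ x, F x * pd j G x = - ∫ x, pd j F x * G x := by
  have hdF : Continuous (fun x => fderiv ℝ F x (ej j)) :=
    (hF.continuous_fderiv (by simp)).clm_apply continuous_const
  have hdG : Continuous (fun x => fderiv ℝ G x (ej j)) :=
    (hG.continuous_fderiv (by simp)).clm_apply continuous_const
  have hdFc : HasCompactSupport (fun x => fderiv ℝ F x (ej j)) :=
    hFc.fderiv_apply ℝ (ej j)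
  refine integral_mul_fderiv_eq_neg_fderiv_mul_of_integrable ?_ ?_ ?_
    (fun x _ => (hF.differentiable (by simp)) x) (fun x _ => (hG.differentiable (by simp)) x)
  · exact (hdF.mul hG.continuous).integrable_of_hasCompactSupport hdFc.mul_right
  · exact (hF.continuous.mul hdG).integrable_of_hasCompactSupport hFc.mul_right
  · exact (hF.continuous.mul hG.continuous).integrable_of_hasCompactSupport hFc.mul_right

private lemma sc_pd_smooth {F : Eu n → ℝ} (hF : ContDiff ℝ ∞ F) (j : Fin n) :
    ContDiff ℝ ∞ (pd j F) := by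
  have h1 : ContDiff ℝ ∞ (fderiv ℝ F) := hF.fderiv_right (by simp)
  exact h1.clm_apply contDiff_const

private lemma sc_energy {W : Eu n → ℝ} (hW : Continuous W)
    (hpos : ∀ φ : Eu n → ℝ, TT φ → 0 ≤ ∫ x, (∑ j, pd j φ x ^ 2 + W x * φ x ^ 2))
    {l : ℝ} {u h : Eu n → ℝ} (hu : ContDiff ℝ ∞ u)
    (hh : ∀ x, ∑ j, pd j (pd j u) x = l * u x + h x) {χ : Eu n → ℝ} (hχ : TT χ) :
    l * ∫ x, χ x ^ 2 * (u x * u x) ≤ (∫ x, (∑ j, pd j χ x ^ 2) * (u x * u x)) +
      (∫ x, (χ x ^ 2 * W x) * (u x * u x)) - ∫ x, χ x ^ 2 * (u x * h x) := by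
  have hh' : Continuous h := by
    have : h = fun x => ∑ j, pd j (pd j u) x - l * u x := by
      funext x; rw [hh x]; ring
    rw [this]
    exact (continuous_finset_sum _ fun j _ =>
      (sc_pd_smooth (sc_pd_smooth hu j) j).continuous).sub (continuous_const.mul hu.continuous)
  have hχc := hχ.cd.continuous
  have huc := hu.continuous
  have hdχ : ∀ j, Continuous (pd j χ) := fun j => (sc_pd_smooth hχ.cd j).continuous
  have hdu : ∀ j, Continuous (pd j u) := fun j => (sc_pd_smooth hu j).continuous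
  have hddu : ∀ j, Continuous (pd j (pd j u)) :=
    fun j => (sc_pd_smooth (sc_pd_smooth hu j) j).continuous
  have hdχs : ∀ j, HasCompactSupport (pd j χ) := fun j => hχ.cs.fderiv_apply ℝ (ej j)
  have hχ2s : HasCompactSupport (fun x => χ x ^ 2) := by
    have : (fun x => χ x ^ 2) = fun x => χ x * χ x := by funext x; ring
    rw [this]; exact hχ.cs.mul_right
  have hdχ2s : ∀ j, HasCompactSupport (fun x => pd j χ x ^ 2) := by
    intro j
    have : (fun x => pd j χ x ^ 2) = fun x => pd j χ x * pd j χ x := by funext x; ring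
    rw [this]; exact (hdχs j).mul_right
  have hf : TT (fun x => χ x * u x) := ⟨hχ.cd.mul hu, hχ.cs.mul_right⟩
  have hχd : Differentiable ℝ χ := hχ.cd.differentiable (by simp)
  have hud : Differentiable ℝ u := hu.differentiable (by simp)
  have pdmul : ∀ (a b : Eu n → ℝ), Differentiable ℝ a → Differentiable ℝ b → ∀ j x,
      pd j (fun x => a x * b x) x = pd j a x * b x + a x * pd j b x := by
    intro a b ha hb j x
    rw [pd, fderiv_fun_mul (ha x) (hb x)]
    simp [pd]
    ring
  -- integrals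
  have i1 : Integrable (fun x => χ x ^ 2 * (u x * h x)) :=
    ((hχc.pow 2).mul (huc.mul hh')).integrable_of_hasCompactSupport hχ2s.mul_right
  have i2 : Integrable (fun x => χ x ^ 2 * (u x * u x)) :=
    ((hχc.pow 2).mul (huc.mul huc)).integrable_of_hasCompactSupport hχ2s.mul_right
  have i3 : Integrable (fun x => (χ x ^ 2 * W x) * (u x * u x)) :=
    (((hχc.pow 2).mul hW).mul (huc.mul huc)).integrable_of_hasCompactSupport
      (hχ2s.mul_right.mul_right)
  have i4 : ∀ j, Integrable (fun x => pd j χ x ^ 2 * (u x * u x)) := fun j =>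
    (((hdχ j).pow 2).mul (huc.mul huc)).integrable_of_hasCompactSupport (hdχ2s j).mul_right
  have i5 : ∀ j, Integrable (fun x => χ x ^ 2 * u x * pd j (pd j u) x) := fun j =>
    (((hχc.pow 2).mul huc).mul (hddu j)).integrable_of_hasCompactSupport
      (hχ2s.mul_right.mul_right)
  have hF : ContDiff ℝ ∞ (fun x => χ x ^ 2 * u x) := (hχ.cd.pow 2).mul hu
  have hFs : HasCompactSupport (fun x => χ x ^ 2 * u x) := hχ2s.mul_right
  have hstep : ∀ j, ∫ x, pd j (fun x => χ x * u x) x ^ 2 =
      (∫ x, pd j χ x ^ 2 * (u x * u x)) - ∫ x, χ x ^ 2 * u x * pd j (pd j u) x := by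
    intro j
    have h1 := sc_ibp hF hFs (sc_pd_smooth hu j) j
    have i6 : Integrable (fun x => pd j (fun x => χ x ^ 2 * u x) x * pd j u x) := by
      refine ((sc_pd_smooth hF j).continuous.mul (hdu j)).integrable_of_hasCompactSupport ?_
      have : HasCompactSupport (pd j (fun x => χ x ^ 2 * u x)) := hFs.fderiv_apply ℝ (ej j)
      exact this.mul_right
    have h2 : (fun x => pd j (fun x => χ x * u x) x ^ 2) =
        fun x => pd j χ x ^ 2 * (u x * u x) + pd j (fun x => χ x ^ 2 * u x) x * pd j u x := by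
      funext x
      have e1 : (fun x => χ x ^ 2 * u x) = fun x => χ x * (χ x * u x) := by
        funext y; ring
      rw [pdmul χ u hχd hud, e1, pdmul χ (fun x => χ x * u x) hχd (hχd.mul hud),
        pdmul χ u hχd hud]
      ring
    rw [h2, integral_add (i4 j) i6]
    have h3 : ∫ x, pd j (fun x => χ x ^ 2 * u x) x * pd j u x =
        - ∫ x, χ x ^ 2 * u x * pd j (pd j u) x := by
      rw [h1]; ring
    rw [h3]; ring
  have i7 : ∀ j, Integrable (fun x => pd j (fun x => χ x * u x) x ^ 2) := by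
    intro j
    have hs : HasCompactSupport (pd j (fun x => χ x * u x)) := hf.cs.fderiv_apply ℝ (ej j)
    have : (fun x => pd j (fun x => χ x * u x) x ^ 2) =
        fun x => pd j (fun x => χ x * u x) x * pd j (fun x => χ x * u x) x := by funext x; ring
    rw [this]
    exact ((sc_pd_smooth hf.cd j).continuous.mul
      (sc_pd_smooth hf.cd j).continuous).integrable_of_hasCompactSupport hs.mul_right
  have i8 : Integrable (fun x => W x * (χ x * u x) ^ 2) := by
    have : (fun x => W x * (χ x * u x) ^ 2) = fun x => (χ x ^ 2 * W x) * (u x * u x) := by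
      funext x; ring
    rw [this]; exact i3
  have hp := hpos _ hf
  rw [integral_add (integrable_finset_sum _ fun j _ => i7 j) i8,
    integral_finset_sum _ fun j _ => i7 j] at hp
  simp only [hstep] at hp
  rw [Finset.sum_sub_distrib] at hp
  have e2 : ∑ j, ∫ x, χ x ^ 2 * u x * pd j (pd j u) x =
      l * (∫ x, χ x ^ 2 * (u x * u x)) + ∫ x, χ x ^ 2 * (u x * h x) := by
    rw [← integral_finset_sum _ fun j _ => i5 j, ← integral_const_mul,
      ← integral_add (i2.const_mul l) i1]
    refine integral_congr_ae (Eventually.of_forall fun x => ?_)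
    simp only
    rw [← Finset.mul_sum, hh x]
    ring
  have e3 : ∑ j, ∫ x, pd j χ x ^ 2 * (u x * u x) =
      ∫ x, (∑ j, pd j χ x ^ 2) * (u x * u x) := by
    rw [← integral_finset_sum _ fun j _ => i4 j]
    refine integral_congr_ae (Eventually.of_forall fun x => ?_)
    simp only
    rw [Finset.sum_mul]
  have e4 : ∫ x, W x * (χ x * u x) ^ 2 = ∫ x, (χ x ^ 2 * W x) * (u x * u x) := by
    refine integral_congr_ae (Eventually.of_forall fun x => ?_)
    simp only
    ring
  rw [e2, e3, e4] at hp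
  linarith

/-! ### the mollified equation -/

private lemma sc_pd_refl {F : Eu n → ℝ} (hF : Differentiable ℝ F) (x : Eu n) (j : Fin n) (y : Eu n) :
    pd j (fun y => F (x - y)) y = - pd j F (x - y) := by
  have h1 : HasFDerivAt (fun y : Eu n => x - y) (-(ContinuousLinearMap.id ℝ (Eu n))) y :=
    (hasFDerivAt_id y).const_sub x
  have h2 := ((hF (x - y)).hasFDerivAt).comp y h1
  have h3 : fderiv ℝ (fun y => F (x - y)) y =
      (fderiv ℝ F (x - y)).comp (-(ContinuousLinearMap.id ℝ (Eu n))) := h2.fderiv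
  rw [pd, h3, pd]
  simp

private lemma sc_loc {q : Eu n → ℝ} (hq : MemLp q 2 volume) : LocallyIntegrable q :=
  hq.locallyIntegrable (by norm_num)

private lemma sc_eq {W : Eu n → ℝ} (hW : Continuous W) {l : ℝ} {q : Eu n → ℝ}
    (hq : MemLp q 2 volume)
    (h0 : ∀ φ : Eu n → ℝ, TT φ →
      ∫ x, q x * (l * φ x - ∑ j, pd j (pd j φ) x + W x * φ x) = 0) (k : ℕ) (x : Eu n) :
    ∑ j, pd j (pd j (cvl k q)) x = l * cvl k q x + cvl k (fun y => W y * q y) x := by
  have hT := eta_TT (n := n) k
  have hd : Differentiable ℝ (eta (n := n) k) := hT.cd.differentiable (by simp)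
  have hd1 : ∀ j, Differentiable ℝ (pd j (eta (n := n) k)) := fun j =>
    (sc_pd_smooth hT.cd j).differentiable (by simp)
  have hpd2 : ∀ j y, pd j (pd j (fun y => eta k (x - y))) y = pd j (pd j (eta k)) (x - y) := by
    intro j y
    have e1 : pd j (fun y => eta k (x - y)) = fun y => (-1 : ℝ) * pd j (eta k) (x - y) := by
      funext z; rw [sc_pd_refl hd]; ring
    rw [e1]
    have hdd : Differentiable ℝ (fun y => pd j (eta (n := n) k) (x - y)) :=
      (hd1 j).comp (differentiable_const x |>.sub differentiable_id)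
    have e2 : pd j (fun y => (-1 : ℝ) * pd j (eta k) (x - y)) y =
        (-1 : ℝ) * pd j (fun y => pd j (eta k) (x - y)) y := by
      rw [pd, fderiv_const_mul (hdd y)]
      simp [pd]
    rw [e2, sc_pd_refl (hd1 j)]
    ring
  have hcs : ∀ F : Eu n → ℝ, HasCompactSupport F → HasCompactSupport (fun y => F (x - y)) := by
    intro F hF
    exact hF.comp_homeomorph (Homeomorph.subLeft x)
  have hTT : TT (fun y => eta k (x - y)) :=
    ⟨hT.cd.comp (contDiff_const.sub contDiff_id), hcs _ hT.cs⟩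
  have h1 := h0 _ hTT
  have hloc := sc_loc hq
  have j1 : Integrable (fun y => eta k (x - y) * q y) :=
    hloc.integrable_smul_left_of_hasCompactSupport hTT.cd.continuous hTT.cs
  have j2 : Integrable (fun y => eta k (x - y) * (W y * q y)) := by
    have : Integrable (fun y => (eta k (x - y) * W y) * q y) :=
      hloc.integrable_smul_left_of_hasCompactSupport (hTT.cd.continuous.mul hW) hTT.cs.mul_right
    simpa only [mul_assoc] using this
  have j3 : ∀ j, Integrable (fun y => pd j (pd j (eta k)) (x - y) * q y) := by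
    intro j
    have c1 : Continuous (fun y => pd j (pd j (eta (n := n) k)) (x - y)) :=
      (sc_pd_smooth (sc_pd_smooth hT.cd j) j).continuous.comp
        (continuous_const.sub continuous_id)
    have c2 : HasCompactSupport (pd j (eta (n := n) k)) := hT.cs.fderiv_apply ℝ (ej j)
    have c3 : HasCompactSupport (pd j (pd j (eta (n := n) k))) := c2.fderiv_apply ℝ (ej j)
    exact hloc.integrable_smul_left_of_hasCompactSupport c1 (hcs _ c3)
  have e3 : ∫ y, q y * (l * eta k (x - y) - ∑ j, pd j (pd j (fun y => eta k (x - y))) y +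
      W y * eta k (x - y)) =
      l * cvl k q x - ∑ j, pd j (pd j (cvl k q)) x + cvl k (fun y => W y * q y) x := by
    simp only [pd2_cvl hloc, cvl]
    have j4 : Integrable (fun y => l * (eta k (x - y) * q y)) := j1.const_mul l
    have j5 : Integrable (fun y => ∑ j, pd j (pd j (eta k)) (x - y) * q y) :=
      integrable_finset_sum _ fun j _ => j3 j
    have j6 : Integrable (fun y => l * (eta k (x - y) * q y) -
        ∑ j, pd j (pd j (eta k)) (x - y) * q y) := j4.sub j5
    rw [← integral_finset_sum _ fun j _ => j3 j, ← integral_const_mul, ← integral_sub j4 j5,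
      ← integral_add j6 j2]
    refine integral_congr_ae (Eventually.of_forall fun y => ?_)
    simp only [hpd2]
    rw [← Finset.sum_mul]
    ring
  rw [e3] at h1
  linarith

private lemma sc_memLp {q : Eu n → ℝ} (hq : MemLp q 2 volume) (k : ℕ) :
    MemLp (cvl k q) 2 volume := by
  have h1 := (moll_tendsto hq).1 k
  have hc : Continuous (cvl k q) := (cvl_smooth (sc_loc hq) k).continuous
  have h2 : MemLp (fun x => cvl k q x - q x) 2 volume :=
    (memLp_two_iff_integrable_sq (hc.aestronglyMeasurable.sub hq.1)).2 h1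
  have h3 := h2.add hq
  have e : (fun x => cvl k q x - q x) + q = cvl k q := by
    funext x; simp
  rwa [e] at h3

private lemma sc_main {W : Eu n → ℝ} (hW : Continuous W)
    (hpos : ∀ φ : Eu n → ℝ, TT φ → 0 ≤ ∫ x, (∑ j, pd j φ x ^ 2 + W x * φ x ^ 2))
    {l : ℝ} {q : Eu n → ℝ} (hq : MemLp q 2 volume)
    (h0 : ∀ φ : Eu n → ℝ, TT φ →
      ∫ x, q x * (l * φ x - ∑ j, pd j (pd j φ) x + W x * φ x) = 0)
    {χ : Eu n → ℝ} (hχ : TT χ) :
    l * ∫ x, χ x ^ 2 * (q x * q x) ≤ ∫ x, (∑ j, pd j χ x ^ 2) * (q x * q x) := by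
  have hχc := hχ.cd.continuous
  have hdχ : ∀ j, Continuous (pd j χ) := fun j => (sc_pd_smooth hχ.cd j).continuous
  have hdχs : ∀ j, HasCompactSupport (pd j χ) := fun j => hχ.cs.fderiv_apply ℝ (ej j)
  have hχ2s : HasCompactSupport (fun x => χ x ^ 2) := by
    have : (fun x => χ x ^ 2) = fun x => χ x * χ x := by funext x; ring
    rw [this]; exact hχ.cs.mul_right
  have hgs : HasCompactSupport (fun x => ∑ j, pd j χ x ^ 2) := by
    have hcov : ∀ x, x ∉ tsupport χ → (∑ j, pd j χ x ^ 2) = 0 := by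
      intro x hx
      refine Finset.sum_eq_zero fun j _ => ?_
      have : fderiv ℝ χ x = 0 := by
        by_contra hne
        exact hx (support_fderiv_subset ℝ hne)
      simp [pd, this]
    exact HasCompactSupport.intro hχ.cs.isCompact hcov
  obtain ⟨R, hR⟩ := hχ.cs.isCompact.isBounded.subset_closedBall (0 : Eu n)
  set g : Eu n → ℝ := (Metric.closedBall (0 : Eu n) (R + 1)).indicator (fun y => W y * q y)
    with hg
  have hgL : MemLp g 2 volume := by
    obtain ⟨M, hM⟩ := (isCompact_closedBall (0 : Eu n) (R + 1)).exists_bound_of_continuousOn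
      hW.continuousOn
    refine MemLp.mono (hq.const_mul M)
      ((hW.aestronglyMeasurable.mul hq.1).indicator Metric.isClosed_closedBall.measurableSet) ?_
    refine Eventually.of_forall fun y => ?_
    rw [hg]
    by_cases hy : y ∈ Metric.closedBall (0 : Eu n) (R + 1)
    · rw [Set.indicator_of_mem hy, norm_mul, norm_mul]
      gcongr
      exact (hM y hy).trans (le_abs_self M)
    · rw [Set.indicator_of_notMem hy, norm_zero]
      exact norm_nonneg _
  have hcv : ∀ k x, x ∈ tsupport χ → cvl k (fun y => W y * q y) x = cvl k g x := by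
    intro k x hx
    rw [cvl, cvl]
    refine integral_congr_ae (Eventually.of_forall fun y => ?_)
    simp only
    by_cases hy : y ∈ Metric.closedBall (0 : Eu n) (R + 1)
    · rw [hg, Set.indicator_of_mem hy]
    · have h1 : 1 / ((k : ℝ) + 1) ≤ ‖x - y‖ := by
        have h2 : ‖x‖ ≤ R := by simpa using hR hx
        have h3 : R + 1 < ‖y‖ := by simpa using hy
        have h4 : ‖y‖ ≤ ‖x‖ + ‖x - y‖ := by
          have := norm_sub_le x (x - y)
          simpa using this
        have h5 : 1 / ((k : ℝ) + 1) ≤ 1 := by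
          rw [div_le_one (by positivity)]
          have : (0 : ℝ) ≤ k := Nat.cast_nonneg k
          linarith
        linarith
      rw [eta_zero h1, zero_mul, zero_mul]
  have hineq : ∀ k, l * ∫ x, χ x ^ 2 * (cvl k q x * cvl k q x) ≤
      (∫ x, (∑ j, pd j χ x ^ 2) * (cvl k q x * cvl k q x)) +
      (∫ x, (χ x ^ 2 * W x) * (cvl k q x * cvl k q x)) -
        ∫ x, χ x ^ 2 * (cvl k q x * cvl k g x) := by
    intro k
    have h1 := sc_energy hW hpos (l := l) (cvl_smooth (sc_loc hq) k) (sc_eq hW hq h0 k) hχ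
    have h2 : ∫ x, χ x ^ 2 * (cvl k q x * cvl k (fun y => W y * q y) x) =
        ∫ x, χ x ^ 2 * (cvl k q x * cvl k g x) := by
      refine integral_congr_ae (Eventually.of_forall fun x => ?_)
      simp only
      by_cases hx : x ∈ tsupport χ
      · rw [hcv k x hx]
      · rw [image_eq_zero_of_notMem_tsupport hx]; ring
    rwa [h2] at h1
  have hqk := sc_memLp hq
  have hgk := sc_memLp hgL
  have t1 := (moll_tendsto hq).2
  have t2 := (moll_tendsto hgL).2
  have L1 := sc_limw (m := fun x => χ x ^ 2) (hχc.pow 2) hχ2s hqk hqk hq hq t1 t1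
  have L2 := sc_limw (m := fun x => ∑ j, pd j χ x ^ 2)
    (continuous_finset_sum _ fun j _ => (hdχ j).pow 2) hgs hqk hqk hq hq t1 t1
  have hms : HasCompactSupport (fun x => χ x ^ 2 * W x) := hχ2s.mul_right
  have hmc : Continuous (fun x => χ x ^ 2 * W x) := (hχc.pow 2).mul hW
  have L3 := sc_limw hmc hms hqk hqk hq hq t1 t1
  have L4 := sc_limw (m := fun x => χ x ^ 2) (hχc.pow 2) hχ2s hqk hgk hq hgL t1 t2
  have h5 := le_of_tendsto_of_tendsto' (L1.const_mul l) ((L2.add L3).sub L4) hineq
  have h6 : ∫ x, (χ x ^ 2 * W x) * (q x * q x) = ∫ x, χ x ^ 2 * (q x * g x) := by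
    refine integral_congr_ae (Eventually.of_forall fun x => ?_)
    simp only
    by_cases hx : x ∈ tsupport χ
    · have hx' : x ∈ Metric.closedBall (0 : Eu n) (R + 1) :=
        Metric.closedBall_subset_closedBall (by linarith) (hR hx)
      rw [hg, Set.indicator_of_mem hx']
      ring
    · rw [image_eq_zero_of_notMem_tsupport hx]; ring
  rw [h6] at h5
  linarith

/-! ### cutoffs -/

private noncomputable def scBump (n : ℕ) : ContDiffBump (0 : Eu n) where
  rIn := 1
  rOut := 2
  rIn_pos := one_pos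
  rIn_lt_rOut := one_lt_two

private noncomputable def scChi (m : ℕ) (x : Eu n) : ℝ := scBump n (((m : ℝ) + 1)⁻¹ • x)

private lemma scChi_TT (m : ℕ) : TT (scChi (n := n) m) := by
  have hne : ((m : ℝ) + 1)⁻¹ ≠ 0 := by positivity
  refine ⟨?_, ?_⟩
  · have h1 : ContDiff ℝ ∞ (fun x : Eu n => ((m : ℝ) + 1)⁻¹ • x) := contDiff_id.const_smul _
    exact (scBump n).contDiff.comp h1
  · exact (scBump n).hasCompactSupport.comp_homeomorph (Homeomorph.smulOfNeZero _ hne)

private lemma scChi_pd (m : ℕ) (j : Fin n) (x : Eu n) :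
    pd j (scChi m) x = ((m : ℝ) + 1)⁻¹ * pd j (scBump n) (((m : ℝ) + 1)⁻¹ • x) := by
  set c : ℝ := ((m : ℝ) + 1)⁻¹ with hc
  have hd : Differentiable ℝ (scBump n) := (scBump n).contDiff.differentiable (n := 1) (by simp)
  have h1 : HasFDerivAt (fun y : Eu n => c • y) (c • (ContinuousLinearMap.id ℝ (Eu n))) x :=
    (hasFDerivAt_id x).const_smul c
  have h2 := ((hd (c • x)).hasFDerivAt).comp x h1
  have h3 : fderiv ℝ (scChi m) x =
      (fderiv ℝ (scBump n) (c • x)).comp (c • (ContinuousLinearMap.id ℝ (Eu n))) := h2.fderiv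
  rw [pd, h3, pd]
  simp

private lemma scChi_tendsto (x : Eu n) : Tendsto (fun m : ℕ => scChi m x) atTop (𝓝 1) := by
  have h1 : ∀ᶠ m : ℕ in atTop, scChi m x = 1 := by
    obtain ⟨N, hN⟩ := exists_nat_ge ‖x‖
    filter_upwards [eventually_ge_atTop N] with m hm
    refine (scBump n).one_of_mem_closedBall ?_
    have h2 : (N : ℝ) ≤ m := by exact_mod_cast hm
    have h3 : (0 : ℝ) < (m : ℝ) + 1 := by positivity
    rw [mem_closedBall_zero_iff, norm_smul, norm_inv, Real.norm_eq_abs, abs_of_pos h3]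
    change ((m : ℝ) + 1)⁻¹ * ‖x‖ ≤ 1
    rw [inv_mul_le_iff₀ h3]
    linarith
  exact (tendsto_congr' h1).2 tendsto_const_nhds

theorem schr {W : Eu n → ℝ} (hW : Continuous W)
    (hpos : ∀ φ : Eu n → ℝ, TT φ → 0 ≤ ∫ x, (∑ j, pd j φ x ^ 2 + W x * φ x ^ 2))
    {l : ℝ} (hl : 0 < l) {q : Eu n → ℝ} (hq : MemLp q 2 volume)
    (h0 : ∀ φ : Eu n → ℝ, TT φ →
      ∫ x, q x * (l * φ x - ∑ j, pd j (pd j φ) x + W x * φ x) = 0) :
    q =ᵐ[volume] 0 := by
  have hq2 : Integrable (fun x => q x * q x) := hq.integrable_mul hq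
  have hbs : TT (scBump n) := ⟨(scBump n).contDiff, (scBump n).hasCompactSupport⟩
  have hbd : ∀ j : Fin n, ∃ C : ℝ, ∀ x, ‖pd j (scBump n) x‖ ≤ C := fun j =>
    (hbs.cs.fderiv_apply ℝ (ej j)).exists_bound_of_continuous (sc_pd_smooth hbs.cd j).continuous
  choose C hC using hbd
  have hA : ∀ (m : ℕ) (x : Eu n), ∑ j, pd j (scChi m) x ^ 2 ≤
      (((m : ℝ) + 1)⁻¹) ^ 2 * ∑ j, C j ^ 2 := by
    intro m x
    rw [Finset.mul_sum]
    refine Finset.sum_le_sum fun j _ => ?_
    rw [scChi_pd, mul_pow]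
    refine mul_le_mul_of_nonneg_left ?_ (sq_nonneg _)
    rw [← sq_abs]
    exact pow_le_pow_left₀ (abs_nonneg _) (hC j _) 2
  have hmain := fun m => sc_main hW hpos hq h0 (scChi_TT (n := n) m)
  have hup : ∀ m : ℕ, ∫ x, (∑ j, pd j (scChi m) x ^ 2) * (q x * q x) ≤
      ((((m : ℝ) + 1)⁻¹) ^ 2 * ∑ j, C j ^ 2) * ∫ x, q x * q x := by
    intro m
    rw [← integral_const_mul]
    refine integral_mono_of_nonneg (Eventually.of_forall fun x => ?_) (hq2.const_mul _)
      (Eventually.of_forall fun x => ?_)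
    · exact mul_nonneg (Finset.sum_nonneg fun j _ => sq_nonneg _) (mul_self_nonneg _)
    · exact mul_le_mul_of_nonneg_right (hA m x) (mul_self_nonneg _)
  have hz : Tendsto (fun m : ℕ => ((((m : ℝ) + 1)⁻¹) ^ 2 * ∑ j, C j ^ 2) * ∫ x, q x * q x) atTop
      (𝓝 0) := by
    have h1 : Tendsto (fun m : ℕ => ((m : ℝ) + 1)⁻¹) atTop (𝓝 0) :=
      tendsto_inv_atTop_zero.comp (tendsto_atTop_add_const_right _ _ tendsto_natCast_atTop_atTop)
    have := ((h1.pow 2).mul_const (∑ j, C j ^ 2)).mul_const (∫ x, q x * q x)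
    simpa using this
  have hlow : Tendsto (fun m : ℕ => l * ∫ x, scChi m x ^ 2 * (q x * q x)) atTop
      (𝓝 (l * ∫ x, q x * q x)) := by
    refine Tendsto.const_mul l ?_
    refine tendsto_integral_of_dominated_convergence (fun x => q x * q x) (fun m => ?_) hq2
      (fun m => Eventually.of_forall fun x => ?_) (Eventually.of_forall fun x => ?_)
    · exact ((scChi_TT m).cd.continuous.pow 2).aestronglyMeasurable.mul hq2.1
    · rw [norm_mul, Real.norm_eq_abs (q x * q x), abs_of_nonneg (mul_self_nonneg _)]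
      have h1 : ‖scChi m x ^ 2‖ ≤ 1 := by
        have h0 : 0 ≤ scChi m x := (scBump n).nonneg
        have h1 : scChi m x ≤ 1 := (scBump n).le_one
        rw [norm_pow, Real.norm_eq_abs, abs_of_nonneg h0]
        exact pow_le_one₀ h0 h1
      nlinarith [mul_self_nonneg (q x)]
    · have := ((scChi_tendsto x).pow 2).mul_const (q x * q x)
      simpa using this
  have h1 : l * ∫ x, q x * q x ≤ 0 :=
    le_of_tendsto_of_tendsto' hlow hz fun m => (hmain m).trans (hup m)
  have h2 : 0 ≤ ∫ x, q x * q x := integral_nonneg fun x => mul_self_nonneg _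
  have h3 : ∫ x, q x * q x = 0 := by nlinarith
  have h4 := (integral_eq_zero_iff_of_nonneg (fun x => mul_self_nonneg (q x)) hq2).1 h3
  filter_upwards [h4] with x hx
  simpa using hx

end Pool.Agent.Lib.MP_6d896a_gt.UC
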