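import Pool.Agent.Lib.MP_6d896a_gt.UC.C2Approx
import Pool.Agent.Lib.MP_6d896a_gt.UC.Schr

/-!
Project UC, piece U3d: the range of `l - L` on test functions has no `L²` annihilator
(ground state transformation and the uniqueness theorem for Schrödinger operators).
-/

set_option autoImplicit false
set_option linter.all false

namespace Pool.Agent.Lib.MP_6d896a_gt.UC

open MeasureTheory Filter Topology Set
open scoped ENNReal NNReal ContDiff

variable {n : ℕ} {V f g u : Eu n → ℝ} {κ Λ S : ℝ} {i j : Fin n}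

private lemma wz_pd_cd {m : ℕ} {f : Eu n → ℝ} (hf : ContDiff ℝ (m + 1 : ℕ) f) (j : Fin n) :
    ContDiff ℝ (m : ℕ) (pd j f) := by
  have h1 : ContDiff ℝ (m : ℕ) (fderiv ℝ f) := hf.fderiv_right (by norm_cast)
  exact h1.clm_apply contDiff_const

private lemma wz_pd_zero {f : Eu n → ℝ} {x : Eu n} (hx : x ∉ tsupport f) (j : Fin n) :
    pd j f x = 0 := by
  have h1 : x ∉ tsupport (fun y => fderiv ℝ f y (ej j)) :=
    fun h => hx (tsupport_fderiv_apply_subset ℝ (ej j) h)
  exact image_eq_zero_of_notMem_tsupport h1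

private lemma wz_tsupport_pd (f : Eu n → ℝ) (j : Fin n) : tsupport (pd j f) ⊆ tsupport f :=
  tsupport_fderiv_apply_subset ℝ (ej j)

private lemma wz_pd_expmul {V φ : Eu n → ℝ} (hV : Differentiable ℝ V) (hφ : Differentiable ℝ φ)
    (j : Fin n) (x : Eu n) :
    pd j (fun x => Real.exp (V x / 2) * φ x) x =
      Real.exp (V x / 2) * (pd j φ x + 1 / 2 * pd j V x * φ x) := by
  have h1 : HasFDerivAt V (fderiv ℝ V x) x := (hV x).hasFDerivAt
  have h2 : HasFDerivAt φ (fderiv ℝ φ x) x := (hφ x).hasFDerivAt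
  have h3 := ((h1.mul_const (1 / 2 : ℝ)).exp).mul h2
  have e : (fun x => Real.exp (V x / 2) * φ x) = fun x => Real.exp (V x * (1 / 2)) * φ x := by
    funext y; rw [div_eq_mul_one_div (V y)]
  have h4 : HasFDerivAt (fun x => Real.exp (V x * (1 / 2)) * φ x) _ x := h3
  rw [pd, e, h4.fderiv]
  simp only [ContinuousLinearMap.add_apply, ContinuousLinearMap.smul_apply, smul_eq_mul, pd]
  rw [div_eq_mul_one_div (V x)]
  ring

private lemma wz_pd_smul_add {V φ : Eu n → ℝ} (hφ1 : Differentiable ℝ (pd j φ))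
    (hV1 : Differentiable ℝ (pd j V)) (hφ : Differentiable ℝ φ) (x : Eu n) :
    pd j (fun x => pd j φ x + 1 / 2 * pd j V x * φ x) x =
      pd j (pd j φ) x + 1 / 2 * (pd j (pd j V) x * φ x + pd j V x * pd j φ x) := by
  have h1 : HasFDerivAt (pd j φ) (fderiv ℝ (pd j φ) x) x := (hφ1 x).hasFDerivAt
  have h2 : HasFDerivAt (pd j V) (fderiv ℝ (pd j V) x) x := (hV1 x).hasFDerivAt
  have h3 : HasFDerivAt φ (fderiv ℝ φ x) x := (hφ x).hasFDerivAt
  have h4 := h1.add ((h2.const_mul (1 / 2 : ℝ)).mul h3)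
  have h5 : HasFDerivAt (fun x => pd j φ x + 1 / 2 * pd j V x * φ x) _ x := h4
  rw [pd, h5.fderiv]
  simp only [ContinuousLinearMap.add_apply, ContinuousLinearMap.smul_apply, smul_eq_mul]
  show _ = fderiv ℝ (pd j φ) x (ej j) + 1 / 2 * (fderiv ℝ (pd j V) x (ej j) * φ x +
    pd j V x * fderiv ℝ φ x (ej j))
  ring

/-- the potential -/
private noncomputable def wzW (V : Eu n → ℝ) (x : Eu n) : ℝ :=
  1 / 4 * ∑ j, pd j V x ^ 2 - 1 / 2 * ∑ j, pd j (pd j V) x

private lemma wz_W_cont (hV : ContDiff ℝ 2 V) : Continuous (wzW V) := by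
  have h1 : ∀ j : Fin n, ContDiff ℝ (1 : ℕ) (pd j V) := fun j =>
    wz_pd_cd (m := 1) (by exact_mod_cast hV) j
  have h2 : ∀ j : Fin n, ContDiff ℝ (0 : ℕ) (pd j (pd j V)) := fun j =>
    wz_pd_cd (m := 0) (by exact_mod_cast (h1 j)) j
  unfold wzW
  refine (continuous_const.mul (continuous_finsetSum _ fun j _ => (h1 j).continuous.pow 2)).sub
    (continuous_const.mul (continuous_finsetSum _ fun j _ => (h2 j).continuous))

/-- ground state transformation -/
private lemma wz_LL (hV : ContDiff ℝ 2 V) {φ : Eu n → ℝ} (hφ : TT φ) (x : Eu n) :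
    LL V (fun x => Real.exp (V x / 2) * φ x) x =
      Real.exp (V x / 2) * (∑ j, pd j (pd j φ) x - wzW V x * φ x) := by
  have h1 : ∀ j : Fin n, ContDiff ℝ (1 : ℕ) (pd j V) := fun j =>
    wz_pd_cd (m := 1) (by exact_mod_cast hV) j
  have hVd : Differentiable ℝ V := hV.differentiable (by norm_num)
  have hφ2 : ContDiff ℝ (2 : ℕ) φ := contDiff_infty.1 hφ.cd 2
  have hφd : Differentiable ℝ φ := hφ2.differentiable (by norm_num)
  have hφ1 : ∀ j : Fin n, ContDiff ℝ (1 : ℕ) (pd j φ) := fun j =>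
    wz_pd_cd (m := 1) (by exact_mod_cast hφ2) j
  have hd1 : ∀ j : Fin n, Differentiable ℝ (pd j V) := fun j => (h1 j).differentiable (by norm_num)
  have hd2 : ∀ j : Fin n, Differentiable ℝ (pd j φ) := fun j => (hφ1 j).differentiable (by norm_num)
  have e1 : ∀ j : Fin n, pd j (fun x => Real.exp (V x / 2) * φ x) =
      fun x => Real.exp (V x / 2) * (pd j φ x + 1 / 2 * pd j V x * φ x) := fun j =>
    funext fun x => wz_pd_expmul hVd hφd j x
  have hd3 : ∀ j : Fin n, Differentiable ℝ (fun x => pd j φ x + 1 / 2 * pd j V x * φ x) := fun j =>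
    (hd2 j).add (((hd1 j).const_mul (1 / 2)).mul hφd)
  have e2 : ∀ j : Fin n, pd j (pd j (fun x => Real.exp (V x / 2) * φ x)) x =
      Real.exp (V x / 2) * ((pd j (pd j φ) x + 1 / 2 * (pd j (pd j V) x * φ x +
        pd j V x * pd j φ x)) + 1 / 2 * pd j V x * (pd j φ x + 1 / 2 * pd j V x * φ x)) := by
    intro j
    rw [e1 j, wz_pd_expmul hVd (hd3 j) j x, wz_pd_smul_add (hd2 j) (hd1 j) hφd]
  unfold LL wzW
  rw [Finset.sum_congr rfl fun j _ => e2 j,
    Finset.sum_congr rfl fun j _ => congrArg (fun t => pd j V x * t) (congrFun (e1 j) x)]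
  rw [← Finset.sum_sub_distrib]
  have e3 : ∀ j : Fin n, Real.exp (V x / 2) * ((pd j (pd j φ) x + 1 / 2 * (pd j (pd j V) x * φ x +
        pd j V x * pd j φ x)) + 1 / 2 * pd j V x * (pd j φ x + 1 / 2 * pd j V x * φ x)) -
      pd j V x * (Real.exp (V x / 2) * (pd j φ x + 1 / 2 * pd j V x * φ x)) =
      Real.exp (V x / 2) * pd j (pd j φ) x - Real.exp (V x / 2) * φ x * (1 / 4) * pd j V x ^ 2 +
        Real.exp (V x / 2) * φ x * (1 / 2) * pd j (pd j V) x := by
    intro j; ring
  rw [Finset.sum_congr rfl fun j _ => e3 j, Finset.sum_add_distrib, Finset.sum_sub_distrib,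
    ← Finset.mul_sum, ← Finset.mul_sum, ← Finset.mul_sum]
  ring

private lemma wz_pos (hV : ContDiff ℝ 2 V) {φ : Eu n → ℝ} (hφ : TT φ) :
    0 ≤ ∫ x, (∑ j, pd j φ x ^ 2 + wzW V x * φ x ^ 2) := by
  have h1 : ∀ j : Fin n, ContDiff ℝ (1 : ℕ) (pd j V) := fun j =>
    wz_pd_cd (m := 1) (by exact_mod_cast hV) j
  have h2 : ∀ j : Fin n, ContDiff ℝ (0 : ℕ) (pd j (pd j V)) := fun j =>
    wz_pd_cd (m := 0) (by exact_mod_cast (h1 j)) j
  have hφ2 : ContDiff ℝ (2 : ℕ) φ := contDiff_infty.1 hφ.cd 2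
  have hφd : Differentiable ℝ φ := hφ2.differentiable (by norm_num)
  have hφ1 : ∀ j : Fin n, ContDiff ℝ (1 : ℕ) (pd j φ) := fun j =>
    wz_pd_cd (m := 1) (by exact_mod_cast hφ2) j
  have hd1 : ∀ j : Fin n, Differentiable ℝ (pd j V) := fun j => (h1 j).differentiable (by norm_num)
  -- integrability of continuous functions with compact support of the form `h * φ`
  have hint : ∀ h : Eu n → ℝ, Continuous h → Integrable (fun x => h x * φ x) := fun h hh =>
    (hh.mul hφ.cd.continuous).integrable_of_hasCompactSupport hφ.cs.mul_left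
  have hsq : HasCompactSupport (fun x => φ x ^ 2) := by
    have : (fun x => φ x ^ 2) = fun x => φ x * φ x := funext fun x => sq (φ x)
    rw [this]; exact hφ.cs.mul_left
  -- integration by parts
  have hibp : ∀ j : Fin n, ∫ x, pd j V x * (2 * φ x * pd j φ x) =
      - ∫ x, pd j (pd j V) x * φ x ^ 2 := by
    intro j
    have hder : ∀ x, fderiv ℝ (fun x => φ x ^ 2) x (ej j) = 2 * φ x * pd j φ x := by
      intro x
      have h3 : HasFDerivAt (fun x => φ x ^ 2) _ x := ((hφd x).hasFDerivAt).pow 2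
      rw [h3.fderiv]
      simp [pd]
    have := integral_mul_fderiv_eq_neg_fderiv_mul_of_integrable (μ := (volume : Measure (Eu n)))
      (f := pd j V) (g := fun x => φ x ^ 2) (v := ej j)
      (by
        have h3 := hint (fun x => pd j (pd j V) x * φ x)
          ((h2 j).continuous.mul hφ.cd.continuous)
        refine h3.congr (Eventually.of_forall fun x => ?_)
        simp only [pd]; ring)
      (by
        have h3 := hint (fun x => pd j V x * (2 * pd j φ x))
          ((h1 j).continuous.mul (continuous_const.mul (hφ1 j).continuous))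
        refine h3.congr (Eventually.of_forall fun x => ?_)
        simp only [hder]; ring)
      (by
        have h3 := hint (fun x => pd j V x * φ x) ((h1 j).continuous.mul hφ.cd.continuous)
        refine h3.congr (Eventually.of_forall fun x => ?_)
        dsimp only; ring)
      (fun x _ => hd1 j x) (fun x _ => (hφd x).pow 2)
    simp only [hder] at this
    exact this
  -- completion of the square
  have hi1 : ∀ j : Fin n, Integrable (fun x => pd j φ x ^ 2) := by
    intro j
    have hc : HasCompactSupport (pd j φ) := hφ.cs.of_isClosed_subset (isClosed_tsupport _)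
      (wz_tsupport_pd φ j)
    have h3 : Integrable (fun x => pd j φ x * pd j φ x) :=
      ((hφ1 j).continuous.mul (hφ1 j).continuous).integrable_of_hasCompactSupport hc.mul_left
    exact h3.congr (Eventually.of_forall fun x => (sq _).symm)
  have hi2 : ∀ j : Fin n, Integrable (fun x => pd j V x * (2 * φ x * pd j φ x)) := by
    intro j
    have h3 := hint (fun x => pd j V x * (2 * pd j φ x))
      ((h1 j).continuous.mul (continuous_const.mul (hφ1 j).continuous))
    refine h3.congr (Eventually.of_forall fun x => ?_)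
    dsimp only; ring
  have hi3 : ∀ j : Fin n, Integrable (fun x => pd j (pd j V) x * φ x ^ 2) := by
    intro j
    have h3 := hint (fun x => pd j (pd j V) x * φ x)
      ((h2 j).continuous.mul hφ.cd.continuous)
    refine h3.congr (Eventually.of_forall fun x => ?_)
    dsimp only; ring
  have hi4 : ∀ j : Fin n, Integrable (fun x => pd j V x ^ 2 * φ x ^ 2) := by
    intro j
    have h3 := hint (fun x => pd j V x ^ 2 * φ x)
      (((h1 j).continuous.pow 2).mul hφ.cd.continuous)
    refine h3.congr (Eventually.of_forall fun x => ?_)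
    dsimp only; ring
  have e1 : ∀ x, (∑ j, pd j φ x ^ 2 + wzW V x * φ x ^ 2) =
      ∑ j, (pd j φ x ^ 2 + 1 / 4 * (pd j V x ^ 2 * φ x ^ 2) -
        1 / 2 * (pd j (pd j V) x * φ x ^ 2)) := by
    intro x
    rw [Finset.sum_sub_distrib, Finset.sum_add_distrib, ← Finset.mul_sum, ← Finset.mul_sum,
      ← Finset.sum_mul, ← Finset.sum_mul, wzW]
    ring
  have hi5 : ∀ j : Fin n, Integrable (fun x => pd j φ x ^ 2 + 1 / 4 * (pd j V x ^ 2 * φ x ^ 2) -
        1 / 2 * (pd j (pd j V) x * φ x ^ 2)) := fun j =>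
    ((hi1 j).add ((hi4 j).const_mul _)).sub ((hi3 j).const_mul _)
  simp only [e1]
  rw [integral_finsetSum _ fun j _ => hi5 j]
  refine Finset.sum_nonneg fun j _ => ?_
  have e2 : ∫ x, (pd j φ x ^ 2 + 1 / 4 * (pd j V x ^ 2 * φ x ^ 2) -
        1 / 2 * (pd j (pd j V) x * φ x ^ 2)) =
      ∫ x, (pd j φ x ^ 2 + 1 / 4 * (pd j V x ^ 2 * φ x ^ 2) +
        1 / 2 * (pd j V x * (2 * φ x * pd j φ x))) := by
    have ha : Integrable (fun x => pd j φ x ^ 2 + 1 / 4 * (pd j V x ^ 2 * φ x ^ 2)) :=
      (hi1 j).add ((hi4 j).const_mul _)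
    rw [integral_sub ha ((hi3 j).const_mul _), integral_add ha ((hi2 j).const_mul _),
      integral_const_mul, integral_const_mul, hibp j]
    ring
  rw [e2]
  refine integral_nonneg fun x => ?_
  have : (pd j φ x ^ 2 + 1 / 4 * (pd j V x ^ 2 * φ x ^ 2) +
        1 / 2 * (pd j V x * (2 * φ x * pd j φ x))) = (pd j φ x + 1 / 2 * pd j V x * φ x) ^ 2 := by
    ring
  show 0 ≤ _
  rw [this]
  positivity

private lemma wz_D_cont (hV : ContDiff ℝ 1 V) {ψ : Eu n → ℝ} (hψ : ContDiff ℝ 2 ψ) (l : ℝ) :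
    Continuous (fun x => l * ψ x - LL V ψ x) := by
  have h1 : ∀ j : Fin n, ContDiff ℝ (1 : ℕ) (pd j ψ) := fun j =>
    wz_pd_cd (m := 1) (by exact_mod_cast hψ) j
  have h2 : ∀ j : Fin n, ContDiff ℝ (0 : ℕ) (pd j (pd j ψ)) := fun j =>
    wz_pd_cd (m := 0) (by exact_mod_cast (h1 j)) j
  have h3 : ∀ j : Fin n, ContDiff ℝ (0 : ℕ) (pd j V) := fun j =>
    wz_pd_cd (m := 0) (by exact_mod_cast hV) j
  unfold LL
  refine (continuous_const.mul hψ.continuous).sub ?_
  refine (continuous_finsetSum _ fun j _ => (h2 j).continuous).sub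
    (continuous_finsetSum _ fun j _ => (h3 j).continuous.mul (h1 j).continuous)

private lemma wz_D_zero {V ψ : Eu n → ℝ} (l : ℝ) {x : Eu n} (hx : x ∉ tsupport ψ) :
    l * ψ x - LL V ψ x = 0 := by
  have h0 : ψ x = 0 := image_eq_zero_of_notMem_tsupport hx
  have h1 : ∀ j : Fin n, pd j ψ x = 0 := fun j => wz_pd_zero hx j
  have h2 : ∀ j : Fin n, pd j (pd j ψ) x = 0 := fun j =>
    wz_pd_zero (fun h => hx (wz_tsupport_pd ψ j h)) j
  simp [LL, h0, h1, h2]

theorem weak_zero (hV : ContDiff ℝ 2 V) {l : ℝ} (hl : 0 < l) {f : Eu n → ℝ}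
    (hf : MemLp (fun x => f x * Real.exp (-V x / 2)) 2 volume)
    (h0 : ∀ φ : Eu n → ℝ, TT φ → ∫ x, f x * (l * φ x - LL V φ x) * Real.exp (-V x) = 0) :
    f =ᵐ[volume] 0 := by
  have hV1 : ContDiff ℝ 1 V := hV.of_le (by norm_num)
  have hVc : Continuous V := hV.continuous
  set q : Eu n → ℝ := fun x => f x * Real.exp (-V x / 2) with hq
  -- extension to `C²` functions
  have hC2 : ∀ ψ : Eu n → ℝ, ContDiff ℝ 2 ψ → HasCompactSupport ψ →
      ∫ x, f x * (l * ψ x - LL V ψ x) * Real.exp (-V x) = 0 := by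
    intro ψ hψ hc
    have hmem : ∀ χ : Eu n → ℝ, ContDiff ℝ 2 χ → HasCompactSupport χ →
        MemLp (fun x => (l * χ x - LL V χ x) * Real.exp (-V x / 2)) 2 volume := by
      intro χ hχ hcχ
      refine Continuous.memLp_of_hasCompactSupport
        ((wz_D_cont hV1 hχ l).mul (Real.continuous_exp.comp (hVc.neg.div_const 2))) ?_
      refine HasCompactSupport.intro hcχ fun x hx => ?_
      rw [wz_D_zero l hx, zero_mul]
    have hA0 : 0 ≤ ∫ x, q x ^ 2 := integral_nonneg fun x => sq_nonneg _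
    set A : ℝ := ∫ x, q x ^ 2 with hA
    have hbound : ∀ δ : ℝ, 0 < δ →
        |∫ x, f x * (l * ψ x - LL V ψ x) * Real.exp (-V x)| ≤ δ * (A + 1) := by
      intro δ hδ
      obtain ⟨φ, hφ, hφe⟩ := c2_approx hV1 l hψ hc (ε := δ ^ 2) (by positivity)
      have hφ2 : ContDiff ℝ 2 φ := by exact_mod_cast contDiff_infty.1 hφ.cd 2
      set r : Eu n → ℝ := fun x => (l * ψ x - LL V ψ x) * Real.exp (-V x / 2) -
        (l * φ x - LL V φ x) * Real.exp (-V x / 2) with hr
      have hrm : MemLp r 2 volume := (hmem ψ hψ hc).sub (hmem φ hφ2 hφ.cs)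
      have hi1 : Integrable (fun x => q x * ((l * ψ x - LL V ψ x) * Real.exp (-V x / 2))) :=
        hf.integrable_mul (hmem ψ hψ hc)
      have hi2 : Integrable (fun x => q x * ((l * φ x - LL V φ x) * Real.exp (-V x / 2))) :=
        hf.integrable_mul (hmem φ hφ2 hφ.cs)
      have hexp : ∀ x, Real.exp (-V x) = Real.exp (-V x / 2) * Real.exp (-V x / 2) := by
        intro x; rw [← Real.exp_add]; ring_nf
      have e1 : ∫ x, f x * (l * ψ x - LL V ψ x) * Real.exp (-V x) = ∫ x, q x * r x := by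
        have e2 : ∫ x, q x * r x =
            (∫ x, q x * ((l * ψ x - LL V ψ x) * Real.exp (-V x / 2))) -
            ∫ x, q x * ((l * φ x - LL V φ x) * Real.exp (-V x / 2)) := by
          rw [← integral_sub hi1 hi2]
          refine integral_congr_ae (Eventually.of_forall fun x => ?_)
          simp only [hr]; ring
        have e3 : ∫ x, q x * ((l * φ x - LL V φ x) * Real.exp (-V x / 2)) = 0 := by
          rw [← h0 φ hφ]
          refine integral_congr_ae (Eventually.of_forall fun x => ?_)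
          simp only [hq]; rw [hexp x]; ring
        rw [e2, e3, sub_zero]
        refine integral_congr_ae (Eventually.of_forall fun x => ?_)
        simp only [hq]; rw [hexp x]; ring
      have hr2 : ∫ x, r x ^ 2 ≤ δ ^ 2 := by
        refine le_trans (le_of_eq ?_) hφe
        rw [Ex]
        refine integral_congr_ae (Eventually.of_forall fun x => ?_)
        simp only [hr]; rw [hexp x]; ring
      have hq2i : Integrable (fun x => q x ^ 2) := hf.integrable_sq
      have hr2i : Integrable (fun x => r x ^ 2) := hrm.integrable_sq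
      have hbd : ∀ s : ℝ, (s = 1 ∨ s = -1) → s * ∫ x, q x * r x ≤ δ * (A + 1) := by
        intro s hs
        have h3 : ∫ x, s * (q x * r x) ≤ ∫ x, (δ * q x ^ 2 + δ⁻¹ * r x ^ 2) := by
          refine integral_mono ((hf.integrable_mul hrm).const_mul s)
            ((hq2i.const_mul δ).add (hr2i.const_mul δ⁻¹)) fun x => ?_
          have h4 : 0 ≤ (δ * q x - s * r x) ^ 2 + (δ * q x) ^ 2 + (s * r x) ^ 2 := by positivity
          have h5 : s ^ 2 = 1 := by rcases hs with rfl | rfl <;> norm_num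
          have h6 : s * (q x * r x) * δ ≤ (δ * q x ^ 2 + δ⁻¹ * r x ^ 2) * δ := by
            have h7 : (δ * q x ^ 2 + δ⁻¹ * r x ^ 2) * δ = δ ^ 2 * q x ^ 2 + r x ^ 2 := by
              field_simp
            rw [h7]
            nlinarith
          exact le_of_mul_le_mul_right h6 hδ
        rw [integral_const_mul] at h3
        refine h3.trans ?_
        rw [integral_add (hq2i.const_mul δ) (hr2i.const_mul δ⁻¹), integral_const_mul,
          integral_const_mul]
        have h4 : δ⁻¹ * ∫ x, r x ^ 2 ≤ δ⁻¹ * δ ^ 2 :=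
          mul_le_mul_of_nonneg_left hr2 (by positivity)
        have h5 : δ⁻¹ * δ ^ 2 = δ := by field_simp
        rw [mul_add, mul_one]
        linarith
      rw [e1, abs_le]
      constructor
      · have := hbd (-1) (Or.inr rfl); linarith
      · have := hbd 1 (Or.inl rfl); linarith
    have hz : |∫ x, f x * (l * ψ x - LL V ψ x) * Real.exp (-V x)| ≤ 0 := by
      refine le_of_forall_pos_le_add fun ε hε => ?_
      have := hbound (ε / (A + 1)) (by positivity)
      have h3 : ε / (A + 1) * (A + 1) = ε := by field_simp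
      rw [h3] at this
      linarith
    exact abs_nonpos_iff.1 hz
  -- the Schroedinger operator
  have key : q =ᵐ[volume] 0 := by
    refine schr (wz_W_cont hV) (fun φ hφ => wz_pos hV hφ) hl hf fun φ hφ => ?_
    have hφ2 : ContDiff ℝ 2 φ := by exact_mod_cast contDiff_infty.1 hφ.cd 2
    have hψ : ContDiff ℝ 2 (fun x => Real.exp (V x / 2) * φ x) :=
      (Real.contDiff_exp.comp (hV.div_const 2)).mul hφ2
    have h1 := hC2 _ hψ hφ.cs.mul_left
    rw [← h1]
    refine integral_congr_ae (Eventually.of_forall fun x => ?_)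
    dsimp only
    rw [wz_LL hV hφ x]
    simp only [hq]
    have hexp : Real.exp (-V x / 2) = Real.exp (V x / 2) * Real.exp (-V x) := by
      rw [← Real.exp_add]; ring_nf
    rw [hexp]
    ring
  filter_upwards [key] with x hx
  have h1 : f x * Real.exp (-V x / 2) = 0 := hx
  rcases mul_eq_zero.1 h1 with h2 | h2
  · exact h2
  · exact absurd h2 (Real.exp_pos _).ne'

end Pool.Agent.Lib.MP_6d896a_gt.UC
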