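import Mathlib
import Pool.Agent.Lib.MP_6d896a_gt.UC.Defs
import Pool.Agent.Lib.MP_6d896a_gt.UC.Basic
import Pool.Agent.Lib.MP_6d896a_gt.UC.WeakZero

/-!
Density of the range of `l - L` on test functions, in `L²(e^{-V} dx)`.
-/

set_option autoImplicit false
set_option linter.all false

namespace Pool.Agent.Lib.MP_6d896a_gt.UC

open MeasureTheory Filter Topology Set ProbabilityTheory
open scoped ENNReal NNReal ContDiff

variable {n : ℕ} {V f g u v : Eu n → ℝ} {κ Λ S : ℝ} {i j : Fin n}

lemma esa_LL_add (V : Eu n → ℝ) (hu : TT u) (hv : TT v) (x : Eu n) :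
    LL V (fun x => u x + v x) x = LL V u x + LL V v x := by
  unfold LL
  have h1 : ∀ j, pd j (fun x => u x + v x) = fun x => pd j u x + pd j v x := fun j =>
    funext fun x => pd_add hu.differentiable hv.differentiable j x
  have h2 : ∀ j, pd j (pd j (fun x => u x + v x)) x = pd j (pd j u) x + pd j (pd j v) x := by
    intro j
    rw [h1]
    exact pd_add (hu.pd j).differentiable (hv.pd j).differentiable j x
  have h3 : ∀ j, pd j (fun x => u x + v x) x = pd j u x + pd j v x := fun j => by rw [h1]
  simp_rw [h2, h3, mul_add]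
  rw [Finset.sum_add_distrib, Finset.sum_add_distrib]
  ring

lemma esa_LL_const_mul (V : Eu n → ℝ) (hu : TT u) (c : ℝ) (x : Eu n) :
    LL V (fun x => c * u x) x = c * LL V u x := by
  unfold LL
  have h1 : ∀ j, pd j (fun x => c * u x) = fun x => c * pd j u x := fun j =>
    funext fun x => pd_const_mul hu.differentiable c j x
  have h2 : ∀ j, pd j (pd j (fun x => c * u x)) x = c * pd j (pd j u) x := by
    intro j
    rw [h1]
    exact pd_const_mul (hu.pd j).differentiable c j x
  have h3 : ∀ j, pd j (fun x => c * u x) x = c * pd j u x := fun j => by rw [h1]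
  simp_rw [h2, h3]
  rw [mul_sub, Finset.mul_sum, Finset.mul_sum]
  congr 1
  refine Finset.sum_congr rfl fun j _ => ?_
  ring

lemma esa_LL_cont (hV : ContDiff ℝ 1 V) (hf : TT f) : Continuous (LL V f) := by
  unfold LL
  refine Continuous.sub ?_ ?_
  · exact continuous_finsetSum _ fun j _ => ((hf.pd j).pd j).continuous
  · refine continuous_finsetSum _ fun j _ => Continuous.mul ?_ (hf.pd j).continuous
    exact (hV.continuous_fderiv (by norm_num)).clm_apply continuous_const

lemma esa_LL_cs (V : Eu n → ℝ) (hf : TT f) : HasCompactSupport (LL V f) := by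
  refine HasCompactSupport.intro (K := (⋃ j, tsupport (pd j f)) ∪ ⋃ j, tsupport (pd j (pd j f)))
    ((isCompact_iUnion fun j => (hf.pd j).cs.isCompact).union
      (isCompact_iUnion fun j => ((hf.pd j).pd j).cs.isCompact)) ?_
  intro x hx
  simp only [mem_union, mem_iUnion, not_or, not_exists] at hx
  unfold LL
  have h1 : ∀ j, pd j f x = 0 := fun j => image_eq_zero_of_notMem_tsupport (hx.1 j)
  have h2 : ∀ j, pd j (pd j f) x = 0 := fun j => image_eq_zero_of_notMem_tsupport (hx.2 j)
  simp [h1, h2]

/-- the residual, with the square root of the weight -/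
noncomputable def esaR (V : Eu n → ℝ) (l : ℝ) (u : Eu n → ℝ) (x : Eu n) : ℝ :=
  (l * u x - LL V u x) * Real.exp (-V x / 2)

lemma esaR_cont (hV : ContDiff ℝ 1 V) (l : ℝ) (hu : TT u) : Continuous (esaR V l u) := by
  unfold esaR
  refine Continuous.mul ((continuous_const.mul hu.continuous).sub (esa_LL_cont hV hu)) ?_
  exact Real.continuous_exp.comp (hV.continuous.neg.div_const 2)

lemma esaR_cs (V : Eu n → ℝ) (l : ℝ) (hu : TT u) : HasCompactSupport (esaR V l u) := by
  refine HasCompactSupport.intro (K := tsupport u ∪ tsupport (LL V u))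
    (hu.cs.isCompact.union (esa_LL_cs V hu).isCompact) ?_
  intro x hx
  simp only [mem_union, not_or] at hx
  unfold esaR
  rw [image_eq_zero_of_notMem_tsupport hx.1, image_eq_zero_of_notMem_tsupport hx.2]
  simp

lemma esaR_memLp (hV : ContDiff ℝ 1 V) (l : ℝ) (hu : TT u) : MemLp (esaR V l u) 2 volume :=
  (esaR_cont hV l hu).memLp_of_hasCompactSupport (esaR_cs V l hu)

lemma esaR_add (V : Eu n → ℝ) (l : ℝ) (hu : TT u) (hv : TT v) (x : Eu n) :
    esaR V l (fun x => u x + v x) x = esaR V l u x + esaR V l v x := by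
  unfold esaR
  rw [esa_LL_add V hu hv]
  ring

lemma esaR_const_mul (V : Eu n → ℝ) (l : ℝ) (hu : TT u) (c : ℝ) (x : Eu n) :
    esaR V l (fun x => c * u x) x = c * esaR V l u x := by
  unfold esaR
  rw [esa_LL_const_mul V hu]
  ring

lemma esa_TT_zero : TT (fun _ : Eu n => (0 : ℝ)) := ⟨contDiff_const, HasCompactSupport.zero⟩

/-- the range of `l - L` on test functions -/
noncomputable def esaK (V : Eu n → ℝ) (l : ℝ) : Submodule ℝ (Lp ℝ 2 (volume : Measure (Eu n))) where
  carrier := {h | ∃ u, TT u ∧ h =ᵐ[volume] esaR V l u}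
  add_mem' := by
    rintro a b ⟨u, hu, ha⟩ ⟨v, hv, hb⟩
    refine ⟨_, hu.add hv, ?_⟩
    filter_upwards [Lp.coeFn_add a b, ha, hb] with x h1 h2 h3
    rw [h1, esaR_add V l hu hv, Pi.add_apply, h2, h3]
  zero_mem' := by
    refine ⟨_, esa_TT_zero, ?_⟩
    filter_upwards [Lp.coeFn_zero ℝ 2 (volume : Measure (Eu n))] with x h1
    rw [h1]
    have := esaR_const_mul V l (esa_TT_zero (n := n)) 0 x
    simp only [mul_zero, zero_mul] at this
    rw [this]
    rfl
  smul_mem' := by
    rintro c a ⟨u, hu, ha⟩
    refine ⟨_, hu.const_mul c, ?_⟩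
    filter_upwards [Lp.coeFn_smul c a, ha] with x h1 h2
    rw [h1, esaR_const_mul V l hu, Pi.smul_apply, h2, smul_eq_mul]

lemma esaK_orth (hV : ContDiff ℝ 2 V) {l : ℝ} (hl : 0 < l) : (esaK V l)ᗮ = ⊥ := by
  have hV1 : ContDiff ℝ 1 V := hV.of_le (by norm_num)
  rw [Submodule.eq_bot_iff]
  intro q hq
  rw [Submodule.mem_orthogonal] at hq
  have hee : ∀ x, q x * Real.exp (V x / 2) * Real.exp (-V x / 2) = q x := by
    intro x
    rw [mul_assoc, ← Real.exp_add]
    have : V x / 2 + -V x / 2 = 0 := by ring
    rw [this, Real.exp_zero, mul_one]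
  have h1 : (fun x => q x * Real.exp (V x / 2)) =ᵐ[volume] 0 := by
    refine weak_zero (V := V) hV hl ?_ ?_
    · have : (fun x => (fun x => q x * Real.exp (V x / 2)) x * Real.exp (-V x / 2)) = q :=
        funext hee
      rw [this]
      exact Lp.memLp q
    · intro φ hφ
      have hm := esaR_memLp hV1 l hφ
      have h2 := hq (hm.toLp _) ⟨φ, hφ, hm.coeFn_toLp⟩
      rw [L2.inner_def] at h2
      rw [← h2]
      refine integral_congr_ae ?_
      filter_upwards [hm.coeFn_toLp] with x hx
      rw [hx]
      simp only [RCLike.inner_apply, conj_trivial]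
      unfold esaR
      have : Real.exp (V x / 2) * Real.exp (-V x) = Real.exp (-V x / 2) := by
        rw [← Real.exp_add]
        congr 1
        ring
      rw [← this]
      ring
  refine (Lp.eq_zero_iff_ae_eq_zero).2 ?_
  filter_upwards [h1] with x hx
  have := hee x
  simp only [Pi.zero_apply] at hx ⊢
  rw [hx, zero_mul] at this
  exact this.symm

/-- density of the range of `l - L` on test functions -/
theorem esa (hV : ContDiff ℝ 2 V) {l : ℝ} (hl : 0 < l) (hg : TT g) {ε : ℝ} (hε : 0 < ε) :
    ∃ u : Eu n → ℝ, TT u ∧ Ex V (fun x => (l * u x - LL V u x - g x) ^ 2) ≤ ε := by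
  have hV1 : ContDiff ℝ 1 V := hV.of_le (by norm_num)
  have htop : (esaK V l).topologicalClosure = ⊤ :=
    (Submodule.topologicalClosure_eq_top_iff).2 (esaK_orth hV hl)
  have hGc : Continuous (fun x => g x * Real.exp (-V x / 2)) :=
    hg.continuous.mul (Real.continuous_exp.comp (hV1.continuous.neg.div_const 2))
  have hGs : HasCompactSupport (fun x => g x * Real.exp (-V x / 2)) := hg.cs.mul_right
  have hGm : MemLp (fun x => g x * Real.exp (-V x / 2)) 2 volume :=
    hGc.memLp_of_hasCompactSupport hGs
  have hmem : hGm.toLp _ ∈ closure (esaK V l : Set (Lp ℝ 2 (volume : Measure (Eu n)))) := by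
    rw [← Submodule.topologicalClosure_coe, htop]
    trivial
  obtain ⟨h, ⟨u, hu, hh⟩, hd⟩ := Metric.mem_closure_iff.1 hmem (Real.sqrt ε) (Real.sqrt_pos.2 hε)
  refine ⟨u, hu, ?_⟩
  have h1 : ‖hGm.toLp _ - h‖ ^ 2 ≤ ε := by
    rw [dist_eq_norm] at hd
    calc ‖hGm.toLp _ - h‖ ^ 2 ≤ Real.sqrt ε ^ 2 :=
          pow_le_pow_left₀ (norm_nonneg _) hd.le 2
      _ = ε := Real.sq_sqrt hε.le
  rw [← real_inner_self_eq_norm_sq, L2.inner_def] at h1
  refine le_trans (le_of_eq ?_) h1
  unfold Ex
  refine integral_congr_ae ?_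
  filter_upwards [hGm.coeFn_toLp, hh, Lp.coeFn_sub (hGm.toLp _) h] with x h2 h3 h4
  rw [h4]
  simp only [RCLike.inner_apply, conj_trivial, Pi.sub_apply]
  rw [h2, h3]
  unfold esaR
  have : Real.exp (-V x) = Real.exp (-V x / 2) * Real.exp (-V x / 2) := by
    rw [← Real.exp_add]
    congr 1
    ring
  rw [this]
  ring

lemma esa_pd_neg (f : Eu n → ℝ) (i : Fin n) (x : Eu n) :
    pd i (fun x => - f x) x = - pd i f x := by
  unfold pd
  rw [fderiv_fun_neg]
  rfl

/-- the generator commutes with the reflections -/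
lemma esa_LL_comp_Rf (hV : Differentiable ℝ V) (hVe : Ev V) (hf : TT f) (i : Fin n) (x : Eu n) :
    LL V (fun x => f (Rf i x)) x = LL V f (Rf i x) := by
  have hV' : ∀ j, pd j V x = (if j = i then -1 else 1) * pd j V (Rf i x) := by
    intro j
    have h := pd_comp_Rf hV i j x
    have h2 : (fun x => V (Rf i x)) = V := funext fun x => hVe i x
    rwa [h2] at h
  have h1 : ∀ j, pd j (fun x => f (Rf i x)) =
      fun x => (if j = i then (-1 : ℝ) else 1) * pd j f (Rf i x) := fun j =>
    funext fun x => pd_comp_Rf hf.differentiable i j x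
  have h2 : ∀ j, pd j (pd j (fun x => f (Rf i x))) x = pd j (pd j f) (Rf i x) := by
    intro j
    rw [h1, pd_const_mul ((hf.pd j).comp_Rf i).differentiable,
      pd_comp_Rf (hf.pd j).differentiable i j x]
    split_ifs <;> ring
  unfold LL
  congr 1
  · exact Finset.sum_congr rfl fun j _ => h2 j
  · refine Finset.sum_congr rfl fun j _ => ?_
    rw [h1, hV']
    dsimp only
    split_ifs <;> ring

/-- the same, in the class of even functions -/
theorem esa_even (hV : ContDiff ℝ 2 V) (hVe : Ev V) {l : ℝ} (hl : 0 < l) (hg : TT g) (hge : Ev g)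
    {ε : ℝ} (hε : 0 < ε) :
    ∃ u : Eu n → ℝ, TT u ∧ Ev u ∧ Ex V (fun x => (l * u x - LL V u x - g x) ^ 2) ≤ ε := by
  have hV1 : ContDiff ℝ 1 V := hV.of_le (by norm_num)
  have key : ∀ s : Finset (Fin n), ∃ u : Eu n → ℝ, TT u ∧ (∀ i ∈ s, ∀ x, u (Rf i x) = u x) ∧
      Ex V (fun x => (l * u x - LL V u x - g x) ^ 2) ≤ ε := by
    intro s
    induction s using Finset.induction_on with
    | empty =>
      obtain ⟨u, hu, h⟩ := esa hV hl hg hε
      exact ⟨u, hu, by simp, h⟩
    | insert i s hi ih =>
      obtain ⟨u, hu, hs, h⟩ := ih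
      have hw : TT (fun x => (1 / 2 : ℝ) * (u x + u (Rf i x))) :=
        (hu.add (hu.comp_Rf i)).const_mul _
      refine ⟨_, hw, ?_, ?_⟩
      · intro j hj x
        rcases Finset.mem_insert.1 hj with rfl | hj
        · rw [Rf_Rf, add_comm]
        · rw [Rf_comm i j, hs j hj, hs j hj]
      · set r : Eu n → ℝ := fun x => l * u x - LL V u x - g x with hr
        have hrc : Continuous r :=
          ((continuous_const.mul hu.continuous).sub (esa_LL_cont hV1 hu)).sub hg.continuous
        have hrs : HasCompactSupport r := by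
          refine HasCompactSupport.intro (K := tsupport u ∪ tsupport (LL V u) ∪ tsupport g)
            ((hu.cs.isCompact.union (esa_LL_cs V hu).isCompact).union hg.cs.isCompact) ?_
          intro x hx
          simp only [mem_union, not_or] at hx
          rw [hr]
          dsimp only
          rw [image_eq_zero_of_notMem_tsupport hx.1.1, image_eq_zero_of_notMem_tsupport hx.1.2,
            image_eq_zero_of_notMem_tsupport hx.2]
          simp
        have hsq : ∀ {p : Eu n → ℝ}, Continuous p → HasCompactSupport p →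
            Integrable (fun x => p x ^ 2 * Real.exp (-V x)) := by
          intro p hp hps
          refine int_cs hV1.continuous (hp.pow 2) ?_
          have : (fun x => p x ^ 2) = fun x => p x * p x := funext fun x => sq _
          rw [this]
          exact hps.mul_left
        have hrRc : Continuous (fun x => r (Rf i x)) := hrc.comp (Rf i).continuous
        have hrRs : HasCompactSupport (fun x => r (Rf i x)) :=
          hrs.comp_homeomorph (Rf i).toHomeomorph
        have hid : ∀ x, l * ((1 / 2 : ℝ) * (u x + u (Rf i x))) -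
            LL V (fun x => (1 / 2 : ℝ) * (u x + u (Rf i x))) x - g x =
            (1 / 2) * (r x + r (Rf i x)) := by
          intro x
          rw [esa_LL_const_mul V (hu.add (hu.comp_Rf i)), esa_LL_add V hu (hu.comp_Rf i),
            esa_LL_comp_Rf (hV1.differentiable (by norm_num)) hVe hu, hr]
          dsimp only
          rw [hge i x]
          ring
        have h2 : Ex V (fun x => r (Rf i x) ^ 2) = Ex V (fun x => r x ^ 2) :=
          Ex_comp_Rf hVe i (fun x => r x ^ 2)
        calc Ex V (fun x => (l * ((1 / 2 : ℝ) * (u x + u (Rf i x))) -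
            LL V (fun x => (1 / 2 : ℝ) * (u x + u (Rf i x))) x - g x) ^ 2)
            ≤ Ex V (fun x => (1 / 2) * (r x ^ 2 + r (Rf i x) ^ 2)) := by
              have hsum : Continuous (fun x => (1 / 2 : ℝ) * (r x + r (Rf i x))) :=
                continuous_const.mul (hrc.add hrRc)
              have hsums : HasCompactSupport (fun x => (1 / 2 : ℝ) * (r x + r (Rf i x))) :=
                (hrs.add hrRs).mul_left
              refine Ex_mono ?_ ?_ ?_
              · simp_rw [hid]
                exact hsq hsum hsums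
              · have h3 : (fun x => (1 / 2 : ℝ) * (r x ^ 2 + r (Rf i x) ^ 2) * Real.exp (-V x)) =
                    fun x => (1 / 2 : ℝ) * (r x ^ 2 * Real.exp (-V x) +
                      r (Rf i x) ^ 2 * Real.exp (-V x)) := by
                  funext x
                  ring
                rw [h3]
                exact ((hsq hrc hrs).add (hsq hrRc hrRs)).const_mul _
              · intro x
                rw [hid]
                nlinarith [sq_nonneg (r x - r (Rf i x))]
          _ = (1 / 2) * (Ex V (fun x => r x ^ 2) + Ex V (fun x => r (Rf i x) ^ 2)) := by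
              rw [Ex_const_mul, Ex_add (hsq hrc hrs) (hsq hrRc hrRs)]
          _ ≤ ε := by
              rw [h2]
              linarith
  obtain ⟨u, hu, hs, h⟩ := key Finset.univ
  exact ⟨u, hu, fun i x => hs i (Finset.mem_univ i) x, h⟩

end Pool.Agent.Lib.MP_6d896a_gt.UC
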