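import Mathlib
import Pool.Agent.Lib.MP_6d896a_gt.UC.Defs

/-!
Project UC, piece U1: integration by parts for the weighted measure `exp (-V)`.
-/

set_option autoImplicit false

namespace Pool.Agent.Lib.MP_6d896a_gt.UC

open MeasureTheory Filter Topology Set
open scoped ENNReal NNReal ContDiff

variable {n : ℕ} {V f g u : Eu n → ℝ} {κ Λ S : ℝ} {i j : Fin n}

private lemma pd_continuous (hf : ContDiff ℝ 1 f) (i : Fin n) : Continuous (pd i f) :=
  (hf.continuous_fderiv (by simp)).clm_apply continuous_const

private lemma pd_contDiff (hf : ContDiff ℝ ∞ f) (i : Fin n) : ContDiff ℝ ∞ (pd i f) :=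
  (hf.fderiv_right (m := ∞) (by simp)).clm_apply contDiff_const

private lemma pd_cs (hf : HasCompactSupport f) (i : Fin n) : HasCompactSupport (pd i f) := by
  have h : HasCompactSupport (fderiv ℝ f) := hf.fderiv ℝ
  exact h.comp_left (g := fun L : Eu n →L[ℝ] ℝ => L (ej i)) (by simp)

private lemma exp_cd (hV : ContDiff ℝ 1 V) : ContDiff ℝ 1 (fun x => Real.exp (-V x)) :=
  Real.contDiff_exp.comp hV.neg

private lemma int_cs' (hV : Continuous V) (hf : Continuous f) (hc : HasCompactSupport f) :
    Integrable (fun x => f x * Real.exp (-V x)) := by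
  refine Continuous.integrable_of_hasCompactSupport ?_ ?_
  · exact hf.mul (Real.continuous_exp.comp hV.neg)
  · exact hc.mul_right

theorem ibp (hV : ContDiff ℝ 1 V) (hf : ContDiff ℝ 1 f) (hg : ContDiff ℝ 1 g)
    (hc : HasCompactSupport g) (i : Fin n) :
    Ex V (fun x => pd i f x * g x) =
      - Ex V (fun x => f x * (pd i g x - pd i V x * g x)) := by
  have hG : ContDiff ℝ 1 (fun x => g x * Real.exp (-V x)) := hg.mul (exp_cd hV)
  have hGc : HasCompactSupport (fun x => g x * Real.exp (-V x)) := hc.mul_right
  have hfd : Differentiable ℝ f := hf.differentiable (by simp)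
  have hVd : Differentiable ℝ V := hV.differentiable (by simp)
  have hgd : Differentiable ℝ g := hg.differentiable (by simp)
  have hder : ∀ x, fderiv ℝ (fun x => g x * Real.exp (-V x)) x (ej i) =
      (pd i g x - pd i V x * g x) * Real.exp (-V x) := by
    intro x
    have h1 : HasFDerivAt (fun x => g x * Real.exp (-V x)) _ x :=
      (hgd x).hasFDerivAt.mul ((hVd x).hasFDerivAt.neg.exp)
    rw [h1.fderiv]
    simp [pd]
    ring
  have hfc := hf.continuous
  have h := integral_mul_fderiv_eq_neg_fderiv_mul_of_integrable (μ := volume)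
    (f := f) (g := fun x => g x * Real.exp (-V x)) (v := ej i) ?_ ?_ ?_
    (fun x _ => hfd x) (fun x _ => (hG.differentiable (by simp)) x)
  · unfold Ex
    have e1 : ∫ x, pd i f x * g x * Real.exp (-V x) =
        ∫ x, fderiv ℝ f x (ej i) * (g x * Real.exp (-V x)) :=
      integral_congr_ae (ae_of_all _ fun x => by simp only [pd]; ring)
    have e2 : ∫ x, f x * (pd i g x - pd i V x * g x) * Real.exp (-V x) =
        ∫ x, f x * fderiv ℝ (fun x => g x * Real.exp (-V x)) x (ej i) :=
      integral_congr_ae (ae_of_all _ fun x => by beta_reduce; rw [hder x]; ring)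
    rw [e1, e2, h, neg_neg]
  · refine Continuous.integrable_of_hasCompactSupport ?_ hGc.mul_left
    exact (pd_continuous hf i).mul hG.continuous
  · refine Continuous.integrable_of_hasCompactSupport ?_ ?_
    · exact hfc.mul (pd_continuous hG i)
    · exact (pd_cs hGc i).mul_left
  · refine Continuous.integrable_of_hasCompactSupport ?_ hGc.mul_left
    exact hfc.mul hG.continuous

theorem green (hV : ContDiff ℝ 1 V) (hf : TT f) (hg : TT g) :
    Ex V (fun x => LL V f x * g x) = - Df V f g := by
  have hgc := hg.cd.continuous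
  have hVc := hV.continuous
  have hpf : ∀ j, Continuous (pd j f) := fun j => (pd_contDiff hf.cd j).continuous
  have hpg : ∀ j, Continuous (pd j g) := fun j => (pd_contDiff hg.cd j).continuous
  have hppf : ∀ j, Continuous (pd j (pd j f)) := fun j =>
    (pd_contDiff (pd_contDiff hf.cd j) j).continuous
  have hpV : ∀ j, Continuous (pd j V) := fun j => pd_continuous hV j
  have h1 : ∀ x, LL V f x * g x * Real.exp (-V x) =
      ∑ j, (pd j (pd j f) x * g x * Real.exp (-V x) -
        pd j V x * pd j f x * g x * Real.exp (-V x)) := by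
    intro x
    rw [LL, Finset.sum_sub_distrib, ← Finset.sum_mul, ← Finset.sum_mul, ← Finset.sum_mul,
      ← Finset.sum_mul]
    ring
  have i1 : ∀ j, Integrable (fun x => pd j (pd j f) x * g x * Real.exp (-V x)) := fun j =>
    int_cs' hVc ((hppf j).mul hgc) hg.cs.mul_left
  have i2 : ∀ j, Integrable (fun x => pd j V x * pd j f x * g x * Real.exp (-V x)) := fun j =>
    int_cs' hVc (((hpV j).mul (hpf j)).mul hgc) hg.cs.mul_left
  have i3 : ∀ j, Integrable (fun x => pd j f x * pd j g x * Real.exp (-V x)) := fun j =>
    int_cs' hVc ((hpf j).mul (hpg j)) (pd_cs hg.cs j).mul_left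
  have i4 : ∀ j, Integrable (fun x => pd j (pd j f) x * g x * Real.exp (-V x) -
      pd j V x * pd j f x * g x * Real.exp (-V x)) := fun j => (i1 j).sub (i2 j)
  unfold Df
  rw [Ex, integral_congr_ae (ae_of_all _ h1), integral_finsetSum _ fun j _ => i4 j,
    ← Finset.sum_neg_distrib]
  refine Finset.sum_congr rfl fun j _ => ?_
  rw [integral_sub (i1 j) (i2 j)]
  have h2 := ibp hV ((pd_contDiff hf.cd j).of_le (by exact_mod_cast le_top))
    (hg.cd.of_le (by exact_mod_cast le_top)) hg.cs j
  unfold Ex at h2
  rw [h2]
  have e : ∫ x, pd j f x * (pd j g x - pd j V x * g x) * Real.exp (-V x) =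
      (∫ x, pd j f x * pd j g x * Real.exp (-V x)) -
        ∫ x, pd j V x * pd j f x * g x * Real.exp (-V x) := by
    rw [← integral_sub (i3 j) (i2 j)]
    exact integral_congr_ae (ae_of_all _ fun x => by beta_reduce; ring)
  rw [e]
  unfold Ex
  ring

lemma Ex_LL (hV : ContDiff ℝ 1 V) (hf : TT f) : Ex V (LL V f) = 0 := by
  have hVc := hV.continuous
  have hpf : ∀ j, Continuous (pd j f) := fun j => (pd_contDiff hf.cd j).continuous
  have hppf : ∀ j, Continuous (pd j (pd j f)) := fun j =>
    (pd_contDiff (pd_contDiff hf.cd j) j).continuous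
  have hpV : ∀ j, Continuous (pd j V) := fun j => pd_continuous hV j
  have h1 : ∀ x, LL V f x * Real.exp (-V x) =
      ∑ j, (1 * (pd j (pd j f) x - pd j V x * pd j f x) * Real.exp (-V x)) := by
    intro x
    simp only [one_mul]
    rw [LL, ← Finset.sum_mul, Finset.sum_sub_distrib]
  have i1 : ∀ j, Integrable (fun x => 1 * (pd j (pd j f) x - pd j V x * pd j f x) *
      Real.exp (-V x)) := fun j =>
    int_cs' hVc (continuous_const.mul ((hppf j).sub ((hpV j).mul (hpf j))))
      ((pd_cs (pd_cs hf.cs j) j).sub (pd_cs hf.cs j).mul_left).mul_left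
  unfold Ex
  rw [integral_congr_ae (ae_of_all _ h1), integral_finsetSum _ fun j _ => i1 j]
  refine Finset.sum_eq_zero fun j _ => ?_
  have h2 := ibp (f := fun _ => (1 : ℝ)) (g := pd j f) hV contDiff_const
    ((pd_contDiff hf.cd j).of_le (by exact_mod_cast le_top)) (pd_cs hf.cs j) j
  have h3 : Ex V (fun x => pd j (fun _ => (1 : ℝ)) x * pd j f x) = 0 := by
    unfold Ex
    simp [pd]
  rw [h3] at h2
  unfold Ex at h2
  linarith

lemma LL_cont (hV : ContDiff ℝ 1 V) (hf : TT f) : Continuous (LL V f) ∧
    HasCompactSupport (LL V f) := by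
  have hpf : ∀ j, Continuous (pd j f) := fun j => (pd_contDiff hf.cd j).continuous
  have hppf : ∀ j, Continuous (pd j (pd j f)) := fun j =>
    (pd_contDiff (pd_contDiff hf.cd j) j).continuous
  have hpV : ∀ j, Continuous (pd j V) := fun j => pd_continuous hV j
  constructor
  · exact (continuous_finsetSum _ fun j _ => hppf j).sub
      (continuous_finsetSum _ fun j _ => (hpV j).mul (hpf j))
  · refine HasCompactSupport.intro hf.cs fun x hx => ?_
    have h1 : ∀ j, pd j f x = 0 := fun j => by
      have : x ∉ tsupport (pd j f) := fun h => hx ((tsupport_fderiv_subset ℝ) (by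
        refine closure_mono ?_ h
        intro y hy hy'
        apply hy
        simp only [pd]
        rw [hy']
        rfl))
      exact image_eq_zero_of_notMem_tsupport this
    have h2 : ∀ j, pd j (pd j f) x = 0 := fun j => by
      have hx1 : x ∉ tsupport (pd j f) := fun h => hx ((tsupport_fderiv_subset ℝ) (by
        refine closure_mono ?_ h
        intro y hy hy'
        apply hy
        simp only [pd]
        rw [hy']
        rfl))
      have : x ∉ tsupport (pd j (pd j f)) := fun h => hx1 ((tsupport_fderiv_subset ℝ) (by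
        refine closure_mono ?_ h
        intro y hy hy'
        apply hy
        simp only [pd] at hy' ⊢
        rw [hy']
        rfl))
      exact image_eq_zero_of_notMem_tsupport this
    simp [LL, h1, h2]

end Pool.Agent.Lib.MP_6d896a_gt.UC
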