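import Mathlib
import Pool.Agent.Lib.MP_6d896a_gt.UC.Basic
import Pool.Agent.Lib.MP_6d896a_gt.UC.Ibp

set_option autoImplicit false

namespace Pool.Agent.Lib.MP_6d896a_gt.UC

open MeasureTheory Filter Topology Set
open scoped ENNReal NNReal ContDiff

variable {n : ℕ} {V u : Eu n → ℝ}

private lemma boch_pd_cd {m : ℕ∞} {f : Eu n → ℝ} {k : ℕ∞} (hf : ContDiff ℝ k f)
    (h : m + 1 ≤ k) (i : Fin n) : ContDiff ℝ m (pd i f) := by
  have h1 : ContDiff ℝ m (fderiv ℝ f) := hf.fderiv_right (by exact_mod_cast h)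
  exact h1.clm_apply contDiff_const

/-- second derivatives of the potential -/
private lemma boch_pd2 (hV : ContDiff ℝ 2 V) (i j : Fin n) (x : Eu n) :
    pd i (pd j V) x = fderiv ℝ (fderiv ℝ V) x (ej i) (ej j) := by
  have h1 : DifferentiableAt ℝ (fderiv ℝ V) x :=
    ((hV.fderiv_right (m := 1) (by norm_num)).differentiable (by norm_num)) x
  have h2 := (h1.hasFDerivAt.clm_apply (hasFDerivAt_const (ej j) x)).fderiv
  show fderiv ℝ (fun y => fderiv ℝ V y (ej j)) x (ej i) = _
  rw [h2]
  simp

private lemma boch_cd2 {f : Eu n → ℝ} (hf : TT f) : ContDiff ℝ 2 f := by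
  have := contDiff_infty.1 hf.cd 2
  exact_mod_cast this

private lemma boch_pd_sum {ι : Type*} (s : Finset ι) {F : ι → Eu n → ℝ}
    (h : ∀ k ∈ s, Differentiable ℝ (F k)) (i : Fin n) (x : Eu n) :
    pd i (fun x => ∑ k ∈ s, F k x) x = ∑ k ∈ s, pd i (F k) x := by
  unfold pd
  rw [fderiv_fun_sum fun k hk => (h k hk) x]
  simp

private lemma boch_quad (hV : ContDiff ℝ 2 V) (a : Fin n → ℝ) (x : Eu n) :
    ∑ i, ∑ j, pd i (pd j V) x * (a j * a i) =
      fderiv ℝ (fderiv ℝ V) x (∑ i, a i • ej i) (∑ j, a j • ej j) := by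
  simp only [map_sum, map_smul, _root_.sum_apply, _root_.smul_apply,
    smul_eq_mul, Finset.mul_sum]
  rw [Finset.sum_comm]
  refine Finset.sum_congr rfl fun i _ => Finset.sum_congr rfl fun j _ => ?_
  rw [boch_pd2 hV]
  ring

/-- Bochner's inequality; only `0 ≤ fderiv (fderiv V) x v v` is used -/
theorem bochner (hV : ContDiff ℝ 2 V) (hc : ∀ x v, 0 ≤ fderiv ℝ (fderiv ℝ V) x v v) (hu : TT u) :
    ∑ j, Df V (pd j u) (pd j u) ≤ Ex V (fun x => LL V u x ^ 2) := by
  have hV1 : ContDiff ℝ 1 V := hV.of_le (by norm_num)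
  have hVc : Continuous V := hV.continuous
  have hVd : ∀ j, ContDiff ℝ 1 (pd j V) := fun j =>
    boch_pd_cd (m := 1) (k := 2) hV (by norm_num) j
  have hVdd : ∀ j, Differentiable ℝ (pd j V) := fun j => (hVd j).differentiable (by norm_num)
  have hud : ∀ j, Differentiable ℝ (pd j u) := fun j => (hu.pd j).differentiable
  have hudd : ∀ j k, Differentiable ℝ (pd k (pd j u)) := fun j k =>
    ((hu.pd j).pd k).differentiable
  -- `w = LL V u` is `C¹` with compact support
  have hw1 : ContDiff ℝ 1 (LL V u) := by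
    have h1 : ContDiff ℝ 1 (fun x => ∑ j, pd j (pd j u) x) :=
      ContDiff.sum fun j _ => (((hu.pd j).pd j).cd).of_le (by exact_mod_cast le_top)
    have h2 : ContDiff ℝ 1 (fun x => ∑ j, pd j V x * pd j u x) :=
      ContDiff.sum fun j _ => (hVd j).mul (((hu.pd j).cd).of_le (by exact_mod_cast le_top))
    exact h1.sub h2
  have hLc := LL_cont hV1 hu
  -- derivative of `w`
  have hpw : ∀ i x, pd i (LL V u) x =
      LL V (pd i u) x - ∑ j, pd i (pd j V) x * pd j u x := by
    intro i x
    have e1 : LL V u = fun x => (fun x => ∑ j, pd j (pd j u) x) x -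
        (fun x => ∑ j, pd j V x * pd j u x) x := rfl
    have d1 : Differentiable ℝ (fun x => ∑ j, pd j (pd j u) x) := by
      exact Differentiable.fun_sum fun j _ => hudd j j
    have d2 : Differentiable ℝ (fun x => ∑ j, pd j V x * pd j u x) :=
      Differentiable.fun_sum fun j _ => (hVdd j).mul (hud j)
    have d3 := boch_pd_sum (F := fun j x => pd j V x * pd j u x) Finset.univ
      (fun j _ => (hVdd j).mul (hud j)) i x
    rw [e1, pd_sub d1 d2, boch_pd_sum _ (fun j _ => hudd j j), d3]
    have e2 : ∀ j, pd i (pd j (pd j u)) x = pd j (pd j (pd i u)) x := by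
      intro j
      have h1 : pd i (pd j (pd j u)) = pd j (pd i (pd j u)) :=
        pd_comm (boch_cd2 (hu.pd j)) i j
      have h2 : pd i (pd j u) = pd j (pd i u) :=
        pd_comm (boch_cd2 hu) i j
      rw [h1, h2]
    have e3 : ∀ j, pd i (fun x => pd j V x * pd j u x) x =
        pd i (pd j V) x * pd j u x + pd j V x * pd j (pd i u) x := by
      intro j
      rw [pd_mul (hVdd j) (hud j)]
      have h2 : pd i (pd j u) = pd j (pd i u) :=
        pd_comm (boch_cd2 hu) i j
      rw [h2]
    simp only [e2, e3, Finset.sum_add_distrib, LL]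
    ring
  -- integration by parts
  have hibp : ∀ i, Ex V (fun x => pd i (LL V u) x * pd i u x) =
      - Ex V (fun x => LL V u x * (pd i (pd i u) x - pd i V x * pd i u x)) := fun i =>
    ibp hV1 hw1 ((hu.pd i).cd.of_le (by exact_mod_cast le_top)) (hu.pd i).cs i
  have hcont : ∀ {f : Eu n → ℝ}, Continuous f → HasCompactSupport f →
      Integrable (fun x => f x * Real.exp (-V x)) := fun hf hcs => int_cs hVc hf hcs
  have hint1 : ∀ i, Integrable (fun x => (LL V u x *
      (pd i (pd i u) x - pd i V x * pd i u x)) * Real.exp (-V x)) := by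
    intro i
    refine hcont ?_ ?_
    · exact hLc.1.mul ((((hu.pd i).pd i).continuous).sub
        ((hVd i).continuous.mul (hu.pd i).continuous))
    · exact hLc.2.mul_right
  have hsum : Ex V (fun x => LL V u x ^ 2) =
      ∑ i, Ex V (fun x => LL V u x * (pd i (pd i u) x - pd i V x * pd i u x)) := by
    unfold Ex
    rw [← integral_finsetSum _ fun i _ => hint1 i]
    refine integral_congr_ae (Eventually.of_forall fun x => ?_)
    show LL V u x ^ 2 * Real.exp (-V x) = ∑ i, LL V u x *
      (pd i (pd i u) x - pd i V x * pd i u x) * Real.exp (-V x)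
    rw [← Finset.sum_mul, ← Finset.mul_sum, Finset.sum_sub_distrib]
    show LL V u x ^ 2 * _ = LL V u x * LL V u x * _
    ring
  have hintL : ∀ i, Integrable (fun x => (LL V (pd i u) x * pd i u x) * Real.exp (-V x)) :=
    fun i => hcont ((LL_cont hV1 (hu.pd i)).1.mul (hu.pd i).continuous)
      (LL_cont hV1 (hu.pd i)).2.mul_right
  have hpd2c : ∀ i j, Continuous (pd i (pd j V)) := fun i j =>
    (boch_pd_cd (m := 0) (k := 1) (hVd j) (by norm_num) i).continuous
  have hintQ : ∀ i, Integrable (fun x => ((∑ j, pd i (pd j V) x * pd j u x) * pd i u x) *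
      Real.exp (-V x)) := by
    intro i
    refine hcont ?_ ?_
    · exact (continuous_finsetSum _ fun j _ => (hpd2c i j).mul (hu.pd j).continuous).mul
        (hu.pd i).continuous
    · exact (hu.pd i).cs.mul_left
  have hterm : ∀ i, - Ex V (fun x => pd i (LL V u) x * pd i u x) =
      Df V (pd i u) (pd i u) +
        Ex V (fun x => (∑ j, pd i (pd j V) x * pd j u x) * pd i u x) := by
    intro i
    have e1 : (fun x => pd i (LL V u) x * pd i u x) = fun x =>
        LL V (pd i u) x * pd i u x - (∑ j, pd i (pd j V) x * pd j u x) * pd i u x := by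
      funext x
      rw [hpw i x]
      ring
    rw [e1, Ex_sub (hintL i) (hintQ i), green hV1 (hu.pd i) (hu.pd i)]
    ring
  have hQ : 0 ≤ ∑ i, Ex V (fun x => (∑ j, pd i (pd j V) x * pd j u x) * pd i u x) := by
    have e1 : ∑ i, Ex V (fun x => (∑ j, pd i (pd j V) x * pd j u x) * pd i u x) =
        ∫ x, (∑ i, (∑ j, pd i (pd j V) x * pd j u x) * pd i u x * Real.exp (-V x)) := by
      unfold Ex
      rw [integral_finsetSum _ fun i _ => hintQ i]
    rw [e1]
    refine integral_nonneg fun x => ?_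
    show 0 ≤ ∑ i, (∑ j, pd i (pd j V) x * pd j u x) * pd i u x * Real.exp (-V x)
    rw [← Finset.sum_mul]
    refine mul_nonneg ?_ (Real.exp_pos _).le
    have e2 : ∑ i, (∑ j, pd i (pd j V) x * pd j u x) * pd i u x =
        ∑ i, ∑ j, pd i (pd j V) x * (pd j u x * pd i u x) := by
      refine Finset.sum_congr rfl fun i _ => ?_
      rw [Finset.sum_mul]
      exact Finset.sum_congr rfl fun j _ => by ring
    rw [e2, boch_quad hV (fun j => pd j u x) x]
    exact hc x _
  have hfin : Ex V (fun x => LL V u x ^ 2) = ∑ j, Df V (pd j u) (pd j u) +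
      ∑ i, Ex V (fun x => (∑ j, pd i (pd j V) x * pd j u x) * pd i u x) := by
    rw [hsum, ← Finset.sum_add_distrib]
    refine Finset.sum_congr rfl fun i _ => ?_
    rw [← hterm i, hibp i, neg_neg]
  linarith

end Pool.Agent.Lib.MP_6d896a_gt.UC
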