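import Mathlib

/-!
Project UC, piece U8: absorption (pure real analysis).
-/

set_option autoImplicit false

namespace Pool.Agent.Lib.MP_6d896a_gt.UC

open MeasureTheory Filter Topology Set

private lemma geo_two {r : ℝ} (hr0 : 0 ≤ r) (hr : r ≤ 1 / 2) (n : ℕ) :
    ∑ k ∈ Finset.range n, r ^ k ≤ 2 - 2 * (1 / 2) ^ n := by
  induction n with
  | zero => simp
  | succ n ih =>
    rw [Finset.sum_range_succ]
    have h1 : r ^ n ≤ (1 / 2) ^ n := pow_le_pow_left₀ hr0 hr n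
    have h2 : (1 / 2 : ℝ) ^ (n + 1) = (1 / 2) ^ n / 2 := by rw [pow_succ]; ring
    rw [h2]
    linarith

private lemma geo_two' {r : ℝ} (hr0 : 0 ≤ r) (hr : r ≤ 1 / 2) (i m : ℕ) :
    ∑ j ∈ Finset.Ico i m, r ^ (j - i + 1) ≤ 2 * r := by
  rw [Finset.sum_Ico_eq_sum_range]
  have h1 : ∀ k, r ^ (i + k - i + 1) = r * r ^ k := fun k => by
    rw [Nat.add_sub_cancel_left, pow_succ]; ring
  simp only [h1]
  rw [← Finset.mul_sum, mul_comm 2 r]
  refine mul_le_mul_of_nonneg_left ?_ hr0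
  refine (geo_two hr0 hr (m - i)).trans ?_
  have : (0 : ℝ) ≤ (1 / 2) ^ (m - i) := by positivity
  linarith

/-- one step of the absorption -/
private lemma absorb_step {K δ X N b0 : ℝ} (hK : 1 ≤ K) (hδ0 : 0 < δ)
    (hδ : 8 * Real.sqrt K * δ ≤ 1) (hX : 0 ≤ X) (hN : 0 ≤ N) (hb0 : 0 ≤ b0) (m : ℕ) {τ : ℝ}
    (hτ : 0 < τ) (b s : ℕ → ℝ) (hb : b 0 = b0) (hbn : ∀ j, 0 ≤ b j) (hsn : ∀ j, 0 ≤ s j)
    (hs0 : s 0 ≤ X + b0 ^ 2) (hs : ∀ j, j < m → s (j + 1) ≤ s j + b (j + 1) ^ 2 + τ)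
    (hi : ∀ i, i ≤ m → b i ≤ Real.sqrt K * (∑ j ∈ Finset.Ico i m, δ ^ (j - i + 1) *
        (Real.sqrt (s j + τ) + τ) + δ ^ (m - i) * Real.sqrt (N + τ))) :
    b0 ≤ (Real.sqrt X + (Real.sqrt ((m + 1) * τ) + τ)) / 2 +
      2 * Real.sqrt K * (1 / 2) ^ m * Real.sqrt (N + τ) := by
  have hS1 : 1 ≤ Real.sqrt K := by
    rw [← Real.sqrt_one]; exact Real.sqrt_le_sqrt hK
  set S := Real.sqrt K with hSdef
  have hδ8 : δ ≤ 1 / 8 := by nlinarith
  -- the maximum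
  obtain ⟨i0, hi0m, hmax⟩ := Finset.exists_max_image (Finset.range (m + 1))
    (fun i => (1 / 2 : ℝ) ^ i * b i) ⟨0, Finset.mem_range.2 (Nat.succ_pos m)⟩
  set M : ℝ := (1 / 2 : ℝ) ^ i0 * b i0 with hM
  have hM0 : 0 ≤ M := mul_nonneg (by positivity) (hbn i0)
  have hbM : ∀ i ≤ m, b i ≤ 2 ^ i * M := by
    intro i hi'
    have h1 := hmax i (Finset.mem_range.2 (Nat.lt_succ_of_le hi'))
    have h2 : (2 : ℝ) ^ i * ((1 / 2 : ℝ) ^ i * b i) = b i := by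
      rw [← mul_assoc, ← mul_pow]; norm_num
    rw [← h2]
    exact mul_le_mul_of_nonneg_left h1 (by positivity)
  have hA0 : ∀ j, 0 ≤ ∑ l ∈ Finset.range (j + 1), b l := fun j =>
    Finset.sum_nonneg fun l _ => hbn l
  have hAM : ∀ j ≤ m, ∑ l ∈ Finset.range (j + 1), b l ≤ 2 ^ (j + 1) * M := by
    intro j hj
    calc ∑ l ∈ Finset.range (j + 1), b l ≤ ∑ l ∈ Finset.range (j + 1), (2 : ℝ) ^ l * M :=
          Finset.sum_le_sum fun l hl => hbM l ((Nat.lt_succ_iff.1 (Finset.mem_range.1 hl)).trans hj)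
      _ = (∑ l ∈ Finset.range (j + 1), (2 : ℝ) ^ l) * M := by rw [Finset.sum_mul]
      _ ≤ 2 ^ (j + 1) * M := by
          refine mul_le_mul_of_nonneg_right ?_ hM0
          have h1 := geom_sum_eq (one_lt_two (α := ℝ)).ne' (j + 1)
          rw [h1]
          norm_num
  have hsj : ∀ j ≤ m, s j ≤ X + (∑ l ∈ Finset.range (j + 1), b l) ^ 2 + j * τ := by
    intro j
    induction j with
    | zero =>
      intro _
      simp only [zero_add, Finset.sum_range_one, Nat.cast_zero, zero_mul, add_zero]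
      rw [hb]
      exact hs0
    | succ j ih =>
      intro hj
      have h1 := hs j hj
      have h2 := ih (Nat.le_of_succ_le hj)
      rw [Finset.sum_range_succ _ (j + 1)]
      push_cast
      nlinarith [mul_nonneg (hA0 j) (hbn (j + 1))]
  set e : ℝ := Real.sqrt ((m + 1) * τ) with he
  have he0 : 0 ≤ e := Real.sqrt_nonneg _
  have hX0 : 0 ≤ Real.sqrt X := Real.sqrt_nonneg _
  have hsq : ∀ j < m, Real.sqrt (s j + τ) ≤ Real.sqrt X + 2 ^ (j + 1) * M + e := by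
    intro j hj
    have h1 := hsj j hj.le
    have h2 := hAM j hj.le
    have h3 := hA0 j
    have hm1 : ((j : ℝ) + 1) * τ ≤ ((m : ℝ) + 1) * τ := by
      have : (j : ℝ) ≤ m := by exact_mod_cast hj.le
      nlinarith
    have h4 : Real.sqrt X ^ 2 = X := Real.sq_sqrt hX
    have h5 : e ^ 2 = ((m : ℝ) + 1) * τ := Real.sq_sqrt (by positivity)
    rw [Real.sqrt_le_left (by positivity)]
    have h6 : (∑ l ∈ Finset.range (j + 1), b l) ^ 2 ≤ (2 ^ (j + 1) * M) ^ 2 :=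
      pow_le_pow_left₀ h3 h2 2
    have h7 : 0 ≤ 2 ^ (j + 1) * M := by positivity
    nlinarith [mul_nonneg hX0 h7, mul_nonneg hX0 he0, mul_nonneg h7 he0]
  -- the main inequality at the maximum
  have hi0 : i0 ≤ m := Nat.lt_succ_iff.1 (Finset.mem_range.1 hi0m)
  have hmain := hi i0 hi0
  have hsum : ∑ j ∈ Finset.Ico i0 m, δ ^ (j - i0 + 1) * (Real.sqrt (s j + τ) + τ) ≤
      2 * δ * (Real.sqrt X + (e + τ)) + 4 * δ * (2 ^ i0 * M) := by
    calc ∑ j ∈ Finset.Ico i0 m, δ ^ (j - i0 + 1) * (Real.sqrt (s j + τ) + τ)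
        ≤ ∑ j ∈ Finset.Ico i0 m, (δ ^ (j - i0 + 1) * (Real.sqrt X + (e + τ)) +
          (2 * δ) ^ (j - i0 + 1) * (2 ^ i0 * M)) := by
          refine Finset.sum_le_sum fun j hj => ?_
          obtain ⟨hj1, hj2⟩ := Finset.mem_Ico.1 hj
          have h1 := hsq j hj2
          have h2 : (2 : ℝ) ^ (j + 1) = 2 ^ (j - i0 + 1) * 2 ^ i0 := by
            rw [← pow_add]; congr 1; omega
          have h3 : (0 : ℝ) ≤ δ ^ (j - i0 + 1) := by positivity
          calc δ ^ (j - i0 + 1) * (Real.sqrt (s j + τ) + τ)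
              ≤ δ ^ (j - i0 + 1) * (Real.sqrt X + 2 ^ (j + 1) * M + e + τ) :=
                mul_le_mul_of_nonneg_left (by linarith) h3
            _ = _ := by rw [h2, mul_pow]; ring
      _ = (∑ j ∈ Finset.Ico i0 m, δ ^ (j - i0 + 1)) * (Real.sqrt X + (e + τ)) +
          (∑ j ∈ Finset.Ico i0 m, (2 * δ) ^ (j - i0 + 1)) * (2 ^ i0 * M) := by
          rw [Finset.sum_add_distrib, Finset.sum_mul, Finset.sum_mul]
      _ ≤ 2 * δ * (Real.sqrt X + (e + τ)) + 4 * δ * (2 ^ i0 * M) := by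
          have h1 := geo_two' hδ0.le (by linarith) i0 m
          have h2 := geo_two' (r := 2 * δ) (by linarith) (by linarith) i0 m
          have h3 : 2 * (2 * δ) = 4 * δ := by ring
          rw [h3] at h2
          have h4 : 0 ≤ Real.sqrt X + (e + τ) := by positivity
          have h5 : 0 ≤ 2 ^ i0 * M := by positivity
          exact add_le_add (mul_le_mul_of_nonneg_right h1 h4) (mul_le_mul_of_nonneg_right h2 h5)
  have hNs : 0 ≤ Real.sqrt (N + τ) := Real.sqrt_nonneg _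
  have hpow : (1 / 2 : ℝ) ^ i0 * δ ^ (m - i0) ≤ (1 / 2) ^ m := by
    have h1 : δ ^ (m - i0) ≤ (1 / 2 : ℝ) ^ (m - i0) :=
      pow_le_pow_left₀ hδ0.le (by linarith) _
    calc (1 / 2 : ℝ) ^ i0 * δ ^ (m - i0) ≤ (1 / 2) ^ i0 * (1 / 2) ^ (m - i0) :=
          mul_le_mul_of_nonneg_left h1 (by positivity)
      _ = (1 / 2) ^ m := by rw [← pow_add]; congr 1; omega
  have hM1 : M ≤ S * ((1 / 2 : ℝ) ^ i0 * (2 * δ * (Real.sqrt X + (e + τ))) + 4 * δ * M +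
      (1 / 2) ^ m * Real.sqrt (N + τ)) := by
    calc M ≤ (1 / 2 : ℝ) ^ i0 * (S * ((2 * δ * (Real.sqrt X + (e + τ)) + 4 * δ * (2 ^ i0 * M)) +
          δ ^ (m - i0) * Real.sqrt (N + τ))) := by
          refine mul_le_mul_of_nonneg_left (hmain.trans ?_) (by positivity)
          exact mul_le_mul_of_nonneg_left (by linarith) (by linarith)
      _ = S * ((1 / 2 : ℝ) ^ i0 * (2 * δ * (Real.sqrt X + (e + τ))) +
          4 * δ * (((1 / 2 : ℝ) ^ i0 * 2 ^ i0) * M) +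
          ((1 / 2 : ℝ) ^ i0 * δ ^ (m - i0)) * Real.sqrt (N + τ)) := by ring
      _ ≤ _ := by
          rw [← mul_pow]
          norm_num only [one_pow, one_mul]
          refine mul_le_mul_of_nonneg_left ?_ (by linarith)
          have h1 := mul_le_mul_of_nonneg_right hpow hNs
          norm_num only at h1 ⊢
          linarith
  have hp1 : (1 / 2 : ℝ) ^ i0 ≤ 1 := pow_le_one₀ (by norm_num) (by norm_num)
  have hE0 : 0 ≤ Real.sqrt X + (e + τ) := by positivity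
  have hq : (1 / 2 : ℝ) ^ i0 * (2 * δ * (Real.sqrt X + (e + τ))) ≤
      2 * δ * (Real.sqrt X + (e + τ)) := by
    have : 0 ≤ 2 * δ * (Real.sqrt X + (e + τ)) := by positivity
    nlinarith
  have hSδ : S * δ ≤ 1 / 8 := by linarith
  have hM2 : M ≤ (Real.sqrt X + (e + τ)) / 4 + M / 2 + S * ((1 / 2) ^ m * Real.sqrt (N + τ)) := by
    have h1 : S * ((1 / 2 : ℝ) ^ i0 * (2 * δ * (Real.sqrt X + (e + τ))) + 4 * δ * M +
        (1 / 2) ^ m * Real.sqrt (N + τ)) ≤ S * (2 * δ * (Real.sqrt X + (e + τ)) + 4 * δ * M +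
        (1 / 2) ^ m * Real.sqrt (N + τ)) := mul_le_mul_of_nonneg_left (by linarith) (by linarith)
    have h2 : S * (2 * δ * (Real.sqrt X + (e + τ)) + 4 * δ * M +
        (1 / 2) ^ m * Real.sqrt (N + τ)) = (S * δ) * (2 * (Real.sqrt X + (e + τ)) + 4 * M) +
        S * ((1 / 2) ^ m * Real.sqrt (N + τ)) := by ring
    have h3 : (S * δ) * (2 * (Real.sqrt X + (e + τ)) + 4 * M) ≤
        1 / 8 * (2 * (Real.sqrt X + (e + τ)) + 4 * M) :=
      mul_le_mul_of_nonneg_right hSδ (by positivity)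
    linarith [hM1.trans h1]
  have hbz : b0 ≤ M := by
    have h1 := hmax 0 (Finset.mem_range.2 (Nat.succ_pos m))
    simp only [pow_zero, one_mul] at h1
    rw [hb] at h1
    exact h1
  have : 2 * S * (1 / 2) ^ m * Real.sqrt (N + τ) = 2 * (S * ((1 / 2) ^ m * Real.sqrt (N + τ))) := by
    ring
  rw [this]
  linarith

theorem absorb {K δ X N b0 : ℝ} (hK : 1 ≤ K) (hδ0 : 0 < δ) (hδ : 8 * Real.sqrt K * δ ≤ 1)
    (hX : 0 ≤ X) (hN : 0 ≤ N) (hb0 : 0 ≤ b0)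
    (h : ∀ m : ℕ, ∀ τ : ℝ, 0 < τ → ∃ b s : ℕ → ℝ, b 0 = b0 ∧ (∀ j, 0 ≤ b j) ∧ (∀ j, 0 ≤ s j) ∧
      s 0 ≤ X + b0 ^ 2 ∧ (∀ j, j < m → s (j + 1) ≤ s j + b (j + 1) ^ 2 + τ) ∧
      (∀ i, i ≤ m → b i ≤ Real.sqrt K * (∑ j ∈ Finset.Ico i m, δ ^ (j - i + 1) *
        (Real.sqrt (s j + τ) + τ) + δ ^ (m - i) * Real.sqrt (N + τ)))) :
    b0 ^ 2 ≤ X := by
  have key : ∀ (m : ℕ) (τ : ℝ), 0 < τ → b0 ≤ (Real.sqrt X + (Real.sqrt ((m + 1) * τ) + τ)) / 2 +
      2 * Real.sqrt K * (1 / 2) ^ m * Real.sqrt (N + τ) := by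
    intro m τ hτ
    obtain ⟨b, s, h1, h2, h3, h4, h5, h6⟩ := h m τ hτ
    exact absorb_step hK hδ0 hδ hX hN hb0 m hτ b s h1 h2 h3 h4 h5 h6
  -- `τ → 0`
  have key2 : ∀ m : ℕ, b0 ≤ Real.sqrt X / 2 + 2 * Real.sqrt K * (1 / 2) ^ m * Real.sqrt N := by
    intro m
    have hc : Continuous (fun τ : ℝ => (Real.sqrt X + (Real.sqrt ((m + 1) * τ) + τ)) / 2 +
        2 * Real.sqrt K * (1 / 2) ^ m * Real.sqrt (N + τ)) := by fun_prop
    have ht : Tendsto (fun τ : ℝ => (Real.sqrt X + (Real.sqrt ((m + 1) * τ) + τ)) / 2 +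
        2 * Real.sqrt K * (1 / 2) ^ m * Real.sqrt (N + τ)) (𝓝[>] 0)
        (𝓝 ((Real.sqrt X + (Real.sqrt ((m + 1) * 0) + 0)) / 2 +
        2 * Real.sqrt K * (1 / 2) ^ m * Real.sqrt (N + 0))) :=
      (hc.tendsto 0).mono_left nhdsWithin_le_nhds
    have h1 := ge_of_tendsto ht (b := b0) (by
      filter_upwards [self_mem_nhdsWithin] with τ hτ
      exact key m τ hτ)
    simpa using h1
  have key3 : b0 ≤ Real.sqrt X / 2 := by
    have ht : Tendsto (fun m : ℕ => Real.sqrt X / 2 +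
        2 * Real.sqrt K * (1 / 2) ^ m * Real.sqrt N) atTop
        (𝓝 (Real.sqrt X / 2 + 2 * Real.sqrt K * 0 * Real.sqrt N)) := by
      refine tendsto_const_nhds.add ((Tendsto.const_mul _ ?_).mul_const _)
      exact tendsto_pow_atTop_nhds_zero_of_lt_one (by norm_num) (by norm_num)
    have h1 := ge_of_tendsto ht (b := b0) (Eventually.of_forall key2)
    simpa using h1
  have h1 : b0 ^ 2 ≤ (Real.sqrt X / 2) ^ 2 := pow_le_pow_left₀ hb0 key3 2
  have h2 : (Real.sqrt X / 2) ^ 2 = X / 4 := by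
    rw [div_pow, Real.sq_sqrt hX]; norm_num
  rw [h2] at h1
  linarith

end Pool.Agent.Lib.MP_6d896a_gt.UC
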