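import Mathlib
import Pool.Agent.Lib.MP_6d896a_gt.UC.Basic

/-!
A Hardy type argument: strongly convex potentials satisfy the Poincare inequality for odd test
functions with constant `1 / κ`.
-/

set_option autoImplicit false
set_option linter.all false

namespace Pool.Agent.Lib.MP_6d896a_gt.UC

open MeasureTheory Filter Topology Set ProbabilityTheory
open scoped ENNReal NNReal ContDiff

variable {n : ℕ} {V f g u : Eu n → ℝ} {κ Λ S : ℝ} {i j : Fin n}

private lemma ap_exp_pd (hV : ContDiff ℝ 1 V) (hg : ContDiff ℝ 1 g) (i : Fin n) (x : Eu n) :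
    fderiv ℝ (fun x => g x * Real.exp (-V x)) x (ej i) =
      (pd i g x - pd i V x * g x) * Real.exp (-V x) := by
  have hVd : HasFDerivAt V (fderiv ℝ V x) x :=
    ((hV.differentiable (by norm_num)) x).hasFDerivAt
  have hgd : HasFDerivAt g (fderiv ℝ g x) x :=
    ((hg.differentiable (by norm_num)) x).hasFDerivAt
  have hE : HasFDerivAt (fun x => Real.exp (-V x)) (Real.exp (-V x) • (-fderiv ℝ V x)) x :=
    hVd.neg.exp
  have h := (hgd.mul hE).fderiv
  have h' : fderiv ℝ (fun x => g x * Real.exp (-V x)) x = _ := h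
  rw [h']
  simp only [ContinuousLinearMap.add_apply, ContinuousLinearMap.smul_apply, smul_eq_mul,
    ContinuousLinearMap.neg_apply]
  unfold pd
  ring

private lemma ap_ibp (hV : ContDiff ℝ 1 V) (hf : ContDiff ℝ 1 f) (hg : ContDiff ℝ 1 g)
    (hc : HasCompactSupport g) (i : Fin n) :
    Ex V (fun x => pd i f x * g x) =
      - Ex V (fun x => f x * (pd i g x - pd i V x * g x)) := by
  have hfd : Continuous (fun x => fderiv ℝ f x (ej i)) :=
    (hf.continuous_fderiv (by norm_num)).clm_apply continuous_const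
  have hEc : ContDiff ℝ 1 (fun x => Real.exp (-V x)) := hV.neg.exp
  have hG : ContDiff ℝ 1 (fun x => g x * Real.exp (-V x)) := hg.mul hEc
  have hGc : HasCompactSupport (fun x => g x * Real.exp (-V x)) :=
    hc.mul_right (f' := fun x => Real.exp (-V x))
  have hGd : Continuous (fun x => fderiv ℝ (fun x => g x * Real.exp (-V x)) x (ej i)) :=
    (hG.continuous_fderiv (by norm_num)).clm_apply continuous_const
  have hGdc : HasCompactSupport (fun x => fderiv ℝ (fun x => g x * Real.exp (-V x)) x (ej i)) :=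
    hGc.fderiv_apply (𝕜 := ℝ) (ej i)
  have i1 : Integrable (fun x => fderiv ℝ f x (ej i) * (g x * Real.exp (-V x))) :=
    (hfd.mul hG.continuous).integrable_of_hasCompactSupport hGc.mul_left
  have i2 : Integrable (fun x => f x * fderiv ℝ (fun x => g x * Real.exp (-V x)) x (ej i)) :=
    (hf.continuous.mul hGd).integrable_of_hasCompactSupport hGdc.mul_left
  have i3 : Integrable (fun x => f x * (g x * Real.exp (-V x))) :=
    (hf.continuous.mul hG.continuous).integrable_of_hasCompactSupport hGc.mul_left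
  have key := integral_mul_fderiv_eq_neg_fderiv_mul_of_integrable (μ := volume)
    (f := f) (g := fun x => g x * Real.exp (-V x)) (v := ej i) i1 i2 i3
    (fun x _ => (hf.differentiable (by norm_num)) x)
    (fun x _ => (hG.differentiable (by norm_num)) x)
  have e1 : Ex V (fun x => pd i f x * g x) =
      ∫ x, fderiv ℝ f x (ej i) * (g x * Real.exp (-V x)) := by
    unfold Ex pd
    congr 1; funext x; ring
  have e2 : Ex V (fun x => f x * (pd i g x - pd i V x * g x)) =
      ∫ x, f x * fderiv ℝ (fun x => g x * Real.exp (-V x)) x (ej i) := by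
    unfold Ex
    congr 1; funext x
    rw [ap_exp_pd hV hg]; ring
  rw [e1, e2, key, neg_neg]

/-- the radial derivative in one coordinate of a strongly convex even potential -/
private lemma ap_coord (hU : UP V κ Λ S) (i : Fin n) (x : Eu n) :
    κ * x i ^ 2 ≤ x i * pd i V x := by
  have hVd : Differentiable ℝ V := hU.cd.differentiable (by norm_num)
  have hd : Differentiable ℝ (fderiv ℝ V) :=
    (hU.cd.fderiv_right (m := 1) (by norm_num)).differentiable (by norm_num)
  set x0 : Eu n := x - x i • ej i with hx0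
  have h0 : pd i V x0 = 0 := by
    apply (hU.even.pd_odd hVd i).zero
    simp [hx0, ej]
  -- the function on the segment
  have hder : ∀ t : ℝ, HasDerivAt (fun t : ℝ => pd i V (x0 + t • (x i • ej i)))
      (fderiv ℝ (fderiv ℝ V) (x0 + t • (x i • ej i)) (x i • ej i) (ej i)) t := by
    intro t
    have h1 : HasDerivAt (fun t : ℝ => x0 + t • (x i • ej i)) (x i • ej i) t := by
      have := ((hasDerivAt_id t).smul_const (x i • (ej i : Eu n))).const_add x0
      simpa using this
    have h2 : HasFDerivAt (fderiv ℝ V) (fderiv ℝ (fderiv ℝ V) (x0 + t • (x i • ej i)))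
      (x0 + t • (x i • ej i)) := (hd _).hasFDerivAt
    have h3 := h2.comp_hasDerivAt t h1
    have h4 := h3.clm_apply (hasDerivAt_const t (ej i : Eu n))
    have e : (fun t : ℝ => pd i V (x0 + t • (x i • ej i))) =
        fun t : ℝ => (fderiv ℝ V ∘ fun t : ℝ => x0 + t • (x i • ej i)) t (ej i) := rfl
    rw [e]
    refine HasDerivAt.congr_deriv h4 ?_
    simp
  obtain ⟨t, ht, he⟩ := exists_hasDerivAt_eq_slope (fun t : ℝ => pd i V (x0 + t • (x i • ej i)))
    (fun t => fderiv ℝ (fderiv ℝ V) (x0 + t • (x i • ej i)) (x i • ej i) (ej i))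
    (zero_lt_one : (0 : ℝ) < 1)
    (continuous_iff_continuousAt.2 fun t => (hder t).continuousAt).continuousOn
    (fun t _ => hder t)
  simp only [zero_smul, add_zero, one_smul, sub_zero, div_one, h0] at he
  have e1 : x0 + x i • ej i = x := by rw [hx0]; abel
  rw [e1] at he
  have h5 := hU.conv (x0 + t • (x i • ej i)) (x i • ej i)
  rw [norm_smul, ej_norm, mul_one, Real.norm_eq_abs, sq_abs] at h5
  have h6 : fderiv ℝ (fderiv ℝ V) (x0 + t • (x i • ej i)) (x i • ej i) (x i • ej i) =
      x i * pd i V x := by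
    rw [← he]
    conv_lhs => rw [map_smul]
    rw [smul_eq_mul]
  rw [h6] at h5
  exact h5

theorem apriori (hU : UP V κ Λ S) : Hodd V (1 / κ) := by
  intro i f hf ho
  have hκ := hU.kpos
  have hV1 : ContDiff ℝ 1 V := hU.cd.of_le (by norm_num)
  have hVc : Continuous V := hV1.continuous
  have hf1 : ContDiff ℝ 1 f := hf.cd.of_le (by norm_num)
  -- Lipschitz bound
  obtain ⟨L, hL⟩ : ∃ L : ℝ≥0, LipschitzWith L f :=
    hf1.lipschitzWith_of_hasCompactSupport hf.cs (by norm_num)
  have hlin : ∀ x, |f x| ≤ L * |x i| := by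
    intro x
    have h1 := hL.dist_le_mul x (x - x i • ej i)
    have h2 : f (x - x i • ej i) = 0 := by
      apply ho.zero
      simp [ej]
    rw [Real.dist_eq, h2, sub_zero, dist_eq_norm] at h1
    have h3 : ‖x - (x - x i • (ej i : Eu n))‖ = |x i| := by
      rw [sub_sub_cancel, norm_smul, ej_norm, mul_one, Real.norm_eq_abs]
    rw [h3] at h1
    exact h1
  -- the key inequality
  have key : ∀ η : ℝ, 0 < η →
      Ex V (fun x => κ * (f x ^ 2 * (x i ^ 2 / (x i ^ 2 + η ^ 2))) -
        f x ^ 2 * (η ^ 2 / (x i ^ 2 + η ^ 2) ^ 2)) ≤ Ex V (fun x => pd i f x ^ 2) := by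
    intro η hη
    have hq : ∀ x : Eu n, 0 < x i ^ 2 + η ^ 2 := fun x => by positivity
    set b : Eu n → ℝ := fun x => x i / (x i ^ 2 + η ^ 2) with hb
    have hci : ContDiff ℝ ∞ (fun x : Eu n => x i) := by
      exact (EuclideanSpace.proj (𝕜 := ℝ) i).contDiff
    have hbc : ContDiff ℝ 1 b := by
      apply ContDiff.div
      · exact hci.of_le (by norm_num)
      · exact ((hci.of_le (by norm_num)).pow 2).add contDiff_const
      · intro x; exact (hq x).ne'
    have hbpd : ∀ x, pd i b x = (η ^ 2 - x i ^ 2) / (x i ^ 2 + η ^ 2) ^ 2 := by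
      intro x
      have h1 : HasFDerivAt (fun x : Eu n => x i) (EuclideanSpace.proj (𝕜 := ℝ) i) x :=
        (EuclideanSpace.proj (𝕜 := ℝ) i).hasFDerivAt
      have h2 : HasDerivAt (fun t : ℝ => t / (t ^ 2 + η ^ 2))
          ((η ^ 2 - x i ^ 2) / (x i ^ 2 + η ^ 2) ^ 2) (x i) := by
        have h3 : HasDerivAt (fun t : ℝ => t ^ 2 + η ^ 2) (2 * x i) (x i) := by
          simpa using (hasDerivAt_pow 2 (x i)).add_const (η ^ 2)
        have h4 := (hasDerivAt_id' (x i)).fun_div h3 (hq x).ne'
        refine HasDerivAt.congr_deriv h4 ?_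
        congr 1
        ring
      have h5 := h2.comp_hasFDerivAt x h1
      have h6 : fderiv ℝ b x = _ := h5.fderiv
      unfold pd
      rw [h6]
      simp [ej]
    have hf2 : TT (fun x => f x ^ 2) := hf.sq
    have hpdf2 : ∀ x, pd i (fun x => f x ^ 2) x = 2 * (f x * pd i f x) := by
      intro x
      have e : (fun x => f x ^ 2) = fun x => f x * f x := by funext x; ring
      rw [e, pd_mul hf.differentiable hf.differentiable]; ring
    have h1 := ap_ibp hV1 hbc (hf2.cd.of_le (by norm_num)) hf2.cs i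
    have hbcont : Continuous b := hbc.continuous
    have hpV : Continuous (pd i V) := (pd_contDiff hV1 (m := 0) (by norm_num) i).continuous
    have hpb : Continuous (pd i b) := (pd_contDiff hbc (m := 0) (by norm_num) i).continuous
    have hfc := hf.continuous
    have hpf := (hf.pd i).continuous
    have hbf : HasCompactSupport (fun x => b x * f x) := hf.cs.mul_left
    -- the pointwise inequality
    have i0 : Integrable (fun x => (κ * (f x ^ 2 * (x i ^ 2 / (x i ^ 2 + η ^ 2))) -
        f x ^ 2 * (η ^ 2 / (x i ^ 2 + η ^ 2) ^ 2)) * Real.exp (-V x)) := by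
      apply int_cs hVc
      · have c1 : Continuous (fun x : Eu n => x i ^ 2 / (x i ^ 2 + η ^ 2)) :=
          ((hci.continuous.pow 2)).div ((hci.continuous.pow 2).add continuous_const)
            fun x => (hq x).ne'
        have c2 : Continuous (fun x : Eu n => η ^ 2 / (x i ^ 2 + η ^ 2) ^ 2) :=
          continuous_const.div (((hci.continuous.pow 2).add continuous_const).pow 2)
            fun x => (pow_pos (hq x) 2).ne'
        exact (continuous_const.mul ((hfc.pow 2).mul c1)).sub ((hfc.pow 2).mul c2)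
      · have e : (fun x => κ * (f x ^ 2 * (x i ^ 2 / (x i ^ 2 + η ^ 2))) -
            f x ^ 2 * (η ^ 2 / (x i ^ 2 + η ^ 2) ^ 2)) =
            fun x => f x * (κ * (f x * (x i ^ 2 / (x i ^ 2 + η ^ 2))) -
            f x * (η ^ 2 / (x i ^ 2 + η ^ 2) ^ 2)) := by
          funext x; ring
        rw [e]
        exact hf.cs.mul_right
    have i1 : Integrable (fun x => (pd i f x ^ 2 + (-(pd i b x * f x ^ 2) -
        b x * (2 * (f x * pd i f x) - pd i V x * f x ^ 2))) * Real.exp (-V x)) := by
      apply int_cs hVc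
      · exact (hpf.pow 2).add ((hpb.mul (hfc.pow 2)).neg.sub
          (hbcont.mul ((continuous_const.mul (hfc.mul hpf)).sub (hpV.mul (hfc.pow 2)))))
      · apply HasCompactSupport.add
        · have e : (fun x => pd i f x ^ 2) = fun x => pd i f x * pd i f x := by funext x; ring
          rw [e]; exact (hf.pd i).cs.mul_right
        · have e : (fun x => (-(pd i b x * f x ^ 2) -
              b x * (2 * (f x * pd i f x) - pd i V x * f x ^ 2))) =
              fun x => f x * (-(pd i b x * f x) -
              b x * (2 * pd i f x - pd i V x * f x)) := by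
            funext x; ring
          rw [e]; exact hf.cs.mul_right
    have h2 : Ex V (fun x => κ * (f x ^ 2 * (x i ^ 2 / (x i ^ 2 + η ^ 2))) -
        f x ^ 2 * (η ^ 2 / (x i ^ 2 + η ^ 2) ^ 2)) ≤
        Ex V (fun x => pd i f x ^ 2 + (-(pd i b x * f x ^ 2) -
        b x * (2 * (f x * pd i f x) - pd i V x * f x ^ 2))) := by
      apply Ex_mono i0 i1
      intro x
      have hc := ap_coord hU i x
      rw [hbpd]
      simp only [hb]
      have hqx := hq x
      have h3 : 0 ≤ (pd i f x - f x * (x i / (x i ^ 2 + η ^ 2))) ^ 2 := sq_nonneg _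
      have h4 : 0 ≤ (x i * pd i V x - κ * x i ^ 2) * f x ^ 2 / (x i ^ 2 + η ^ 2) := by
        apply div_nonneg _ hqx.le
        exact mul_nonneg (by linarith) (sq_nonneg _)
      have e : (pd i f x ^ 2 + (-((η ^ 2 - x i ^ 2) / (x i ^ 2 + η ^ 2) ^ 2 * f x ^ 2) -
          x i / (x i ^ 2 + η ^ 2) * (2 * (f x * pd i f x) - pd i V x * f x ^ 2))) -
          (κ * (f x ^ 2 * (x i ^ 2 / (x i ^ 2 + η ^ 2))) -
            f x ^ 2 * (η ^ 2 / (x i ^ 2 + η ^ 2) ^ 2)) =
          (pd i f x - f x * (x i / (x i ^ 2 + η ^ 2))) ^ 2 +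
          (x i * pd i V x - κ * x i ^ 2) * f x ^ 2 / (x i ^ 2 + η ^ 2) := by
        field_simp
        ring
      linarith
    refine h2.trans (le_of_eq ?_)
    have i2 : Integrable (fun x => pd i f x ^ 2 * Real.exp (-V x)) := ((hf.pd i).sq).int hVc
    have i3 : Integrable (fun x => (pd i b x * f x ^ 2) * Real.exp (-V x)) := by
      apply int_cs hVc (hpb.mul (hfc.pow 2))
      exact hf2.cs.mul_left
    have i4 : Integrable (fun x => (b x * (2 * (f x * pd i f x) - pd i V x * f x ^ 2)) *
        Real.exp (-V x)) := by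
      have c3 : Continuous (fun x => b x * (2 * (f x * pd i f x) - pd i V x * f x ^ 2)) :=
        hbcont.mul ((continuous_const.mul (hfc.mul hpf)).sub (hpV.mul (hfc.pow 2)))
      apply int_cs hVc c3
      have e : (fun x => b x * (2 * (f x * pd i f x) - pd i V x * f x ^ 2)) =
          fun x => f x * (b x * (2 * pd i f x - pd i V x * f x)) := by
        funext x; ring
      rw [e]; exact hf.cs.mul_right
    have i5 : Integrable (fun x => (-(pd i b x * f x ^ 2)) * Real.exp (-V x)) := by
      have := i3.neg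
      refine this.congr (Filter.Eventually.of_forall fun x => ?_)
      simp only [Pi.neg_apply]; ring
    have i6 : Integrable (fun x => (-(pd i b x * f x ^ 2) -
        b x * (2 * (f x * pd i f x) - pd i V x * f x ^ 2)) * Real.exp (-V x)) := by
      have := i5.sub i4
      refine this.congr (Filter.Eventually.of_forall fun x => ?_)
      simp only [Pi.sub_apply]; ring
    rw [Ex_add i2 i6, Ex_sub i5 i4, Ex_neg]
    simp only [hpdf2] at h1
    rw [h1]
    ring
  -- the limit
  have hlim : Tendsto (fun m : ℕ => Ex V (fun x =>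
      κ * (f x ^ 2 * (x i ^ 2 / (x i ^ 2 + (1 / ((m : ℝ) + 1)) ^ 2))) -
        f x ^ 2 * ((1 / ((m : ℝ) + 1)) ^ 2 / (x i ^ 2 + (1 / ((m : ℝ) + 1)) ^ 2) ^ 2))) atTop
      (𝓝 (Ex V (fun x => κ * f x ^ 2))) := by
    have hci : Continuous (fun x : Eu n => x i) := (EuclideanSpace.proj (𝕜 := ℝ) i).continuous
    have hη : ∀ m : ℕ, (0 : ℝ) < 1 / ((m : ℝ) + 1) := fun m => by positivity
    unfold Ex
    apply tendsto_integral_of_dominated_convergence
      (fun x => κ * f x ^ 2 * Real.exp (-V x) +
        (tsupport f).indicator (fun x => (L : ℝ) ^ 2 * Real.exp (-V x)) x)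
    · intro m
      have hq : ∀ x : Eu n, 0 < x i ^ 2 + (1 / ((m : ℝ) + 1)) ^ 2 := fun x => by
        have := hη m
        positivity
      apply Continuous.aestronglyMeasurable
      apply Continuous.mul _ (Real.continuous_exp.comp hVc.neg)
      have c1 : Continuous (fun x : Eu n => x i ^ 2 / (x i ^ 2 + (1 / ((m : ℝ) + 1)) ^ 2)) :=
        (hci.pow 2).div ((hci.pow 2).add continuous_const) fun x => (hq x).ne'
      have c2 : Continuous (fun x : Eu n =>
          (1 / ((m : ℝ) + 1)) ^ 2 / (x i ^ 2 + (1 / ((m : ℝ) + 1)) ^ 2) ^ 2) :=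
        continuous_const.div (((hci.pow 2).add continuous_const).pow 2)
          fun x => (pow_pos (hq x) 2).ne'
      exact (continuous_const.mul ((hf.continuous.pow 2).mul c1)).sub
        ((hf.continuous.pow 2).mul c2)
    · apply Integrable.add
      · have := (hf.sq.const_mul κ).int hVc
        exact this
      · have hcc : Continuous (fun x => (L : ℝ) ^ 2 * Real.exp (-V x)) :=
          continuous_const.mul (Real.continuous_exp.comp hVc.neg)
        exact (integrable_indicator_iff (isClosed_tsupport f).measurableSet).2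
          (hcc.continuousOn.integrableOn_compact hf.cs)
    · intro m
      refine Filter.Eventually.of_forall fun x => ?_
      set η : ℝ := 1 / ((m : ℝ) + 1) with hηd
      have hη0 : 0 < η := hη m
      have hq : 0 < x i ^ 2 + η ^ 2 := by positivity
      have hE := Real.exp_pos (-V x)
      have h1 : 0 ≤ κ * (f x ^ 2 * (x i ^ 2 / (x i ^ 2 + η ^ 2))) := by positivity
      have h2 : κ * (f x ^ 2 * (x i ^ 2 / (x i ^ 2 + η ^ 2))) ≤ κ * f x ^ 2 := by
        have h3 : x i ^ 2 / (x i ^ 2 + η ^ 2) ≤ 1 := by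
          rw [div_le_one hq]; nlinarith [sq_nonneg η]
        have h4 : f x ^ 2 * (x i ^ 2 / (x i ^ 2 + η ^ 2)) ≤ f x ^ 2 * 1 :=
          mul_le_mul_of_nonneg_left h3 (sq_nonneg _)
        rw [mul_one] at h4
        exact mul_le_mul_of_nonneg_left h4 hκ.le
      have h5 : 0 ≤ f x ^ 2 * (η ^ 2 / (x i ^ 2 + η ^ 2) ^ 2) := by positivity
      have h6 : f x ^ 2 * (η ^ 2 / (x i ^ 2 + η ^ 2) ^ 2) ≤
          (tsupport f).indicator (fun _ => (L : ℝ) ^ 2) x := by
        by_cases hx : x ∈ tsupport f
        · rw [indicator_of_mem hx]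
          have h7 : f x ^ 2 ≤ (L : ℝ) ^ 2 * x i ^ 2 := by
            have h8 := hlin x
            have h9 := pow_le_pow_left₀ (abs_nonneg _) h8 2
            rw [sq_abs, mul_pow, sq_abs] at h9
            exact h9
          have h10 : x i ^ 2 * (η ^ 2 / (x i ^ 2 + η ^ 2) ^ 2) ≤ 1 := by
            rw [← mul_div_assoc, div_le_one (by positivity)]
            nlinarith [sq_nonneg (x i), sq_nonneg η, mul_nonneg (sq_nonneg (x i)) (sq_nonneg η),
              sq_nonneg (x i ^ 2), sq_nonneg (η ^ 2)]
          calc f x ^ 2 * (η ^ 2 / (x i ^ 2 + η ^ 2) ^ 2)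
              ≤ ((L : ℝ) ^ 2 * x i ^ 2) * (η ^ 2 / (x i ^ 2 + η ^ 2) ^ 2) :=
                mul_le_mul_of_nonneg_right h7 (by positivity)
            _ = (L : ℝ) ^ 2 * (x i ^ 2 * (η ^ 2 / (x i ^ 2 + η ^ 2) ^ 2)) := by ring
            _ ≤ (L : ℝ) ^ 2 * 1 := mul_le_mul_of_nonneg_left h10 (by positivity)
            _ = (L : ℝ) ^ 2 := mul_one _
        · rw [indicator_of_notMem hx, image_eq_zero_of_notMem_tsupport hx]
          simp
      have e : (tsupport f).indicator (fun x => (L : ℝ) ^ 2 * Real.exp (-V x)) x =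
          (tsupport f).indicator (fun _ => (L : ℝ) ^ 2) x * Real.exp (-V x) := by
        by_cases hx : x ∈ tsupport f
        · rw [indicator_of_mem hx, indicator_of_mem hx]
        · rw [indicator_of_notMem hx, indicator_of_notMem hx, zero_mul]
      rw [e, ← add_mul, norm_mul, Real.norm_eq_abs, Real.norm_eq_abs, abs_of_pos hE]
      apply mul_le_mul_of_nonneg_right _ hE.le
      rw [abs_le]
      constructor <;> linarith
    · refine Filter.Eventually.of_forall fun x => ?_
      apply Tendsto.mul_const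
      by_cases hx : x i = 0
      · have hfx : f x = 0 := ho.zero hx
        simp only [hfx]
        simp
      · have hx2 : x i ^ 2 + (0 : ℝ) ^ 2 ≠ 0 := by
          have : 0 < x i ^ 2 := by positivity
          simp; exact hx
        have hz : Tendsto (fun m : ℕ => 1 / ((m : ℝ) + 1)) atTop (𝓝 0) :=
          tendsto_one_div_add_atTop_nhds_zero_nat
        have hcont : ContinuousAt (fun η : ℝ => κ * (f x ^ 2 * (x i ^ 2 / (x i ^ 2 + η ^ 2))) -
            f x ^ 2 * (η ^ 2 / (x i ^ 2 + η ^ 2) ^ 2)) 0 := by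
          have d1 : ContinuousAt (fun η : ℝ => x i ^ 2 + η ^ 2) 0 := by fun_prop
          have d2 : ContinuousAt (fun η : ℝ => x i ^ 2 / (x i ^ 2 + η ^ 2)) 0 :=
            continuousAt_const.div d1 hx2
          have d3 : ContinuousAt (fun η : ℝ => η ^ 2 / (x i ^ 2 + η ^ 2) ^ 2) 0 :=
            ContinuousAt.div (by fun_prop) (d1.pow 2) (pow_ne_zero 2 hx2)
          exact (continuousAt_const.mul (continuousAt_const.mul d2)).sub
            (continuousAt_const.mul d3)
        have h := hcont.tendsto.comp hz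
        have e : κ * (f x ^ 2 * (x i ^ 2 / (x i ^ 2 + (0 : ℝ) ^ 2))) -
            f x ^ 2 * ((0 : ℝ) ^ 2 / (x i ^ 2 + (0 : ℝ) ^ 2) ^ 2) = κ * f x ^ 2 := by
          have : x i ^ 2 ≠ 0 := pow_ne_zero 2 hx
          rw [show (0 : ℝ) ^ 2 = 0 by norm_num, add_zero, div_self this]
          ring
        rw [e] at h
        exact h
  have h7 : Ex V (fun x => κ * f x ^ 2) ≤ Ex V (fun x => pd i f x ^ 2) :=
    le_of_tendsto' hlim fun m => key _ (by positivity)
  rw [Ex_const_mul] at h7
  have h8 : Ex V (fun x => pd i f x ^ 2) ≤ Df V f f := by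
    unfold Df
    have e : Ex V (fun x => pd i f x ^ 2) = Ex V (fun x => pd i f x * pd i f x) := by
      congr 1; funext x; ring
    rw [e]
    exact Finset.single_le_sum (f := fun j => Ex V (fun x => pd j f x * pd j f x))
      (fun j _ => Ex_nonneg fun x => mul_self_nonneg _) (Finset.mem_univ i)
  rw [one_div, inv_mul_eq_div, le_div_iff₀ hκ]
  linarith

end Pool.Agent.Lib.MP_6d896a_gt.UC
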