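import Pool.Agent.Lib.MP_6d896a_gt.UC.Defs

/-!
Project UC, piece U3a: approximation of `C^2` functions with compact support by test functions.
-/

set_option autoImplicit false

namespace Pool.Agent.Lib.MP_6d896a_gt.UC

open MeasureTheory Filter Topology Set
open scoped ENNReal NNReal ContDiff

variable {n : ℕ}

variable {V : Eu n → ℝ}

private noncomputable def cv (η g : Eu n → ℝ) : Eu n → ℝ :=
  MeasureTheory.convolution η g (ContinuousLinearMap.lsmul ℝ ℝ) volume

private lemma pd_cv {η g : Eu n → ℝ} (hη : Continuous η) (hg : ContDiff ℝ 1 g)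
    (hc : HasCompactSupport g) (i : Fin n) : pd i (cv η g) = cv η (pd i g) := by
  funext x
  have h := hc.hasFDerivAt_convolution_right (ContinuousLinearMap.lsmul ℝ ℝ)
    (hη.locallyIntegrable (μ := volume)) hg x
  unfold pd
  rw [show fderiv ℝ (cv η g) x = _ from h.fderiv]
  rw [convolution_precompR_apply (ContinuousLinearMap.lsmul ℝ ℝ)
    (hη.locallyIntegrable (μ := volume)) (hc.fderiv ℝ) (hg.continuous_fderiv one_ne_zero)]
  rfl

private lemma contDiff_pd {k m : ℕ} {g : Eu n → ℝ} (hg : ContDiff ℝ m g) (hk : k + 1 ≤ m)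
    (i : Fin n) : ContDiff ℝ k (pd i g) := by
  unfold pd
  have h1 : ContDiff ℝ k (fderiv ℝ g) := hg.fderiv_right (by exact_mod_cast hk)
  exact h1.clm_apply contDiff_const

private lemma cs_pd {g : Eu n → ℝ} (hc : HasCompactSupport g) (i : Fin n) :
    HasCompactSupport (pd i g) := hc.fderiv_apply ℝ _

private lemma close {g : Eu n → ℝ} (hg : Continuous g) (hc : HasCompactSupport g) {δ : ℝ}
    (hδ : 0 < δ) : ∃ r > 0, ∀ φ : ContDiffBump (0 : Eu n), φ.rOut ≤ r →
      ∀ x, |cv (φ.normed volume) g x - g x| ≤ δ := by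
  have hu : UniformContinuous g :=
    hg.uniformContinuous_of_tendsto_cocompact hc.is_zero_at_infty
  obtain ⟨r, hr, h⟩ := Metric.uniformContinuous_iff.1 hu δ hδ
  refine ⟨r, hr, fun φ hφ x => ?_⟩
  rw [← Real.dist_eq]
  refine φ.dist_normed_convolution_le hg.aestronglyMeasurable fun y hy => ?_
  exact (h (lt_of_lt_of_le hy hφ)).le

private lemma cv_zero {g : Eu n → ℝ} {R : ℝ} (hg : ∀ x, R < ‖x‖ → g x = 0)
    (φ : ContDiffBump (0 : Eu n)) (hφ : φ.rOut ≤ 1) {x : Eu n} (hx : R + 1 < ‖x‖) :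
    cv (φ.normed volume) g x = 0 := by
  unfold cv convolution
  refine integral_eq_zero_of_ae (ae_of_all _ fun t => ?_)
  dsimp only [Pi.zero_apply]
  by_cases ht : ‖t‖ ≤ 1
  · rw [hg (x - t), map_zero]
    have := norm_sub_norm_le x t
    linarith
  · have h1 : φ.normed volume t = 0 := by
      by_contra h
      have h2 : t ∈ Function.support (φ.normed volume) := h
      rw [φ.support_normed_eq] at h2
      rw [mem_ball_zero_iff] at h2
      linarith
    rw [h1, map_zero]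
    rfl

theorem c2_approx (hV : ContDiff ℝ 1 V) (l : ℝ) {ψ : Eu n → ℝ} (hψ : ContDiff ℝ 2 ψ)
    (hc : HasCompactSupport ψ) {ε : ℝ} (hε : 0 < ε) :
    ∃ φ : Eu n → ℝ, TT φ ∧
      Ex V (fun x => ((l * φ x - LL V φ x) - (l * ψ x - LL V ψ x)) ^ 2) ≤ ε := by
  -- the radius
  obtain ⟨R, hR⟩ : ∃ R : ℝ, ∀ x : Eu n, R < ‖x‖ → x ∉ tsupport ψ := by
    obtain ⟨R, hR⟩ := hc.isCompact.isBounded.exists_norm_le
    exact ⟨R, fun x hx h => not_le.2 hx (hR x h)⟩
  have z0 : ∀ x, R < ‖x‖ → ψ x = 0 := fun x hx => image_eq_zero_of_notMem_tsupport (hR x hx)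
  have z1 : ∀ j x, R < ‖x‖ → pd j ψ x = 0 := by
    intro j x hx
    unfold pd
    rw [fderiv_of_notMem_tsupport (𝕜 := ℝ) (hR x hx)]
    rfl
  have z2 : ∀ j x, R < ‖x‖ → pd j (pd j ψ) x = 0 := by
    intro j x hx
    have h1 : pd j ψ =ᶠ[𝓝 x] fun _ => 0 := by
      have h2 : {y : Eu n | R < ‖y‖} ∈ 𝓝 x :=
        (isOpen_lt continuous_const continuous_norm).mem_nhds hx
      filter_upwards [h2] with y hy using z1 j y hy
    unfold pd at h1 ⊢
    rw [h1.fderiv_eq]
    simp
  -- bound of the gradient of `V`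
  obtain ⟨M, hM⟩ : ∃ M : ℝ, ∀ x : Eu n, ‖x‖ ≤ R + 1 → ∑ j, |pd j V x| ≤ M := by
    have hcont : Continuous fun x : Eu n => ∑ j, |pd j V x| := by
      refine continuous_finsetSum _ fun j _ => ?_
      unfold pd
      exact ((hV.continuous_fderiv one_ne_zero).clm_apply continuous_const).abs
    obtain ⟨M, hM⟩ := (isCompact_closedBall (0 : Eu n) (R + 1)).bddAbove_image hcont.continuousOn
    exact ⟨M, fun x hx => hM ⟨x, by simpa using hx, rfl⟩⟩
  set A : ℝ := |l| + n + max M 0 with hA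
  have hA0 : 0 ≤ A := by positivity
  have hKi : IntegrableOn (fun x => Real.exp (-V x)) (Metric.closedBall (0 : Eu n) (R + 1)) :=
    (Real.continuous_exp.comp hV.continuous.neg).continuousOn.integrableOn_compact
      (isCompact_closedBall _ _)
  set K : ℝ := ∫ x in Metric.closedBall (0 : Eu n) (R + 1), Real.exp (-V x) with hK
  have hK0 : 0 ≤ K := integral_nonneg fun x => (Real.exp_pos _).le
  obtain ⟨δ, hδ, hδ1, hδ2⟩ : ∃ δ : ℝ, 0 < δ ∧ δ ≤ 1 ∧ A ^ 2 * K * δ ≤ ε := by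
    refine ⟨min 1 (ε / (A ^ 2 * K + 1)), by positivity, min_le_left _ _, ?_⟩
    calc A ^ 2 * K * min 1 (ε / (A ^ 2 * K + 1)) ≤ A ^ 2 * K * (ε / (A ^ 2 * K + 1)) := by
          gcongr
          exact min_le_right _ _
      _ = (A ^ 2 * K) / (A ^ 2 * K + 1) * ε := by ring
      _ ≤ 1 * ε := by
          gcongr
          rw [div_le_one (by positivity)]
          linarith
      _ = ε := one_mul ε
  -- regularity of the derivatives
  have c1 : ∀ j, ContDiff ℝ 1 (pd j ψ) := fun j => contDiff_pd (k := 1) (m := 2) hψ (by norm_num) j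
  have c2 : ∀ j, Continuous (pd j (pd j ψ)) := fun j =>
    (contDiff_pd (k := 0) (m := 1) (c1 j) (by norm_num) j).continuous
  have s1 : ∀ j, HasCompactSupport (pd j ψ) := fun j => cs_pd hc j
  have s2 : ∀ j, HasCompactSupport (pd j (pd j ψ)) := fun j => cs_pd (s1 j) j
  -- the radius of the bump
  obtain ⟨r0, hr0, h0⟩ := close hψ.continuous hc hδ
  choose r1 hr1 h1 using fun j => close (c1 j).continuous (s1 j) hδ
  choose r2 hr2 h2 using fun j => close (c2 j) (s2 j) hδ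
  obtain ⟨ρ, hρ, hρ1, hρ0, hρj⟩ : ∃ ρ : ℝ, 0 < ρ ∧ ρ ≤ 1 ∧ ρ ≤ r0 ∧
      ∀ j : Fin n, ρ ≤ r1 j ∧ ρ ≤ r2 j := by
    have key : ∀ r : ℝ, 0 < r → ∀ᶠ ρ in 𝓝[>] (0 : ℝ), ρ ≤ r := fun r hr => by
      filter_upwards [Ioc_mem_nhdsGT hr] with ρ hρ using hρ.2
    have h3 : ∀ᶠ ρ in 𝓝[>] (0 : ℝ), 0 < ρ ∧ ρ ≤ 1 ∧ ρ ≤ r0 ∧
      ∀ j : Fin n, ρ ≤ r1 j ∧ ρ ≤ r2 j := by
      refine Filter.Eventually.and self_mem_nhdsWithin (Filter.Eventually.and (key 1 one_pos)
        (Filter.Eventually.and (key r0 hr0) ?_))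
      rw [Filter.eventually_all]
      exact fun j => (key _ (hr1 j)).and (key _ (hr2 j))
    exact h3.exists
  let b : ContDiffBump (0 : Eu n) := ⟨ρ / 2, ρ, by positivity, by linarith⟩
  have hb : b.rOut = ρ := rfl
  set η : Eu n → ℝ := b.normed volume with hη
  have hηc : Continuous η := (b.contDiff_normed (n := 0)).continuous
  have d1 : ∀ j, pd j (cv η ψ) = cv η (pd j ψ) := fun j => pd_cv hηc (hψ.of_le (by norm_num)) hc j
  have d2 : ∀ j, pd j (cv η (pd j ψ)) = cv η (pd j (pd j ψ)) := fun j =>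
    pd_cv hηc (c1 j) (s1 j) j
  refine ⟨cv η ψ, ⟨?_, ?_⟩, ?_⟩
  · exact b.hasCompactSupport_normed.contDiff_convolution_left _ b.contDiff_normed
      hψ.continuous.locallyIntegrable
  · exact b.hasCompactSupport_normed.convolution _ hc
  set D : Eu n → ℝ := fun x => (l * cv η ψ x - LL V (cv η ψ) x) - (l * ψ x - LL V ψ x) with hD
  have hDeq : ∀ x, D x = l * (cv η ψ x - ψ x) -
      ∑ j, (cv η (pd j (pd j ψ)) x - pd j (pd j ψ) x) +
      ∑ j, pd j V x * (cv η (pd j ψ) x - pd j ψ x) := by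
    intro x
    simp only [hD, LL, d1, d2]
    rw [Finset.sum_sub_distrib]
    simp only [mul_sub]
    rw [Finset.sum_sub_distrib]
    ring
  have hD0 : ∀ x, R + 1 < ‖x‖ → D x = 0 := by
    intro x hx
    have hx' : R < ‖x‖ := by linarith
    rw [hDeq]
    have e0 := cv_zero z0 b (hb ▸ hρ1) hx
    have e1 : ∀ j, cv η (pd j ψ) x = 0 := fun j => cv_zero (z1 j) b (hb ▸ hρ1) hx
    have e2 : ∀ j, cv η (pd j (pd j ψ)) x = 0 := fun j => cv_zero (z2 j) b (hb ▸ hρ1) hx
    simp [e1, e2, z0 x hx', z1 _ x hx', z2 _ x hx', show cv η ψ x = 0 from e0]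
  have hDb : ∀ x, ‖x‖ ≤ R + 1 → |D x| ≤ A * δ := by
    intro x hx
    rw [hDeq]
    have t1 : |l * (cv η ψ x - ψ x)| ≤ |l| * δ := by
      rw [abs_mul]
      exact mul_le_mul_of_nonneg_left (h0 b (hb ▸ hρ0) x) (abs_nonneg _)
    have t2 : |∑ j, (cv η (pd j (pd j ψ)) x - pd j (pd j ψ) x)| ≤ n * δ := by
      refine (Finset.abs_sum_le_sum_abs _ _).trans ?_
      refine (Finset.sum_le_sum fun j _ => h2 j b (hb ▸ (hρj j).2) x).trans ?_
      simp
    have t3 : |∑ j, pd j V x * (cv η (pd j ψ) x - pd j ψ x)| ≤ max M 0 * δ := by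
      refine (Finset.abs_sum_le_sum_abs _ _).trans ?_
      calc ∑ j, |pd j V x * (cv η (pd j ψ) x - pd j ψ x)| ≤ ∑ j, |pd j V x| * δ := by
            refine Finset.sum_le_sum fun j _ => ?_
            rw [abs_mul]
            exact mul_le_mul_of_nonneg_left (h1 j b (hb ▸ (hρj j).1) x) (abs_nonneg _)
        _ = (∑ j, |pd j V x|) * δ := by rw [Finset.sum_mul]
        _ ≤ max M 0 * δ := by
            gcongr
            exact (hM x hx).trans (le_max_left _ _)
    calc |l * (cv η ψ x - ψ x) - ∑ j, (cv η (pd j (pd j ψ)) x - pd j (pd j ψ) x) +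
        ∑ j, pd j V x * (cv η (pd j ψ) x - pd j ψ x)| ≤ |l| * δ + n * δ + max M 0 * δ := by
          refine (abs_add_le _ _).trans (add_le_add ?_ t3)
          exact (abs_sub _ _).trans (add_le_add t1 t2)
      _ = A * δ := by rw [hA]; ring
  -- the integral
  have hle : Ex V (fun x => D x ^ 2) ≤ (A * δ) ^ 2 * K := by
    unfold Ex
    rw [hK, ← integral_const_mul, ← integral_indicator Metric.isClosed_closedBall.measurableSet]
    refine integral_mono_of_nonneg (ae_of_all _ fun x => ?_) ?_ (ae_of_all _ fun x => ?_)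
    · dsimp only [Pi.zero_apply]
      positivity
    · rw [integrable_indicator_iff Metric.isClosed_closedBall.measurableSet]
      exact hKi.const_mul _
    · dsimp only
      by_cases hx : ‖x‖ ≤ R + 1
      · rw [Set.indicator_of_mem (by simpa using hx)]
        refine mul_le_mul_of_nonneg_right ?_ (Real.exp_pos _).le
        rw [← sq_abs]
        exact pow_le_pow_left₀ (abs_nonneg _) (hDb x hx) 2
      · rw [Set.indicator_of_notMem (by simpa using hx), hD0 x (not_le.1 hx)]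
        simp
  refine hle.trans (le_trans ?_ hδ2)
  calc (A * δ) ^ 2 * K = A ^ 2 * K * (δ * δ) := by ring
    _ ≤ A ^ 2 * K * (δ * 1) := by gcongr
    _ = A ^ 2 * K * δ := by ring

end Pool.Agent.Lib.MP_6d896a_gt.UC
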