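import Mathlib
import Pool.Agent.Lib.MP_6d896a_gt.UC.Basic

/-!
Project UC: replacing an odd function by an even one.
-/

set_option autoImplicit false
set_option linter.all false

namespace Pool.Agent.Lib.MP_6d896a_gt.UC

open MeasureTheory Filter Topology Set ProbabilityTheory
open scoped ENNReal NNReal ContDiff

variable {n : ℕ} {V f g u : Eu n → ℝ} {κ Λ S : ℝ} {i j : Fin n}

/-- the regularised quadratic mean -/
noncomputable def evH (η : ℝ) (F G : Eu n → ℝ) (x : Eu n) : ℝ :=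
  Real.sqrt ((F x ^ 2 + G x ^ 2) / 2 + η ^ 2) - η

section evH

variable {η : ℝ} {F G : Eu n → ℝ}

lemma evH_nonneg (hη : 0 < η) (x : Eu n) : 0 ≤ evH η F G x := by
  unfold evH
  have h : η ≤ Real.sqrt ((F x ^ 2 + G x ^ 2) / 2 + η ^ 2) := by
    apply Real.le_sqrt_of_sq_le
    nlinarith [sq_nonneg (F x), sq_nonneg (G x)]
  linarith

lemma evH_zero (hη : 0 < η) {x : Eu n} (hF : F x = 0) (hG : G x = 0) : evH η F G x = 0 := by
  unfold evH
  rw [hF, hG]
  have : ((0 : ℝ) ^ 2 + 0 ^ 2) / 2 + η ^ 2 = η ^ 2 := by ring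
  rw [this, Real.sqrt_sq hη.le]
  ring

lemma evH_pos (hη : 0 < η) (x : Eu n) : 0 < (F x ^ 2 + G x ^ 2) / 2 + η ^ 2 := by positivity

lemma evH_TT (hη : 0 < η) (hF : TT F) (hG : TT G) : TT (evH η F G) := by
  refine ⟨?_, ?_⟩
  · unfold evH
    have h1 : ContDiff ℝ ∞ (fun x => (F x ^ 2 + G x ^ 2) / 2 + η ^ 2) := by
      have := hF.cd
      have := hG.cd
      fun_prop
    exact (h1.sqrt (fun x => (evH_pos hη x).ne')).sub contDiff_const
  · apply HasCompactSupport.intro (K := tsupport F ∪ tsupport G)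
    · exact hF.cs.isCompact.union hG.cs.isCompact
    · intro x hx
      rw [Set.mem_union, not_or] at hx
      exact evH_zero hη (image_eq_zero_of_notMem_tsupport hx.1)
        (image_eq_zero_of_notMem_tsupport hx.2)

lemma evH_pd (hη : 0 < η) (hF : TT F) (hG : TT G) (j : Fin n) (x : Eu n) :
    pd j (evH η F G) x = (F x * pd j F x + G x * pd j G x) /
      (2 * Real.sqrt ((F x ^ 2 + G x ^ 2) / 2 + η ^ 2)) := by
  have dF : HasFDerivAt F (fderiv ℝ F x) x := (hF.differentiable x).hasFDerivAt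
  have dG : HasFDerivAt G (fderiv ℝ G x) x := (hG.differentiable x).hasFDerivAt
  have h1 : HasFDerivAt (fun x => (F x ^ 2 + G x ^ 2) * (1 / 2) + η ^ 2)
      ((1 / 2 : ℝ) • ((2 * F x) • fderiv ℝ F x + (2 * G x) • fderiv ℝ G x)) x := by
    have hF2 : HasFDerivAt (fun x => F x ^ 2) ((2 * F x) • fderiv ℝ F x) x := by
      have := dF.pow 2
      simpa using this
    have hG2 : HasFDerivAt (fun x => G x ^ 2) ((2 * G x) • fderiv ℝ G x) x := by
      have := dG.pow 2
      simpa using this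
    exact ((hF2.add hG2).mul_const (1 / 2)).add_const _
  have h2 := h1.sqrt (by
    have := evH_pos (F := F) (G := G) hη x
    intro h0
    apply this.ne'
    rw [← h0]
    ring)
  have h3 : HasFDerivAt (evH η F G)
      ((1 / (2 * Real.sqrt ((F x ^ 2 + G x ^ 2) * (1 / 2) + η ^ 2))) •
        ((1 / 2 : ℝ) • ((2 * F x) • fderiv ℝ F x + (2 * G x) • fderiv ℝ G x))) x := by
    have := h2.sub_const η
    refine this.congr_of_eventuallyEq ?_
    refine Eventually.of_forall fun y => ?_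
    simp only [evH]
    congr 2
    ring
  unfold pd
  rw [h3.fderiv]
  have e1 : (F x ^ 2 + G x ^ 2) * (1 / 2) + η ^ 2 = (F x ^ 2 + G x ^ 2) / 2 + η ^ 2 := by ring
  rw [e1]
  simp only [ContinuousLinearMap.smul_apply, ContinuousLinearMap.add_apply, smul_eq_mul]
  have hs : 0 < Real.sqrt ((F x ^ 2 + G x ^ 2) / 2 + η ^ 2) := Real.sqrt_pos.2 (evH_pos hη x)
  field_simp

lemma evH_pd_sq (hη : 0 < η) (hF : TT F) (hG : TT G) (j : Fin n) (x : Eu n) :
    pd j (evH η F G) x ^ 2 ≤ (pd j F x ^ 2 + pd j G x ^ 2) / 2 := by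
  rw [evH_pd hη hF hG]
  have hp := evH_pos (F := F) (G := G) hη x
  rw [div_pow, mul_pow, Real.sq_sqrt hp.le, div_le_iff₀ (by positivity)]
  have h1 : (F x * pd j F x + G x * pd j G x) ^ 2 ≤
      (F x ^ 2 + G x ^ 2) * (pd j F x ^ 2 + pd j G x ^ 2) := by
    nlinarith [sq_nonneg (F x * pd j G x - G x * pd j F x)]
  have h2 : 0 ≤ η ^ 2 * (pd j F x ^ 2 + pd j G x ^ 2) := by positivity
  nlinarith

lemma evH_sq (hη : 0 < η) (x : Eu n) :
    (F x ^ 2 + G x ^ 2) / 2 ≤ evH η F G x ^ 2 + 2 * η * (|F x| + |G x|) := by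
  unfold evH
  have hp := evH_pos (F := F) (G := G) hη x
  have h1 : Real.sqrt ((F x ^ 2 + G x ^ 2) / 2 + η ^ 2) ≤ |F x| + |G x| + η := by
    apply Real.sqrt_le_iff.2
    refine ⟨by positivity, ?_⟩
    have := sq_abs (F x)
    have := sq_abs (G x)
    nlinarith [mul_nonneg (abs_nonneg (F x)) (abs_nonneg (G x)),
      mul_nonneg (abs_nonneg (F x)) hη.le, mul_nonneg (abs_nonneg (G x)) hη.le,
      sq_nonneg (F x), sq_nonneg (G x)]
  have h2 := Real.sq_sqrt hp.le
  nlinarith

end evH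

lemma evH_Df (hV : Continuous V) (hVe : Ev V) {η : ℝ} (hη : 0 < η) (hg : TT g) (i : Fin n) :
    Df V (evH η g (fun x => g (Rf i x))) (evH η g (fun x => g (Rf i x))) ≤ Df V g g := by
  have hG := hg.comp_Rf i
  have hH := evH_TT hη hg hG
  have e1 : Df V (evH η g (fun x => g (Rf i x))) (evH η g (fun x => g (Rf i x))) ≤
      ∑ j, Ex V (fun x => (1 / 2) * (pd j g x * pd j g x +
        pd j (fun x => g (Rf i x)) x * pd j (fun x => g (Rf i x)) x)) := by
    unfold Df
    refine Finset.sum_le_sum fun j _ => ?_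
    refine Ex_mono (((hH.pd j).mul (hH.pd j)).int hV) ?_ ?_
    · exact ((((hg.pd j).mul (hg.pd j)).add ((hG.pd j).mul (hG.pd j))).const_mul (1 / 2)).int hV
    · intro x
      have := evH_pd_sq hη hg hG j x
      nlinarith
  have e2 : ∑ j, Ex V (fun x => (1 / 2) * (pd j g x * pd j g x +
        pd j (fun x => g (Rf i x)) x * pd j (fun x => g (Rf i x)) x)) =
      (1 / 2) * (Df V g g + Df V (fun x => g (Rf i x)) (fun x => g (Rf i x))) := by
    unfold Df
    rw [← Finset.sum_add_distrib, Finset.mul_sum]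
    refine Finset.sum_congr rfl fun j _ => ?_
    rw [Ex_const_mul, Ex_add (((hg.pd j).mul (hg.pd j)).int hV)
      (((hG.pd j).mul (hG.pd j)).int hV)]
  rw [e2, Df_comp_Rf hVe hg.differentiable] at e1
  linarith

lemma evH_Ex (hV : Continuous V) (hVe : Ev V) {η : ℝ} (hη : 0 < η) (hg : TT g) (i : Fin n) :
    Ex V (fun x => g x ^ 2) ≤ Ex V (fun x => evH η g (fun x => g (Rf i x)) x ^ 2) +
      4 * η * Ex V (fun x => |g x|) := by
  have hG := hg.comp_Rf i
  have hH := evH_TT hη hg hG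
  have iA : Integrable (fun x => |g x| * Real.exp (-V x)) :=
    int_cs hV hg.continuous.abs hg.cs.abs
  have iB : Integrable (fun x => |g (Rf i x)| * Real.exp (-V x)) :=
    int_cs hV hG.continuous.abs hG.cs.abs
  have i1 : Integrable (fun x => (2 * η * (|g x| + |g (Rf i x)|)) * Real.exp (-V x)) := by
    have := (iA.add iB).const_mul (2 * η)
    refine this.congr (Eventually.of_forall fun x => ?_)
    simp only [Pi.add_apply]
    ring
  have i2 : Integrable (fun x => (1 / 2 * (g x ^ 2 + g (Rf i x) ^ 2)) * Real.exp (-V x)) :=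
    ((hg.sq.add hG.sq).const_mul (1 / 2)).int hV
  have i3 : Integrable (fun x => (evH η g (fun x => g (Rf i x)) x ^ 2) * Real.exp (-V x)) :=
    hH.sq.int hV
  have e1 : Ex V (fun x => 1 / 2 * (g x ^ 2 + g (Rf i x) ^ 2)) ≤
      Ex V (fun x => evH η g (fun x => g (Rf i x)) x ^ 2 + 2 * η * (|g x| + |g (Rf i x)|)) := by
    refine Ex_mono i2 ?_ ?_
    · refine (i3.add i1).congr (Eventually.of_forall fun x => ?_)
      simp only [Pi.add_apply]
      ring
    · intro x
      have := evH_sq (F := g) (G := fun x => g (Rf i x)) hη x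
      linarith
  have e2 : Ex V (fun x => 1 / 2 * (g x ^ 2 + g (Rf i x) ^ 2)) = Ex V (fun x => g x ^ 2) := by
    rw [Ex_const_mul, Ex_add (hg.sq.int hV) (hG.sq.int hV)]
    have := Ex_comp_Rf hVe i (fun x => g x ^ 2)
    rw [this]
    ring
  have e3 : Ex V (fun x => evH η g (fun x => g (Rf i x)) x ^ 2 + 2 * η * (|g x| + |g (Rf i x)|)) =
      Ex V (fun x => evH η g (fun x => g (Rf i x)) x ^ 2) + 4 * η * Ex V (fun x => |g x|) := by
    rw [Ex_add i3 i1, Ex_const_mul, Ex_add iA iB]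
    have := Ex_comp_Rf hVe i (fun x => |g x|)
    rw [this]
    ring
  rw [e2, e3] at e1
  exact e1

/-- replacing an odd function by an even one -/
theorem evenise (hU : UP V κ Λ S) (hf : TT f) (ho : Od i f) {τ : ℝ} (hτ : 0 < τ) :
    ∃ g : Eu n → ℝ, TT g ∧ Ev g ∧ (∀ x, 0 ≤ g x) ∧ (∀ x, x i = 0 → g x = 0) ∧
      Df V g g ≤ Df V f f ∧ Ex V (fun x => f x ^ 2) ≤ Ex V (fun x => g x ^ 2) + τ := by
  classical
  have hV : Continuous V := hU.cd.continuous
  have hVe := hU.even
  -- one step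
  have step : ∀ (h : Eu n → ℝ), TT h → ∀ (j : Fin n) (τ : ℝ), 0 < τ →
      ∃ η : ℝ, 0 < η ∧ Ex V (fun x => h x ^ 2) ≤
        Ex V (fun x => evH η h (fun x => h (Rf j x)) x ^ 2) + τ := by
    intro h hh j τ hτ
    have h0 : 0 ≤ Ex V (fun x => |h x|) := Ex_nonneg fun x => abs_nonneg _
    refine ⟨τ / (4 * (Ex V (fun x => |h x|) + 1)), by positivity, ?_⟩
    have h1 := evH_Ex (V := V) hV hVe (η := τ / (4 * (Ex V (fun x => |h x|) + 1)))
      (by positivity) hh j
    have h2 : 4 * (τ / (4 * (Ex V (fun x => |h x|) + 1))) * Ex V (fun x => |h x|) ≤ τ := by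
      have : 4 * (τ / (4 * (Ex V (fun x => |h x|) + 1))) * Ex V (fun x => |h x|) =
        τ * (Ex V (fun x => |h x|) / (Ex V (fun x => |h x|) + 1)) := by
        field_simp
      rw [this]
      have h3 : Ex V (fun x => |h x|) / (Ex V (fun x => |h x|) + 1) ≤ 1 := by
        rw [div_le_one (by positivity)]
        linarith
      nlinarith
    linarith
  have key : ∀ (s : Finset (Fin n)) (τ : ℝ), 0 < τ → ∃ g : Eu n → ℝ, TT g ∧
      (∀ j ∈ s, ∀ x, g (Rf j x) = g x) ∧ (∀ x, x i = 0 → g x = 0) ∧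
      Df V g g ≤ Df V f f ∧ Ex V (fun x => f x ^ 2) ≤ Ex V (fun x => g x ^ 2) + τ := by
    intro s
    induction s using Finset.induction_on with
    | empty =>
      intro τ hτ
      exact ⟨f, hf, by simp, fun x hx => ho.zero hx, le_refl _, by linarith⟩
    | insert j s hj ih =>
      intro τ hτ
      obtain ⟨h, hh, he, hz, hD, hE⟩ := ih (τ / 2) (by positivity)
      obtain ⟨η, hη, hs⟩ := step h hh j (τ / 2) (by positivity)
      refine ⟨evH η h (fun x => h (Rf j x)), evH_TT hη hh (hh.comp_Rf j), ?_, ?_, ?_, ?_⟩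
      · intro k hk x
        rcases Finset.mem_insert.1 hk with rfl | hk
        · unfold evH
          simp only [Rf_Rf]
          rw [add_comm (h (Rf k x) ^ 2)]
        · unfold evH
          simp only
          rw [Rf_comm j k, he k hk, he k hk]
      · intro x hx
        refine evH_zero hη (hz x hx) ?_
        apply hz
        rw [Rf_apply]
        split_ifs <;> simp [hx]
      · exact (evH_Df hV hVe hη hh j).trans hD
      · linarith
  obtain ⟨h, hh, he, hz, hD, hE⟩ := key Finset.univ (τ / 2) (by positivity)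
  obtain ⟨η, hη, hs⟩ := step h hh i (τ / 2) (by positivity)
  refine ⟨evH η h (fun x => h (Rf i x)), evH_TT hη hh (hh.comp_Rf i), ?_,
    fun x => evH_nonneg hη x, ?_, ?_, ?_⟩
  · intro k x
    unfold evH
    simp only
    rw [Rf_comm i k, he k (Finset.mem_univ k), he k (Finset.mem_univ k)]
  · intro x hx
    refine evH_zero hη (hz x hx) ?_
    apply hz
    rw [Rf_apply]
    split_ifs <;> simp [hx]
  · exact (evH_Df hV hVe hη hh i).trans hD
  · linarith

end Pool.Agent.Lib.MP_6d896a_gt.UC
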