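import Mathlib
import Pool.Agent.Lib.MP_6d896a_gt.UC.Defs

/-!
Project UC, piece U5: iterated integrals of the density in a coordinate direction.
-/

set_option autoImplicit false
set_option linter.all false

namespace Pool.Agent.Lib.MP_6d896a_gt.UC

open MeasureTheory Filter Topology Set
open scoped ENNReal NNReal ContDiff

variable {n : ℕ} {V f g u : Eu n → ℝ} {κ Λ S : ℝ} {i j : Fin n}

lemma fib_coord (i : Fin n) (x : Eu n) (t : ℝ) : (x + t • ej i) i = x i + t := by
  simp [ej]

lemma fib_coord_sub (i : Fin n) (x : Eu n) (t : ℝ) : (x - t • ej i) i = x i - t := by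
  simp [ej]

lemma fib_norm_ej (i : Fin n) : ‖(ej i : Eu n)‖ = 1 := by
  simp [ej]

lemma fib_meas_coord (i : Fin n) : Measurable (fun x : Eu n => x i) :=
  (EuclideanSpace.proj (𝕜 := ℝ) i).measurable

lemma fib_meas_half (i : Fin n) : MeasurableSet {x : Eu n | 0 < x i} :=
  measurableSet_lt measurable_const (fib_meas_coord i)

lemma Tk_meas (hV : Continuous V) (i : Fin n) (k : ℕ) : Measurable (Tk V i k) := by
  induction k with
  | zero =>
    show Measurable fun x => ENNReal.ofReal (Real.exp (-V x))
    exact ENNReal.measurable_ofReal.comp (Real.measurable_exp.comp hV.measurable.neg)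
  | succ k ih =>
    show Measurable fun x => ∫⁻ t in Ioi (0 : ℝ), Tk V i k (x + t • ej i)
    refine Measurable.lintegral_prod_right' (f := fun p : Eu n × ℝ => Tk V i k (p.1 + p.2 • ej i)) ?_
    refine ih.comp (Measurable.add measurable_fst ?_)
    exact measurable_snd.smul_const _

/-- the fundamental theorem of calculus on a line -/
private lemma fib_ftc (hf : ContDiff ℝ 1 f) (hf0 : ∀ x, x i = 0 → f x = 0) {x : Eu n}
    (hx : 0 < x i) : ENNReal.ofReal |f x| ≤
      ∫⁻ t in Ioo (0 : ℝ) (x i), ENNReal.ofReal |pd i f (x - t • ej i)| := by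
  have hpd : Continuous (pd i f) := by
    unfold pd
    exact (hf.continuous_fderiv one_ne_zero).clm_apply continuous_const
  have hc : Continuous (fun t : ℝ => pd i f (x - t • ej i)) := by fun_prop
  have hd : ∀ t : ℝ, HasDerivAt (fun t : ℝ => f (x - t • ej i)) (-(pd i f (x - t • ej i))) t := by
    intro t
    have h1 : HasDerivAt (fun t : ℝ => x - t • ej i) (-(ej i : Eu n)) t := by
      have h2 := ((hasDerivAt_id t).smul_const (ej i : Eu n)).const_sub x
      simpa using h2
    have h3 : HasFDerivAt f (fderiv ℝ f (x - t • ej i)) (x - t • ej i) :=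
      (hf.differentiable one_ne_zero _).hasFDerivAt
    have h4 := h3.comp_hasDerivAt t h1
    rw [map_neg] at h4
    exact h4
  have h1 : ∫ t in (0 : ℝ)..(x i), -(pd i f (x - t • ej i)) =
      f (x - (x i) • ej i) - f (x - (0 : ℝ) • ej i) :=
    intervalIntegral.integral_eq_sub_of_hasDerivAt (fun t _ => hd t)
      (hc.neg.intervalIntegrable _ _)
  rw [hf0 (x - (x i) • ej i) (by rw [fib_coord_sub, sub_self]), zero_smul, sub_zero, zero_sub,
    intervalIntegral.integral_neg, neg_inj] at h1
  rw [← h1]
  have h2 : |∫ t in (0 : ℝ)..(x i), pd i f (x - t • ej i)| ≤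
      ∫ t in (0 : ℝ)..(x i), |pd i f (x - t • ej i)| :=
    intervalIntegral.abs_integral_le_integral_abs hx.le
  refine (ENNReal.ofReal_le_ofReal h2).trans ?_
  rw [intervalIntegral.integral_of_le hx.le, ofReal_integral_eq_lintegral_ofReal,
    ← restrict_Ioo_eq_restrict_Ioc]
  · exact (hc.abs.integrableOn_Icc).mono_set Ioc_subset_Icc_self
  · exact Eventually.of_forall fun t => abs_nonneg _

/-- one integration in the direction `i` -/
theorem Ik_chain (hV : Continuous V) (hf : ContDiff ℝ 1 f) (hf0 : ∀ x, x i = 0 → f x = 0) (k : ℕ) :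
    Ik V i k f ≤ Ik V i (k + 1) (pd i f) := by
  have hpd : Continuous (pd i f) := by
    unfold pd
    exact (hf.continuous_fderiv one_ne_zero).clm_apply continuous_const
  have hTm := Tk_meas hV i k
  set H : Set (Eu n) := {x : Eu n | 0 < x i} with hH
  have hHm : MeasurableSet H := fib_meas_half i
  set F : Eu n → ℝ≥0∞ := H.indicator (fun y => ENNReal.ofReal |pd i f y|) with hF
  have hFm : Measurable F :=
    (ENNReal.measurable_ofReal.comp hpd.abs.measurable).indicator hHm
  -- the pointwise bound
  have h1 : ∀ x ∈ H, ENNReal.ofReal |f x| ≤ ∫⁻ t in Ioi (0 : ℝ), F (x - t • ej i) := by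
    intro x hx
    refine (fib_ftc hf hf0 hx).trans ?_
    rw [← lintegral_indicator measurableSet_Ioo, ← lintegral_indicator measurableSet_Ioi]
    refine lintegral_mono fun t => ?_
    by_cases ht : t ∈ Ioo (0 : ℝ) (x i)
    · have ht' : x - t • ej i ∈ H := by
        show 0 < (x - t • ej i) i
        rw [fib_coord_sub]
        linarith [ht.2]
      rw [indicator_of_mem ht, indicator_of_mem (show t ∈ Ioi (0 : ℝ) from ht.1), hF,
        indicator_of_mem ht']
    · rw [indicator_of_notMem ht]
      exact zero_le
  have hm2 : Measurable (fun p : Eu n × ℝ => p.1 - p.2 • ej i) :=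
    measurable_fst.sub (measurable_snd.smul_const _)
  have hm3 : Measurable (fun p : Eu n × ℝ => p.1 + p.2 • ej i) :=
    measurable_fst.add (measurable_snd.smul_const _)
  calc Ik V i k f = ∫⁻ x in H, ENNReal.ofReal |f x| * Tk V i k x := rfl
    _ ≤ ∫⁻ x in H, (∫⁻ t in Ioi (0 : ℝ), F (x - t • ej i)) * Tk V i k x :=
        setLIntegral_mono' hHm fun x hx => mul_le_mul_left (h1 x hx) _
    _ ≤ ∫⁻ x, (∫⁻ t in Ioi (0 : ℝ), F (x - t • ej i)) * Tk V i k x :=
        setLIntegral_le_lintegral _ _
    _ = ∫⁻ x, ∫⁻ t in Ioi (0 : ℝ), F (x - t • ej i) * Tk V i k x := by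
        refine lintegral_congr fun x => ?_
        rw [lintegral_mul_const]
        have : Measurable (fun t : ℝ => x - t • ej i) :=
          measurable_const.sub (measurable_id.smul_const _)
        exact hFm.comp this
    _ = ∫⁻ t in Ioi (0 : ℝ), ∫⁻ x, F (x - t • ej i) * Tk V i k x := by
        refine lintegral_lintegral_swap (Measurable.aemeasurable ?_)
        exact (hFm.comp hm2).mul (hTm.comp measurable_fst)
    _ = ∫⁻ t in Ioi (0 : ℝ), ∫⁻ y, F y * Tk V i k (y + t • ej i) := by
        refine lintegral_congr fun t => ?_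
        rw [← lintegral_sub_right_eq_self (fun y => F y * Tk V i k (y + t • ej i)) (t • ej i)]
        simp only [sub_add_cancel]
    _ = ∫⁻ y, ∫⁻ t in Ioi (0 : ℝ), F y * Tk V i k (y + t • ej i) := by
        refine (lintegral_lintegral_swap (Measurable.aemeasurable ?_)).symm
        exact (hFm.comp measurable_fst).mul (hTm.comp hm3)
    _ = ∫⁻ y, F y * Tk V i (k + 1) y := by
        refine lintegral_congr fun y => ?_
        rw [lintegral_const_mul]
        · rfl
        · have : Measurable (fun t : ℝ => y + t • ej i) :=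
            measurable_const.add (measurable_id.smul_const _)
          exact hTm.comp this
    _ = ∫⁻ y in H, ENNReal.ofReal |pd i f y| * Tk V i (k + 1) y := by
        rw [← lintegral_indicator hHm]
        refine lintegral_congr fun y => ?_
        by_cases hy : y ∈ H
        · rw [hF, indicator_of_mem hy, indicator_of_mem hy]
        · rw [hF, indicator_of_notMem hy, indicator_of_notMem hy, zero_mul]
    _ = Ik V i (k + 1) (pd i f) := rfl

/-- the inner integral of `Tk_eq` -/
private lemma fib_inner (k : ℕ) (r : ℝ) : ∫⁻ s in Ioi (0 : ℝ),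
    (Ioi (0 : ℝ)).indicator (fun t => ENNReal.ofReal (t ^ k / (k.factorial : ℝ))) (r - s) =
    (Ioi (0 : ℝ)).indicator (fun r => ENNReal.ofReal (r ^ (k + 1) / ((k + 1).factorial : ℝ))) r := by
  have h0 : ∫⁻ s in Ioi (0 : ℝ),
      (Ioi (0 : ℝ)).indicator (fun t => ENNReal.ofReal (t ^ k / (k.factorial : ℝ))) (r - s) =
      ∫⁻ s, (Ioi (0 : ℝ)).indicator (fun _ => (1 : ℝ≥0∞)) s *
        (Ioi (0 : ℝ)).indicator (fun t => ENNReal.ofReal (t ^ k / (k.factorial : ℝ))) (r - s) := by
    rw [← lintegral_indicator measurableSet_Ioi]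
    refine lintegral_congr fun s => ?_
    by_cases hs : s ∈ Ioi (0 : ℝ)
    · rw [indicator_of_mem hs, indicator_of_mem hs, one_mul]
    · rw [indicator_of_notMem hs, indicator_of_notMem hs, zero_mul]
  rw [h0, ← lintegral_sub_left_eq_self _ r]
  simp only [sub_sub_cancel]
  by_cases hr : r ∈ Ioi (0 : ℝ)
  · have hr' : 0 < r := hr
    rw [indicator_of_mem hr]
    have h1 : ∫⁻ s, (Ioi (0 : ℝ)).indicator (fun _ => (1 : ℝ≥0∞)) (r - s) *
        (Ioi (0 : ℝ)).indicator (fun t => ENNReal.ofReal (t ^ k / (k.factorial : ℝ))) s =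
        ∫⁻ s in Ioo (0 : ℝ) r, ENNReal.ofReal (s ^ k / (k.factorial : ℝ)) := by
      rw [← lintegral_indicator measurableSet_Ioo]
      refine lintegral_congr fun s => ?_
      by_cases hs : 0 < s
      · by_cases hs' : s < r
        · rw [indicator_of_mem (show r - s ∈ Ioi (0 : ℝ) from sub_pos.2 hs'),
            indicator_of_mem (show s ∈ Ioi (0 : ℝ) from hs),
            indicator_of_mem (show s ∈ Ioo (0 : ℝ) r from ⟨hs, hs'⟩), one_mul]
        · rw [indicator_of_notMem (show r - s ∉ Ioi (0 : ℝ) from fun h => hs' (sub_pos.1 h)),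
            indicator_of_notMem (show s ∉ Ioo (0 : ℝ) r from fun h => hs' h.2), zero_mul]
      · rw [indicator_of_notMem (show s ∉ Ioi (0 : ℝ) from hs),
          indicator_of_notMem (show s ∉ Ioo (0 : ℝ) r from fun h => hs h.1), mul_zero]
    rw [h1, restrict_Ioo_eq_restrict_Ioc, ← ofReal_integral_eq_lintegral_ofReal,
      ← intervalIntegral.integral_of_le hr'.le]
    · congr 1
      rw [intervalIntegral.integral_div, integral_pow, Nat.factorial_succ]
      push_cast
      have h2 : (k.factorial : ℝ) ≠ 0 := by positivity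
      have h3 : (k : ℝ) + 1 ≠ 0 := by positivity
      rw [zero_pow (Nat.succ_ne_zero k), sub_zero]
      field_simp
    · have hc : Continuous (fun s : ℝ => s ^ k / (k.factorial : ℝ)) := by fun_prop
      exact hc.integrableOn_Icc.mono_set Ioc_subset_Icc_self
    · filter_upwards [self_mem_ae_restrict measurableSet_Ioc] with s hs
      have : 0 < s := hs.1
      show (0 : ℝ) ≤ s ^ k / (k.factorial : ℝ)
      positivity
  · rw [indicator_of_notMem hr]
    rw [← lintegral_zero (μ := (volume : Measure ℝ))]
    refine lintegral_congr fun s => ?_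
    by_cases hs : 0 < s
    · have : ¬ (0 < r - s) := fun h => hr (show 0 < r by linarith)
      rw [indicator_of_notMem (show r - s ∉ Ioi (0 : ℝ) from this), zero_mul]
    · rw [indicator_of_notMem (show s ∉ Ioi (0 : ℝ) from hs), mul_zero]

/-- explicit form of the iterated integrals -/
theorem Tk_eq (hV : Continuous V) (i : Fin n) (k : ℕ) (x : Eu n) :
    Tk V i (k + 1) x = ∫⁻ t in Ioi (0 : ℝ),
      ENNReal.ofReal (t ^ k / (k.factorial : ℝ) * Real.exp (-V (x + t • ej i))) := by
  induction k generalizing x with
  | zero =>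
    show ∫⁻ t in Ioi (0 : ℝ), Tk V i 0 (x + t • ej i) = _
    refine lintegral_congr fun t => ?_
    show ENNReal.ofReal (Real.exp (-V (x + t • ej i))) = _
    simp
  | succ k ih =>
    set E : ℝ → ℝ≥0∞ := fun r => ENNReal.ofReal (Real.exp (-V (x + r • ej i))) with hE
    set G : ℝ → ℝ≥0∞ := (Ioi (0 : ℝ)).indicator
      (fun t => ENNReal.ofReal (t ^ k / (k.factorial : ℝ))) with hG
    have hGm : Measurable G := by
      refine Measurable.indicator ?_ measurableSet_Ioi
      exact ENNReal.measurable_ofReal.comp ((measurable_id.pow_const k).div_const _)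
    have hEm : Measurable E := by
      have hc : Continuous (fun r : ℝ => Real.exp (-V (x + r • ej i))) := by fun_prop
      exact ENNReal.measurable_ofReal.comp hc.measurable
    calc Tk V i (k + 1 + 1) x = ∫⁻ s in Ioi (0 : ℝ), Tk V i (k + 1) (x + s • ej i) := rfl
      _ = ∫⁻ s in Ioi (0 : ℝ), ∫⁻ r, G (r - s) * E r := by
          refine lintegral_congr fun s => ?_
          have h2 := lintegral_sub_right_eq_self (μ := (volume : Measure ℝ))
            (fun t => G t * E (t + s)) s
          simp only [sub_add_cancel] at h2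
          rw [ih, h2, ← lintegral_indicator measurableSet_Ioi]
          refine lintegral_congr fun t => ?_
          by_cases ht : t ∈ Ioi (0 : ℝ)
          · have ht' : (0 : ℝ) < t := ht
            have e1 : x + s • ej i + t • ej i = x + (t + s) • ej i := by
              rw [add_smul]
              abel
            rw [hG, indicator_of_mem ht, indicator_of_mem ht, ← ENNReal.ofReal_mul (by positivity),
              e1]
          · rw [hG, indicator_of_notMem ht, indicator_of_notMem ht, zero_mul]
      _ = ∫⁻ r, ∫⁻ s in Ioi (0 : ℝ), G (r - s) * E r := by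
          refine lintegral_lintegral_swap (Measurable.aemeasurable ?_)
          exact (hGm.comp (measurable_snd.sub measurable_fst)).mul (hEm.comp measurable_snd)
      _ = ∫⁻ r, (Ioi (0 : ℝ)).indicator
          (fun r => ENNReal.ofReal (r ^ (k + 1) / ((k + 1).factorial : ℝ))) r * E r := by
          refine lintegral_congr fun r => ?_
          have hm : Measurable (fun s : ℝ => G (r - s)) :=
            hGm.comp (measurable_const.sub measurable_id)
          rw [lintegral_mul_const _ hm, ← fib_inner k r]
      _ = _ := by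
          rw [← lintegral_indicator measurableSet_Ioi]
          refine lintegral_congr fun r => ?_
          by_cases hr : r ∈ Ioi (0 : ℝ)
          · have hr' : (0 : ℝ) < r := hr
            rw [indicator_of_mem hr, indicator_of_mem hr, ← ENNReal.ofReal_mul (by positivity)]
          · rw [indicator_of_notMem hr, indicator_of_notMem hr, zero_mul]

/-- `V` is convex on the lines -/
lemma UP.line_convex (hU : UP V κ Λ S) (x v : Eu n) :
    ConvexOn ℝ univ (fun t : ℝ => V (x + t • v)) := by
  have hVd : Differentiable ℝ V := hU.cd.differentiable two_ne_zero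
  have hVd2 : Differentiable ℝ (fderiv ℝ V) :=
    (hU.cd.fderiv_right (m := 1) (by norm_num)).differentiable one_ne_zero
  have hl : ∀ t : ℝ, HasDerivAt (fun t : ℝ => x + t • v) v t := by
    intro t
    have h := ((hasDerivAt_id t).smul_const v).const_add x
    simpa using h
  have hd1 : ∀ t : ℝ, HasDerivAt (fun t : ℝ => V (x + t • v)) (fderiv ℝ V (x + t • v) v) t :=
    fun t => (hVd _).hasFDerivAt.comp_hasDerivAt t (hl t)
  have hd2 : ∀ t : ℝ, HasDerivAt (fun t : ℝ => fderiv ℝ V (x + t • v) v)
      (fderiv ℝ (fderiv ℝ V) (x + t • v) v v) t := by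
    intro t
    have h1 : HasDerivAt (fun t : ℝ => fderiv ℝ V (x + t • v))
        (fderiv ℝ (fderiv ℝ V) (x + t • v) v) t :=
      (hVd2 _).hasFDerivAt.comp_hasDerivAt t (hl t)
    have h2 := h1.clm_apply (hasDerivAt_const t v)
    simpa using h2
  have e1 : deriv (fun t : ℝ => V (x + t • v)) = fun t => fderiv ℝ V (x + t • v) v :=
    funext fun t => (hd1 t).deriv
  refine convexOn_univ_of_deriv2_nonneg (fun t => (hd1 t).differentiableAt) ?_ ?_
  · rw [e1]
    exact fun t => (hd2 t).differentiableAt
  · intro t
    have e2 : deriv^[2] (fun t : ℝ => V (x + t • v)) t = fderiv ℝ (fderiv ℝ V) (x + t • v) v v := by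
      show deriv (deriv (fun t : ℝ => V (x + t • v))) t = _
      rw [e1]
      exact (hd2 t).deriv
    rw [e2]
    refine le_trans ?_ (hU.conv _ _)
    have := hU.kpos
    positivity

/-- increments of `V` in a direction increase along this direction -/
lemma UP.line_incr (hU : UP V κ Λ S) (x v : Eu n) {s t : ℝ} (hs : 0 ≤ s) (ht : 0 ≤ t) :
    V (x + t • v) + V (x + s • v) ≤ V (x + (s + t) • v) + V x := by
  rcases eq_or_lt_of_le (add_nonneg hs ht) with h0 | h0
  · have h1 : s = 0 := by linarith
    have h2 : t = 0 := by linarith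
    subst h1 h2
    simp
  have hc := (hU.line_convex x v).2 (mem_univ (s + t)) (mem_univ (0 : ℝ))
  have h1 := hc (a := t / (s + t)) (b := s / (s + t)) (by positivity) (by positivity)
    (by field_simp; ring)
  have h2 := hc (a := s / (s + t)) (b := t / (s + t)) (by positivity) (by positivity)
    (by field_simp)
  simp only [smul_eq_mul, mul_zero, add_zero, zero_smul] at h1 h2
  have e1 : t / (s + t) * (s + t) = t := by field_simp
  have e2 : s / (s + t) * (s + t) = s := by field_simp
  rw [e1] at h1
  rw [e2] at h2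
  have e3 : t / (s + t) = 1 - s / (s + t) := by field_simp; ring
  rw [e3] at h1 h2
  linarith

/-- log-concavity on the lines -/
theorem Tk_mono (hU : UP V κ Λ S) (i : Fin n) (k : ℕ) {x : Eu n} (hx : 0 ≤ x i) :
    Tk V i k x * ENNReal.ofReal (Real.exp (V x)) ≤
      Tk V i k (x - x i • ej i) * ENNReal.ofReal (Real.exp (V (x - x i • ej i))) := by
  cases k with
  | zero =>
    have h1 : ∀ y : Eu n, Tk V i 0 y * ENNReal.ofReal (Real.exp (V y)) = 1 := by
      intro y
      show ENNReal.ofReal (Real.exp (-V y)) * _ = 1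
      rw [← ENNReal.ofReal_mul (Real.exp_pos _).le, ← Real.exp_add, neg_add_cancel, Real.exp_zero,
        ENNReal.ofReal_one]
    rw [h1, h1]
  | succ k =>
    have hVc : Continuous V := hU.cd.continuous
    have h1 : ∀ y : Eu n, Tk V i (k + 1) y * ENNReal.ofReal (Real.exp (V y)) =
        ∫⁻ t in Ioi (0 : ℝ), ENNReal.ofReal (t ^ k / (k.factorial : ℝ) *
          Real.exp (-(V (y + t • ej i) - V y))) := by
      intro y
      rw [Tk_eq hVc, ← lintegral_mul_const]
      · refine setLIntegral_congr_fun measurableSet_Ioi fun t ht => ?_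
        have ht' : (0 : ℝ) < t := ht
        show ENNReal.ofReal _ * ENNReal.ofReal _ = ENNReal.ofReal _
        rw [← ENNReal.ofReal_mul (by positivity), mul_assoc, ← Real.exp_add]
        congr 3
        ring
      · have hc : Continuous (fun t : ℝ => t ^ k / (k.factorial : ℝ) *
          Real.exp (-V (y + t • ej i))) := by fun_prop
        exact ENNReal.measurable_ofReal.comp hc.measurable
    rw [h1, h1]
    refine setLIntegral_mono' measurableSet_Ioi fun t ht => ?_
    have ht' : (0 : ℝ) < t := ht
    refine ENNReal.ofReal_le_ofReal (mul_le_mul_of_nonneg_left ?_ (by positivity))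
    refine Real.exp_le_exp.2 (neg_le_neg ?_)
    have h2 := hU.line_incr (x - x i • ej i) (ej i) hx ht'.le
    rw [add_smul, ← add_assoc, sub_add_cancel] at h2
    linarith

end Pool.Agent.Lib.MP_6d896a_gt.UC
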