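import Mathlib
import Pool.Agent.Lib.MP_6d896a_gt.UC.Fib

/-!
Project UC, piece U6: comparison of integrals on lines, a one-dimensional inequality, and the
square integrals of the iterated integrals of the density.
-/

set_option autoImplicit false
set_option linter.all false

namespace Pool.Agent.Lib.MP_6d896a_gt.UC

open MeasureTheory Filter Topology Set
open scoped ENNReal NNReal ContDiff

variable {n : ℕ} {V f g u : Eu n → ℝ} {κ Λ S : ℝ} {i j : Fin n}

/-- integral over the space as an average of integrals over lines -/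
private lemma line_eq (i : Fin n) {F : Eu n → ℝ≥0∞} (hF : Measurable F) :
    ∫⁻ x, F x = ∫⁻ y : Eu n, (Icc (0 : ℝ) 1).indicator (fun _ => (1 : ℝ≥0∞)) (y i) *
      ∫⁻ t : ℝ, F (y + t • ej i) := by
  set h : ℝ → ℝ≥0∞ := (Icc (0 : ℝ) 1).indicator (fun _ => (1 : ℝ≥0∞)) with hh
  have hhm : Measurable h := measurable_const.indicator measurableSet_Icc
  have hh1 : ∫⁻ t, h t = 1 := by
    rw [hh, lintegral_indicator measurableSet_Icc]
    simp
  have hm3 : Measurable (fun p : Eu n × ℝ => p.1 + p.2 • ej i) :=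
    measurable_fst.add (measurable_snd.smul_const _)
  have hm4 : Measurable (fun p : Eu n × ℝ => h (p.1 i - p.2)) :=
    hhm.comp (((fib_meas_coord i).comp measurable_fst).sub measurable_snd)
  calc ∫⁻ x, F x = ∫⁻ x : Eu n, ∫⁻ t : ℝ, h (x i - t) * F x := by
        refine lintegral_congr fun x => ?_
        have hm : Measurable (fun t : ℝ => h (x i - t)) :=
          hhm.comp (measurable_const.sub measurable_id)
        rw [lintegral_mul_const _ hm, lintegral_sub_left_eq_self h (x i), hh1, one_mul]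
    _ = ∫⁻ t : ℝ, ∫⁻ x : Eu n, h (x i - t) * F x := by
        refine lintegral_lintegral_swap (Measurable.aemeasurable ?_)
        exact hm4.mul (hF.comp measurable_fst)
    _ = ∫⁻ t : ℝ, ∫⁻ y : Eu n, h (y i) * F (y + t • ej i) := by
        refine lintegral_congr fun t => ?_
        rw [← lintegral_sub_right_eq_self (fun y : Eu n => h (y i) * F (y + t • ej i)) (t • ej i)]
        refine lintegral_congr fun x => ?_
        rw [fib_coord_sub, sub_add_cancel]
    _ = ∫⁻ y : Eu n, ∫⁻ t : ℝ, h (y i) * F (y + t • ej i) := by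
        refine (lintegral_lintegral_swap (Measurable.aemeasurable ?_)).symm
        exact (hhm.comp ((fib_meas_coord i).comp measurable_fst)).mul (hF.comp hm3)
    _ = ∫⁻ y : Eu n, h (y i) * ∫⁻ t : ℝ, F (y + t • ej i) := by
        refine lintegral_congr fun y => ?_
        have hm : Measurable (fun t : ℝ => F (y + t • ej i)) :=
          hF.comp (measurable_const.add (measurable_id.smul_const _))
        rw [lintegral_const_mul _ hm]

/-- comparison of integrals on the lines in the direction `i` -/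
theorem line_le (i : Fin n) {F G : Eu n → ℝ≥0∞} (hF : Measurable F) (hG : Measurable G)
    (h : ∀ x : Eu n, ∫⁻ t : ℝ, F (x + t • ej i) ≤ ∫⁻ t : ℝ, G (x + t • ej i)) :
    ∫⁻ x, F x ≤ ∫⁻ x, G x := by
  rw [line_eq i hF, line_eq i hG]
  exact lintegral_mono fun y => mul_le_mul_right (h y) _

private lemma oneD_aux (p : ℝ → ℝ≥0∞) (hp : Measurable p) (hp1 : ∀ t, p t ≤ 1) (q l : ℕ)
    {R m : ℝ} (hR : 0 < R) (hm : R ^ (q + l + 1) = m)
    (hM : ∫⁻ t in Ioi (0 : ℝ), ENNReal.ofReal (t ^ (q + l)) * p t ≤ ENNReal.ofReal m) :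
    ∫⁻ t in Ioi (0 : ℝ), ENNReal.ofReal (t ^ q) * p t ≤ ENNReal.ofReal (2 * R ^ (q + 1)) := by
  have hpm : ∀ j : ℕ, Measurable (fun t : ℝ => ENNReal.ofReal (t ^ j) * p t) := fun j =>
    (ENNReal.measurable_ofReal.comp (measurable_id.pow_const j)).mul hp
  have h1 : ∀ t ∈ Ioi (0 : ℝ), ENNReal.ofReal (t ^ q) * p t ≤
      (Ioc (0 : ℝ) R).indicator (fun _ => ENNReal.ofReal (R ^ q)) t +
        ENNReal.ofReal ((R ^ l)⁻¹) * (ENNReal.ofReal (t ^ (q + l)) * p t) := by
    intro t ht
    have ht' : (0 : ℝ) < t := ht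
    rcases le_or_gt t R with h | h
    · rw [indicator_of_mem (show t ∈ Ioc (0 : ℝ) R from ⟨ht', h⟩)]
      refine le_trans ?_ le_self_add
      calc ENNReal.ofReal (t ^ q) * p t ≤ ENNReal.ofReal (t ^ q) * 1 := mul_le_mul_right (hp1 t) _
        _ = ENNReal.ofReal (t ^ q) := mul_one _
        _ ≤ ENNReal.ofReal (R ^ q) := ENNReal.ofReal_le_ofReal (pow_le_pow_left₀ ht'.le h q)
    · refine le_trans ?_ le_add_self
      rw [← mul_assoc, ← ENNReal.ofReal_mul (by positivity)]
      refine mul_le_mul_left (ENNReal.ofReal_le_ofReal ?_) _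
      rw [pow_add]
      have h2 : R ^ l ≤ t ^ l := pow_le_pow_left₀ hR.le h.le l
      have h3 : 1 ≤ (R ^ l)⁻¹ * t ^ l := by
        rw [← div_eq_inv_mul, le_div_iff₀ (by positivity), one_mul]
        exact h2
      calc t ^ q = t ^ q * 1 := (mul_one _).symm
        _ ≤ t ^ q * ((R ^ l)⁻¹ * t ^ l) := mul_le_mul_of_nonneg_left h3 (by positivity)
        _ = (R ^ l)⁻¹ * (t ^ q * t ^ l) := by ring
  calc ∫⁻ t in Ioi (0 : ℝ), ENNReal.ofReal (t ^ q) * p t
      ≤ ∫⁻ t in Ioi (0 : ℝ), ((Ioc (0 : ℝ) R).indicator (fun _ => ENNReal.ofReal (R ^ q)) t +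
        ENNReal.ofReal ((R ^ l)⁻¹) * (ENNReal.ofReal (t ^ (q + l)) * p t)) :=
        setLIntegral_mono' measurableSet_Ioi h1
    _ = (∫⁻ t in Ioi (0 : ℝ), (Ioc (0 : ℝ) R).indicator (fun _ => ENNReal.ofReal (R ^ q)) t) +
        ENNReal.ofReal ((R ^ l)⁻¹) *
          ∫⁻ t in Ioi (0 : ℝ), ENNReal.ofReal (t ^ (q + l)) * p t := by
        rw [lintegral_add_left (measurable_const.indicator measurableSet_Ioc),
          lintegral_const_mul _ (hpm (q + l))]
    _ ≤ ENNReal.ofReal (R ^ (q + 1)) + ENNReal.ofReal (R ^ (q + 1)) := by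
        refine add_le_add ?_ ?_
        · refine (setLIntegral_le_lintegral _ _).trans ?_
          rw [lintegral_indicator measurableSet_Ioc, lintegral_const, Measure.restrict_apply_univ,
            Real.volume_Ioc, sub_zero, ← ENNReal.ofReal_mul (by positivity), pow_succ]
        · refine (mul_le_mul_right hM _).trans ?_
          rw [← ENNReal.ofReal_mul (by positivity), ← hm]
          refine ENNReal.ofReal_le_ofReal (le_of_eq ?_)
          have h4 : R ^ (q + l + 1) = R ^ l * R ^ (q + 1) := by rw [← pow_add]; congr 1; omega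
          rw [h4, ← mul_assoc, inv_mul_cancel₀ (by positivity), one_mul]
    _ = ENNReal.ofReal (2 * R ^ (q + 1)) := by
        rw [← ENNReal.ofReal_add (by positivity) (by positivity)]
        congr 1
        ring

private lemma oneD' (p : ℝ → ℝ≥0∞) (hp : Measurable p) (hp1 : ∀ t, p t ≤ 1) (k : ℕ) :
    (∫⁻ t in Ioi (0 : ℝ), ENNReal.ofReal (t ^ k) * p t) ^ 2 * (∫⁻ t in Ioi (0 : ℝ), p t) ≤
      8 * ∫⁻ t in Ioi (0 : ℝ), ENNReal.ofReal (t ^ (2 * (k + 1))) * p t := by
  set M := ∫⁻ t in Ioi (0 : ℝ), ENNReal.ofReal (t ^ (2 * (k + 1))) * p t with hM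
  have key : ∀ m : ℝ, 0 < m → M ≤ ENNReal.ofReal m →
      (∫⁻ t in Ioi (0 : ℝ), ENNReal.ofReal (t ^ k) * p t) ^ 2 * (∫⁻ t in Ioi (0 : ℝ), p t) ≤
        8 * ENNReal.ofReal m := by
    intro m hm hMm
    set R : ℝ := m ^ ((2 * k + 3 : ℕ) : ℝ)⁻¹ with hR
    have hR0 : 0 < R := Real.rpow_pos_of_pos hm _
    have hRm : R ^ (2 * k + 3) = m := Real.rpow_inv_natCast_pow hm.le (by omega)
    have h1 := oneD_aux p hp hp1 k (k + 2) (R := R) (m := m) hR0
      (by rw [← hRm]; congr 1; omega)
      (by
        have : k + (k + 2) = 2 * (k + 1) := by omega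
        rw [this]
        exact hMm)
    have h2 := oneD_aux p hp hp1 0 (2 * (k + 1)) (R := R) (m := m) hR0
      (by rw [← hRm]; congr 1; omega)
      (by
        rw [zero_add]
        exact hMm)
    simp only [pow_zero, ENNReal.ofReal_one, one_mul, zero_add, pow_one] at h2
    calc _ ≤ (ENNReal.ofReal (2 * R ^ (k + 1))) ^ 2 * ENNReal.ofReal (2 * R) :=
          mul_le_mul' (pow_le_pow_left' h1 2) h2
      _ = 8 * ENNReal.ofReal m := by
          have h8 : (8 : ℝ≥0∞) = ENNReal.ofReal 8 := by norm_num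
          rw [← ENNReal.ofReal_pow (by positivity), ← ENNReal.ofReal_mul (by positivity), h8,
            ← ENNReal.ofReal_mul (by norm_num), ← hRm]
          congr 1
          ring
  by_cases hMt : M = ⊤
  · rw [hMt, ENNReal.mul_top (by norm_num)]
    exact le_top
  refine ENNReal.le_of_forall_pos_le_add fun ε hε _ => ?_
  have hε' : (0 : ℝ) < ε := hε
  have h1 := key (M.toReal + ε / 8) (by positivity) (by
    rw [ENNReal.ofReal_add ENNReal.toReal_nonneg (by positivity), ENNReal.ofReal_toReal hMt]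
    exact le_self_add)
  refine h1.trans (le_of_eq ?_)
  rw [ENNReal.ofReal_add ENNReal.toReal_nonneg (by positivity), ENNReal.ofReal_toReal hMt, mul_add]
  congr 1
  have h8 : (8 : ℝ≥0∞) = ENNReal.ofReal 8 := by norm_num
  rw [h8, ← ENNReal.ofReal_mul (by norm_num)]
  have : (8 : ℝ) * ((ε : ℝ) / 8) = ε := by ring
  rw [this, ENNReal.ofReal_coe_nnreal]

/-- one-dimensional inequality -/
theorem oneD (p : ℝ → ℝ≥0∞) (hp : Measurable p) (hp1 : ∀ t, p t ≤ 1)
    (hfin : ∫⁻ t in Ioi (0 : ℝ), p t ≠ ⊤) (k : ℕ) :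
    (∫⁻ t in Ioi (0 : ℝ), ENNReal.ofReal (t ^ k) * p t) ^ 2 * (∫⁻ t in Ioi (0 : ℝ), p t) ≤
      8 * ∫⁻ t in Ioi (0 : ℝ), ENNReal.ofReal (t ^ (2 * (k + 1))) * p t :=
  oneD' p hp hp1 k

/-- `V` is at least its value on the hyperplane -/
private lemma V_ge (hU : UP V κ Λ S) (i : Fin n) {x : Eu n} (hx : x i = 0) (t : ℝ) :
    V x ≤ V (x + t • ej i) := by
  have hc := (hU.line_convex x (ej i)).2 (mem_univ t) (mem_univ (-t))
  have h1 := hc (a := 1 / 2) (b := 1 / 2) (by norm_num) (by norm_num) (by norm_num)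
  simp only [smul_eq_mul] at h1
  have e1 : (1 / 2 : ℝ) * t + 1 / 2 * -t = 0 := by ring
  rw [e1, zero_smul, add_zero] at h1
  have e2 : Rf i (x + t • ej i) = x + (-t) • ej i := by
    rw [map_add, map_smul, Rf_ej, smul_neg, ← neg_smul]
    congr 1
    ext k
    rw [Rf_apply]
    by_cases hk : k = i
    · subst hk
      rw [if_pos rfl, hx, neg_zero]
    · rw [if_neg hk]
  have e3 := hU.even i (x + t • ej i)
  rw [e2] at e3
  rw [e3] at h1
  linarith

/-- square integrals of the weights -/
theorem Qk_bound (hU : UP V κ Λ S) (i : Fin n) (k : ℕ) :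
    ∫⁻ x in {x : Eu n | 0 < x i}, Tk V i (k + 1) x ^ 2 * ENNReal.ofReal (Real.exp (V x)) ≤
      ENNReal.ofReal (8 / ((k.factorial : ℝ) ^ 2)) *
        ∫⁻ x in {x : Eu n | 0 < x i},
          ENNReal.ofReal (x i ^ (2 * (k + 1)) * Real.exp (-V x)) := by
  have hVc : Continuous V := hU.cd.continuous
  have hTm := Tk_meas hVc i (k + 1)
  set H : Set (Eu n) := {x : Eu n | 0 < x i} with hH
  have hHm : MeasurableSet H := fib_meas_half i
  have hEm : Measurable (fun x : Eu n => ENNReal.ofReal (Real.exp (V x))) :=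
    ENNReal.measurable_ofReal.comp (Real.measurable_exp.comp hVc.measurable)
  have hGm0 : Measurable (fun x : Eu n => ENNReal.ofReal (x i ^ (2 * (k + 1)) *
      Real.exp (-V x))) :=
    ENNReal.measurable_ofReal.comp (((fib_meas_coord i).pow_const _).mul
      (Real.measurable_exp.comp hVc.measurable.neg))
  rw [← lintegral_const_mul _ hGm0, ← lintegral_indicator hHm, ← lintegral_indicator hHm]
  refine line_le i (((hTm.pow_const 2).mul hEm).indicator hHm)
    ((hGm0.const_mul _).indicator hHm) fun x => ?_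
  -- translate to the point `x₀` on the hyperplane
  set x₀ : Eu n := x - x i • ej i with hx₀
  have hx₀i : x₀ i = 0 := by rw [hx₀, fib_coord_sub, sub_self]
  have htr : ∀ F : Eu n → ℝ≥0∞, ∫⁻ t : ℝ, F (x + t • ej i) = ∫⁻ t : ℝ, F (x₀ + t • ej i) := by
    intro F
    rw [← lintegral_add_right_eq_self (fun t : ℝ => F (x₀ + t • ej i)) (x i)]
    refine lintegral_congr fun t => ?_
    congr 1
    rw [hx₀, add_smul]
    abel
  rw [htr, htr]
  set T₀ := Tk V i (k + 1) x₀ with hT₀
  set p : ℝ → ℝ≥0∞ := fun t => ENNReal.ofReal (Real.exp (-(V (x₀ + t • ej i) - V x₀))) with hp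
  have hpm : Measurable p := by
    have hc : Continuous (fun t : ℝ => Real.exp (-(V (x₀ + t • ej i) - V x₀))) := by fun_prop
    exact ENNReal.measurable_ofReal.comp hc.measurable
  have hp1 : ∀ t, p t ≤ 1 := by
    intro t
    show ENNReal.ofReal (Real.exp (-(V (x₀ + t • ej i) - V x₀))) ≤ 1
    rw [← ENNReal.ofReal_one]
    refine ENNReal.ofReal_le_ofReal ?_
    rw [← Real.exp_zero]
    exact Real.exp_le_exp.2 (by linarith [V_ge hU i hx₀i t])
  have hcoord : ∀ t : ℝ, (x₀ + t • ej i) i = t := by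
    intro t
    rw [fib_coord, hx₀i, zero_add]
  have hA : T₀ * ENNReal.ofReal (Real.exp (V x₀)) = ENNReal.ofReal ((k.factorial : ℝ)⁻¹) *
      ∫⁻ t in Ioi (0 : ℝ), ENNReal.ofReal (t ^ k) * p t := by
    rw [hT₀, Tk_eq hVc, ← lintegral_mul_const, ← lintegral_const_mul]
    · refine setLIntegral_congr_fun measurableSet_Ioi fun t ht => ?_
      have ht' : (0 : ℝ) < t := ht
      show ENNReal.ofReal _ * ENNReal.ofReal _ = ENNReal.ofReal _ * (ENNReal.ofReal _ *
        ENNReal.ofReal _)
      rw [← ENNReal.ofReal_mul (by positivity), ← ENNReal.ofReal_mul (by positivity),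
        ← ENNReal.ofReal_mul (by positivity)]
      congr 1
      have e1 : Real.exp (-(V (x₀ + t • ej i) - V x₀)) =
          Real.exp (-V (x₀ + t • ej i)) * Real.exp (V x₀) := by
        rw [← Real.exp_add]; congr 1; ring
      rw [e1]
      ring
    · exact (ENNReal.measurable_ofReal.comp (measurable_id.pow_const k)).mul hpm
    · have hc : Continuous (fun t : ℝ => t ^ k / (k.factorial : ℝ) *
        Real.exp (-V (x₀ + t • ej i))) := by fun_prop
      exact ENNReal.measurable_ofReal.comp hc.measurable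
  -- the bound on the line
  have hone := oneD' p hpm hp1 k
  have e2 : ENNReal.ofReal (Real.exp (-V x₀)) * ENNReal.ofReal (Real.exp (V x₀)) = 1 := by
    rw [← ENNReal.ofReal_mul (Real.exp_pos _).le, ← Real.exp_add, neg_add_cancel, Real.exp_zero,
      ENNReal.ofReal_one]
  calc ∫⁻ t : ℝ, H.indicator (fun x => Tk V i (k + 1) x ^ 2 *
        ENNReal.ofReal (Real.exp (V x))) (x₀ + t • ej i)
      ≤ ∫⁻ t in Ioi (0 : ℝ), (T₀ * ENNReal.ofReal (Real.exp (V x₀))) ^ 2 *
          (ENNReal.ofReal (Real.exp (-V x₀)) * p t) := by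
        rw [← lintegral_indicator measurableSet_Ioi]
        refine lintegral_mono fun t => ?_
        by_cases ht : t ∈ Ioi (0 : ℝ)
        · have ht' : (0 : ℝ) < t := ht
          have hmem : x₀ + t • ej i ∈ H := by
            show 0 < (x₀ + t • ej i) i
            rw [hcoord]
            exact ht'
          rw [indicator_of_mem ht, indicator_of_mem hmem]
          set y : Eu n := x₀ + t • ej i with hy
          have hm := Tk_mono hU i (k + 1) (x := y) (by rw [hcoord]; exact ht'.le)
          have e3 : y - y i • ej i = x₀ := by rw [hcoord, hy, add_sub_cancel_right]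
          rw [e3, ← hT₀] at hm
          have e4 : ENNReal.ofReal (Real.exp (V y)) * (ENNReal.ofReal (Real.exp (-V x₀)) * p t) =
              1 := by
            show ENNReal.ofReal (Real.exp (V y)) * (ENNReal.ofReal (Real.exp (-V x₀)) *
              ENNReal.ofReal (Real.exp (-(V y - V x₀)))) = 1
            rw [← ENNReal.ofReal_mul (Real.exp_pos _).le, ← ENNReal.ofReal_mul (Real.exp_pos _).le,
              ← Real.exp_add, ← Real.exp_add]
            have : V y + (-V x₀ + -(V y - V x₀)) = 0 := by ring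
            rw [this, Real.exp_zero, ENNReal.ofReal_one]
          calc Tk V i (k + 1) y ^ 2 * ENNReal.ofReal (Real.exp (V y))
              = Tk V i (k + 1) y ^ 2 * ENNReal.ofReal (Real.exp (V y)) *
                (ENNReal.ofReal (Real.exp (V y)) *
                  (ENNReal.ofReal (Real.exp (-V x₀)) * p t)) := by rw [e4, mul_one]
            _ = (Tk V i (k + 1) y * ENNReal.ofReal (Real.exp (V y))) ^ 2 *
                (ENNReal.ofReal (Real.exp (-V x₀)) * p t) := by ring
            _ ≤ _ := mul_le_mul_left (pow_le_pow_left' hm 2) _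
        · have hmem : x₀ + t • ej i ∉ H := by
            intro h
            have : 0 < (x₀ + t • ej i) i := h
            rw [hcoord] at this
            exact ht this
          rw [indicator_of_notMem ht, indicator_of_notMem hmem]
    _ = ENNReal.ofReal (Real.exp (-V x₀)) * (ENNReal.ofReal ((k.factorial : ℝ)⁻¹)) ^ 2 *
          ((∫⁻ t in Ioi (0 : ℝ), ENNReal.ofReal (t ^ k) * p t) ^ 2 *
            ∫⁻ t in Ioi (0 : ℝ), p t) := by
        rw [lintegral_const_mul _ (hpm.const_mul _), lintegral_const_mul _ hpm, hA]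
        ring
    _ ≤ ENNReal.ofReal (Real.exp (-V x₀)) * (ENNReal.ofReal ((k.factorial : ℝ)⁻¹)) ^ 2 *
          (8 * ∫⁻ t in Ioi (0 : ℝ), ENNReal.ofReal (t ^ (2 * (k + 1))) * p t) :=
        mul_le_mul_right hone _
    _ = ∫⁻ t : ℝ, H.indicator (fun x => ENNReal.ofReal (8 / ((k.factorial : ℝ) ^ 2)) *
          ENNReal.ofReal (x i ^ (2 * (k + 1)) * Real.exp (-V x))) (x₀ + t • ej i) := by
        have hmm : Measurable (fun t : ℝ => ENNReal.ofReal (t ^ (2 * (k + 1))) * p t) :=
          (ENNReal.measurable_ofReal.comp (measurable_id.pow_const _)).mul hpm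
        rw [← lintegral_const_mul _ hmm, ← lintegral_const_mul _ (hmm.const_mul _),
          ← lintegral_indicator measurableSet_Ioi]
        refine lintegral_congr fun t => ?_
        by_cases ht : t ∈ Ioi (0 : ℝ)
        · have ht' : (0 : ℝ) < t := ht
          have hmem : x₀ + t • ej i ∈ H := by
            show 0 < (x₀ + t • ej i) i
            rw [hcoord]
            exact ht'
          rw [indicator_of_mem ht, indicator_of_mem hmem, hcoord]
          have h8 : (8 : ℝ≥0∞) = ENNReal.ofReal 8 := by norm_num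
          show ENNReal.ofReal _ * (ENNReal.ofReal _) ^ 2 * (8 * (ENNReal.ofReal _ *
            ENNReal.ofReal (Real.exp (-(V (x₀ + t • ej i) - V x₀))))) =
            ENNReal.ofReal _ * ENNReal.ofReal _
          rw [h8, ← ENNReal.ofReal_pow (by positivity), ← ENNReal.ofReal_mul (by positivity),
            ← ENNReal.ofReal_mul (by positivity), ← ENNReal.ofReal_mul (by positivity),
            ← ENNReal.ofReal_mul (by positivity), ← ENNReal.ofReal_mul (by positivity)]
          congr 1
          have e1 : Real.exp (-V (x₀ + t • ej i)) =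
              Real.exp (-V x₀) * Real.exp (-(V (x₀ + t • ej i) - V x₀)) := by
            rw [← Real.exp_add]; congr 1; ring
          rw [e1]
          field_simp
        · have hmem : x₀ + t • ej i ∉ H := by
            intro h
            have : 0 < (x₀ + t • ej i) i := h
            rw [hcoord] at this
            exact ht this
          rw [indicator_of_notMem ht, indicator_of_notMem hmem]

end Pool.Agent.Lib.MP_6d896a_gt.UC
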