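import Pool.Agent.Lib.MP_6d896a_gt.Sym12
import Pool.Agent.Lib.MP_6d896a_gt.UC.Defs
import Pool.Agent.Lib.MP_6d896a_gt.FP.Tail
import Pool.Agent.Lib.MP_6d896a_gt.FP.PLm

/-!
Project UC, U6m: moments of the coordinates under unconditional log-concave densities.
-/

set_option autoImplicit false

namespace Pool.Agent.Lib.MP_6d896a_gt.UC

open MeasureTheory Filter Topology Set ProbabilityTheory
open scoped ENNReal NNReal ContDiff

variable {n : ℕ} {V : Eu n → ℝ} {κ Λ S : ℝ}

private lemma mom_convex (hU : UP V κ Λ S) (x y : Eu n) {l : ℝ} (h0 : 0 < l) (h1 : l < 1) :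
    V ((1 - l) • x + l • y) ≤ (1 - l) * V x + l * V y := by
  set v := y - x with hv
  have hd1 : Differentiable ℝ V := hU.cd.differentiable (by norm_num)
  have hd2 : Differentiable ℝ (fderiv ℝ V) :=
    (hU.cd.fderiv_right (m := 1) (by norm_num)).differentiable (by norm_num)
  have hline : ∀ t : ℝ, HasDerivAt (fun t : ℝ => x + t • v) v t := fun t => by
    simpa using ((hasDerivAt_id t).smul_const v).const_add x
  have h2 : ∀ t : ℝ, HasDerivAt (fun t : ℝ => V (x + t • v)) (fderiv ℝ V (x + t • v) v) t :=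
    fun t => (hd1 _).hasFDerivAt.comp_hasDerivAt t (hline t)
  have h3 : ∀ t : ℝ, HasDerivAt (fun t : ℝ => fderiv ℝ V (x + t • v) v)
      (fderiv ℝ (fderiv ℝ V) (x + t • v) v v) t := by
    intro t
    have h4 : HasDerivAt (fun t : ℝ => fderiv ℝ V (x + t • v))
        (fderiv ℝ (fderiv ℝ V) (x + t • v) v) t :=
      (hd2 _).hasFDerivAt.comp_hasDerivAt t (hline t)
    exact h4.clm_apply (hasDerivAt_const t v) |>.congr_deriv (by simp)
  have hc : ConvexOn ℝ Set.univ (fun t : ℝ => V (x + t • v)) := by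
    apply convexOn_of_hasDerivWithinAt2_nonneg convex_univ
      (f' := fun t => fderiv ℝ V (x + t • v) v)
      (f'' := fun t => fderiv ℝ (fderiv ℝ V) (x + t • v) v v)
    · exact (continuous_iff_continuousAt.2 fun t => (h2 t).continuousAt).continuousOn
    · exact fun t _ => (h2 t).hasDerivWithinAt
    · exact fun t _ => (h3 t).hasDerivWithinAt
    · intro t _
      exact (mul_nonneg hU.kpos.le (sq_nonneg _)).trans (hU.conv _ _)
  have h5 := hc.2 (Set.mem_univ (0 : ℝ)) (Set.mem_univ (1 : ℝ)) (by linarith : 0 ≤ 1 - l) h0.le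
    (by ring)
  simp only [smul_eq_mul, mul_zero, mul_one, zero_add, zero_smul, add_zero, one_smul] at h5
  have e1 : x + l • v = (1 - l) • x + l • y := by
    rw [hv, smul_sub, sub_smul, one_smul]; abel
  have e2 : x + v = y := by rw [hv]; abel
  rwa [e1, e2] at h5

private lemma mom_plm (hU : UP V κ Λ S) : FP.PLm (tgt V) := by
  have hm : Measurable fun x : Eu n => ENNReal.ofReal (Real.exp (-V x)) :=
    ENNReal.measurable_ofReal.comp (Real.continuous_exp.comp hU.cd.continuous.neg).measurable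
  unfold tgt
  apply (FP.plm_haar volume).withDensity hm
  intro x y l h0 h1
  rw [ENNReal.ofReal_rpow_of_pos (Real.exp_pos _), ENNReal.ofReal_rpow_of_pos (Real.exp_pos _),
    ← ENNReal.ofReal_mul (by positivity), ← Real.exp_mul, ← Real.exp_mul, ← Real.exp_add]
  apply ENNReal.ofReal_le_ofReal
  apply Real.exp_le_exp.2
  have := mom_convex hU x y h0 h1
  linarith

private lemma mom_prob (hU : UP V κ Λ S) : IsProbabilityMeasure (tgt V) := by
  constructor
  unfold tgt
  rw [withDensity_apply _ MeasurableSet.univ, Measure.restrict_univ,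
    ← ofReal_integral_eq_lintegral_ofReal hU.int (Eventually.of_forall fun x => (Real.exp_pos _).le)]
  have := hU.mass
  unfold Ex at this
  simp only [one_mul] at this
  rw [this, ENNReal.ofReal_one]

private lemma mom_lint (hU : UP V κ Λ S) {f : Eu n → ℝ} (hf : Measurable f) :
    ∫⁻ x, ENNReal.ofReal (f x * Real.exp (-V x)) = ∫⁻ x, ENNReal.ofReal (f x) ∂(tgt V) := by
  have hm : Measurable fun x : Eu n => ENNReal.ofReal (Real.exp (-V x)) :=
    ENNReal.measurable_ofReal.comp (Real.continuous_exp.comp hU.cd.continuous.neg).measurable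
  unfold tgt
  rw [lintegral_withDensity_eq_lintegral_mul _ hm hf.ennreal_ofReal]
  refine lintegral_congr fun x => ?_
  rw [Pi.mul_apply, ← ENNReal.ofReal_mul (Real.exp_pos _).le, mul_comm]

/-- moments of the coordinates -/
theorem mom_bound (hU : UP V κ Λ S) (i : Fin n) (k : ℕ) :
    ∫⁻ x, ENNReal.ofReal (x i ^ (2 * k) * Real.exp (-V x)) ≤
      ENNReal.ofReal (4 * ((2 * k).factorial : ℝ) * (64 * S) ^ k) := by
  have hprob := mom_prob hU
  have hmi : Measurable fun x : Eu n => x i := by fun_prop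
  have hS := hU.Spos
  set r := 2 * Real.sqrt S with hr
  have hr0 : 0 < r := by positivity
  have hr2 : r ^ 2 = 4 * S := by
    rw [hr, mul_pow, Real.sq_sqrt hS.le]; norm_num
  -- Chebyshev
  have hK : 3 / 4 ≤ (tgt V).real {x : Eu n | |x i| ≤ r} := by
    have hms : MeasurableSet {x : Eu n | |x i| ≤ r} := measurableSet_le hmi.abs measurable_const
    have hcompl : (tgt V).real {x : Eu n | |x i| ≤ r}ᶜ ≤ 1 / 4 := by
      have h2 : ∫⁻ x, ENNReal.ofReal (x i ^ 2) ∂(tgt V) ≤ ENNReal.ofReal S := by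
        rw [← mom_lint hU (hmi.pow_const 2),
          ← ofReal_integral_eq_lintegral_ofReal (hU.momi i)
            (Eventually.of_forall fun x => by positivity)]
        exact ENNReal.ofReal_le_ofReal (hU.mom i)
      have h3 : ENNReal.ofReal (r ^ 2) * tgt V {x : Eu n | |x i| ≤ r}ᶜ ≤
          ∫⁻ x, ENNReal.ofReal (x i ^ 2) ∂(tgt V) := by
        refine le_trans ?_ (mul_meas_ge_le_lintegral (μ := tgt V)
          (f := fun x : Eu n => ENNReal.ofReal (x i ^ 2)) (hmi.pow_const 2).ennreal_ofReal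
          (ENNReal.ofReal (r ^ 2)))
        gcongr
        intro x hx
        show ENNReal.ofReal (r ^ 2) ≤ ENNReal.ofReal (x i ^ 2)
        apply ENNReal.ofReal_le_ofReal
        have hx' : r < |x i| := not_le.1 hx
        rw [← sq_abs (x i)]
        exact pow_le_pow_left₀ hr0.le hx'.le 2
      have h4 := ENNReal.toReal_mono ENNReal.ofReal_ne_top (h3.trans h2)
      rw [ENNReal.toReal_mul, ENNReal.toReal_ofReal (by positivity),
        ENNReal.toReal_ofReal hS.le, hr2] at h4
      have h5 : 4 * S * (tgt V).real {x : Eu n | |x i| ≤ r}ᶜ ≤ S := h4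
      nlinarith
    have h6 := probReal_compl_eq_one_sub (μ := tgt V) hms
    linarith
  have hexp := FP.PLm.exp_moment (mom_plm hU) (ξ := fun x : Eu n => x i) hmi
    (fun x y l => by simp) hr0 hK
  have hpt : ∀ x : Eu n, ENNReal.ofReal (x i ^ (2 * k)) ≤
      ENNReal.ofReal (((2 * k).factorial : ℝ) * (64 * S) ^ k) *
        ENNReal.ofReal (Real.exp (|x i| / (4 * r))) := by
    intro x
    rw [← ENNReal.ofReal_mul (by positivity)]
    apply ENNReal.ofReal_le_ofReal
    set t := |x i| / (4 * r) with ht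
    have ht0 : 0 ≤ t := by positivity
    have h1 := Real.pow_div_factorial_le_exp t ht0 (2 * k)
    rw [div_le_iff₀ (by positivity)] at h1
    have h2 : x i ^ (2 * k) = t ^ (2 * k) * (64 * S) ^ k := by
      have h3 : |x i| = t * (4 * r) := by rw [ht]; field_simp
      have h4 : x i ^ (2 * k) = |x i| ^ (2 * k) := by
        rw [pow_mul, pow_mul, sq_abs]
      rw [h4, h3, mul_pow, pow_mul (4 * r) 2 k]
      congr 2
      rw [mul_pow, hr2]; ring
    rw [h2]
    calc t ^ (2 * k) * (64 * S) ^ k ≤ (Real.exp t * ((2 * k).factorial : ℝ)) * (64 * S) ^ k :=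
          mul_le_mul_of_nonneg_right h1 (by positivity)
      _ = _ := by ring
  have hev : ∀ x : Eu n, 0 ≤ x i ^ (2 * k) := fun x => by
    rw [pow_mul]; positivity
  rw [mom_lint hU (hmi.pow_const (2 * k))]
  refine (lintegral_mono hpt).trans ?_
  rw [lintegral_const_mul _ (by fun_prop)]
  refine (mul_le_mul_right hexp _).trans (le_of_eq ?_)
  rw [show (4 : ℝ≥0∞) = ENNReal.ofReal 4 by norm_num, ← ENNReal.ofReal_mul (by positivity)]
  congr 1
  ring

private lemma mom_sq_le (k : ℕ) : (k + 1) ^ 2 ≤ 4 * 2 ^ (k + 1) := by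
  induction k with
  | zero => norm_num
  | succ k ih =>
    have h1 : (k + 1 + 1) ^ 2 = (k + 1) ^ 2 + (2 * k + 3) := by ring
    have h2 : k < 2 ^ k := Nat.lt_two_pow_self
    have h3 : 2 ^ (k + 1) = 2 * 2 ^ k := by ring
    have h4 : 2 ^ (k + 1 + 1) = 4 * 2 ^ k := by ring
    rw [h1, h4]
    rw [h3] at ih
    omega

private lemma mom_fac (k : ℕ) : ((2 * (k + 1)).factorial : ℝ) / ((k.factorial : ℝ) ^ 2) ≤
    4 * 8 ^ (k + 1) := by
  rw [div_le_iff₀ (by positivity)]
  have h1 : (2 * (k + 1)).factorial = (k + 1).centralBinom * (k + 1).factorial ^ 2 := by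
    have := Nat.choose_mul_factorial_mul_factorial (n := 2 * (k + 1)) (k := k + 1) (by omega)
    rw [show 2 * (k + 1) - (k + 1) = k + 1 by omega] at this
    rw [Nat.centralBinom, ← this]; ring
  have h2 : (k + 1).centralBinom ≤ 4 ^ (k + 1) := by
    rw [Nat.centralBinom]
    calc (2 * (k + 1)).choose (k + 1) ≤ 2 ^ (2 * (k + 1)) := Nat.choose_le_two_pow _ _
      _ = 4 ^ (k + 1) := by rw [pow_mul]; norm_num
  have h3 : (2 * (k + 1)).factorial ≤ (4 * 8 ^ (k + 1)) * k.factorial ^ 2 := by
    rw [h1, Nat.factorial_succ]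
    calc (k + 1).centralBinom * ((k + 1) * k.factorial) ^ 2
        = (k + 1).centralBinom * (k + 1) ^ 2 * k.factorial ^ 2 := by ring
      _ ≤ 4 ^ (k + 1) * (4 * 2 ^ (k + 1)) * k.factorial ^ 2 := by
          gcongr
          exact mom_sq_le k
      _ = _ := by
          rw [show (8 : ℕ) = 4 * 2 by norm_num, mul_pow]; ring
  exact_mod_cast h3

end Pool.Agent.Lib.MP_6d896a_gt.UC
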