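import Mathlib
import Pool.Agent.Lib.MP_6d896a_gt.UC.Basic
import Pool.Agent.Lib.MP_6d896a_gt.UC.Fib
import Pool.Agent.Lib.MP_6d896a_gt.UC.FibQ
import Pool.Agent.Lib.MP_6d896a_gt.UC.Mom

/-!
Project UC, piece U7: the real-valued package `Jk`.
-/

set_option autoImplicit false
set_option linter.all false

namespace Pool.Agent.Lib.MP_6d896a_gt.UC

open MeasureTheory Filter Topology Set
open scoped ENNReal NNReal ContDiff

variable {n : ℕ} {V f g : Eu n → ℝ} {κ Λ S : ℝ} {i : Fin n}

private lemma jk_mom_sq_le (k : ℕ) : (k + 1) ^ 2 ≤ 4 * 2 ^ (k + 1) := by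
  induction k with
  | zero => norm_num
  | succ k ih =>
    have h1 : (k + 1 + 1) ^ 2 = (k + 1) ^ 2 + 2 * k + 3 := by ring
    have h2 : k < 2 ^ k := Nat.lt_two_pow_self
    have h3 : 2 ^ (k + 1) = 2 * 2 ^ k := by ring
    have h4 : 2 ^ (k + 1 + 1) = 4 * 2 ^ k := by ring
    rw [h1, h4]
    rw [h3] at ih
    omega

private lemma jk_fac (k : ℕ) : ((2 * (k + 1)).factorial : ℝ) / ((k.factorial : ℝ) ^ 2) ≤
    4 * 8 ^ (k + 1) := by
  rw [div_le_iff₀ (by positivity)]
  have h1 : (2 * (k + 1)).factorial = (k + 1).centralBinom * (k + 1).factorial ^ 2 := by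
    have := Nat.choose_mul_factorial_mul_factorial (n := 2 * (k + 1)) (k := k + 1) (by omega)
    rw [show 2 * (k + 1) - (k + 1) = k + 1 by omega] at this
    rw [Nat.centralBinom, ← this]; ring
  have h2 : (k + 1).centralBinom ≤ 4 ^ (k + 1) := by
    rw [Nat.centralBinom]
    calc (2 * (k + 1)).choose (k + 1) ≤ 2 ^ (2 * (k + 1)) := Nat.choose_le_two_pow _ _
      _ = 4 ^ (k + 1) := by rw [pow_mul]; norm_num
  have h3 : (2 * (k + 1)).factorial ≤ (4 * 8 ^ (k + 1)) * k.factorial ^ 2 := by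
    rw [h1, Nat.factorial_succ]
    calc (k + 1).centralBinom * ((k + 1) * k.factorial) ^ 2
        = (k + 1).centralBinom * (k + 1) ^ 2 * k.factorial ^ 2 := by ring
      _ ≤ 4 ^ (k + 1) * (4 * 2 ^ (k + 1)) * k.factorial ^ 2 := by
          gcongr
          exact jk_mom_sq_le k
      _ = _ := by
          rw [show (8 : ℕ) = 4 * 2 by norm_num, mul_pow]; ring
  exact_mod_cast h3

private theorem jk_Q_final (hU : UP V κ Λ S) (i : Fin n) (k : ℕ) :
    ∫⁻ x in {x : Eu n | 0 < x i}, Tk V i (k + 1) x ^ 2 * ENNReal.ofReal (Real.exp (V x)) ≤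
      ENNReal.ofReal (128 * (512 * S) ^ (k + 1)) := by
  have hS := hU.Spos
  refine (Qk_bound hU i k).trans ?_
  refine (mul_le_mul' le_rfl ((setLIntegral_le_lintegral _ _).trans
    (mom_bound hU i (k + 1)))).trans ?_
  rw [← ENNReal.ofReal_mul (by positivity)]
  refine ENNReal.ofReal_le_ofReal ?_
  have h1 : 8 / ((k.factorial : ℝ) ^ 2) * (4 * ((2 * (k + 1)).factorial : ℝ) *
      (64 * S) ^ (k + 1)) =
      32 * (((2 * (k + 1)).factorial : ℝ) / ((k.factorial : ℝ) ^ 2)) * (64 * S) ^ (k + 1) := by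
    ring
  rw [h1]
  calc 32 * (((2 * (k + 1)).factorial : ℝ) / ((k.factorial : ℝ) ^ 2)) * (64 * S) ^ (k + 1)
      ≤ 32 * (4 * 8 ^ (k + 1)) * (64 * S) ^ (k + 1) := by
        gcongr
        exact jk_fac k
    _ = 128 * (512 * S) ^ (k + 1) := by
        have h2 : (512 * S) ^ (k + 1) = 8 ^ (k + 1) * (64 * S) ^ (k + 1) := by
          rw [← mul_pow]; congr 1; ring
        rw [h2]; ring

private lemma jk_bound (hU : UP V κ Λ S) (hf : Continuous f) (hc : HasCompactSupport f)
    (i : Fin n) (k : ℕ) :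
    Ik V i (k + 1) f ≤ ENNReal.ofReal
      (Real.sqrt (128 * (512 * S) ^ (k + 1)) * Real.sqrt (Ex V (fun x => f x ^ 2))) := by
  have hV : Continuous V := hU.cd.continuous
  have hT := Tk_meas hV i (k + 1)
  have hS := hU.Spos
  set s : Set (Eu n) := {x | 0 < x i} with hs
  set A : Eu n → ℝ≥0∞ := fun x => ENNReal.ofReal (|f x| * Real.exp (-V x / 2)) with hA
  set B : Eu n → ℝ≥0∞ := fun x => Tk V i (k + 1) x * ENNReal.ofReal (Real.exp (V x / 2)) with hB
  have hAm : Measurable A :=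
    ((hf.abs.mul (Real.continuous_exp.comp (hV.neg.div_const 2))).measurable).ennreal_ofReal
  have hBm : Measurable B :=
    hT.mul ((Real.continuous_exp.comp (hV.div_const 2)).measurable).ennreal_ofReal
  have hAB : ∀ x, (A * B) x = ENNReal.ofReal |f x| * Tk V i (k + 1) x := by
    intro x
    show ENNReal.ofReal (|f x| * Real.exp (-V x / 2)) *
      (Tk V i (k + 1) x * ENNReal.ofReal (Real.exp (V x / 2))) = _
    rw [ENNReal.ofReal_mul (abs_nonneg _)]
    have h1 : ENNReal.ofReal (Real.exp (-V x / 2)) * ENNReal.ofReal (Real.exp (V x / 2)) = 1 := by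
      rw [← ENNReal.ofReal_mul (Real.exp_pos _).le, ← Real.exp_add]
      have : -V x / 2 + V x / 2 = 0 := by ring
      rw [this, Real.exp_zero, ENNReal.ofReal_one]
    calc ENNReal.ofReal |f x| * ENNReal.ofReal (Real.exp (-V x / 2)) *
        (Tk V i (k + 1) x * ENNReal.ofReal (Real.exp (V x / 2)))
        = ENNReal.ofReal |f x| * Tk V i (k + 1) x *
          (ENNReal.ofReal (Real.exp (-V x / 2)) * ENNReal.ofReal (Real.exp (V x / 2))) := by ring
      _ = _ := by rw [h1, mul_one]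
  have hH := ENNReal.lintegral_mul_le_Lp_mul_Lq (volume.restrict s)
    (Real.holderConjugate_iff.mpr ⟨by norm_num, by norm_num⟩ : (2 : ℝ).HolderConjugate 2)
    hAm.aemeasurable hBm.aemeasurable
  have e1 : Ik V i (k + 1) f = ∫⁻ x in s, (A * B) x := by
    unfold Ik
    exact lintegral_congr fun x => (hAB x).symm
  -- first factor
  have hi : Integrable (fun x => f x ^ 2 * Real.exp (-V x)) :=
    int_cs hV (hf.pow 2) (hc.comp_left (g := fun t : ℝ => t ^ 2) (by simp))
  have hA2 : ∫⁻ x in s, A x ^ (2 : ℝ) ≤ ENNReal.ofReal (Ex V (fun x => f x ^ 2)) := by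
    have e2 : ∀ x, A x ^ (2 : ℝ) = ENNReal.ofReal (f x ^ 2 * Real.exp (-V x)) := by
      intro x
      show ENNReal.ofReal (|f x| * Real.exp (-V x / 2)) ^ (2 : ℝ) = _
      rw [ENNReal.ofReal_rpow_of_nonneg (by positivity) (by norm_num), Real.rpow_ofNat, mul_pow,
        sq_abs, ← Real.exp_nat_mul]
      congr 3
      push_cast
      ring
    refine (setLIntegral_le_lintegral s _).trans ?_
    simp only [e2]
    unfold Ex
    rw [← ofReal_integral_eq_lintegral_ofReal hi (ae_of_all _ fun x => by positivity)]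
  have hB2 : ∫⁻ x in s, B x ^ (2 : ℝ) ≤ ENNReal.ofReal (128 * (512 * S) ^ (k + 1)) := by
    have e2 : ∀ x, B x ^ (2 : ℝ) = Tk V i (k + 1) x ^ 2 * ENNReal.ofReal (Real.exp (V x)) := by
      intro x
      show (Tk V i (k + 1) x * ENNReal.ofReal (Real.exp (V x / 2))) ^ (2 : ℝ) = _
      rw [show ((2 : ℝ)) = ((2 : ℕ) : ℝ) by norm_num, ENNReal.rpow_natCast, mul_pow,
        ← ENNReal.ofReal_pow (Real.exp_pos _).le, ← Real.exp_nat_mul]
      congr 3
      push_cast
      ring
    simp only [e2]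
    exact jk_Q_final hU i k
  rw [e1]
  refine hH.trans ?_
  refine (mul_le_mul' (ENNReal.rpow_le_rpow hA2 (by norm_num))
    (ENNReal.rpow_le_rpow hB2 (by norm_num))).trans ?_
  have hE0 : 0 ≤ Ex V (fun x => f x ^ 2) := integral_nonneg fun x => by positivity
  rw [ENNReal.ofReal_rpow_of_nonneg hE0 (by norm_num),
    ENNReal.ofReal_rpow_of_nonneg (by positivity) (by norm_num),
    ← ENNReal.ofReal_mul (Real.rpow_nonneg hE0 _), ← Real.sqrt_eq_rpow, ← Real.sqrt_eq_rpow,
    mul_comm]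

private lemma jk_ne_top (hU : UP V κ Λ S) (hf : Continuous f) (hc : HasCompactSupport f)
    (i : Fin n) (k : ℕ) : Ik V i (k + 1) f ≠ ⊤ :=
  ne_top_of_le_ne_top ENNReal.ofReal_ne_top (jk_bound hU hf hc i k)

theorem J_cs (hU : UP V κ Λ S) (hf : Continuous f) (hc : HasCompactSupport f) (i : Fin n) (k : ℕ) :
    Jk V i (k + 1) f ≤
      Real.sqrt (128 * (512 * S) ^ (k + 1)) * Real.sqrt (Ex V (fun x => f x ^ 2)) :=
  ENNReal.toReal_le_of_le_ofReal (by positivity) (jk_bound hU hf hc i k)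

theorem J_chain (hU : UP V κ Λ S) (hf : TT f) (hf0 : ∀ x, x i = 0 → f x = 0) (k : ℕ) :
    Jk V i k f ≤ Jk V i (k + 1) (pd i f) := by
  have hp : TT (pd i f) := hf.pd i
  exact ENNReal.toReal_mono (jk_ne_top hU hp.continuous hp.cs i k)
    (Ik_chain hU.cd.continuous (hf.cd.of_le (by norm_num)) hf0 k)

private lemma jk_hyper (i : Fin n) : (volume : Measure (Eu n)) {x | x i = 0} = 0 := by
  have h := Measure.addHaar_submodule (volume : Measure (Eu n))
    (LinearMap.ker ((EuclideanSpace.proj i : Eu n →L[ℝ] ℝ) : Eu n →ₗ[ℝ] ℝ)) (by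
      intro htop
      have h1 : (ej i : Eu n) ∈
          LinearMap.ker ((EuclideanSpace.proj i : Eu n →L[ℝ] ℝ) : Eu n →ₗ[ℝ] ℝ) := by
        rw [htop]; trivial
      simp [ej] at h1)
  refine le_antisymm (le_trans (measure_mono fun x hx => ?_) h.le) bot_le
  simpa using hx

theorem J_zero (hU : UP V κ Λ S) (hf : TT f) (he : ∀ x, f (Rf i x) = f x) :
    Ex V (fun x => |f x|) = 2 * Jk V i 0 f := by
  have hV : Continuous V := hU.cd.continuous
  have hfc : Continuous f := hf.continuous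
  set F : Eu n → ℝ := fun x => |f x| * Real.exp (-V x) with hF
  have hFi : Integrable F := int_cs hV hfc.abs (hf.cs.comp_left (g := fun t : ℝ => |t|) (by simp))
  set s : Set (Eu n) := {x | 0 < x i} with hs
  have hsm : MeasurableSet s := measurableSet_lt measurable_const (by fun_prop)
  have hme : MeasurableEmbedding (Rf i : Eu n → Eu n) := (Rf i).toHomeomorph.measurableEmbedding
  have h1 := ((Rf i).measurePreserving).setIntegral_preimage_emb hme F s
  have hFR : ∀ x, F (Rf i x) = F x := by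
    intro x
    show |f (Rf i x)| * Real.exp (-V (Rf i x)) = _
    rw [he, hU.even i x]
  simp only [hFR] at h1
  have hpre : (Rf i : Eu n → Eu n) ⁻¹' s = {x | x i < 0} := by
    ext x
    simp [hs, Rf_apply]
  rw [hpre] at h1
  have h2 : ∫ x in sᶜ, F x = ∫ x in {x : Eu n | x i < 0}, F x := by
    refine setIntegral_congr_set ?_
    have h3 : sᶜ = {x : Eu n | x i < 0} ∪ {x | x i = 0} := by
      ext x
      simp only [hs, mem_compl_iff, mem_setOf_eq, not_lt, mem_union]
      exact le_iff_lt_or_eq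
    rw [h3]
    exact union_ae_eq_left_of_ae_eq_empty (ae_eq_empty.2 (jk_hyper i))
  have h4 : Ex V (fun x => |f x|) = ∫ x, F x := rfl
  have h5 : Jk V i 0 f = ∫ x in s, F x := by
    unfold Jk Ik
    have e2 : ∀ x, ENNReal.ofReal |f x| * Tk V i 0 x = ENNReal.ofReal (F x) := by
      intro x
      show ENNReal.ofReal |f x| * ENNReal.ofReal (Real.exp (-V x)) = _
      rw [← ENNReal.ofReal_mul (abs_nonneg _)]
    simp only [e2]
    rw [← ofReal_integral_eq_lintegral_ofReal hFi.integrableOn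
      (ae_of_all _ fun x => by positivity),
      ENNReal.toReal_ofReal (integral_nonneg fun x => by positivity)]
  rw [h4, ← integral_add_compl hsm hFi, h2, h1, h5]
  ring

theorem J_sub (hU : UP V κ Λ S) (hf : Continuous f) (hc : HasCompactSupport f)
    (hg : Continuous g) (hd : HasCompactSupport g) (i : Fin n) (k : ℕ) :
    Jk V i (k + 1) f ≤ Jk V i (k + 1) g + Jk V i (k + 1) (fun x => f x - g x) := by
  have hV : Continuous V := hU.cd.continuous
  have hT := Tk_meas hV i (k + 1)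
  have h1 := jk_ne_top hU hg hd i k
  have h2 : Ik V i (k + 1) (fun x => f x - g x) ≠ ⊤ := jk_ne_top hU (hf.sub hg) (hc.sub hd) i k
  unfold Jk
  rw [← ENNReal.toReal_add h1 h2]
  refine ENNReal.toReal_mono (ENNReal.add_ne_top.2 ⟨h1, h2⟩) ?_
  have hm : Measurable fun x => ENNReal.ofReal |g x| * Tk V i (k + 1) x :=
    hg.abs.measurable.ennreal_ofReal.mul hT
  have h3 : Ik V i (k + 1) g + Ik V i (k + 1) (fun x => f x - g x) =
      ∫⁻ x in {x : Eu n | 0 < x i}, (ENNReal.ofReal |g x| * Tk V i (k + 1) x +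
        ENNReal.ofReal |f x - g x| * Tk V i (k + 1) x) :=
    (lintegral_add_left hm _).symm
  rw [h3]
  unfold Ik
  refine lintegral_mono fun x => ?_
  show ENNReal.ofReal |f x| * Tk V i (k + 1) x ≤ ENNReal.ofReal |g x| * Tk V i (k + 1) x +
    ENNReal.ofReal |f x - g x| * Tk V i (k + 1) x
  rw [← add_mul, ← ENNReal.ofReal_add (abs_nonneg _) (abs_nonneg _)]
  refine mul_le_mul_left (ENNReal.ofReal_le_ofReal ?_) _
  have := abs_add_le (g x) (f x - g x)
  rwa [add_sub_cancel] at this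

theorem J_mono (hU : UP V κ Λ S) (hg : Continuous g) (hd : HasCompactSupport g)
    (h : ∀ x, |f x| ≤ |g x|) (i : Fin n) (k : ℕ) :
    Jk V i (k + 1) f ≤ Jk V i (k + 1) g := by
  refine ENNReal.toReal_mono (jk_ne_top hU hg hd i k) ?_
  unfold Ik
  refine lintegral_mono fun x => ?_
  exact mul_le_mul_left (ENNReal.ofReal_le_ofReal (h x)) _

end Pool.Agent.Lib.MP_6d896a_gt.UC
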