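import Mathlib
import Pool.Agent.Lib.MP_6d896a_gt.UC.Basic
import Pool.Agent.Lib.MP_6d896a_gt.UC.Ibp
import Pool.Agent.Lib.MP_6d896a_gt.UC.Bochner
import Pool.Agent.Lib.MP_6d896a_gt.UC.Esa

/-!
Project UC, piece U4: the regularisation step.
-/

set_option autoImplicit false
set_option linter.unusedVariables false

namespace Pool.Agent.Lib.MP_6d896a_gt.UC

open MeasureTheory Filter Topology Set
open scoped ENNReal NNReal ContDiff

variable {n : ℕ} {V f g u : Eu n → ℝ} {κ Λ S : ℝ} {i j : Fin n}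

/-- continuous functions with compact support -/
private def StCC (f : Eu n → ℝ) : Prop := Continuous f ∧ HasCompactSupport f

private lemma StCC.of (hf : TT f) : StCC f := ⟨hf.continuous, hf.cs⟩

private lemma StCC.add (hf : StCC f) (hg : StCC g) : StCC (fun x => f x + g x) :=
  ⟨hf.1.add hg.1, hf.2.add hg.2⟩

private lemma StCC.cmul (hf : StCC f) (c : ℝ) : StCC (fun x => c * f x) :=
  ⟨continuous_const.mul hf.1, hf.2.mul_left⟩

private lemma StCC.sub (hf : StCC f) (hg : StCC g) : StCC (fun x => f x - g x) := by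
  have h := hf.add (hg.cmul (-1))
  have e : (fun x => f x + -1 * g x) = fun x => f x - g x := by
    funext x; ring
  rw [e] at h
  exact h

private lemma StCC.mul (hf : StCC f) (hg : StCC g) : StCC (fun x => f x * g x) :=
  ⟨hf.1.mul hg.1, hf.2.mul_right⟩

private lemma StCC.sq (hf : StCC f) : StCC (fun x => f x ^ 2) := by
  have h := hf.mul hf
  have e : (fun x => f x * f x) = fun x => f x ^ 2 := by
    funext x; ring
  rw [e] at h
  exact h

private lemma StCC.int (hf : StCC f) (hV : Continuous V) :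
    Integrable (fun x => f x * Real.exp (-V x)) := int_cs hV hf.1 hf.2

private lemma st_add (hV : Continuous V) (hf : StCC f) (hg : StCC g) :
    Ex V (fun x => f x + g x) = Ex V f + Ex V g := Ex_add (hf.int hV) (hg.int hV)

private lemma st_sub (hV : Continuous V) (hf : StCC f) (hg : StCC g) :
    Ex V (fun x => f x - g x) = Ex V f - Ex V g := Ex_sub (hf.int hV) (hg.int hV)

/-- Cauchy-Schwarz -/
private lemma st_cs (hV : Continuous V) (hf : StCC f) (hg : StCC g) :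
    |Ex V (fun x => f x * g x)| ≤
      Real.sqrt (Ex V (fun x => f x ^ 2)) * Real.sqrt (Ex V (fun x => g x ^ 2)) := by
  rw [← Real.sqrt_mul (Ex_nonneg fun x => sq_nonneg _)]
  exact Real.abs_le_sqrt (Ex_cs (hf.sq.int hV) (hg.sq.int hV) ((hf.mul hg).int hV))

/-- the square of the mean -/
private lemma st_mean (hU : UP V κ Λ S) (hf : StCC f) :
    (Ex V f) ^ 2 ≤ Ex V (fun x => f x ^ 2) := by
  have hV : Continuous V := hU.cd.continuous
  have h := Ex_cs (V := V) (f := f) (g := fun _ => (1 : ℝ)) (hf.sq.int hV)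
    (by simpa using hU.int) (by simpa using hf.int hV)
  have e1 : (fun x : Eu n => (fun _ : Eu n => (1 : ℝ)) x ^ 2) = fun _ => 1 := by
    funext x; norm_num
  have e2 : (fun x : Eu n => f x * (fun _ : Eu n => (1 : ℝ)) x) = f := by
    funext x; simp
  rw [e1, e2, hU.mass, mul_one] at h
  exact h

private lemma st_mean' (hU : UP V κ Λ S) (hf : StCC f) :
    |Ex V f| ≤ Real.sqrt (Ex V (fun x => f x ^ 2)) := Real.abs_le_sqrt (st_mean hU hf)

/-- the real numbers of the regularisation step -/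
private lemma st_real {l ε δ B mu mg mr uu gg gu ru rg rr a cc e Q : ℝ} (hl : 0 < l)
    (hR0 : mr = l * mu - 2 * l * mg) (hRu : ru = l * uu + a - 2 * l * gu)
    (hRg : rg = l * gu + cc - 2 * l * gg)
    (hQ : Q = l ^ 2 * uu + 4 * l ^ 2 * gg + rr - 4 * l ^ 2 * gu - 2 * l * ru + 4 * l * rg)
    (hX2 : l * (gg - 2 * gu + uu - (mg - mu) ^ 2) ≤ e - 2 * cc + a)
    (hX1 : l * (uu - mu ^ 2) ≤ a)
    (hV : (mg - mu) ^ 2 ≤ gg - 2 * gu + uu)
    (hru : |ru| ≤ δ * B) (hmr : |mr| ≤ δ) (hmu : |mu| ≤ B) (hmg : |mg| ≤ B)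
    (hrg : |rg| ≤ δ * B) (hrr : rr ≤ δ ^ 2) (hδ : 0 < δ) (hB : 0 < B)
    (hε : δ * (8 * B + 8 * l * B + 1) ≤ ε) (hδ1 : δ ≤ 1) :
    e - 2 * cc + a ≤ e - l * (gg - mg ^ 2) + ε ∧
      Q - l * a ≤ l * (e - l * (gg - mg ^ 2)) + ε ∧
      a ≤ l * gg + ε := by
  have h1 : |mr * mu| ≤ δ * B := by
    rw [abs_mul]; exact mul_le_mul hmr hmu (abs_nonneg _) hδ.le
  have h2 : |mr * mg| ≤ δ * B := by
    rw [abs_mul]; exact mul_le_mul hmr hmg (abs_nonneg _) hδ.le
  rw [abs_le] at h1 h2 hru hrg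
  have hδB : 0 < δ * B := mul_pos hδ hB
  have hlδB : 0 < l * (δ * B) := mul_pos hl hδB
  have hV' : 0 ≤ l * (gg - 2 * gu + uu - (mg - mu) ^ 2) :=
    mul_nonneg hl.le (by linarith)
  -- covariances
  obtain ⟨R1, hR1⟩ : ∃ R1, R1 = ru - mr * mu := ⟨_, rfl⟩
  obtain ⟨R2, hR2⟩ : ∃ R2, R2 = rg - mr * mg := ⟨_, rfl⟩
  have b1 : R1 ≤ 2 * (δ * B) := by rw [hR1]; linarith [h1.1, hru.2]
  have b1' : -(2 * (δ * B)) ≤ R1 := by rw [hR1]; linarith [h1.2, hru.1]
  have b2 : R2 ≤ 2 * (δ * B) := by rw [hR2]; linarith [h2.1, hrg.2]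
  have b2' : -(2 * (δ * B)) ≤ R2 := by rw [hR2]; linarith [h2.2, hrg.1]
  have hε' : 8 * (δ * B) + 8 * (l * (δ * B)) + δ ≤ ε := by
    calc 8 * (δ * B) + 8 * (l * (δ * B)) + δ = δ * (8 * B + 8 * l * B + 1) := by ring
      _ ≤ ε := hε
  refine ⟨?_, ?_, ?_⟩
  · have id1 : 2 * cc - a - l * (gg - mg ^ 2) =
        3 * (l * (gg - 2 * gu + uu - (mg - mu) ^ 2)) + (a - l * (uu - mu ^ 2))
          + 2 * R2 - 2 * R1 := by
      rw [hR1, hR2, hRu, hRg, hR0]; ring
    linarith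
  · have id2 : Q - l * a = l * (e - l * (gg - mg ^ 2))
        - l * ((e - 2 * cc + a) - l * (gg - 2 * gu + uu - (mg - mu) ^ 2))
          + 2 * (l * R2) - 2 * (l * R1) + (rr - mr ^ 2) := by
      rw [hQ, hR1, hR2, hRu, hRg, hR0]; ring
    have c1 : l * R2 ≤ l * (2 * (δ * B)) := mul_le_mul_of_nonneg_left b2 hl.le
    have c2 : l * (-(2 * (δ * B))) ≤ l * R1 := mul_le_mul_of_nonneg_left b1' hl.le
    have c3 : 0 ≤ l * ((e - 2 * cc + a) - l * (gg - 2 * gu + uu - (mg - mu) ^ 2)) :=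
      mul_nonneg hl.le (by linarith)
    have c4 : δ ^ 2 ≤ δ := by nlinarith
    have c5 : 0 ≤ mr ^ 2 := sq_nonneg _
    have c6 : l * (2 * (δ * B)) = 2 * (l * (δ * B)) := by ring
    have c7 : l * (-(2 * (δ * B))) = -(2 * (l * (δ * B))) := by ring
    rw [c6] at c1
    rw [c7] at c2
    linarith
  · have id3 : a = l * (gg - mg ^ 2) - l * (gg - 2 * gu + uu - (mg - mu) ^ 2) + R1 := by
      rw [hR1, hRu, hR0]; ring
    have c5 : 0 ≤ l * mg ^ 2 := mul_nonneg hl.le (sq_nonneg _)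
    have c6 : l * (gg - mg ^ 2) = l * gg - l * mg ^ 2 := by ring
    rw [c6] at id3
    linarith

/-- the regularisation step, `l = 1 / c` -/
theorem step0 (hU : UP V κ Λ S) {c : ℝ} (hc : 0 < c) (hO : Hodd V c) (hE : Hev V c) (hg : TT g)
    (hge : Ev g) {ε : ℝ} (hε : 0 < ε) :
    ∃ u : Eu n → ℝ, TT u ∧ Ev u ∧
      Df V (fun x => g x - u x) (fun x => g x - u x) ≤ Sf V (1 / c) g + ε ∧
      (∑ j, (Df V (pd j u) (pd j u) - (1 / c) * Ex V (fun x => pd j u x ^ 2))) ≤
        (1 / c) * Sf V (1 / c) g + ε ∧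
      Df V u u ≤ (1 / c) * Ex V (fun x => g x ^ 2) + ε := by
  have hV : Continuous V := hU.cd.continuous
  have hV1 : ContDiff ℝ 1 V := hU.cd.of_le (by norm_num)
  set l : ℝ := 1 / c with hldef
  have hl : 0 < l := by rw [hldef]; positivity
  have hlc : l * c = 1 := by rw [hldef]; field_simp
  obtain ⟨G, hG⟩ : ∃ G, G = Real.sqrt (Ex V (fun x => g x ^ 2)) := ⟨_, rfl⟩
  have hG0 : 0 ≤ G := by rw [hG]; exact Real.sqrt_nonneg _
  obtain ⟨B, hBdef⟩ : ∃ B, B = 2 * G + 1 / l := ⟨_, rfl⟩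
  have hB : 0 < B := by rw [hBdef]; positivity
  obtain ⟨D, hDdef⟩ : ∃ D, D = 8 * B + 8 * l * B + 1 := ⟨_, rfl⟩
  have hD : 0 < D := by rw [hDdef]; positivity
  obtain ⟨δ, hδdef⟩ : ∃ δ, δ = ε / (D + ε) := ⟨_, rfl⟩
  have hδ : 0 < δ := by rw [hδdef]; positivity
  have hδ1 : δ ≤ 1 := by
    rw [hδdef, div_le_one (by positivity)]; linarith
  have hδε : δ * D ≤ ε := by
    rw [hδdef, div_mul_eq_mul_div, div_le_iff₀ (by positivity)]
    nlinarith
  have hg2 : TT (fun x => 2 * l * g x) := hg.const_mul (2 * l)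
  have hge2 : Ev (fun x => 2 * l * g x) := fun i x => by
    show 2 * l * g (Rf i x) = 2 * l * g x
    rw [hge i x]
  obtain ⟨u, hu, hue, hres⟩ := esa_even hU.cd hU.even hl hg2 hge2 (pow_pos hδ 2)
  obtain ⟨r, hr⟩ : ∃ r : Eu n → ℝ, r = fun x => l * u x - LL V u x - 2 * l * g x := ⟨_, rfl⟩
  have cu : StCC u := StCC.of hu
  have cg : StCC g := StCC.of hg
  have cL : StCC (LL V u) := LL_cont hV1 hu
  have cr : StCC r := by
    rw [hr]; exact ((cu.cmul l).sub cL).sub (cg.cmul (2 * l))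
  -- the mean of r
  have hLL0 : Ex V (LL V u) = 0 := Ex_LL hV1 hu
  have hR0 : Ex V r = l * Ex V u - 2 * l * Ex V g := by
    rw [hr, st_sub hV ((cu.cmul l).sub cL) (cg.cmul (2 * l)), st_sub hV (cu.cmul l) cL,
      Ex_const_mul, Ex_const_mul, hLL0]
    ring
  -- green
  have hgr : ∀ ψ : Eu n → ℝ, TT ψ → Ex V (fun x => r x * ψ x) =
      l * Ex V (fun x => u x * ψ x) + Df V u ψ - 2 * l * Ex V (fun x => g x * ψ x) := by
    intro ψ hψ
    have cψ : StCC ψ := StCC.of hψ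
    have e1 : (fun x => r x * ψ x) = fun x => (l * (u x * ψ x) - LL V u x * ψ x)
        - 2 * l * (g x * ψ x) := by
      funext x; rw [hr]; ring
    rw [e1, st_sub hV (((cu.mul cψ).cmul l).sub (cL.mul cψ)) ((cg.mul cψ).cmul (2 * l)),
      st_sub hV ((cu.mul cψ).cmul l) (cL.mul cψ), Ex_const_mul, Ex_const_mul,
      green hV1 hu hψ]
    ring
  have hRu : Ex V (fun x => r x * u x) = l * Ex V (fun x => u x ^ 2) + Df V u u
      - 2 * l * Ex V (fun x => g x * u x) := by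
    have h := hgr u hu
    have e1 : (fun x => u x * u x) = fun x => u x ^ 2 := by funext x; ring
    rw [e1] at h
    exact h
  have hRg : Ex V (fun x => r x * g x) = l * Ex V (fun x => g x * u x) + Df V g u
      - 2 * l * Ex V (fun x => g x ^ 2) := by
    have h := hgr g hg
    have e1 : (fun x => g x * g x) = fun x => g x ^ 2 := by funext x; ring
    have e2 : (fun x => u x * g x) = fun x => g x * u x := by funext x; ring
    rw [e1, e2, Df_comm] at h
    exact h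
  have hrr : Ex V (fun x => r x ^ 2) ≤ δ ^ 2 := by
    rw [hr]; exact hres
  -- the second moment of L u
  have hQ : Ex V (fun x => LL V u x ^ 2) = l ^ 2 * Ex V (fun x => u x ^ 2)
      + 4 * l ^ 2 * Ex V (fun x => g x ^ 2) + Ex V (fun x => r x ^ 2)
      - 4 * l ^ 2 * Ex V (fun x => g x * u x) - 2 * l * Ex V (fun x => r x * u x)
      + 4 * l * Ex V (fun x => r x * g x) := by
    have e1 : (fun x => LL V u x ^ 2) = fun x => ((((l ^ 2 * u x ^ 2 + 4 * l ^ 2 * g x ^ 2)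
        + r x ^ 2) - 4 * l ^ 2 * (g x * u x)) - 2 * l * (r x * u x)) + 4 * l * (r x * g x) := by
      funext x; rw [hr]; ring
    have c1 := cu.sq.cmul (l ^ 2)
    have c2 := cg.sq.cmul (4 * l ^ 2)
    have c3 := cr.sq
    have c4 := (cg.mul cu).cmul (4 * l ^ 2)
    have c5 := (cr.mul cu).cmul (2 * l)
    have c6 := (cr.mul cg).cmul (4 * l)
    rw [e1, st_add hV ((((c1.add c2).add c3).sub c4).sub c5) c6,
      st_sub hV (((c1.add c2).add c3).sub c4) c5, st_sub hV ((c1.add c2).add c3) c4,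
      st_add hV (c1.add c2) c3, st_add hV c1 c2, Ex_const_mul, Ex_const_mul, Ex_const_mul,
      Ex_const_mul, Ex_const_mul]
  -- the Poincare inequality for even functions
  have hX : ∀ ψ : Eu n → ℝ, TT ψ → Ev ψ →
      l * (Ex V (fun x => ψ x ^ 2) - (Ex V ψ) ^ 2) ≤ Df V ψ ψ := by
    intro ψ hψ hψe
    have h := mul_le_mul_of_nonneg_left (hE ψ hψ hψe) hl.le
    rw [← mul_assoc, hlc, one_mul] at h
    exact h
  have hgu : TT (fun x => g x - u x) := hg.sub hu
  have hgue : Ev (fun x => g x - u x) := fun i x => by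
    show g (Rf i x) - u (Rf i x) = g x - u x
    rw [hge i x, hue i x]
  have hvar : Ex V (fun x => (g x - u x) ^ 2) = Ex V (fun x => g x ^ 2)
      - 2 * Ex V (fun x => g x * u x) + Ex V (fun x => u x ^ 2) := by
    have e1 : (fun x => (g x - u x) ^ 2) = fun x => (g x ^ 2 - 2 * (g x * u x)) + u x ^ 2 := by
      funext x; ring
    rw [e1, st_add hV (cg.sq.sub ((cg.mul cu).cmul 2)) cu.sq,
      st_sub hV cg.sq ((cg.mul cu).cmul 2), Ex_const_mul]
  have hmean : Ex V (fun x => g x - u x) = Ex V g - Ex V u := st_sub hV cg cu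
  have hX1 := hX u hu hue
  have hX2 := hX _ hgu hgue
  rw [hvar, hmean, Df_sub hV hg hu] at hX2
  have hVn := st_mean hU (cg.sub cu)
  rw [hvar, hmean] at hVn
  -- bounds
  obtain ⟨sr, hsr⟩ : ∃ s, s = Real.sqrt (Ex V (fun x => r x ^ 2)) := ⟨_, rfl⟩
  obtain ⟨su, hsu⟩ : ∃ s, s = Real.sqrt (Ex V (fun x => u x ^ 2)) := ⟨_, rfl⟩
  have hsr0 : 0 ≤ sr := by rw [hsr]; exact Real.sqrt_nonneg _
  have hsu0 : 0 ≤ su := by rw [hsu]; exact Real.sqrt_nonneg _
  have hsrδ : sr ≤ δ := by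
    rw [hsr]; exact (Real.sqrt_le_sqrt hrr).trans (by rw [Real.sqrt_sq hδ.le])
  have hsu2 : su ^ 2 = Ex V (fun x => u x ^ 2) := by
    rw [hsu]; exact Real.sq_sqrt (Ex_nonneg fun x => sq_nonneg _)
  have hru1 : |Ex V (fun x => r x * u x)| ≤ sr * su := by
    rw [hsr, hsu]; exact st_cs hV cr cu
  have hrg1 : |Ex V (fun x => r x * g x)| ≤ sr * G := by
    rw [hsr, hG]; exact st_cs hV cr cg
  have hgu1 : |Ex V (fun x => g x * u x)| ≤ G * su := by
    rw [hsu, hG]; exact st_cs hV cg cu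
  have hsuB : su ≤ B := by
    by_cases h0 : su = 0
    · rw [h0]; exact hB.le
    have hpos : 0 < su := lt_of_le_of_ne hsu0 (Ne.symm h0)
    have hDf : 0 ≤ Df V u u := Df_nonneg V u
    rw [← hsu2] at hRu
    have h1 : l * su ^ 2 ≤ sr * su + 2 * l * (G * su) := by
      have h2 := le_abs_self (Ex V (fun x => r x * u x))
      have h3 := le_abs_self (Ex V (fun x => g x * u x))
      have h4 : 2 * l * Ex V (fun x => g x * u x) ≤ 2 * l * (G * su) :=
        mul_le_mul_of_nonneg_left (h3.trans hgu1) (by positivity)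
      linarith
    have h5 : l * su ≤ sr + 2 * l * G := by
      have h6 : (l * su) * su ≤ (sr + 2 * l * G) * su := by nlinarith
      exact le_of_mul_le_mul_right h6 hpos
    have h7 : l * su ≤ l * B := by
      have h8 : l * B = 2 * l * G + 1 := by
        rw [hBdef]; field_simp
      rw [h8]; linarith
    exact le_of_mul_le_mul_left h7 hl
  have hGB : G ≤ B := by
    rw [hBdef]
    have : 0 < 1 / l := by positivity
    linarith
  have hru : |Ex V (fun x => r x * u x)| ≤ δ * B :=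
    hru1.trans (mul_le_mul hsrδ hsuB hsu0 hδ.le)
  have hrg : |Ex V (fun x => r x * g x)| ≤ δ * B :=
    hrg1.trans (mul_le_mul hsrδ hGB hG0 hδ.le)
  have hmr : |Ex V r| ≤ δ := (st_mean' hU cr).trans (by rw [← hsr]; exact hsrδ)
  have hmu : |Ex V u| ≤ B := (st_mean' hU cu).trans (by rw [← hsu]; exact hsuB)
  have hmg : |Ex V g| ≤ B := (st_mean' hU cg).trans (by rw [← hG]; exact hGB)
  have hDε : δ * (8 * B + 8 * l * B + 1) ≤ ε := by rw [← hDdef]; exact hδε
  have hfin := st_real hl hR0 hRu hRg hQ hX2 hX1 hVn hru hmr hmu hmg hrg hrr hδ hB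
    hDε hδ1
  obtain ⟨f1, f2, f3⟩ := hfin
  refine ⟨u, hu, hue, ?_, ?_, f3⟩
  · rw [Df_sub hV hg hu]
    exact f1
  · have hb := bochner hU.cd (fun x v => le_trans (by have := hU.kpos; positivity)
      (hU.conv x v)) hu
    have e1 : ∑ j, (Df V (pd j u) (pd j u) - l * Ex V (fun x => pd j u x ^ 2)) =
        ∑ j, Df V (pd j u) (pd j u) - l * Df V u u := by
      rw [Finset.sum_sub_distrib, ← Finset.mul_sum, Df]
      congr 2
      refine Finset.sum_congr rfl fun j _ => ?_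
      congr 1
      funext x
      ring
    rw [e1]
    have f2' : Ex V (fun x => LL V u x ^ 2) - l * Df V u u ≤ l * Sf V l g + ε := f2
    linarith

end Pool.Agent.Lib.MP_6d896a_gt.UC
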