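import Mathlib
import Pool.Agent.Lib.MP_6d896a_gt.UC.Basic
import Pool.Agent.Lib.MP_6d896a_gt.UC.Step
import Pool.Agent.Lib.MP_6d896a_gt.UC.Jk

/-!
One step of the iteration.
-/

set_option autoImplicit false

namespace Pool.Agent.Lib.MP_6d896a_gt.UC

open MeasureTheory Filter Topology Set ProbabilityTheory
open scoped ENNReal NNReal ContDiff

variable {n : ℕ} {V f g u : Eu n → ℝ} {κ Λ S : ℝ} {i : Fin n}

/-- smooth absolute value -/
noncomputable def sab (η : ℝ) (v : Eu n → ℝ) (x : Eu n) : ℝ := Real.sqrt (v x ^ 2 + η ^ 2) - η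

lemma sab_nonneg {η : ℝ} (hη : 0 < η) (v : Eu n → ℝ) (x : Eu n) : 0 ≤ sab η v x := by
  unfold sab
  have : η ≤ Real.sqrt (v x ^ 2 + η ^ 2) := by
    apply Real.le_sqrt_of_sq_le
    nlinarith [sq_nonneg (v x)]
  linarith

lemma sab_le {η : ℝ} (hη : 0 < η) (v : Eu n → ℝ) (x : Eu n) : sab η v x ≤ |v x| := by
  unfold sab
  have : Real.sqrt (v x ^ 2 + η ^ 2) ≤ |v x| + η := by
    apply Real.sqrt_le_iff.mpr
    refine ⟨by positivity, ?_⟩
    have := abs_nonneg (v x)
    rw [← sq_abs (v x)]
    nlinarith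
  linarith

lemma abs_le_sab {η : ℝ} (v : Eu n → ℝ) (x : Eu n) : |v x| ≤ sab η v x + η := by
  unfold sab
  have : |v x| ≤ Real.sqrt (v x ^ 2 + η ^ 2) := by
    apply Real.le_sqrt_of_sq_le
    rw [sq_abs]
    nlinarith [sq_nonneg η]
  linarith

lemma sab_zero {η : ℝ} (hη : 0 < η) {v : Eu n → ℝ} {x : Eu n} (h : v x = 0) : sab η v x = 0 := by
  unfold sab
  rw [h]
  simp [Real.sqrt_sq hη.le]

lemma sab_TT {η : ℝ} (hη : 0 < η) {v : Eu n → ℝ} (hv : TT v) : TT (sab η v) := by
  refine ⟨?_, ?_⟩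
  · unfold sab
    refine ContDiff.sub ?_ contDiff_const
    apply ContDiff.sqrt ((hv.cd.pow 2).add contDiff_const)
    intro x
    have := sq_nonneg (v x)
    positivity
  · apply hv.cs.mono
    intro x hx
    rw [Function.mem_support] at hx ⊢
    intro h
    exact hx (sab_zero hη h)

lemma pd_sab {η : ℝ} (hη : 0 < η) {v : Eu n → ℝ} (hv : TT v) (j : Fin n) (x : Eu n) :
    pd j (sab η v) x = v x * pd j v x / Real.sqrt (v x ^ 2 + η ^ 2) := by
  have h1 : HasFDerivAt v (fderiv ℝ v x) x := (hv.differentiable x).hasFDerivAt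
  have hpos : 0 < v x ^ 2 + η ^ 2 := by positivity
  have h2 := ((h1.pow 2).add_const (η ^ 2)).sqrt hpos.ne'
  have h3 := h2.sub_const η
  have h4 : HasFDerivAt (sab η v) _ x := h3
  unfold pd
  rw [h4.fderiv]
  simp
  field_simp

lemma pd_sab_sq {η : ℝ} (hη : 0 < η) {v : Eu n → ℝ} (hv : TT v) (j : Fin n) (x : Eu n) :
    pd j (sab η v) x * pd j (sab η v) x ≤ pd j v x * pd j v x := by
  have hpos : 0 < v x ^ 2 + η ^ 2 := by positivity
  have hs := Real.sq_sqrt hpos.le
  rw [pd_sab hη hv]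
  have e : v x * pd j v x / Real.sqrt (v x ^ 2 + η ^ 2) * (v x * pd j v x / Real.sqrt (v x ^ 2 + η ^ 2)) =
      (v x ^ 2 / (v x ^ 2 + η ^ 2)) * (pd j v x * pd j v x) := by
    rw [div_mul_div_comm, Real.mul_self_sqrt hpos.le]
    ring
  rw [e]
  have h1 : v x ^ 2 / (v x ^ 2 + η ^ 2) ≤ 1 := by
    rw [div_le_one hpos]
    nlinarith [sq_nonneg η]
  nlinarith [mul_self_nonneg (pd j v x)]

lemma Df_sab (hV : Continuous V) {η : ℝ} (hη : 0 < η) {v : Eu n → ℝ} (hv : TT v) :
    Df V (sab η v) (sab η v) ≤ Df V v v := by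
  unfold Df
  apply Finset.sum_le_sum
  intro j _
  exact Ex_mono (((sab_TT hη hv).pd j).mul ((sab_TT hη hv).pd j) |>.int hV)
    ((hv.pd j).mul (hv.pd j) |>.int hV) (fun x => pd_sab_sq hη hv j x)

/-- the class of functions in the iteration -/
structure GG0 (i : Fin n) (g : Eu n → ℝ) : Prop where
  tt : TT g
  ev : Ev g
  nn : ∀ x, 0 ≤ g x
  z : ∀ x, x i = 0 → g x = 0

lemma UP.contV (hU : UP V κ Λ S) : Continuous V := hU.cd.continuous

lemma Ex_sq_le_of (hU : UP V κ Λ S) {w : Eu n → ℝ} {η : ℝ} (hw : Continuous w)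
    (h : ∀ x, |w x| ≤ η) (hη : 0 ≤ η) : Ex V (fun x => w x ^ 2) ≤ η ^ 2 := by
  have h1 : Ex V (fun x => w x ^ 2) ≤ Ex V (fun _ => η ^ 2) := by
    have hc : Integrable (fun x => (η ^ 2) * Real.exp (-V x)) := hU.int.const_mul _
    refine Ex_mono ?_ hc ?_
    · refine hc.mono' ?_ (ae_of_all _ fun x => ?_)
      · exact ((hw.pow 2).mul (Real.continuous_exp.comp hU.contV.neg)).aestronglyMeasurable
      · rw [Real.norm_eq_abs, abs_of_nonneg (by positivity), ← sq_abs (w x)]
        gcongr
        exact h x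
    · intro x
      show w x ^ 2 ≤ η ^ 2
      rw [← sq_abs (w x)]
      gcongr
      exact h x
  have h2 : Ex V (fun _ => η ^ 2) = η ^ 2 := by
    have := Ex_const_mul V (fun _ => (1 : ℝ)) (η ^ 2)
    rw [hU.mass] at this
    simpa using this
  rw [h2] at h1
  exact h1

theorem one_step (hU : UP V κ Λ S) {c : ℝ} (hc : 0 < c) (hO : Hodd V c) (hE : Hev V c)
    {g : Eu n → ℝ} (hg : GG0 i g) {τ : ℝ} (hτ : 0 < τ) :
    ∃ g' : Eu n → ℝ, GG0 i g' ∧
      Sf V (1 / c) g' ≤ (1 / c) * Sf V (1 / c) g + (1 / c) * (Ex V g') ^ 2 + τ ∧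
      Ex V (fun x => g' x ^ 2) ≤ (1 / c) * Ex V (fun x => g x ^ 2) + τ ∧
      ∀ k, Jk V i k g ≤ Jk V i (k + 1) g' + Real.sqrt (128 * (512 * S) ^ (k + 1)) *
        (Real.sqrt (Sf V (1 / c) g + τ) + τ) := by
  have hV := hU.contV
  set l := 1 / c with hl
  have hl0 : 0 < l := by positivity
  obtain ⟨u, hu, hue, h1, h2, h3⟩ := step0 hU hc hO hE hg.tt hg.ev (ε := τ / 2) (by positivity)
  rw [← hl] at h1 h2 h3
  set v := pd i u with hv
  have hvT : TT v := hu.pd i
  have hvo : Od i v := hue.pd_odd hu.differentiable i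
  have hvsq : ∀ j x, v (Rf j x) ^ 2 = v x ^ 2 := by
    intro j x
    have e1 : pd i (fun x => u (Rf j x)) x = (if i = j then -1 else 1) * pd i u (Rf j x) :=
      pd_comp_Rf hu.differentiable j i x
    have e2 : (fun x => u (Rf j x)) = u := funext fun x => hue j x
    rw [e2] at e1
    rw [← hv] at e1
    rw [e1]
    split_ifs <;> ring
  -- size of v
  set A := Ex V (fun x => |v x|) with hA
  have hA0 : 0 ≤ A := Ex_nonneg fun x => abs_nonneg _
  -- the parameter
  obtain ⟨η, hη, hη1, hη2⟩ : ∃ η : ℝ, 0 < η ∧ η ≤ τ ∧ l * (2 * η * A) ≤ τ / 2 := by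
    refine ⟨min τ (τ / (4 * (l * A + 1))), lt_min hτ (by positivity), min_le_left _ _, ?_⟩
    have h5 : min τ (τ / (4 * (l * A + 1))) ≤ τ / (4 * (l * A + 1)) := min_le_right _ _
    have h6 : τ / (4 * (l * A + 1)) * (4 * (l * A + 1)) = τ := by field_simp
    have h7 : 0 < l * A + 1 := by positivity
    have h8 : 0 ≤ min τ (τ / (4 * (l * A + 1))) := le_min hτ.le (by positivity)
    nlinarith [mul_le_mul_of_nonneg_right h5 (by positivity : 0 ≤ 2 * (l * A)),
      mul_nonneg h8 hl0.le, (by positivity : 0 ≤ τ / (4 * (l * A + 1)))]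
  set g' := sab η v with hg'
  have hg'T : TT g' := sab_TT hη hvT
  have hg'G : GG0 i g' := by
    refine ⟨hg'T, ?_, sab_nonneg hη v, ?_⟩
    · intro j x
      show Real.sqrt (v (Rf j x) ^ 2 + η ^ 2) - η = Real.sqrt (v x ^ 2 + η ^ 2) - η
      rw [hvsq]
    · intro x hx
      exact sab_zero hη (hvo.zero hx)
  have hiv2 : Integrable (fun x => v x ^ 2 * Real.exp (-V x)) := hvT.sq.int hV
  have hig2 : Integrable (fun x => g' x ^ 2 * Real.exp (-V x)) := hg'T.sq.int hV
  have hia : Integrable (fun x => |v x| * Real.exp (-V x)) :=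
    int_cs hV hvT.continuous.abs hvT.cs.norm
  -- comparison of the second moments
  have hN1 : Ex V (fun x => g' x ^ 2) ≤ Ex V (fun x => v x ^ 2) := by
    refine Ex_mono hig2 hiv2 fun x => ?_
    rw [← sq_abs (v x)]
    exact pow_le_pow_left₀ (sab_nonneg hη v x) (sab_le hη v x) 2
  have hN2 : Ex V (fun x => v x ^ 2) ≤ Ex V (fun x => g' x ^ 2) + 2 * η * A := by
    have e1 : Ex V (fun x => g' x ^ 2 + 2 * η * |v x|) = Ex V (fun x => g' x ^ 2) + 2 * η * A := by
      rw [Ex_add hig2 (by
        have := hia.const_mul (2 * η)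
        refine this.congr (ae_of_all _ fun x => ?_)
        simp only
        ring), hA, ← Ex_const_mul]
    rw [← e1]
    refine Ex_mono hiv2 ?_ fun x => ?_
    · have := hig2.add (hia.const_mul (2 * η))
      refine this.congr (ae_of_all _ fun x => ?_)
      simp only [Pi.add_apply]
      ring
    · have a1 := sab_nonneg hη v x
      have a2 := sab_le hη v x
      have a3 := abs_le_sab (η := η) v x
      rw [← sq_abs (v x)]
      show |v x| ^ 2 ≤ sab η v x ^ 2 + 2 * η * |v x|
      nlinarith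
  -- the excess of v
  have hXv : Df V v v - l * Ex V (fun x => v x ^ 2) ≤ l * Sf V l g + τ / 2 := by
    refine le_trans ?_ h2
    have : ∀ j, 0 ≤ Df V (pd j u) (pd j u) - l * Ex V (fun x => pd j u x ^ 2) := by
      intro j
      have h5 := hO j (pd j u) (hu.pd j) (hue.pd_odd hu.differentiable j)
      have h6 : l * Ex V (fun x => pd j u x ^ 2) ≤ l * (c * Df V (pd j u) (pd j u)) :=
        mul_le_mul_of_nonneg_left h5 hl0.le
      have h7 : l * (c * Df V (pd j u) (pd j u)) = Df V (pd j u) (pd j u) := by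
        rw [hl]; field_simp
      linarith
    exact Finset.single_le_sum (f := fun j => Df V (pd j u) (pd j u) -
      l * Ex V (fun x => pd j u x ^ 2)) (fun j _ => this j) (Finset.mem_univ i)
  refine ⟨g', hg'G, ?_, ?_, ?_⟩
  · unfold Sf at *
    have h5 := Df_sab hV hη hvT
    have h6 : l * Ex V (fun x => v x ^ 2) ≤ l * (Ex V (fun x => g' x ^ 2) + 2 * η * A) :=
      mul_le_mul_of_nonneg_left hN2 hl0.le
    have h7 : l * (Ex V (fun x => g' x ^ 2) + 2 * η * A) =
      l * Ex V (fun x => g' x ^ 2) + l * (2 * η * A) := by ring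
    rw [← hg'] at h5
    nlinarith
  · -- the component is at most the whole energy
    have h5 : Ex V (fun x => v x ^ 2) ≤ Df V u u := by
      unfold Df
      have e : Ex V (fun x => v x ^ 2) = Ex V (fun x => pd i u x * pd i u x) := by
        congr 1
        funext x
        rw [hv]; ring
      rw [e]
      exact Finset.single_le_sum (f := fun j => Ex V (fun x => pd j u x * pd j u x))
        (fun j _ => Ex_nonneg fun x => mul_self_nonneg _) (Finset.mem_univ i)
    linarith
  · intro k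
    -- chain
    have c1 := J_chain hU hg.tt hg.z k
    have hdT : TT (pd i g) := hg.tt.pd i
    have c2 := J_sub hU hdT.continuous hdT.cs hvT.continuous hvT.cs i k
    have c3 : Jk V i (k + 1) (fun x => pd i g x - v x) ≤
        Real.sqrt (128 * (512 * S) ^ (k + 1)) * Real.sqrt (Sf V l g + τ) := by
      have hd : TT (fun x => pd i g x - v x) := hdT.sub hvT
      refine (J_cs hU hd.continuous hd.cs i k).trans ?_
      apply mul_le_mul_of_nonneg_left _ (Real.sqrt_nonneg _)
      apply Real.sqrt_le_sqrt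
      have h5 : Ex V (fun x => (pd i g x - v x) ^ 2) ≤
          Df V (fun x => g x - u x) (fun x => g x - u x) := by
        unfold Df
        have e : Ex V (fun x => (pd i g x - v x) ^ 2) =
            Ex V (fun x => pd i (fun x => g x - u x) x * pd i (fun x => g x - u x) x) := by
          congr 1
          funext x
          rw [pd_sub hg.tt.differentiable hu.differentiable, hv]
          ring
        rw [e]
        exact Finset.single_le_sum (f := fun j => Ex V (fun x =>
          pd j (fun x => g x - u x) x * pd j (fun x => g x - u x) x))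
          (fun j _ => Ex_nonneg fun x => mul_self_nonneg _) (Finset.mem_univ i)
      linarith
    have hac : Continuous (fun x => |v x|) := hvT.continuous.abs
    have has : HasCompactSupport (fun x => |v x|) := hvT.cs.norm
    have c4 := J_sub hU hac has hg'T.continuous hg'T.cs i k
    have c5 : Jk V i (k + 1) (fun x => |v x|) = Jk V i (k + 1) v := by
      unfold Jk Ik
      simp only [abs_abs]
    have c6 : Jk V i (k + 1) (fun x => |v x| - g' x) ≤
        Real.sqrt (128 * (512 * S) ^ (k + 1)) * τ := by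
      refine (J_cs hU (hac.sub hg'T.continuous) (has.sub hg'T.cs) i k).trans ?_
      apply mul_le_mul_of_nonneg_left _ (Real.sqrt_nonneg _)
      apply Real.sqrt_le_iff.mpr
      refine ⟨hτ.le, ?_⟩
      refine (Ex_sq_le_of hU (hac.sub hg'T.continuous) (η := η) (fun x => ?_) hη.le).trans ?_
      · have a2 := sab_le hη v x
        have a3 := abs_le_sab (η := η) v x
        show |(|v x| - g' x)| ≤ η
        rw [abs_of_nonneg (by rw [hg']; linarith)]
        rw [hg']; linarith
      · exact pow_le_pow_left₀ hη.le hη1 2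
    rw [c5] at c4
    rw [mul_add]
    linarith

end Pool.Agent.Lib.MP_6d896a_gt.UC
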