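import Mathlib
import Pool.Agent.Lib.MP_6d896a_gt.UC.IterA
import Pool.Agent.Lib.MP_6d896a_gt.UC.Absorb

/-!
The iteration and the improved inequality.
-/

set_option autoImplicit false

namespace Pool.Agent.Lib.MP_6d896a_gt.UC

open MeasureTheory Filter Topology Set ProbabilityTheory
open scoped ENNReal NNReal ContDiff

variable {n : ℕ} {V f g u : Eu n → ℝ} {κ Λ S : ℝ} {i : Fin n}

lemma Jk_nonneg (V : Eu n → ℝ) (i : Fin n) (k : ℕ) (f : Eu n → ℝ) : 0 ≤ Jk V i k f :=
  ENNReal.toReal_nonneg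

lemma Ex_sq_le (hU : UP V κ Λ S) (hg : TT g) : (Ex V g) ^ 2 ≤ Ex V (fun x => g x ^ 2) := by
  have hV := hU.contV
  have h1 : Integrable (fun x => (1 : ℝ) ^ 2 * Real.exp (-V x)) := by simpa using hU.int
  have h2 := Ex_cs (V := V) (f := g) (g := fun _ => (1 : ℝ)) (hg.sq.int hV) h1
    (by simpa using hg.int hV)
  have h3 : Ex V (fun _ => (1 : ℝ) ^ 2) = 1 := by simpa using hU.mass
  rw [h3, mul_one] at h2
  simpa using h2

/-- the excess is nonnegative -/
lemma Sf_nonneg (hU : UP V κ Λ S) {c : ℝ} (hc : 0 < c) (hE : Hev V c) (hg : TT g) (hge : Ev g) :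
    0 ≤ Sf V (1 / c) g := by
  unfold Sf
  have h1 := hE g hg hge
  have h2 : (1 / c) * (Ex V (fun x => g x ^ 2) - (Ex V g) ^ 2) ≤ (1 / c) * (c * Df V g g) :=
    mul_le_mul_of_nonneg_left h1 (by positivity)
  have h3 : (1 / c) * (c * Df V g g) = Df V g g := by field_simp
  linarith

/-- the sequences -/
theorem exists_seq (hU : UP V κ Λ S) {c : ℝ} (hc : 0 < c) (hO : Hodd V c) (hE : Hev V c)
    {g : Eu n → ℝ} (hg : GG0 i g) {τ : ℝ} (hτ : 0 < τ) :
    ∃ G : ℕ → Eu n → ℝ, G 0 = g ∧ (∀ j, GG0 i (G j)) ∧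
      (∀ j, Sf V (1 / c) (G (j + 1)) ≤
        (1 / c) * Sf V (1 / c) (G j) + (1 / c) * (Ex V (G (j + 1))) ^ 2 + τ) ∧
      (∀ j, Ex V (fun x => G (j + 1) x ^ 2) ≤ (1 / c) * Ex V (fun x => G j x ^ 2) + τ) ∧
      ∀ j k, Jk V i k (G j) ≤ Jk V i (k + 1) (G (j + 1)) +
        Real.sqrt (128 * (512 * S) ^ (k + 1)) * (Real.sqrt (Sf V (1 / c) (G j) + τ) + τ) := by
  choose nx hnx using fun (g : {g : Eu n → ℝ // GG0 i g}) => one_step hU hc hO hE g.2 hτ
  let step : {g : Eu n → ℝ // GG0 i g} → {g : Eu n → ℝ // GG0 i g} := fun g => ⟨nx g, (hnx g).1⟩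
  let sq : ℕ → {g : Eu n → ℝ // GG0 i g} := fun j => step^[j] ⟨g, hg⟩
  have hs : ∀ j, (sq (j + 1)).1 = nx (sq j) := by
    intro j
    show (step^[j + 1] ⟨g, hg⟩).1 = nx (step^[j] ⟨g, hg⟩)
    rw [Function.iterate_succ_apply']
  refine ⟨fun j => (sq j).1, rfl, fun j => (sq j).2, fun j => ?_, fun j => ?_, fun j k => ?_⟩
  · show Sf V (1 / c) (sq (j + 1)).1 ≤ (1 / c) * Sf V (1 / c) (sq j).1 +
      (1 / c) * (Ex V (sq (j + 1)).1) ^ 2 + τ
    rw [hs]; exact (hnx (sq j)).2.1
  · show Ex V (fun x => (sq (j + 1)).1 x ^ 2) ≤ (1 / c) * Ex V (fun x => (sq j).1 x ^ 2) + τ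
    rw [hs]; exact (hnx (sq j)).2.2.1
  · show Jk V i k (sq j).1 ≤ Jk V i (k + 1) (sq (j + 1)).1 +
        Real.sqrt (128 * (512 * S) ^ (k + 1)) * (Real.sqrt (Sf V (1 / c) (sq j).1 + τ) + τ)
    rw [hs]; exact (hnx (sq j)).2.2.2 k

/-- the telescoped chain -/
lemma chain_sum {G : ℕ → Eu n → ℝ} {E Q : ℕ → ℝ} {J : ℕ → ℕ → ℝ}
    (h : ∀ j k, J j k ≤ J (j + 1) (k + 1) + Q (k + 1) * E j) (a d k : ℕ) :
    J a k ≤ ∑ j ∈ Finset.Ico a (a + d), Q (j - a + k + 1) * E j + J (a + d) (k + d) := by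
  induction d generalizing a k with
  | zero => simp
  | succ d ih =>
    have h1 := h a k
    have h2 := ih (a + 1) (k + 1)
    have e1 : a + (d + 1) = (a + 1) + d := by ring
    have e2 : k + (d + 1) = (k + 1) + d := by ring
    rw [e1, e2, Finset.sum_eq_sum_Ico_succ_bot (by omega)]
    have e3 : ∑ j ∈ Finset.Ico (a + 1) (a + 1 + d), Q (j - a + k + 1) * E j =
        ∑ j ∈ Finset.Ico (a + 1) (a + 1 + d), Q (j - (a + 1) + (k + 1) + 1) * E j := by
      apply Finset.sum_congr rfl
      intro j hj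
      rw [Finset.mem_Ico] at hj
      have : j - a + k + 1 = j - (a + 1) + (k + 1) + 1 := by omega
      rw [this]
    rw [e3]
    have e4 : a - a + k + 1 = k + 1 := by omega
    rw [e4]
    linarith

/-- the parameter of the steps -/
lemma exists_param {l q : ℝ} (hq : 0 < q) (hql : q ^ 2 = l) (m : ℕ) {τ : ℝ} (hτ : 0 < τ) :
    ∃ t : ℝ, 0 < t ∧ (∀ j, j ≤ m → t ≤ τ / (m + 1) * l ^ (j + 1)) ∧
      (∀ j, j ≤ m → t ≤ τ * q ^ (j + 1)) ∧ (∀ j, j ≤ m → t ≤ τ * l ^ (j + 2)) := by
  set r := min q 1 with hr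
  have hr0 : 0 < r := lt_min hq one_pos
  have hr1 : r ≤ 1 := min_le_right _ _
  have hrq : r ≤ q := min_le_left _ _
  have key : ∀ a, a ≤ 2 * m + 4 → r ^ (2 * m + 4) ≤ q ^ a := fun a ha =>
    (pow_le_pow_of_le_one hr0.le hr1 ha).trans (pow_le_pow_left₀ hr0.le hrq a)
  have hm1 : (1 : ℝ) ≤ m + 1 := by
    have : (0 : ℝ) ≤ m := Nat.cast_nonneg m
    linarith
  have hle : τ / (m + 1) ≤ τ := div_le_self hτ.le hm1
  refine ⟨τ / (m + 1) * r ^ (2 * m + 4), by positivity, fun j hj => ?_, fun j hj => ?_,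
    fun j hj => ?_⟩
  · rw [← hql, ← pow_mul]
    exact mul_le_mul_of_nonneg_left (key _ (by omega)) (by positivity)
  · exact mul_le_mul hle (key _ (by omega)) (by positivity) hτ.le
  · rw [← hql, ← pow_mul]
    exact mul_le_mul hle (key _ (by omega)) (by positivity) hτ.le

theorem improved (hU : UP V κ Λ S) {c : ℝ} (hc : 0 < c) (hO : Hodd V c) (hE : Hev V c)
    (hcS : 10 ^ 8 * S ≤ c) (hg : TT g) (hge : Ev g) (hg0 : ∀ x, 0 ≤ g x)
    (hgz : ∀ x, x i = 0 → g x = 0) :
    (Ex V g) ^ 2 ≤ c * Df V g g - Ex V (fun x => g x ^ 2) := by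
  have hS := hU.Spos
  have hGG : GG0 i g := ⟨hg, hge, hg0, hgz⟩
  set l := 1 / c with hl
  have hl0 : 0 < l := by positivity
  have hlc : l * c = 1 := by rw [hl]; field_simp
  set q := Real.sqrt l with hq
  have hq0 : 0 < q := Real.sqrt_pos.mpr hl0
  have hq2 : q ^ 2 = l := Real.sq_sqrt hl0.le
  set P := Real.sqrt (512 * S) with hP
  have hP0 : 0 < P := Real.sqrt_pos.mpr (by positivity)
  have hP2 : P ^ 2 = 512 * S := Real.sq_sqrt (by positivity)
  set δ := P * q with hδ
  have hδ0 : 0 < δ := by positivity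
  set X := c * Df V g g - Ex V (fun x => g x ^ 2) with hX
  have hN0 : 0 ≤ Ex V (fun x => g x ^ 2) := Ex_nonneg fun x => sq_nonneg _
  have hEx0 : 0 ≤ Ex V g := Ex_nonneg hg0
  -- it is enough to prove the inequality with `max X 0`
  suffices hmax : (Ex V g) ^ 2 ≤ max X 0 by
    rcases le_or_gt 0 X with h0 | h0
    · rwa [max_eq_left h0] at hmax
    · rw [max_eq_right h0.le] at hmax
      exfalso
      have h1 : Ex V g = 0 := by
        have := sq_nonneg (Ex V g)
        exact pow_eq_zero_iff (two_ne_zero) |>.mp (le_antisymm hmax this)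
      have h2 : (fun x => g x * Real.exp (-V x)) =ᵐ[volume] 0 := by
        rw [← integral_eq_zero_iff_of_nonneg (fun x => mul_nonneg (hg0 x) (Real.exp_pos _).le)
          (hg.int hU.contV)]
        exact h1
      have h3 : Ex V (fun x => g x ^ 2) = 0 := by
        unfold Ex
        apply integral_eq_zero_of_ae
        filter_upwards [h2] with x hx
        have : g x = 0 := by
          rcases mul_eq_zero.mp hx with h4 | h4
          · exact h4
          · exact absurd h4 (Real.exp_pos _).ne'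
        simp [this]
      have h4 := Df_nonneg V g
      rw [hX, h3] at h0
      nlinarith
  refine absorb (K := 512) (δ := δ) (N := Ex V (fun x => g x ^ 2)) (by norm_num) hδ0 ?_
    (le_max_right _ _) hN0 hEx0 ?_
  · have h1 : δ ^ 2 ≤ 512 / 10 ^ 8 := by
      rw [hδ, mul_pow, hP2, hq2]
      have : S * l ≤ 1 / 10 ^ 8 := by
        rw [le_div_iff₀ (by norm_num)]
        have := mul_le_mul_of_nonneg_right hcS hl0.le
        nlinarith
      nlinarith
    have h2 : Real.sqrt 512 ≤ 23 := by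
      rw [Real.sqrt_le_left (by norm_num)]; norm_num
    have h3 : δ ≤ 1 / 400 := by
      apply le_of_sq_le_sq _ (by norm_num)
      refine h1.trans (by norm_num)
    have h4 : 0 ≤ Real.sqrt 512 := Real.sqrt_nonneg _
    nlinarith
  intro m τ hτ
  -- the parameter of the steps
  obtain ⟨t, ht, ht1, ht2, ht3⟩ := exists_param hq0 hq2 m hτ
  obtain ⟨G, hG0, hG, hS1, hN1, hJ1⟩ := exists_seq hU hc hO hE hGG ht
  rw [← hl] at hS1 hN1
  simp only [← hl] at hJ1
  have hSn : ∀ j, 0 ≤ Sf V l (G j) := fun j => by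
    rw [hl]; exact Sf_nonneg hU hc hE (hG j).tt (hG j).ev
  refine ⟨fun j => Ex V (G j) / q ^ j, fun j => Sf V l (G j) / l ^ (j + 1), ?_, ?_, ?_, ?_, ?_, ?_⟩
  · simp [hG0]
  · intro j
    exact div_nonneg (Ex_nonneg (hG j).nn) (by positivity)
  · intro j
    exact div_nonneg (hSn j) (by positivity)
  · simp only [hG0, zero_add, pow_one]
    refine le_trans ?_ (add_le_add_left (le_max_left X 0) _)
    rw [div_le_iff₀ hl0]
    unfold Sf
    have : (X + Ex V g ^ 2) * l =
        (l * c) * Df V g g - l * Ex V (fun x => g x ^ 2) + l * Ex V g ^ 2 := by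
      rw [hX]; ring
    rw [this, hlc]
    linarith
  · intro j hj
    have h1 := hS1 j
    have h2 := ht3 j hj.le
    show Sf V l (G (j + 1)) / l ^ (j + 1 + 1) ≤ Sf V l (G j) / l ^ (j + 1) +
      (Ex V (G (j + 1)) / q ^ (j + 1)) ^ 2 + τ
    rw [div_le_iff₀ (by positivity)]
    have e1 : (Sf V l (G j) / l ^ (j + 1) + (Ex V (G (j + 1)) / q ^ (j + 1)) ^ 2 + τ) *
        l ^ (j + 1 + 1) = l * Sf V l (G j) + l * Ex V (G (j + 1)) ^ 2 + τ * l ^ (j + 2) := by
      rw [div_pow (Ex V (G (j + 1))) (q ^ (j + 1)) 2, ← pow_mul q (j + 1) 2, mul_comm (j + 1) 2,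
        pow_mul q 2 (j + 1), hq2]
      have hne : l ≠ 0 := hl0.ne'
      clear_value l
      field_simp
      ring
    rw [e1]
    linarith
  · intro a ha
    show Ex V (G a) / q ^ a ≤ Real.sqrt 512 * (∑ j ∈ Finset.Ico a m, δ ^ (j - a + 1) *
        (Real.sqrt (Sf V l (G j) / l ^ (j + 1) + τ) + τ) +
        δ ^ (m - a) * Real.sqrt (Ex V (fun x => g x ^ 2) + τ))
    -- second moments
    have hNj : ∀ j, j ≤ m → Ex V (fun x => G j x ^ 2) / l ^ j ≤
        Ex V (fun x => g x ^ 2) + j * (τ / (m + 1)) := by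
      intro j
      induction j with
      | zero => intro _; simp [hG0]
      | succ j ih =>
        intro hj
        have h1 := ih (by omega)
        have h2 := hN1 j
        have h3 := ht1 j (by omega)
        rw [div_le_iff₀ (by positivity)] at h1 ⊢
        push_cast
        rw [pow_succ]
        rw [pow_succ] at h3
        nlinarith [mul_le_mul_of_nonneg_left h1 hl0.le]
    have hNm : Ex V (fun x => G m x ^ 2) ≤ (Ex V (fun x => g x ^ 2) + τ) * (q ^ m) ^ 2 := by
      have h1 := hNj m le_rfl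
      rw [div_le_iff₀ (by positivity)] at h1
      have e : (q ^ m) ^ 2 = l ^ m := by rw [← pow_mul, mul_comm, pow_mul, hq2]
      rw [e]
      refine h1.trans ?_
      apply mul_le_mul_of_nonneg_right _ (by positivity)
      have h2 : (m : ℝ) * (τ / (m + 1)) ≤ τ := by
        rw [mul_div_assoc', div_le_iff₀ (by positivity)]
        nlinarith
      linarith
    have hNs : Real.sqrt (Ex V (fun x => G m x ^ 2)) ≤
        Real.sqrt (Ex V (fun x => g x ^ 2) + τ) * q ^ m := by
      apply Real.sqrt_le_iff.mpr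
      refine ⟨by positivity, ?_⟩
      rw [mul_pow, Real.sq_sqrt (by positivity)]
      exact hNm
    have h128 : Real.sqrt 512 = 2 * Real.sqrt 128 := by
      rw [show (512 : ℝ) = 2 ^ 2 * 128 by norm_num, Real.sqrt_mul (by norm_num),
        Real.sqrt_sq (by norm_num)]
    have hs128 : 1 ≤ 2 * Real.sqrt 128 := by
      have : 1 ≤ Real.sqrt 128 := by rw [Real.one_le_sqrt]; norm_num
      linarith
    have hQ : ∀ k : ℕ, Real.sqrt (128 * (512 * S) ^ k) = Real.sqrt 128 * P ^ k := by
      intro k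
      rw [Real.sqrt_mul (by norm_num)]
      congr 1
      rw [Real.sqrt_eq_iff_mul_self_eq (by positivity) (by positivity), ← mul_pow, ← sq, hP2]
    rcases ha.eq_or_lt with rfl | ha'
    · simp only [Finset.Ico_self, Finset.sum_empty, zero_add, Nat.sub_self, pow_zero, one_mul]
      rw [div_le_iff₀ (by positivity)]
      have h1 : Ex V (G a) ≤ Real.sqrt (Ex V (fun x => G a x ^ 2)) :=
        Real.le_sqrt_of_sq_le (Ex_sq_le hU (hG a).tt)
      refine h1.trans (hNs.trans ?_)
      rw [h128]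
      have h5 : 0 ≤ Real.sqrt (Ex V (fun x => g x ^ 2) + τ) * q ^ a := by positivity
      nlinarith
    · have hch := chain_sum (G := G) (E := fun j => Real.sqrt (Sf V l (G j) + t) + t)
        (Q := fun k => Real.sqrt (128 * (512 * S) ^ k)) (J := fun j k => Jk V i k (G j))
        (fun j k => hJ1 j k) a (m - a) 0
      simp only [add_zero, zero_add] at hch
      rw [show a + (m - a) = m by omega] at hch
      have hz := J_zero hU (hG a).tt ((hG a).ev i)
      have hab : Ex V (fun x => |G a x|) = Ex V (G a) := by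
        congr 1
        funext x
        exact abs_of_nonneg ((hG a).nn x)
      rw [hab] at hz
      obtain ⟨k, hk⟩ : ∃ k, m - a = k + 1 := ⟨m - a - 1, by omega⟩
      have hlast : Jk V i (m - a) (G m) ≤ Real.sqrt 128 * P ^ (m - a) *
          (Real.sqrt (Ex V (fun x => g x ^ 2) + τ) * q ^ m) := by
        rw [hk]
        refine (J_cs hU (hG m).tt.continuous (hG m).tt.cs i k).trans ?_
        rw [hQ]
        exact mul_le_mul_of_nonneg_left hNs (by positivity)
      have hterm : ∀ j ∈ Finset.Ico a m, Real.sqrt (128 * (512 * S) ^ (j - a + 1)) *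
          (Real.sqrt (Sf V l (G j) + t) + t) ≤ Real.sqrt 128 * (q ^ a * (δ ^ (j - a + 1) *
          (Real.sqrt (Sf V l (G j) / l ^ (j + 1) + τ) + τ))) := by
        intro j hj
        rw [Finset.mem_Ico] at hj
        rw [hQ]
        have h1 : Real.sqrt (Sf V l (G j) + t) ≤
            q ^ (j + 1) * Real.sqrt (Sf V l (G j) / l ^ (j + 1) + τ) := by
          apply Real.sqrt_le_iff.mpr
          refine ⟨by positivity, ?_⟩
          have h0 : 0 ≤ Sf V l (G j) / l ^ (j + 1) + τ := by
            have := div_nonneg (hSn j) (by positivity : 0 ≤ l ^ (j + 1))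
            positivity
          rw [mul_pow, Real.sq_sqrt h0, ← pow_mul, mul_comm (j + 1) 2, pow_mul, hq2, mul_add,
            mul_div_cancel₀ _ (by positivity)]
          have h2 := ht1 j (by omega)
          have h3 : τ / (m + 1) * l ^ (j + 1) ≤ l ^ (j + 1) * τ := by
            rw [mul_comm]
            apply mul_le_mul_of_nonneg_left _ (by positivity)
            apply div_le_self hτ.le
            have : (0 : ℝ) ≤ m := Nat.cast_nonneg m
            linarith
          linarith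
        have h2 := ht2 j (by omega)
        have h3 : Real.sqrt (Sf V l (G j) + t) + t ≤
            q ^ (j + 1) * (Real.sqrt (Sf V l (G j) / l ^ (j + 1) + τ) + τ) := by
          rw [mul_add]
          linarith
        refine (mul_le_mul_of_nonneg_left h3 (by positivity)).trans (le_of_eq ?_)
        rw [hδ, mul_pow]
        have e : q ^ (j + 1) = q ^ a * q ^ (j - a + 1) := by
          rw [← pow_add]
          congr 1
          omega
        rw [e]
        ring
      have hsum := Finset.sum_le_sum hterm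
      rw [← Finset.mul_sum, ← Finset.mul_sum] at hsum
      rw [div_le_iff₀ (by positivity), hz, h128]
      have hδm : δ ^ (m - a) * q ^ a = P ^ (m - a) * q ^ m := by
        rw [hδ, mul_pow, mul_assoc, ← pow_add]
        congr 2
        omega
      have e2 : 2 * Real.sqrt 128 * (∑ j ∈ Finset.Ico a m, δ ^ (j - a + 1) *
          (Real.sqrt (Sf V l (G j) / l ^ (j + 1) + τ) + τ) +
          δ ^ (m - a) * Real.sqrt (Ex V (fun x => g x ^ 2) + τ)) * q ^ a =
          2 * (Real.sqrt 128 * (q ^ a * ∑ j ∈ Finset.Ico a m, δ ^ (j - a + 1) *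
          (Real.sqrt (Sf V l (G j) / l ^ (j + 1) + τ) + τ)) +
          Real.sqrt 128 * (δ ^ (m - a) * q ^ a) * Real.sqrt (Ex V (fun x => g x ^ 2) + τ)) := by
        ring
      rw [e2, hδm]
      have e3 : Real.sqrt 128 * (P ^ (m - a) * q ^ m) * Real.sqrt (Ex V (fun x => g x ^ 2) + τ) =
          Real.sqrt 128 * P ^ (m - a) * (Real.sqrt (Ex V (fun x => g x ^ 2) + τ) * q ^ m) := by
        ring
      rw [e3]
      linarith

end Pool.Agent.Lib.MP_6d896a_gt.UC
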