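import Pool.Agent.Lib.MP_6d896a_gt.UC.Defs

/-!
Project UC, part of U6: comparison of integrals on the lines in a coordinate direction.
-/

set_option autoImplicit false

namespace Pool.Agent.Lib.MP_6d896a_gt.UC

open MeasureTheory Filter Topology Set
open scoped ENNReal NNReal

variable {n : ℕ}

private noncomputable def llw (s : ℝ) : ℝ≥0∞ := (Icc (0 : ℝ) 1).indicator 1 s

private lemma llw_meas : Measurable llw := measurable_one.indicator measurableSet_Icc

private lemma llw_int (c : ℝ) : ∫⁻ t : ℝ, llw (c - t) = 1 := by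
  rw [lintegral_sub_left_eq_self (μ := volume) llw c]
  unfold llw
  rw [lintegral_indicator_one measurableSet_Icc, Real.volume_Icc]
  norm_num

private lemma line_eq (i : Fin n) {F : Eu n → ℝ≥0∞} (hF : Measurable F) :
    ∫⁻ x, F x = ∫⁻ y : Eu n, (∫⁻ t : ℝ, F (y + t • ej i)) * llw (y i) := by
  have hw := llw_meas
  have hm1 : Measurable fun q : Eu n × ℝ => F q.1 * llw (q.1 i - q.2) :=
    (hF.comp measurable_fst).mul (hw.comp (by fun_prop))
  have hm2 : Measurable fun q : ℝ × Eu n => F (q.2 + q.1 • ej i) * llw (q.2 i) :=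
    (hF.comp (by fun_prop)).mul (hw.comp (by fun_prop))
  calc ∫⁻ x, F x = ∫⁻ x, ∫⁻ t : ℝ, F x * llw (x i - t) := by
        refine lintegral_congr fun x => ?_
        have h1 : Measurable fun t : ℝ => llw (x i - t) := hw.comp (by fun_prop)
        rw [lintegral_const_mul _ h1, llw_int, mul_one]
    _ = ∫⁻ t : ℝ, ∫⁻ x, F x * llw (x i - t) := lintegral_lintegral_swap hm1.aemeasurable
    _ = ∫⁻ t : ℝ, ∫⁻ y, F (y + t • ej i) * llw (y i) := by
        refine lintegral_congr fun t => ?_
        rw [← lintegral_add_right_eq_self (μ := (volume : Measure (Eu n)))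
          (fun x => F x * llw (x i - t)) (t • ej i)]
        refine lintegral_congr fun y => ?_
        congr 2
        simp
    _ = ∫⁻ y, ∫⁻ t : ℝ, F (y + t • ej i) * llw (y i) := lintegral_lintegral_swap hm2.aemeasurable
    _ = _ := by
        refine lintegral_congr fun y => ?_
        have h1 : Measurable fun t : ℝ => F (y + t • ej i) := hF.comp (by fun_prop)
        rw [lintegral_mul_const _ h1]

/-- comparison of integrals on the lines in the direction `i` -/
theorem line_le (i : Fin n) {F G : Eu n → ℝ≥0∞} (hF : Measurable F) (hG : Measurable G)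
    (h : ∀ x : Eu n, ∫⁻ t : ℝ, F (x + t • ej i) ≤ ∫⁻ t : ℝ, G (x + t • ej i)) :
    ∫⁻ x, F x ≤ ∫⁻ x, G x := by
  rw [line_eq i hF, line_eq i hG]
  exact lintegral_mono fun y => mul_le_mul' (h y) le_rfl

end Pool.Agent.Lib.MP_6d896a_gt.UC
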