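import Mathlib
import Pool.Agent.Lib.MP_6d896a_gt.UC.Defs
import Pool.Agent.Lib.MP_6d896a_gt.UC.Basic
import Pool.Agent.Lib.MP_6d896a_gt.UC.Ibp

/-!
Project UC, piece U9: super-Poincare inequality.
-/

set_option autoImplicit false
set_option linter.all false

namespace Pool.Agent.Lib.MP_6d896a_gt.UC

open MeasureTheory Filter Topology Set
open scoped ENNReal NNReal ContDiff

variable {n : ℕ} {V f g u : Eu n → ℝ} {κ Λ S : ℝ} {i j : Fin n}

/-! ### the inequality for Lebesgue measure -/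

private lemma sq_int_le {h : ℝ → ℝ} (hh : Continuous h) :
    (∫ t in (0:ℝ)..1, h t) ^ 2 ≤ ∫ t in (0:ℝ)..1, h t ^ 2 := by
  set m := ∫ t in (0:ℝ)..1, h t with hm
  have h1 : 0 ≤ ∫ t in (0:ℝ)..1, (h t - m) ^ 2 :=
    intervalIntegral.integral_nonneg (by norm_num) fun t _ => sq_nonneg _
  have h2 : ∫ t in (0:ℝ)..1, (h t - m) ^ 2 =
      (∫ t in (0:ℝ)..1, h t ^ 2) - 2 * m * m + m ^ 2 := by
    have e : ∀ t, (h t - m) ^ 2 = (h t ^ 2 - 2 * m * h t) + m ^ 2 := fun t => by ring
    simp only [e]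
    rw [intervalIntegral.integral_add, intervalIntegral.integral_sub,
      intervalIntegral.integral_const_mul, intervalIntegral.integral_const]
    · simp [hm]
    · exact (hh.pow 2).intervalIntegrable _ _
    · exact (hh.const_mul _).intervalIntegrable _ _
    · exact ((hh.pow 2).sub (hh.const_mul _)).intervalIntegrable _ _
    · exact intervalIntegrable_const
  nlinarith

private lemma shift_le {q : Eu n → ℝ} (hq : ContDiff ℝ 1 q) (y : Eu n) :
    ∫⁻ x, ENNReal.ofReal ((q x - q (x - y)) ^ 2) ≤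
      ENNReal.ofReal (‖y‖ ^ 2) * ∫⁻ x, ENNReal.ofReal (‖fderiv ℝ q x‖ ^ 2) := by
  have hdc : Continuous (fderiv ℝ q) := hq.continuous_fderiv (by simp)
  have hd : Differentiable ℝ q := hq.differentiable (by simp)
  have key : ∀ x, ENNReal.ofReal ((q x - q (x - y)) ^ 2) ≤
      ∫⁻ t in Ioc (0:ℝ) 1, ENNReal.ofReal (‖y‖ ^ 2 * ‖fderiv ℝ q (x + (t - 1) • y)‖ ^ 2) := by
    intro x
    have hpath : Continuous (fun t : ℝ => x + (t - 1) • y) := by fun_prop
    have hder : ∀ t : ℝ, HasDerivAt (fun t : ℝ => q (x + (t - 1) • y))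
        (fderiv ℝ q (x + (t - 1) • y) y) t := by
      intro t
      have h1 : HasDerivAt (fun t : ℝ => x + (t - 1) • y) y t := by
        have h2 : HasDerivAt (fun t : ℝ => (t - 1) • y) ((1:ℝ) • y) t :=
          ((hasDerivAt_id t).sub_const 1).smul_const y
        rw [one_smul] at h2
        exact h2.const_add x
      exact (hd _).hasFDerivAt.comp_hasDerivAt t h1
    have hc : Continuous (fun t : ℝ => fderiv ℝ q (x + (t - 1) • y) y) :=
      (hdc.comp hpath).clm_apply continuous_const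
    have hint := intervalIntegral.integral_eq_sub_of_hasDerivAt
      (fun t _ => hder t) (hc.intervalIntegrable 0 1)
    have e1 : q x - q (x - y) = ∫ t in (0:ℝ)..1, fderiv ℝ q (x + (t - 1) • y) y := by
      rw [hint]
      simp only [sub_self, zero_smul, add_zero, zero_sub, neg_smul, one_smul]
      rw [sub_eq_add_neg x y]
    have h2 : (q x - q (x - y)) ^ 2 ≤
        ∫ t in (0:ℝ)..1, ‖y‖ ^ 2 * ‖fderiv ℝ q (x + (t - 1) • y)‖ ^ 2 := by
      rw [e1]
      refine (sq_int_le hc).trans ?_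
      refine intervalIntegral.integral_mono_on (by norm_num)
        ((hc.pow 2).intervalIntegrable _ _) ?_ ?_
      · exact (continuous_const.mul ((hdc.comp hpath).norm.pow 2)).intervalIntegrable _ _
      · intro t _
        have := (fderiv ℝ q (x + (t - 1) • y)).le_opNorm y
        rw [Real.norm_eq_abs] at this
        calc (fderiv ℝ q (x + (t - 1) • y) y) ^ 2 = |fderiv ℝ q (x + (t - 1) • y) y| ^ 2 := by
              rw [sq_abs]
          _ ≤ (‖fderiv ℝ q (x + (t - 1) • y)‖ * ‖y‖) ^ 2 := by gcongr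
          _ = _ := by ring
    refine (ENNReal.ofReal_le_ofReal h2).trans ?_
    rw [intervalIntegral.integral_of_le (by norm_num)]
    have hi : IntegrableOn (fun t : ℝ => ‖y‖ ^ 2 * ‖fderiv ℝ q (x + (t - 1) • y)‖ ^ 2)
        (Ioc (0:ℝ) 1) :=
      (continuous_const.mul ((hdc.comp hpath).norm.pow 2)).integrableOn_Ioc
    rw [ofReal_integral_eq_lintegral_ofReal hi (Eventually.of_forall fun t => by positivity)]
  calc ∫⁻ x, ENNReal.ofReal ((q x - q (x - y)) ^ 2)
      ≤ ∫⁻ x, ∫⁻ t in Ioc (0:ℝ) 1,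
        ENNReal.ofReal (‖y‖ ^ 2 * ‖fderiv ℝ q (x + (t - 1) • y)‖ ^ 2) := lintegral_mono key
    _ = ∫⁻ t in Ioc (0:ℝ) 1, ∫⁻ x,
        ENNReal.ofReal (‖y‖ ^ 2 * ‖fderiv ℝ q (x + (t - 1) • y)‖ ^ 2) := by
        rw [lintegral_lintegral_swap]
        refine (Continuous.measurable ?_).aemeasurable
        refine ENNReal.continuous_ofReal.comp (continuous_const.mul (Continuous.pow ?_ 2))
        refine (hdc.comp ?_).norm
        fun_prop
    _ = ∫⁻ t in Ioc (0:ℝ) 1, ∫⁻ x, ENNReal.ofReal (‖y‖ ^ 2 * ‖fderiv ℝ q x‖ ^ 2) := by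
        refine lintegral_congr fun t => ?_
        exact lintegral_add_right_eq_self
          (fun x => ENNReal.ofReal (‖y‖ ^ 2 * ‖fderiv ℝ q x‖ ^ 2)) ((t - 1) • y)
    _ = ∫⁻ x, ENNReal.ofReal (‖y‖ ^ 2 * ‖fderiv ℝ q x‖ ^ 2) := by
        rw [lintegral_const]; simp
    _ = _ := by
        simp only [ENNReal.ofReal_mul (sq_nonneg ‖y‖)]
        rw [lintegral_const_mul]
        exact (ENNReal.continuous_ofReal.comp (hdc.norm.pow 2)).measurable

private lemma exists_moll (n : ℕ) {δ : ℝ} (hδ : 0 < δ) : ∃ (η : Eu n → ℝ) (C : ℝ),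
    Continuous η ∧ (∀ y, 0 ≤ η y) ∧ ∫ y, η y = 1 ∧ HasCompactSupport η ∧
    (∀ y, δ ≤ ‖y‖ → η y = 0) ∧ 0 < C ∧ (∀ y, η y ≤ C) := by
  obtain ⟨b, hb⟩ : ∃ b : ContDiffBump (0 : Eu n), b.rOut = δ :=
    ⟨⟨δ / 2, δ, by positivity, by linarith⟩, rfl⟩
  obtain ⟨C0, hC0⟩ := (b.hasCompactSupport_normed (μ := volume)).exists_bound_of_continuous
    b.continuous_normed
  refine ⟨b.normed volume, max C0 1, b.continuous_normed, b.nonneg_normed, b.integral_normed,
    b.hasCompactSupport_normed, ?_, lt_of_lt_of_le one_pos (le_max_right _ _), ?_⟩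
  · intro y hy
    have h1 : y ∉ Function.support (b.normed volume) := by
      rw [b.support_normed_eq, hb]
      simp only [Metric.mem_ball, dist_zero_right, not_lt]
      exact hy
    simpa using h1
  · intro y
    exact ((le_abs_self _).trans (hC0 y)).trans (le_max_left _ _)

private lemma cs_moll {η h : Eu n → ℝ} (ηc : Continuous η) (η0 : ∀ y, 0 ≤ η y)
    (ηi : ∫ y, η y = 1) (ηs : HasCompactSupport η) (hh : Continuous h) :
    (∫ y, η y * h y) ^ 2 ≤ ∫ y, η y * h y ^ 2 := by
  set m := ∫ y, η y * h y with hm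
  have i0 : Integrable η := ηc.integrable_of_hasCompactSupport ηs
  have i1 : Integrable (fun y => η y * h y) :=
    (ηc.mul hh).integrable_of_hasCompactSupport ηs.mul_right
  have i2 : Integrable (fun y => η y * h y ^ 2) :=
    (ηc.mul (hh.pow 2)).integrable_of_hasCompactSupport ηs.mul_right
  have h1 : 0 ≤ ∫ y, η y * (h y - m) ^ 2 :=
    integral_nonneg fun y => mul_nonneg (η0 y) (sq_nonneg _)
  have h2 : ∫ y, η y * (h y - m) ^ 2 = (∫ y, η y * h y ^ 2) - 2 * m * m + m ^ 2 * 1 := by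
    have e : ∀ y, η y * (h y - m) ^ 2 =
        (η y * h y ^ 2 - 2 * m * (η y * h y)) + m ^ 2 * η y := fun y => by ring
    simp only [e]
    have i3 : Integrable (fun y => 2 * m * (η y * h y)) := i1.const_mul _
    have i4 : Integrable (fun y => m ^ 2 * η y) := i0.const_mul _
    have i5 : Integrable (fun y => η y * h y ^ 2 - 2 * m * (η y * h y)) := i2.sub i3
    rw [integral_add i5 i4, integral_sub i2 i3, integral_const_mul, integral_const_mul, ηi]
  nlinarith

/-- Nash type inequality for Lebesgue measure -/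
private lemma leb_nash (n : ℕ) {δ : ℝ} (hδ : 0 < δ) : ∃ C : ℝ, 0 < C ∧ ∀ q : Eu n → ℝ,
    ContDiff ℝ 1 q → HasCompactSupport q →
    ∫ x, q x ^ 2 ≤ 2 * δ ^ 2 * (∫ x, ‖fderiv ℝ q x‖ ^ 2) + C * (∫ x, |q x|) ^ 2 := by
  obtain ⟨η, C, ηc, η0, ηi, ηs, ηz, Cpos, ηC⟩ := exists_moll n hδ
  refine ⟨2 * C, by positivity, fun q hq hqs => ?_⟩
  have qc : Continuous q := hq.continuous
  have qi : Integrable q := qc.integrable_of_hasCompactSupport hqs
  have dqc : Continuous (fderiv ℝ q) := hq.continuous_fderiv (by simp)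
  have dqs : HasCompactSupport (fderiv ℝ q) := hqs.fderiv ℝ
  have dqs2 : HasCompactSupport (fun x => ‖fderiv ℝ q x‖ ^ 2) :=
    dqs.comp_left (g := fun v => ‖v‖ ^ 2) (by simp)
  have dqi : Integrable (fun x => ‖fderiv ℝ q x‖ ^ 2) :=
    (dqc.norm.pow 2).integrable_of_hasCompactSupport dqs2
  have q2s : HasCompactSupport (fun x => q x ^ 2) := hqs.comp_left (g := fun v => v ^ 2) (by simp)
  have q2i : Integrable (fun x => q x ^ 2) :=
    (qc.pow 2).integrable_of_hasCompactSupport q2s
  have ηint : Integrable η := ηc.integrable_of_hasCompactSupport ηs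
  set N := ∫ x, |q x| with hN
  have N0 : 0 ≤ N := integral_nonneg fun x => abs_nonneg _
  have qsub : ∀ x, Continuous (fun y : Eu n => q (x - y)) := fun x =>
    qc.comp (continuous_const.sub continuous_id)
  -- pointwise bound
  have pw : ∀ x, q x ^ 2 ≤ 2 * (∫ y, η y * (q x - q (x - y)) ^ 2) +
      2 * C * N * ∫ y, η y * |q (x - y)| := by
    intro x
    set A := ∫ y, η y * q (x - y) with hA
    set B := ∫ y, η y * |q (x - y)| with hB
    have i1 : Integrable (fun y => η y * q (x - y)) :=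
      (ηc.mul (qsub x)).integrable_of_hasCompactSupport ηs.mul_right
    have i2 : Integrable (fun y => η y * |q (x - y)|) :=
      (ηc.mul (qsub x).abs).integrable_of_hasCompactSupport ηs.mul_right
    have e1 : q x - A = ∫ y, η y * (q x - q (x - y)) := by
      have : ∀ y, η y * (q x - q (x - y)) = q x * η y - η y * q (x - y) := fun y => by ring
      simp only [this]
      rw [integral_sub (ηint.const_mul _) i1, integral_const_mul, ηi, mul_one]
    have e2 : (q x - A) ^ 2 ≤ ∫ y, η y * (q x - q (x - y)) ^ 2 := by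
      rw [e1]
      exact cs_moll ηc η0 ηi ηs (continuous_const.sub (qsub x))
    have B0 : 0 ≤ B := integral_nonneg fun y => mul_nonneg (η0 y) (abs_nonneg _)
    have e3 : |A| ≤ B := by
      rw [hA]
      refine (abs_integral_le_integral_abs).trans (le_of_eq ?_)
      refine integral_congr_ae (Eventually.of_forall fun y => ?_)
      simp only
      rw [abs_mul, abs_of_nonneg (η0 y)]
    have e4 : B ≤ C * N := by
      rw [hB, hN]
      have h3 : ∫ y, |q (x - y)| = ∫ y, |q y| :=
        integral_sub_left_eq_self (fun y => |q y|) volume x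
      rw [← h3, ← integral_const_mul]
      refine integral_mono i2 ?_ fun y => ?_
      · exact ((qi.abs.comp_sub_left x)).const_mul C
      · exact mul_le_mul_of_nonneg_right (ηC y) (abs_nonneg _)
    have e5 : A ^ 2 ≤ C * N * B := by
      have : A ^ 2 = |A| * |A| := by rw [← sq, sq_abs]
      rw [this]
      exact mul_le_mul (e3.trans e4) e3 (abs_nonneg _) (by positivity)
    nlinarith [sq_nonneg (q x - 2 * A)]
  have ηm : Measurable (fun y => ENNReal.ofReal (η y)) :=
    (ENNReal.continuous_ofReal.comp ηc).measurable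
  -- the double integrals
  have m1 : Measurable (fun p : Eu n × Eu n => ENNReal.ofReal (η p.2 * |q (p.1 - p.2)|)) := by
    refine (ENNReal.continuous_ofReal.comp ?_).measurable
    exact (ηc.comp continuous_snd).mul (qc.comp (continuous_fst.sub continuous_snd)).abs
  have m2 : Measurable (fun p : Eu n × Eu n =>
      ENNReal.ofReal (η p.2 * (q p.1 - q (p.1 - p.2)) ^ 2)) := by
    refine (ENNReal.continuous_ofReal.comp ?_).measurable
    exact (ηc.comp continuous_snd).mul
      (((qc.comp continuous_fst).sub (qc.comp (continuous_fst.sub continuous_snd))).pow 2)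
  have d1 : ∫⁻ x, ∫⁻ y, ENNReal.ofReal (η y * |q (x - y)|) = ENNReal.ofReal N := by
    rw [lintegral_lintegral_swap m1.aemeasurable]
    have : ∀ y, ∫⁻ x, ENNReal.ofReal (η y * |q (x - y)|) =
        ENNReal.ofReal (η y) * ENNReal.ofReal N := by
      intro y
      simp only [ENNReal.ofReal_mul (η0 y)]
      have m0 : Measurable (fun x => ENNReal.ofReal |q (x - y)|) :=
        (ENNReal.continuous_ofReal.comp
          (qc.comp (continuous_id.sub continuous_const)).abs).measurable
      rw [lintegral_const_mul _ m0]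
      congr 1
      rw [hN, ofReal_integral_eq_lintegral_ofReal qi.abs (Eventually.of_forall fun t => abs_nonneg _)]
      exact lintegral_sub_right_eq_self (fun x => ENNReal.ofReal |q x|) y
    simp only [this]
    rw [lintegral_mul_const _ ηm,
      ← ofReal_integral_eq_lintegral_ofReal ηint (Eventually.of_forall η0), ηi]
    simp
  have d2 : ∫⁻ x, ∫⁻ y, ENNReal.ofReal (η y * (q x - q (x - y)) ^ 2) ≤
      ENNReal.ofReal (δ ^ 2 * ∫ x, ‖fderiv ℝ q x‖ ^ 2) := by
    rw [lintegral_lintegral_swap m2.aemeasurable]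
    have h4 : ∀ y, ∫⁻ x, ENNReal.ofReal (η y * (q x - q (x - y)) ^ 2) ≤
        ENNReal.ofReal (η y) * ENNReal.ofReal (δ ^ 2 * ∫ x, ‖fderiv ℝ q x‖ ^ 2) := by
      intro y
      simp only [ENNReal.ofReal_mul (η0 y)]
      have m0 : Measurable (fun x => ENNReal.ofReal ((q x - q (x - y)) ^ 2)) :=
        (ENNReal.continuous_ofReal.comp
          ((qc.sub (qc.comp (continuous_id.sub continuous_const))).pow 2)).measurable
      rw [lintegral_const_mul _ m0]
      by_cases hy : δ ≤ ‖y‖
      · rw [ηz y hy]; simp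
      · gcongr
        refine (shift_le hq y).trans ?_
        rw [ENNReal.ofReal_mul (sq_nonneg δ), ofReal_integral_eq_lintegral_ofReal dqi
          (Eventually.of_forall fun t => by positivity)]
        gcongr
        exact (not_le.mp hy).le
    refine (lintegral_mono h4).trans (le_of_eq ?_)
    rw [lintegral_mul_const _ ηm,
      ← ofReal_integral_eq_lintegral_ofReal ηint (Eventually.of_forall η0), ηi]
    simp
  have G0 : 0 ≤ ∫ x, ‖fderiv ℝ q x‖ ^ 2 := integral_nonneg fun x => by positivity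
  have tot : ENNReal.ofReal (∫ x, q x ^ 2) ≤
      ENNReal.ofReal (2 * δ ^ 2 * (∫ x, ‖fderiv ℝ q x‖ ^ 2) + 2 * C * N ^ 2) := by
    rw [ofReal_integral_eq_lintegral_ofReal q2i (Eventually.of_forall fun t => sq_nonneg _)]
    have h5 : ∀ x, ENNReal.ofReal (q x ^ 2) ≤
        2 * (∫⁻ y, ENNReal.ofReal (η y * (q x - q (x - y)) ^ 2)) +
        ENNReal.ofReal (2 * C * N) * ∫⁻ y, ENNReal.ofReal (η y * |q (x - y)|) := by
      intro x
      have i2 : Integrable (fun y => η y * |q (x - y)|) :=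
        (ηc.mul (qsub x).abs).integrable_of_hasCompactSupport ηs.mul_right
      have i3 : Integrable (fun y => η y * (q x - q (x - y)) ^ 2) :=
        (ηc.mul ((continuous_const.sub (qsub x)).pow 2)).integrable_of_hasCompactSupport
          ηs.mul_right
      rw [← ofReal_integral_eq_lintegral_ofReal i2
          (Eventually.of_forall fun y => mul_nonneg (η0 y) (abs_nonneg _)),
        ← ofReal_integral_eq_lintegral_ofReal i3
          (Eventually.of_forall fun y => mul_nonneg (η0 y) (sq_nonneg _))]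
      refine (ENNReal.ofReal_le_ofReal (pw x)).trans ?_
      refine ENNReal.ofReal_add_le.trans ?_
      rw [ENNReal.ofReal_mul (by norm_num), ENNReal.ofReal_mul (by positivity)]
      simp
    refine (lintegral_mono h5).trans ?_
    have m3 : Measurable (fun x => ∫⁻ y, ENNReal.ofReal (η y * (q x - q (x - y)) ^ 2)) :=
      m2.lintegral_prod_right'
    have m4 : Measurable (fun x => ∫⁻ y, ENNReal.ofReal (η y * |q (x - y)|)) :=
      m1.lintegral_prod_right'
    rw [lintegral_add_left (m3.const_mul _), lintegral_const_mul _ m3, lintegral_const_mul _ m4,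
      d1, ENNReal.ofReal_add (by positivity) (by positivity)]
    refine add_le_add ?_ ?_
    · rw [mul_assoc 2, ENNReal.ofReal_mul (by norm_num)]
      simp only [ENNReal.ofReal_ofNat]
      gcongr
    · rw [← ENNReal.ofReal_mul (by positivity)]
      exact le_of_eq (by congr 1; ring)
  exact (ENNReal.ofReal_le_ofReal_iff (by positivity)).mp tot

/-! ### confinement -/

private lemma pd_zero (hV : Differentiable ℝ V) (he : Ev V) (i : Fin n) : pd i V 0 = 0 := by
  have h := he.pd_odd hV i 0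
  rw [map_zero] at h
  linarith

private lemma fderiv_self_eq (x : Eu n) (z : Eu n) : fderiv ℝ V z x = ∑ i, x i * pd i V z := by
  conv_lhs => rw [← sum_ej x]
  rw [map_sum]
  refine Finset.sum_congr rfl fun i _ => ?_
  rw [map_smul, smul_eq_mul]
  rfl

private lemma radial (hU : UP V κ Λ S) (x : Eu n) :
    κ * ‖x‖ ^ 2 ≤ ∑ i, x i * pd i V x := by
  have hd : Differentiable ℝ V := hU.cd.differentiable (by norm_num)
  have hdd : Differentiable ℝ (fderiv ℝ V) :=
    (hU.cd.fderiv_right (m := 1) (by norm_num)).differentiable (by norm_num)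
  have hder : ∀ t : ℝ, HasDerivAt (fun t : ℝ => fderiv ℝ V (t • x) x)
      (fderiv ℝ (fderiv ℝ V) (t • x) x x) t := by
    intro t
    have h1 : HasDerivAt (fun t : ℝ => t • x) ((1 : ℝ) • x) t := (hasDerivAt_id t).smul_const x
    rw [one_smul] at h1
    have h2 : HasDerivAt (fun t : ℝ => fderiv ℝ V (t • x)) (fderiv ℝ (fderiv ℝ V) (t • x) x) t :=
      (hdd (t • x)).hasFDerivAt.comp_hasDerivAt t h1
    have h3 := h2.clm_apply (hasDerivAt_const t x)
    simpa using h3
  have h4 := mul_sub_le_image_sub_of_le_deriv (f := fun t : ℝ => fderiv ℝ V (t • x) x)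
    (fun t => (hder t).differentiableAt) (C := κ * ‖x‖ ^ 2)
    (fun t => by rw [(hder t).deriv]; exact hU.conv _ _) (zero_le_one)
  simp only [one_smul, zero_smul, sub_zero, mul_one] at h4
  rw [fderiv_self_eq x x, fderiv_self_eq x 0] at h4
  simp only [pd_zero hd hU.even, mul_zero, Finset.sum_const_zero, sub_zero] at h4
  exact h4

private lemma confine (hU : UP V κ Λ S) (hf : TT f) :
    Ex V (fun x => ‖x‖ ^ 2 * f x ^ 2) ≤
      2 * n / κ * Ex V (fun x => f x ^ 2) + 4 / κ ^ 2 * Df V f f := by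
  have hV1 : ContDiff ℝ 1 V := hU.cd.of_le (by norm_num)
  have Vc : Continuous V := hU.cd.continuous
  have k0 := hU.kpos
  have fc : Continuous f := hf.cd.continuous
  have f2 : TT (fun x => f x ^ 2) := hf.sq
  have f2s := f2.cs
  have f2c : Continuous (fun x => f x ^ 2) := fc.pow 2
  have Vp : ∀ i, Continuous (pd i V) := fun i =>
    (hV1.continuous_fderiv (by norm_num)).clm_apply continuous_const
  have xc : ∀ i, Continuous (fun x : Eu n => x i) := fun i => by fun_prop
  have xcd : ∀ i, ContDiff ℝ 1 (fun x : Eu n => x i) := fun i => by fun_prop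
  have xpd : ∀ i (x : Eu n), pd i (fun x : Eu n => x i) x = 1 := by
    intro i x
    unfold pd
    have h1 : HasFDerivAt (fun x : Eu n => x i) (EuclideanSpace.proj i : Eu n →L[ℝ] ℝ) x :=
      (EuclideanSpace.proj i : Eu n →L[ℝ] ℝ).hasFDerivAt
    rw [h1.fderiv]
    simp [ej]
  have fpc : ∀ i, Continuous (pd i f) := fun i => (hf.pd i).cd.continuous
  have sqpd : ∀ i x, pd i (fun x => f x ^ 2) x = 2 * f x * pd i f x := by
    intro i x
    have e : (fun x => f x ^ 2) = fun x => f x * f x := by funext x; ring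
    rw [e, pd_mul hf.differentiable hf.differentiable]
    ring
  -- integrabilities
  have I0 : Integrable (fun x => f x ^ 2 * Real.exp (-V x)) := f2.int Vc
  have I1 : ∀ i, Integrable (fun x => (x i * pd i V x * f x ^ 2) * Real.exp (-V x)) := fun i =>
    int_cs Vc (((xc i).mul (Vp i)).mul f2c) f2s.mul_left
  have I2 : ∀ i, Integrable (fun x => (x i ^ 2 * f x ^ 2) * Real.exp (-V x)) := fun i =>
    int_cs Vc (((xc i).pow 2).mul f2c) f2s.mul_left
  have I3 : ∀ i, Integrable (fun x => (pd i f x * pd i f x) * Real.exp (-V x)) := fun i =>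
    ((hf.pd i).mul (hf.pd i)).int Vc
  have I4 : ∀ i, Integrable (fun x => (x i * pd i (fun x => f x ^ 2) x) * Real.exp (-V x)) :=
    fun i => int_cs Vc ((xc i).mul ((f2.pd i).cd.continuous)) (f2.pd i).cs.mul_left
  have I5 : Integrable (fun x => (‖x‖ ^ 2 * f x ^ 2) * Real.exp (-V x)) :=
    int_cs Vc ((continuous_norm.pow 2).mul f2c) f2s.mul_left
  -- per coordinate
  have st : ∀ i, Ex V (fun x => x i * pd i V x * f x ^ 2) ≤ Ex V (fun x => f x ^ 2) +
      (κ / 2 * Ex V (fun x => x i ^ 2 * f x ^ 2) + 2 / κ * Ex V (fun x => pd i f x * pd i f x)) := by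
    intro i
    have h1 := ibp hV1 (xcd i) (f2.cd.of_le (by simp)) f2s i
    simp only [xpd, one_mul] at h1
    have e1 : (fun x : Eu n => x i * (pd i (fun x => f x ^ 2) x - pd i V x * f x ^ 2)) =
        fun x => x i * pd i (fun x => f x ^ 2) x - x i * pd i V x * f x ^ 2 := by
      funext x; ring
    rw [e1, Ex_sub (I4 i) (I1 i)] at h1
    have h2 : Ex V (fun x => x i * pd i (fun x => f x ^ 2) x) ≤
        κ / 2 * Ex V (fun x => x i ^ 2 * f x ^ 2) +
        2 / κ * Ex V (fun x => pd i f x * pd i f x) := by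
      have J1 : Integrable (fun x => (κ / 2 * (x i ^ 2 * f x ^ 2)) * Real.exp (-V x)) := by
        have := (I2 i).const_mul (κ / 2)
        refine this.congr (Eventually.of_forall fun x => ?_)
        simp only
        ring
      have J2 : Integrable (fun x => (2 / κ * (pd i f x * pd i f x)) * Real.exp (-V x)) := by
        have := (I3 i).const_mul (2 / κ)
        refine this.congr (Eventually.of_forall fun x => ?_)
        simp only
        ring
      rw [← Ex_const_mul, ← Ex_const_mul, ← Ex_add J1 J2]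
      refine Ex_mono (I4 i) ?_ ?_
      · refine (J1.add J2).congr (Eventually.of_forall fun x => ?_)
        simp only [Pi.add_apply]
        ring
      · intro x
        rw [sqpd]
        have h3 : κ / 2 * (x i ^ 2 * f x ^ 2) + 2 / κ * (pd i f x * pd i f x) -
            x i * (2 * f x * pd i f x) = κ / 2 * (x i * f x - 2 / κ * pd i f x) ^ 2 := by
          field_simp
          ring
        have h4 : 0 ≤ κ / 2 * (x i * f x - 2 / κ * pd i f x) ^ 2 := by positivity
        linarith
    linarith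
  -- sum up
  have hs := Finset.sum_le_sum fun i (_ : i ∈ Finset.univ) => st i
  have e2 : ∑ i, Ex V (fun x => x i * pd i V x * f x ^ 2) =
      Ex V (fun x => (∑ i, x i * pd i V x) * f x ^ 2) := by
    unfold Ex
    rw [← integral_finset_sum _ fun i _ => I1 i]
    refine integral_congr_ae (Eventually.of_forall fun x => ?_)
    simp only [Finset.sum_mul]
  have e3 : ∑ i, Ex V (fun x => x i ^ 2 * f x ^ 2) = Ex V (fun x => ‖x‖ ^ 2 * f x ^ 2) := by
    unfold Ex
    rw [← integral_finset_sum _ fun i _ => I2 i]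
    refine integral_congr_ae (Eventually.of_forall fun x => ?_)
    simp only [EuclideanSpace.real_norm_sq_eq, Finset.sum_mul]
  have e4 : κ * Ex V (fun x => ‖x‖ ^ 2 * f x ^ 2) ≤
      Ex V (fun x => (∑ i, x i * pd i V x) * f x ^ 2) := by
    rw [← Ex_const_mul]
    refine Ex_mono ?_ ?_ fun x => ?_
    · refine (I5.const_mul κ).congr (Eventually.of_forall fun x => ?_)
      simp only
      ring
    · exact int_cs Vc ((continuous_finset_sum _ fun i _ => (xc i).mul (Vp i)).mul f2c) f2s.mul_left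
    · have := radial hU x
      nlinarith [sq_nonneg (f x)]
  rw [e2, Finset.sum_add_distrib, Finset.sum_add_distrib, ← Finset.mul_sum, ← Finset.mul_sum,
    e3, Finset.sum_const, Finset.card_univ, Fintype.card_fin, nsmul_eq_mul] at hs
  change _ ≤ n * Ex V (fun x => f x ^ 2) + (κ / 2 * Ex V (fun x => ‖x‖ ^ 2 * f x ^ 2) +
    2 / κ * Df V f f) at hs
  set Y := Ex V (fun x => ‖x‖ ^ 2 * f x ^ 2)
  set X := Ex V (fun x => f x ^ 2)
  set D := Df V f f
  have h5 : κ / 2 * Y ≤ n * X + 2 / κ * D := by linarith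
  have h6 : Y = 2 / κ * (κ / 2 * Y) := by field_simp
  rw [h6]
  calc 2 / κ * (κ / 2 * Y) ≤ 2 / κ * (n * X + 2 / κ * D) := by gcongr
    _ = _ := by ring

/-! ### localisation -/

private lemma exists_cut (hV : ContDiff ℝ 1 V) {R : ℝ} (hR : 0 < R) :
    ∃ (w : Eu n → ℝ) (B M : ℝ), 0 < B ∧ 0 < M ∧ ContDiff ℝ 1 w ∧ HasCompactSupport w ∧
    (∀ x, w x ^ 2 ≤ Real.exp (-V x)) ∧ (∀ x, ‖x‖ ≤ R → w x ^ 2 = Real.exp (-V x)) ∧
    (∀ x, ‖fderiv ℝ w x‖ ^ 2 ≤ B * Real.exp (-V x)) ∧ (∀ x, |w x| ≤ M * Real.exp (-V x)) := by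
  obtain ⟨b, hb⟩ : ∃ b : ContDiffBump (0 : Eu n), b.rIn = R :=
    ⟨⟨R, R + 1, hR, by linarith⟩, rfl⟩
  set w : Eu n → ℝ := fun x => b x * Real.exp (-V x / 2) with hw
  have wcd : ContDiff ℝ 1 w := by
    refine (b.contDiff (n := 1)).mul (Real.contDiff_exp.comp ?_)
    exact hV.neg.div_const 2
  have ws : HasCompactSupport w := b.hasCompactSupport.mul_right
  have Vc : Continuous V := hV.continuous
  have ec : Continuous (fun x => Real.exp (V x)) := Real.continuous_exp.comp Vc
  have dwc : Continuous (fderiv ℝ w) := wcd.continuous_fderiv (by norm_num)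
  have dws : HasCompactSupport (fderiv ℝ w) := ws.fderiv ℝ
  have sqe : ∀ x, Real.exp (-V x / 2) ^ 2 = Real.exp (-V x) := by
    intro x
    rw [← Real.exp_nat_mul]
    congr 1
    push_cast
    ring
  have c1 : Continuous (fun x => ‖fderiv ℝ w x‖ ^ 2 * Real.exp (V x)) := (dwc.norm.pow 2).mul ec
  have s1 : HasCompactSupport (fun x => ‖fderiv ℝ w x‖ ^ 2 * Real.exp (V x)) :=
    (dws.comp_left (g := fun v => ‖v‖ ^ 2) (by simp)).mul_right
  have c2 : Continuous (fun x => w x * Real.exp (V x)) := wcd.continuous.mul ec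
  have s2 : HasCompactSupport (fun x => w x * Real.exp (V x)) := ws.mul_right
  obtain ⟨B, hB⟩ := s1.exists_bound_of_continuous c1
  obtain ⟨M, hM⟩ := s2.exists_bound_of_continuous c2
  have ee : ∀ x, Real.exp (V x) * Real.exp (-V x) = 1 := fun x => by
    rw [← Real.exp_add]; simp
  refine ⟨w, max B 1, max M 1, lt_of_lt_of_le one_pos (le_max_right _ _),
    lt_of_lt_of_le one_pos (le_max_right _ _), wcd, ws, ?_, ?_, ?_, ?_⟩
  · intro x
    simp only [hw, mul_pow, sqe]
    have h1 : b x ≤ 1 := b.le_one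
    have h2 : 0 ≤ b x := b.nonneg
    have h3 : b x ^ 2 ≤ 1 := by nlinarith
    exact mul_le_of_le_one_left (Real.exp_pos _).le h3
  · intro x hx
    simp only [hw, mul_pow, sqe]
    rw [b.one_of_mem_closedBall (by rw [hb]; simpa using hx)]
    simp
  · intro x
    have h1 := (le_abs_self _).trans (hB x)
    have h2 : ‖fderiv ℝ w x‖ ^ 2 = (‖fderiv ℝ w x‖ ^ 2 * Real.exp (V x)) * Real.exp (-V x) := by
      rw [mul_assoc, ee, mul_one]
    rw [h2]
    exact mul_le_mul_of_nonneg_right (h1.trans (le_max_left _ _)) (Real.exp_pos _).le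
  · intro x
    have h1 := (hM x)
    rw [Real.norm_eq_abs, abs_mul, abs_of_pos (Real.exp_pos _)] at h1
    have h2 : |w x| = (|w x| * Real.exp (V x)) * Real.exp (-V x) := by
      rw [mul_assoc, ee, mul_one]
    rw [h2]
    exact mul_le_mul_of_nonneg_right (h1.trans (le_max_left _ _)) (Real.exp_pos _).le

/-- the super-Poincare inequality -/
theorem superP (hU : UP V κ Λ S) {r : ℝ} (hr : 0 < r) :
    ∃ β : ℝ, 0 < β ∧ ∀ f : Eu n → ℝ, TT f →
      Ex V (fun x => f x ^ 2) ≤ r * Df V f f + β * (Ex V (fun x => |f x|)) ^ 2 := by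
  have k0 := hU.kpos
  have hV1 : ContDiff ℝ 1 V := hU.cd.of_le (by norm_num)
  have Vc : Continuous V := hU.cd.continuous
  set a : ℝ := 2 * n / κ with ha
  set c : ℝ := 4 / κ ^ 2 with hc
  have a0 : 0 ≤ a := by positivity
  have c0 : 0 < c := by positivity
  obtain ⟨R, hR, hRa, hRc⟩ : ∃ R : ℝ, 0 < R ∧ a / R ^ 2 ≤ 1 / 4 ∧ c / R ^ 2 ≤ r / 4 := by
    refine ⟨1 + 4 * a + 4 * c / r, by positivity, ?_, ?_⟩
    · rw [div_le_iff₀ (by positivity)]
      have h1 : 0 < 4 * c / r := by positivity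
      nlinarith [mul_nonneg a0 a0, mul_nonneg a0 h1.le]
    · rw [div_le_iff₀ (by positivity)]
      have h1 : 0 < 4 * c / r := by positivity
      have h2 : 4 * c / r * r = 4 * c := by field_simp
      have h3 : 4 * c / r ≤ (1 + 4 * a + 4 * c / r) ^ 2 := by
        nlinarith [mul_nonneg a0 a0, mul_nonneg a0 h1.le]
      nlinarith
  obtain ⟨w, B, M, B0, M0, wcd, ws, w1, w2, w3, w4⟩ := exists_cut hV1 hR
  obtain ⟨δ, δ0, hδ1, hδ2⟩ : ∃ δ : ℝ, 0 < δ ∧ 4 * δ ^ 2 * B ≤ 1 / 4 ∧ 4 * δ ^ 2 ≤ r / 4 := by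
    refine ⟨Real.sqrt (min (1 / (16 * B)) (r / 16)), Real.sqrt_pos.mpr ?_, ?_, ?_⟩
    · exact lt_min (by positivity) (by positivity)
    · rw [Real.sq_sqrt (le_min (by positivity) (by positivity))]
      calc 4 * min (1 / (16 * B)) (r / 16) * B ≤ 4 * (1 / (16 * B)) * B := by
            gcongr
            exact min_le_left _ _
        _ = 1 / 4 := by field_simp; norm_num
    · rw [Real.sq_sqrt (le_min (by positivity) (by positivity))]
      have := min_le_right (1 / (16 * B)) (r / 16)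
      linarith
  obtain ⟨C, C0, hC⟩ := leb_nash n δ0
  refine ⟨2 * C * M ^ 2, by positivity, fun f hf => ?_⟩
  have fc : Continuous f := hf.cd.continuous
  have fd : Differentiable ℝ f := hf.differentiable
  have f1 : ContDiff ℝ 1 f := hf.cd.of_le (by simp)
  have dfc : Continuous (fderiv ℝ f) := f1.continuous_fderiv (by norm_num)
  have dfs : HasCompactSupport (fderiv ℝ f) := hf.cs.fderiv ℝ
  have dwc : Continuous (fderiv ℝ w) := wcd.continuous_fderiv (by norm_num)
  have qcd : ContDiff ℝ 1 (fun x => w x * f x) := wcd.mul f1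
  have qs : HasCompactSupport (fun x => w x * f x) := ws.mul_right
  have f2s : HasCompactSupport (fun x => f x ^ 2) := hf.sq.cs
  have main := hC _ qcd qs
  have conf := confine hU hf
  have I0 : Integrable (fun x => f x ^ 2 * Real.exp (-V x)) := hf.sq.int Vc
  have I5 : Integrable (fun x => (‖x‖ ^ 2 * f x ^ 2) * Real.exp (-V x)) :=
    int_cs Vc ((continuous_norm.pow 2).mul (fc.pow 2)) f2s.mul_left
  have I6 : Integrable (fun x => ‖fderiv ℝ f x‖ ^ 2 * Real.exp (-V x)) :=
    int_cs Vc (dfc.norm.pow 2) (dfs.comp_left (g := fun v => ‖v‖ ^ 2) (by simp))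
  have I7 : Integrable (fun x => |f x| * Real.exp (-V x)) :=
    int_cs Vc fc.abs (hf.cs.comp_left (g := fun v => |v|) (by simp))
  have qs2 : HasCompactSupport (fun x => (w x * f x) ^ 2) :=
    qs.comp_left (g := fun v => v ^ 2) (by simp)
  have dqs2 : HasCompactSupport (fun x => ‖fderiv ℝ (fun x => w x * f x) x‖ ^ 2) :=
    (qs.fderiv ℝ).comp_left (g := fun v => ‖v‖ ^ 2) (by simp)
  have qc2 : Continuous (fun x => (w x * f x) ^ 2) := qcd.continuous.pow 2
  have dqc2 : Continuous (fun x => ‖fderiv ℝ (fun x => w x * f x) x‖ ^ 2) :=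
    (qcd.continuous_fderiv (by norm_num)).norm.pow 2
  have I8 : Integrable (fun x => (w x * f x) ^ 2) := qc2.integrable_of_hasCompactSupport qs2
  have I9 : Integrable (fun x => ‖fderiv ℝ (fun x => w x * f x) x‖ ^ 2) :=
    dqc2.integrable_of_hasCompactSupport dqs2
  -- comparison of the `L^2` norms
  have s1 : Ex V (fun x => f x ^ 2) ≤ (∫ x, (w x * f x) ^ 2) +
      1 / R ^ 2 * Ex V (fun x => ‖x‖ ^ 2 * f x ^ 2) := by
    unfold Ex
    rw [← integral_const_mul, ← integral_add I8 (I5.const_mul _)]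
    refine integral_mono I0 (I8.add (I5.const_mul _)) fun x => ?_
    simp only
    have hE := Real.exp_pos (-V x)
    by_cases hx : ‖x‖ ≤ R
    · rw [mul_pow, w2 x hx]
      have : 0 ≤ 1 / R ^ 2 * (‖x‖ ^ 2 * f x ^ 2 * Real.exp (-V x)) := by positivity
      linarith
    · have h1 : 1 ≤ 1 / R ^ 2 * ‖x‖ ^ 2 := by
        rw [one_div, inv_mul_eq_div, le_div_iff₀ (by positivity), one_mul]
        have := (not_le.mp hx).le
        gcongr
      have h2 : 0 ≤ f x ^ 2 * Real.exp (-V x) := by positivity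
      have h3 : 0 ≤ (w x * f x) ^ 2 := by positivity
      have h4 : 1 / R ^ 2 * (‖x‖ ^ 2 * f x ^ 2 * Real.exp (-V x)) =
        (1 / R ^ 2 * ‖x‖ ^ 2) * (f x ^ 2 * Real.exp (-V x)) := by ring
      rw [h4]
      nlinarith
  -- energy
  have s2 : ∫ x, ‖fderiv ℝ (fun x => w x * f x) x‖ ^ 2 ≤
      2 * Df V f f + 2 * B * Ex V (fun x => f x ^ 2) := by
    rw [Df_eq V hf Vc]
    unfold Ex
    rw [← integral_const_mul, ← integral_const_mul,
      ← integral_add (I6.const_mul _) (I0.const_mul _)]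
    refine integral_mono I9 ((I6.const_mul _).add (I0.const_mul _)) fun x => ?_
    · simp only
      have h1 : fderiv ℝ (fun x => w x * f x) x = w x • fderiv ℝ f x + f x • fderiv ℝ w x :=
        fderiv_fun_mul ((wcd.differentiable (by norm_num)) x) (fd x)
      have h2 : ‖w x • fderiv ℝ f x + f x • fderiv ℝ w x‖ ≤
          |w x| * ‖fderiv ℝ f x‖ + |f x| * ‖fderiv ℝ w x‖ := by
        refine (norm_add_le _ _).trans (le_of_eq ?_)
        rw [norm_smul, norm_smul, Real.norm_eq_abs, Real.norm_eq_abs]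
      have h3 : ‖w x • fderiv ℝ f x + f x • fderiv ℝ w x‖ ^ 2 ≤
          2 * (w x ^ 2 * ‖fderiv ℝ f x‖ ^ 2) + 2 * (f x ^ 2 * ‖fderiv ℝ w x‖ ^ 2) := by
        calc _ ≤ (|w x| * ‖fderiv ℝ f x‖ + |f x| * ‖fderiv ℝ w x‖) ^ 2 := by gcongr
          _ ≤ 2 * (|w x| * ‖fderiv ℝ f x‖) ^ 2 + 2 * (|f x| * ‖fderiv ℝ w x‖) ^ 2 := by
            nlinarith [sq_nonneg (|w x| * ‖fderiv ℝ f x‖ - |f x| * ‖fderiv ℝ w x‖)]
          _ = _ := by rw [mul_pow, mul_pow, sq_abs, sq_abs]
      rw [h1]
      refine h3.trans ?_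
      have h4 : w x ^ 2 * ‖fderiv ℝ f x‖ ^ 2 ≤ ‖fderiv ℝ f x‖ ^ 2 * Real.exp (-V x) := by
        rw [mul_comm]
        exact mul_le_mul_of_nonneg_left (w1 x) (by positivity)
      have h5 : f x ^ 2 * ‖fderiv ℝ w x‖ ^ 2 ≤ B * (f x ^ 2 * Real.exp (-V x)) := by
        calc f x ^ 2 * ‖fderiv ℝ w x‖ ^ 2 ≤ f x ^ 2 * (B * Real.exp (-V x)) :=
              mul_le_mul_of_nonneg_left (w3 x) (by positivity)
          _ = _ := by ring
      linarith
  -- mass
  have s3 : ∫ x, |w x * f x| ≤ M * Ex V (fun x => |f x|) := by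
    unfold Ex
    rw [← integral_const_mul]
    refine integral_mono ?_ (I7.const_mul _) fun x => ?_
    · exact (qcd.continuous.integrable_of_hasCompactSupport qs).abs
    · simp only
      rw [abs_mul]
      calc |w x| * |f x| ≤ (M * Real.exp (-V x)) * |f x| :=
            mul_le_mul_of_nonneg_right (w4 x) (abs_nonneg _)
        _ = _ := by ring
  have s3' : (∫ x, |w x * f x|) ^ 2 ≤ M ^ 2 * (Ex V (fun x => |f x|)) ^ 2 := by
    rw [← mul_pow]
    exact pow_le_pow_left₀ (integral_nonneg fun x => abs_nonneg _) s3 2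
  have X0 : 0 ≤ Ex V (fun x => f x ^ 2) := Ex_nonneg fun x => sq_nonneg _
  have D0 : 0 ≤ Df V f f := Df_nonneg V f
  set X := Ex V (fun x => f x ^ 2)
  set D := Df V f f
  set Y := Ex V (fun x => ‖x‖ ^ 2 * f x ^ 2)
  set L := (Ex V (fun x => |f x|)) ^ 2
  have t1 : 1 / R ^ 2 * Y ≤ a / R ^ 2 * X + c / R ^ 2 * D := by
    calc 1 / R ^ 2 * Y ≤ 1 / R ^ 2 * (a * X + c * D) := by gcongr
      _ = _ := by ring
  have t2 : a / R ^ 2 * X ≤ 1 / 4 * X := by gcongr
  have t3 : c / R ^ 2 * D ≤ r / 4 * D := by gcongr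
  have t4 : 2 * δ ^ 2 * (∫ x, ‖fderiv ℝ (fun x => w x * f x) x‖ ^ 2) ≤
      4 * δ ^ 2 * D + 4 * δ ^ 2 * B * X := by
    calc _ ≤ 2 * δ ^ 2 * (2 * D + 2 * B * X) := by gcongr
      _ = _ := by ring
  have t5 : 4 * δ ^ 2 * D ≤ r / 4 * D := by gcongr
  have t6 : 4 * δ ^ 2 * B * X ≤ 1 / 4 * X := by gcongr
  have t7 : C * (∫ x, |w x * f x|) ^ 2 ≤ C * (M ^ 2 * L) := by gcongr
  nlinarith

end Pool.Agent.Lib.MP_6d896a_gt.UC
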