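import Mathlib
import Pool.Agent.Lib.MP_6d896a_gt.UC.IterB
import Pool.Agent.Lib.MP_6d896a_gt.UC.SuperP
import Pool.Agent.Lib.MP_6d896a_gt.UC.Apriori
import Pool.Agent.Lib.MP_6d896a_gt.UC.Even

/-!
The Poincare inequality for odd functions with a universal constant.
-/

set_option autoImplicit false

namespace Pool.Agent.Lib.MP_6d896a_gt.UC

open MeasureTheory Filter Topology Set ProbabilityTheory
open scoped ENNReal NNReal ContDiff

variable {n : ℕ} {V f g u : Eu n → ℝ} {κ Λ S : ℝ} {i : Fin n}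

lemma Hodd.mono {c c' : ℝ} (h : Hodd V c) (hcc : c ≤ c') : Hodd V c' := fun i f hf ho =>
  (h i f hf ho).trans (mul_le_mul_of_nonneg_right hcc (Df_nonneg V f))

/-- a constant above the threshold can be improved -/
theorem improve_const (hU : UP V κ Λ S) {c : ℝ} (hc : 0 < c) (hO : Hodd V c) (hE : Hev V c)
    (hcS : 10 ^ 8 * S ≤ c) : ∃ c', 0 < c' ∧ c' < c ∧ Hodd V c' := by
  obtain ⟨β, hβ, hsp⟩ := superP hU (r := c / 2) (by positivity)
  refine ⟨(c / 2 + β * c) / (1 + β), by positivity, ?_, ?_⟩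
  · rw [div_lt_iff₀ (by positivity)]
    nlinarith
  intro i f hf ho
  apply le_of_forall_pos_le_add
  intro τ hτ
  obtain ⟨g, hg, hge, hg0, hgz, hD, hE2⟩ := evenise hU hf ho hτ
  have h1 := hsp g hg
  have h2 := improved hU hc hO hE hcS hg hge hg0 hgz
  have hab : Ex V (fun x => |g x|) = Ex V g := by
    congr 1
    funext x
    exact abs_of_nonneg (hg0 x)
  rw [hab] at h1
  have h3 : Ex V (fun x => g x ^ 2) ≤ (c / 2 + β * c) / (1 + β) * Df V g g := by
    rw [div_mul_eq_mul_div, le_div_iff₀ (by positivity)]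
    nlinarith [mul_le_mul_of_nonneg_left h2 hβ.le]
  have h4 : (c / 2 + β * c) / (1 + β) * Df V g g ≤ (c / 2 + β * c) / (1 + β) * Df V f f :=
    mul_le_mul_of_nonneg_left hD (by positivity)
  linarith

theorem main (hU : UP V κ Λ S) (hHE : ∀ c, 0 < c → Hodd V c → Hev V c) :
    Hodd V (10 ^ 8 * S) := by
  have hS := hU.Spos
  set A : Set ℝ := {c | 0 < c ∧ Hodd V c} with hA
  have hne : A.Nonempty := ⟨1 / κ, by have := hU.kpos; positivity, apriori hU⟩
  have hbdd : BddBelow A := ⟨0, fun c hc => hc.1.le⟩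
  by_contra hcon
  -- all elements are above the threshold
  have hab : ∀ c ∈ A, 10 ^ 8 * S ≤ c := by
    intro c hc
    by_contra h
    push Not at h
    exact hcon (hc.2.mono h.le)
  set c0 := sInf A with hc0
  have h1 : 10 ^ 8 * S ≤ c0 := le_csInf hne hab
  have h2 : 0 < c0 := by nlinarith
  have h3 : Hodd V c0 := by
    intro i f hf ho
    have hD := Df_nonneg V f
    by_contra h
    push Not at h
    rcases hD.eq_or_lt with h0 | h0
    · obtain ⟨c, hc⟩ := hne
      have := hc.2 i f hf ho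
      rw [← h0] at this h
      simp at this h
      linarith
    · have h4 : c0 < Ex V (fun x => f x ^ 2) / Df V f f := by
        rw [lt_div_iff₀ h0]; exact h
      obtain ⟨c, hc, hlt⟩ := exists_lt_of_csInf_lt hne h4
      have h5 := hc.2 i f hf ho
      rw [lt_div_iff₀ h0] at hlt
      linarith
  obtain ⟨c', hc'0, hc', hO'⟩ := improve_const hU h2 h3 (hHE c0 h2 h3) h1
  have h6 : c0 ≤ c' := csInf_le hbdd ⟨hc'0, hO'⟩
  linarith

end Pool.Agent.Lib.MP_6d896a_gt.UC
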