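import Pool.Agent.Lib.MP_6d896a_gt.UC.Defs

/-!
Project UC, part of U6: the one-dimensional inequality.
-/

set_option autoImplicit false

namespace Pool.Agent.Lib.MP_6d896a_gt.UC

open MeasureTheory Filter Topology Set
open scoped ENNReal NNReal

private lemma oneD_aux (p : ℝ → ℝ≥0∞) (hp : Measurable p) (hp1 : ∀ t, p t ≤ 1) {N j : ℕ}
    (hj : j ≤ N) {R : ℝ} (hR : 0 < R)
    (hM : ∫⁻ t in Ioi (0 : ℝ), ENNReal.ofReal (t ^ N) * p t = ENNReal.ofReal (R ^ (N + 1))) :
    ∫⁻ t in Ioi (0 : ℝ), ENNReal.ofReal (t ^ j) * p t ≤ ENNReal.ofReal (2 * R ^ (j + 1)) := by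
  have hpt : ∀ t ∈ Ioi (0 : ℝ), ENNReal.ofReal (t ^ j) * p t ≤
      (Ioc 0 R).indicator (fun _ => ENNReal.ofReal (R ^ j)) t +
        ENNReal.ofReal ((R ^ (N - j))⁻¹) * (ENNReal.ofReal (t ^ N) * p t) := by
    intro t ht
    have ht0 : 0 < t := ht
    by_cases h : t ≤ R
    · rw [indicator_of_mem (show t ∈ Ioc 0 R from ⟨ht0, h⟩)]
      refine le_add_right ?_
      calc ENNReal.ofReal (t ^ j) * p t ≤ ENNReal.ofReal (R ^ j) * 1 :=
            mul_le_mul' (ENNReal.ofReal_le_ofReal (pow_le_pow_left₀ ht0.le h j)) (hp1 t)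
        _ = _ := mul_one _
    · rw [indicator_of_notMem (fun h' => h h'.2), zero_add, ← mul_assoc,
        ← ENNReal.ofReal_mul (by positivity)]
      refine mul_le_mul' (ENNReal.ofReal_le_ofReal ?_) le_rfl
      rw [inv_mul_eq_div, le_div_iff₀ (by positivity)]
      calc t ^ j * R ^ (N - j) ≤ t ^ j * t ^ (N - j) :=
            mul_le_mul_of_nonneg_left (pow_le_pow_left₀ hR.le (not_le.1 h).le _) (by positivity)
        _ = t ^ N := by rw [← pow_add, Nat.add_sub_cancel' hj]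
  refine (setLIntegral_mono' measurableSet_Ioi hpt).trans ?_
  rw [lintegral_add_left (measurable_const.indicator measurableSet_Ioc),
    lintegral_const_mul _ (by fun_prop), hM, ← ENNReal.ofReal_mul (by positivity)]
  have h1 : ∫⁻ t in Ioi (0 : ℝ), (Ioc 0 R).indicator (fun _ => ENNReal.ofReal (R ^ j)) t ≤
      ENNReal.ofReal (R ^ (j + 1)) := by
    rw [lintegral_indicator measurableSet_Ioc, lintegral_const, Measure.restrict_apply_univ]
    calc ENNReal.ofReal (R ^ j) * (volume.restrict (Ioi 0)) (Ioc 0 R)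
        ≤ ENNReal.ofReal (R ^ j) * volume (Ioc 0 R) :=
          mul_le_mul' le_rfl (Measure.restrict_apply_le _ _)
      _ = ENNReal.ofReal (R ^ (j + 1)) := by
          rw [Real.volume_Ioc, sub_zero, ← ENNReal.ofReal_mul (by positivity), pow_succ]
  have h2 : (R ^ (N - j))⁻¹ * R ^ (N + 1) = R ^ (j + 1) := by
    rw [inv_mul_eq_div, div_eq_iff (by positivity), ← pow_add]
    congr 1
    omega
  rw [h2]
  refine (add_le_add_left h1 _).trans (le_of_eq ?_)
  rw [← ENNReal.ofReal_add (by positivity) (by positivity)]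
  congr 1
  ring

/-- one-dimensional inequality -/
theorem oneD (p : ℝ → ℝ≥0∞) (hp : Measurable p) (hp1 : ∀ t, p t ≤ 1)
    (hfin : ∫⁻ t in Ioi (0 : ℝ), p t ≠ ⊤) (k : ℕ) :
    (∫⁻ t in Ioi (0 : ℝ), ENNReal.ofReal (t ^ k) * p t) ^ 2 * (∫⁻ t in Ioi (0 : ℝ), p t) ≤
      8 * ∫⁻ t in Ioi (0 : ℝ), ENNReal.ofReal (t ^ (2 * (k + 1))) * p t := by
  set M := ∫⁻ t in Ioi (0 : ℝ), ENNReal.ofReal (t ^ (2 * (k + 1))) * p t with hMdef
  by_cases htop : M = ⊤
  · rw [htop, ENNReal.mul_top (by norm_num)]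
    exact le_top
  by_cases h0 : M = 0
  · -- then `p` vanishes almost everywhere
    have h1 : ∀ᵐ t ∂(volume.restrict (Ioi (0 : ℝ))),
        ENNReal.ofReal (t ^ (2 * (k + 1))) * p t = 0 := by
      rw [hMdef, lintegral_eq_zero_iff (by fun_prop)] at h0
      exact h0
    have h2 : ∫⁻ t in Ioi (0 : ℝ), p t = 0 := by
      rw [lintegral_eq_zero_iff hp]
      filter_upwards [h1, ae_restrict_mem measurableSet_Ioi] with t ht ht0
      have ht0' : 0 < t := ht0
      rcases mul_eq_zero.1 ht with h | h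
      · exfalso
        rw [ENNReal.ofReal_eq_zero] at h
        have : 0 < t ^ (2 * (k + 1)) := by positivity
        linarith
      · exact h
    rw [h2, mul_zero]
    exact zero_le
  set m := M.toReal with hm
  have hm0 : 0 < m := ENNReal.toReal_pos h0 htop
  set R : ℝ := m ^ (((2 * (k + 1) + 1 : ℕ) : ℝ)⁻¹) with hRdef
  have hR : 0 < R := Real.rpow_pos_of_pos hm0 _
  have hRM : R ^ (2 * (k + 1) + 1) = m :=
    Real.rpow_inv_natCast_pow hm0.le (by omega)
  have hM : M = ENNReal.ofReal (R ^ (2 * (k + 1) + 1)) := by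
    rw [hRM, hm, ENNReal.ofReal_toReal htop]
  have h1 := oneD_aux p hp hp1 (j := k) (N := 2 * (k + 1)) (by omega) hR hM
  have h2 := oneD_aux p hp hp1 (j := 0) (N := 2 * (k + 1)) (by omega) hR hM
  simp only [pow_zero, ENNReal.ofReal_one, one_mul, zero_add, pow_one] at h2
  calc (∫⁻ t in Ioi (0 : ℝ), ENNReal.ofReal (t ^ k) * p t) ^ 2 * (∫⁻ t in Ioi (0 : ℝ), p t)
      ≤ (ENNReal.ofReal (2 * R ^ (k + 1))) ^ 2 * ENNReal.ofReal (2 * R) := by
        gcongr
    _ = 8 * M := by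
        rw [hM, ← ENNReal.ofReal_pow (by positivity), ← ENNReal.ofReal_mul (by positivity),
          show (8 : ℝ≥0∞) = ENNReal.ofReal 8 by norm_num, ← ENNReal.ofReal_mul (by norm_num)]
        congr 1
        ring

end Pool.Agent.Lib.MP_6d896a_gt.UC
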