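import Mathlib
import Pool.Agent.Lib.MP_6d896a_gt.Sym12
import Pool.Agent.Lib.MP_6d896a_gt.UC.Basic

/-!
Project UC, piece U14: from test functions to bounded `C^1` functions with bounded gradient.
-/

set_option autoImplicit false

namespace Pool.Agent.Lib.MP_6d896a_gt.UC

open MeasureTheory Filter Topology Set
open scoped ENNReal NNReal ContDiff Convolution

variable {n : ℕ} {V f g u : Eu n → ℝ} {κ Λ S : ℝ} {i j : Fin n}

/-- mollifiers -/
private noncomputable def tfb (n k : ℕ) : ContDiffBump (0 : Eu n) where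
  rIn := 1 / (2 * ((k : ℝ) + 1))
  rOut := 1 / ((k : ℝ) + 1)
  rIn_pos := by positivity
  rIn_lt_rOut := by
    rw [div_lt_div_iff₀ (by positivity) (by positivity)]
    have : (0 : ℝ) ≤ k := Nat.cast_nonneg k
    linarith

private lemma tfb_tendsto (n : ℕ) : Tendsto (fun k => (tfb n k).rOut) atTop (𝓝 0) :=
  tendsto_one_div_add_atTop_nhds_zero_nat

/-- mollified function -/
private noncomputable def tfm (k : ℕ) (g : Eu n → ℝ) (x : Eu n) : ℝ :=
  ((tfb n k).normed volume ⋆[ContinuousLinearMap.lsmul ℝ ℝ, volume] g) x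

private lemma tfm_TT (k : ℕ) (hg : Continuous g) (hc : HasCompactSupport g) : TT (tfm k g) where
  cd := (tfb n k).hasCompactSupport_normed.contDiff_convolution_left _ (tfb n k).contDiff_normed
    hg.locallyIntegrable
  cs := (tfb n k).hasCompactSupport_normed.convolution _ hc

private lemma tfm_fderiv (k : ℕ) (hg : ContDiff ℝ 1 g) (hc : HasCompactSupport g) (x : Eu n) :
    fderiv ℝ (tfm k g) x =
      ((tfb n k).normed volume ⋆[ContinuousLinearMap.lsmul ℝ ℝ, volume] (fderiv ℝ g)) x := by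
  have h := hc.hasFDerivAt_convolution_right (ContinuousLinearMap.lsmul ℝ ℝ)
    (μ := (volume : Measure (Eu n)))
    ((tfb n k).continuous_normed (μ := (volume : Measure (Eu n)))).locallyIntegrable hg x
  have h2 : fderiv ℝ (tfm k g) x = _ := h.fderiv
  rw [h2]
  unfold convolution
  apply integral_congr_ae
  filter_upwards with t
  ext v
  simp [ContinuousLinearMap.precompR_apply]

private lemma conv_bound {F : Type*} [NormedAddCommGroup F] [NormedSpace ℝ F] [CompleteSpace F]
    (k : ℕ) {G : Eu n → F} {B : ℝ} (hB : ∀ x, ‖G x‖ ≤ B) (x : Eu n) :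
    ‖((tfb n k).normed volume ⋆[ContinuousLinearMap.lsmul ℝ ℝ, volume] G) x‖ ≤ B := by
  unfold convolution
  have hi := (tfb n k).integrable_normed (μ := (volume : Measure (Eu n)))
  calc ‖∫ t, (ContinuousLinearMap.lsmul ℝ ℝ) ((tfb n k).normed volume t) (G (x - t))‖
      ≤ ∫ t, ‖(ContinuousLinearMap.lsmul ℝ ℝ) ((tfb n k).normed volume t) (G (x - t))‖ :=
        norm_integral_le_integral_norm _
    _ ≤ ∫ t, (tfb n k).normed volume t * B := by
        apply integral_mono_of_nonneg
        · filter_upwards with t using norm_nonneg _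
        · exact hi.mul_const B
        · filter_upwards with t
          rw [ContinuousLinearMap.lsmul_apply, norm_smul, Real.norm_eq_abs,
            abs_of_nonneg ((tfb n k).nonneg_normed t)]
          exact mul_le_mul_of_nonneg_left (hB _) ((tfb n k).nonneg_normed t)
    _ = B := by
        rw [integral_mul_const, (tfb n k).integral_normed, one_mul]

private lemma bint (hV : Continuous V) (hi : Integrable (fun x => Real.exp (-V x)))
    {F : Eu n → ℝ} (hF : Continuous F) {B : ℝ} (hB : ∀ x, |F x| ≤ B) :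
    Integrable (fun x => F x * Real.exp (-V x)) := by
  apply Integrable.mono' (hi.const_mul B) (by fun_prop)
  filter_upwards with x
  rw [Real.norm_eq_abs, abs_mul, Real.abs_exp]
  exact mul_le_mul_of_nonneg_right (hB x) (Real.exp_nonneg _)

private lemma dom_lim (hV : Continuous V) (hi : Integrable (fun x => Real.exp (-V x)))
    {F : ℕ → Eu n → ℝ} {G : Eu n → ℝ} (hF : ∀ k, Continuous (F k)) {B : ℝ}
    (hB : ∀ k x, |F k x| ≤ B) (hl : ∀ x, Tendsto (fun k => F k x) atTop (𝓝 (G x))) :
    Tendsto (fun k => ∫ x, F k x * Real.exp (-V x)) atTop (𝓝 (∫ x, G x * Real.exp (-V x))) := by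
  apply tendsto_integral_of_dominated_convergence (fun x => B * Real.exp (-V x))
  · intro k
    exact ((hF k).mul (by fun_prop)).aestronglyMeasurable
  · exact hi.const_mul B
  · intro k
    filter_upwards with x
    rw [Real.norm_eq_abs, abs_mul, Real.abs_exp]
    exact mul_le_mul_of_nonneg_right (hB k x) (Real.exp_nonneg _)
  · filter_upwards with x
    exact (hl x).mul_const _

/-- odd `C^1` functions with compact support -/
private lemma ext_cpt (hV : Continuous V) (hi : Integrable (fun x => Real.exp (-V x))) {c : ℝ}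
    (hO : Hodd V c) (hg : ContDiff ℝ 1 g) (hc : HasCompactSupport g) (ho : Od i g) :
    ∫ x, g x ^ 2 * Real.exp (-V x) ≤ c * ∫ x, ‖fderiv ℝ g x‖ ^ 2 * Real.exp (-V x) := by
  obtain ⟨B, hB⟩ := hc.exists_bound_of_continuous hg.continuous
  obtain ⟨B', hB'⟩ := (hc.fderiv ℝ).exists_bound_of_continuous (hg.continuous_fderiv (by simp))
  have hB0 : 0 ≤ B := (norm_nonneg _).trans (hB 0)
  have hB0' : 0 ≤ B' := (norm_nonneg _).trans (hB' 0)
  have hT : ∀ k, TT (tfm k g) := fun k => tfm_TT k hg.continuous hc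
  set o : ℕ → Eu n → ℝ := fun k x => (1 / 2) * (tfm k g x - tfm k g (Rf i x)) with ho'
  have hTo : ∀ k, TT (o k) := fun k => ((hT k).sub ((hT k).comp_Rf i)).const_mul _
  have hodd : ∀ k, Od i (o k) := by
    intro k x
    simp only [ho', Rf_Rf]
    ring
  have hfd : ∀ k x, fderiv ℝ (o k) x = (1 / 2 : ℝ) • (fderiv ℝ (tfm k g) x -
      (fderiv ℝ (tfm k g) (Rf i x)).comp ((Rf i).toContinuousLinearEquiv : Eu n →L[ℝ] Eu n)) := by
    intro k x
    have h1 : HasFDerivAt (tfm k g) (fderiv ℝ (tfm k g) x) x :=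
      ((hT k).differentiable x).hasFDerivAt
    have h2 := comp_refl_fderiv ((hT k).cd.of_le (by exact_mod_cast le_top)) i x
    exact ((h1.sub h2).const_mul (1 / 2 : ℝ)).fderiv
  have hmb : ∀ k x, |tfm k g x| ≤ B := fun k x => conv_bound k hB x
  have hmb' : ∀ k x, ‖fderiv ℝ (tfm k g) x‖ ≤ B' := by
    intro k x
    rw [tfm_fderiv k hg hc]
    exact conv_bound k hB' x
  have hob : ∀ k x, |o k x| ≤ B := by
    intro k x
    have h1 := hmb k x
    have h2 := hmb k (Rf i x)
    simp only [ho']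
    rw [abs_mul, abs_of_pos (by norm_num : (0 : ℝ) < 1 / 2)]
    have h3 := abs_sub (tfm k g x) (tfm k g (Rf i x))
    linarith
  have hob' : ∀ k x, ‖fderiv ℝ (o k) x‖ ≤ B' := by
    intro k x
    rw [hfd, norm_smul, Real.norm_eq_abs, abs_of_pos (by norm_num : (0 : ℝ) < 1 / 2)]
    have h3 := norm_sub_le (fderiv ℝ (tfm k g) x) ((fderiv ℝ (tfm k g) (Rf i x)).comp
      ((Rf i).toContinuousLinearEquiv : Eu n →L[ℝ] Eu n))
    rw [comp_refl_norm] at h3
    have h1 := hmb' k x
    have h2 := hmb' k (Rf i x)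
    linarith
  have hml : ∀ x, Tendsto (fun k => tfm k g x) atTop (𝓝 (g x)) := fun x =>
    ContDiffBump.convolution_tendsto_right_of_continuous (tfb_tendsto n) hg.continuous x
  have hml' : ∀ x, Tendsto (fun k => fderiv ℝ (tfm k g) x) atTop (𝓝 (fderiv ℝ g x)) := by
    intro x
    have h1 := ContDiffBump.convolution_tendsto_right_of_continuous
      (μ := (volume : Measure (Eu n))) (tfb_tendsto n)
      (hg.continuous_fderiv (by simp)) x
    refine h1.congr (fun k => ?_)
    rw [tfm_fderiv k hg hc]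
  have hol : ∀ x, Tendsto (fun k => o k x) atTop (𝓝 (g x)) := by
    intro x
    have h1 := ((hml x).sub (hml (Rf i x))).const_mul (1 / 2 : ℝ)
    have e : (1 / 2 : ℝ) * (g x - g (Rf i x)) = g x := by rw [ho x]; ring
    rw [e] at h1
    exact h1
  have hgo : ∀ x, (fderiv ℝ g (Rf i x)).comp
      ((Rf i).toContinuousLinearEquiv : Eu n →L[ℝ] Eu n) = - fderiv ℝ g x := by
    intro x
    have h1 := comp_refl_fderiv hg i x
    have e : (fun y => g (Rf i y)) = fun y => - g y := funext ho
    rw [e] at h1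
    have h2 : HasFDerivAt (fun y => - g y) (- fderiv ℝ g x) x :=
      ((hg.differentiable (by simp)) x).hasFDerivAt.neg
    exact h1.unique h2
  have hol' : ∀ x, Tendsto (fun k => fderiv ℝ (o k) x) atTop (𝓝 (fderiv ℝ g x)) := by
    intro x
    have hc : Continuous (fun T : Eu n →L[ℝ] ℝ => T.comp
      ((Rf i).toContinuousLinearEquiv : Eu n →L[ℝ] Eu n)) := by fun_prop
    have h2 := (hc.tendsto (fderiv ℝ g (Rf i x))).comp (hml' (Rf i x))
    have h1 := ((hml' x).sub h2).const_smul (1 / 2 : ℝ)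
    have e : (1 / 2 : ℝ) • (fderiv ℝ g x - (fderiv ℝ g (Rf i x)).comp
      ((Rf i).toContinuousLinearEquiv : Eu n →L[ℝ] Eu n)) = fderiv ℝ g x := by
      rw [hgo x, sub_neg_eq_add, ← two_smul ℝ (fderiv ℝ g x), smul_smul]
      norm_num
    rw [e] at h1
    refine h1.congr (fun k => ?_)
    rw [hfd]
    rfl
  have key : ∀ k, ∫ x, o k x ^ 2 * Real.exp (-V x) ≤
      c * ∫ x, ‖fderiv ℝ (o k) x‖ ^ 2 * Real.exp (-V x) := by
    intro k
    have := hO i (o k) (hTo k) (hodd k)
    rwa [Df_eq V (hTo k) hV] at this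
  have hL := dom_lim (F := fun k x => o k x ^ 2) (G := fun x => g x ^ 2) hV hi (fun k => (hTo k).continuous.pow 2) (B := B ^ 2)
    (fun k x => by
      rw [abs_pow]
      exact pow_le_pow_left₀ (abs_nonneg _) (hob k x) 2)
    (fun x => (hol x).pow 2)
  have hR := dom_lim (F := fun k x => ‖fderiv ℝ (o k) x‖ ^ 2)
    (G := fun x => ‖fderiv ℝ g x‖ ^ 2) hV hi
    (fun k => (((hTo k).cd.continuous_fderiv (by simp)).norm).pow 2) (B := B' ^ 2)
    (fun k x => by
      rw [abs_pow, abs_norm]
      exact pow_le_pow_left₀ (norm_nonneg _) (hob' k x) 2)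
    (fun x => (hol' x).norm.pow 2)
  exact le_of_tendsto_of_tendsto' hL (hR.const_mul c) key

/-- radial cut-off function -/
private noncomputable def rcut (x : Eu n) : ℝ := Real.smoothTransition (2 - ‖x‖ ^ 2)

private lemma rcut_smooth : ContDiff ℝ ∞ (rcut (n := n)) := by
  unfold rcut
  exact Real.smoothTransition.contDiff.comp (contDiff_const.sub (contDiff_norm_sq ℝ))

private lemma rcut_cs : HasCompactSupport (rcut (n := n)) := by
  apply HasCompactSupport.of_support_subset_isCompact (isCompact_closedBall (0 : Eu n) 2)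
  intro x hx
  rw [mem_closedBall_zero_iff]
  by_contra h
  push Not at h
  apply hx
  unfold rcut
  apply Real.smoothTransition.zero_of_nonpos
  nlinarith

private lemma rcut_nonneg (x : Eu n) : 0 ≤ rcut x := Real.smoothTransition.nonneg _
private lemma rcut_le (x : Eu n) : rcut x ≤ 1 := Real.smoothTransition.le_one _
private lemma rcut_zero : rcut (0 : Eu n) = 1 := by
  unfold rcut
  apply Real.smoothTransition.one_of_one_le
  norm_num

private lemma rcut_Rf (a : ℝ) (x : Eu n) : rcut (a • Rf i x) = rcut (a • x) := by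
  unfold rcut
  rw [norm_smul, norm_smul, LinearIsometryEquiv.norm_map]

/-- from test functions to bounded `C^1` functions with bounded gradient, odd in a coordinate -/
theorem tf_ext (hU : UP V κ Λ S) {c : ℝ} (hc : 0 ≤ c) (hO : Hodd V c) {U L : ℝ} (hu : TF u U L)
    (ho : Od i u) :
    ∫ x, u x ^ 2 ∂(tgt V) ≤ c * ∫ x, ‖fderiv ℝ u x‖ ^ 2 ∂(tgt V) := by
  have hV := hU.cd.continuous
  rw [integral_tgt hV, integral_tgt hV]
  obtain ⟨M, hM⟩ := (rcut_cs (n := n).fderiv ℝ).exists_bound_of_continuous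
    (rcut_smooth.continuous_fderiv (by simp))
  have hM0 : 0 ≤ M := (norm_nonneg _).trans (hM 0)
  have hU0 : 0 ≤ U := (abs_nonneg _).trans (hu.bd 0)
  have hL0 : 0 ≤ L := (norm_nonneg _).trans (hu.gd 0)
  set a : ℕ → ℝ := fun k => 1 / ((k : ℝ) + 1) with ha
  have ha0 : ∀ k, 0 ≤ a k := fun k => by positivity
  have ha1 : ∀ k, a k ≤ 1 := fun k => by
    rw [ha]
    simp only
    rw [div_le_one (by positivity)]
    have : (0 : ℝ) ≤ k := Nat.cast_nonneg k
    linarith
  have hal : Tendsto a atTop (𝓝 0) := tendsto_one_div_add_atTop_nhds_zero_nat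
  set G : ℕ → Eu n → ℝ := fun k x => rcut (a k • x) * u x with hG
  have hdr : ∀ k x, HasFDerivAt (fun x : Eu n => rcut (a k • x))
      (a k • fderiv ℝ rcut (a k • x)) x := by
    intro k x
    have h1 : HasFDerivAt (rcut (n := n)) (fderiv ℝ rcut (a k • x)) (a k • x) :=
      ((rcut_smooth.differentiable (by simp)) _).hasFDerivAt
    have h2 : HasFDerivAt (fun x : Eu n => a k • x) (a k • ContinuousLinearMap.id ℝ (Eu n)) x :=
      (hasFDerivAt_id x).const_smul (a k)
    have h3 := h1.comp x h2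
    have e : (fderiv ℝ rcut (a k • x)).comp (a k • ContinuousLinearMap.id ℝ (Eu n)) =
        a k • fderiv ℝ rcut (a k • x) := by
      ext v
      simp
    rw [e] at h3
    exact h3
  have hdG : ∀ k x, fderiv ℝ (G k) x = rcut (a k • x) • fderiv ℝ u x +
      u x • (a k • fderiv ℝ rcut (a k • x)) := by
    intro k x
    exact ((hdr k x).mul ((hu.cd.differentiable (by simp)) x).hasFDerivAt).fderiv
  have hGc : ∀ k, ContDiff ℝ 1 (G k) := by
    intro k
    have h1 : ContDiff ℝ 1 (fun x : Eu n => rcut (a k • x)) :=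
      (rcut_smooth.of_le (by exact_mod_cast le_top)).comp (contDiff_const_smul (a k))
    exact h1.mul hu.cd
  have hGs : ∀ k, HasCompactSupport (G k) := by
    intro k
    have h1 : HasCompactSupport (fun x : Eu n => rcut (a k • x)) := by
      have hk : a k ≠ 0 := by rw [ha]; positivity
      exact rcut_cs.comp_homeomorph (Homeomorph.smulOfNeZero (a k) hk)
    exact h1.mul_right
  have hGo : ∀ k, Od i (G k) := by
    intro k x
    simp only [hG]
    rw [rcut_Rf, ho x]
    ring
  have key : ∀ k, ∫ x, G k x ^ 2 * Real.exp (-V x) ≤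
      c * ∫ x, ‖fderiv ℝ (G k) x‖ ^ 2 * Real.exp (-V x) := fun k =>
    ext_cpt hV hU.int hO (hGc k) (hGs k) (hGo k)
  have hrl : ∀ x : Eu n, Tendsto (fun k => rcut (a k • x)) atTop (𝓝 1) := by
    intro x
    have h1 : Tendsto (fun k => a k • x) atTop (𝓝 (0 : Eu n)) := by
      have := hal.smul_const x
      rwa [zero_smul] at this
    have h2 := (rcut_smooth.continuous.tendsto (0 : Eu n)).comp h1
    rw [rcut_zero] at h2
    exact h2
  have hL := dom_lim (F := fun k x => G k x ^ 2) (G := fun x => u x ^ 2) hV hU.int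
    (fun k => (hGc k).continuous.pow 2) (B := U ^ 2)
    (fun k x => by
      rw [abs_pow]
      apply pow_le_pow_left₀ (abs_nonneg _)
      simp only [hG]
      rw [abs_mul, abs_of_nonneg (rcut_nonneg _)]
      calc rcut (a k • x) * |u x| ≤ 1 * U :=
            mul_le_mul (rcut_le _) (hu.bd x) (abs_nonneg _) zero_le_one
        _ = U := one_mul U)
    (fun x => by
      have := ((hrl x).mul_const (u x)).pow 2
      rwa [one_mul] at this)
  have hR := dom_lim (F := fun k x => ‖fderiv ℝ (G k) x‖ ^ 2)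
    (G := fun x => ‖fderiv ℝ u x‖ ^ 2) hV hU.int
    (fun k => (((hGc k).continuous_fderiv (by simp)).norm).pow 2) (B := (L + U * M) ^ 2)
    (fun k x => by
      rw [abs_pow, abs_norm]
      apply pow_le_pow_left₀ (norm_nonneg _)
      rw [hdG]
      refine (norm_add_le _ _).trans (add_le_add ?_ ?_)
      · rw [norm_smul, Real.norm_eq_abs, abs_of_nonneg (rcut_nonneg _)]
        calc rcut (a k • x) * ‖fderiv ℝ u x‖ ≤ 1 * L :=
              mul_le_mul (rcut_le _) (hu.gd x) (norm_nonneg _) zero_le_one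
          _ = L := one_mul L
      · rw [norm_smul, Real.norm_eq_abs, norm_smul, Real.norm_eq_abs, abs_of_nonneg (ha0 k)]
        apply mul_le_mul (hu.bd x) _ (by positivity) hU0
        calc a k * ‖fderiv ℝ rcut (a k • x)‖ ≤ 1 * M :=
              mul_le_mul (ha1 k) (hM _) (norm_nonneg _) zero_le_one
          _ = M := one_mul M)
    (fun x => by
      have h1 : Tendsto (fun k => a k • fderiv ℝ rcut (a k • x)) atTop (𝓝 0) := by
        apply squeeze_zero_norm (a := fun k => a k * M)
        · intro k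
          rw [norm_smul, Real.norm_eq_abs, abs_of_nonneg (ha0 k)]
          exact mul_le_mul_of_nonneg_left (hM _) (ha0 k)
        · have := hal.mul_const M
          rwa [zero_mul] at this
      have h2 := ((hrl x).smul_const (fderiv ℝ u x)).add (h1.const_smul (u x))
      rw [one_smul, smul_zero, add_zero] at h2
      have h3 := h2.norm.pow 2
      refine h3.congr (fun k => ?_)
      rw [hdG])
  exact le_of_tendsto_of_tendsto' hL (hR.const_mul c) key

/-- the odd extension of the restriction of a function to a half-space -/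
private noncomputable def oex (i : Fin n) (u : Eu n → ℝ) (x : Eu n) : ℝ :=
  if 0 ≤ x i then u x else - u (Rf i x)

private noncomputable def oexd (i : Fin n) (u : Eu n → ℝ) (x : Eu n) : Eu n →L[ℝ] ℝ :=
  if 0 ≤ x i then fderiv ℝ u x else - (fderiv ℝ u (Rf i x)).comp
    ((Rf i).toContinuousLinearEquiv : Eu n →L[ℝ] Eu n)

private lemma Rf_fix {x : Eu n} (hx : x i = 0) : Rf i x = x := by
  ext k
  rw [Rf_apply]
  by_cases hk : k = i
  · subst hk; simp [hx]
  · simp [hk]

private lemma fderiv_hyp (hu : ContDiff ℝ 1 u) (h0 : ∀ x, x i = 0 → u x = 0) {x : Eu n}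
    (hx : x i = 0) :
    fderiv ℝ u x = - (fderiv ℝ u (Rf i x)).comp
      ((Rf i).toContinuousLinearEquiv : Eu n →L[ℝ] Eu n) := by
  rw [Rf_fix hx]
  have hd : HasFDerivAt u (fderiv ℝ u x) x := ((hu.differentiable (by simp)) x).hasFDerivAt
  have hz : ∀ v : Eu n, v i = 0 → fderiv ℝ u x v = 0 := by
    intro v hv
    have h1 : HasDerivAt (fun t : ℝ => x + t • v) v 0 := by
      have := ((hasDerivAt_id (0 : ℝ)).smul_const v).const_add x
      simpa using this
    have h2 : HasFDerivAt u (fderiv ℝ u x) (x + (0 : ℝ) • v) := by simpa using hd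
    have h3 := h2.comp_hasDerivAt (0 : ℝ) h1
    have h4 : (u ∘ fun t : ℝ => x + t • v) = fun _ => 0 := by
      funext t
      apply h0
      simp [hx, hv]
    rw [h4] at h3
    exact h3.unique (hasDerivAt_const (0 : ℝ) (0 : ℝ))
  ext v
  have e1 : v = (v - v i • ej i) + v i • ej i := by abel
  have e2 : Rf i v = (v - v i • ej i) - v i • ej i := by
    ext k
    rw [Rf_apply]
    by_cases hk : k = i
    · subst hk; simp [ej]
    · simp [ej, hk]
  have h5 : fderiv ℝ u x (v - v i • ej i) = 0 := hz _ (by simp [ej])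
  have h6 : fderiv ℝ u x v = fderiv ℝ u x (v i • ej i) := by
    conv_lhs => rw [e1]
    rw [map_add, h5, zero_add]
  have h7 : fderiv ℝ u x (Rf i v) = - fderiv ℝ u x (v i • ej i) := by
    rw [e2, map_sub, h5, zero_sub]
  simp only [neg_apply, ContinuousLinearMap.comp_apply,
    ContinuousLinearEquiv.coe_coe, LinearIsometryEquiv.coe_toContinuousLinearEquiv]
  rw [h7, h6, neg_neg]

private lemma coordc (i : Fin n) : Continuous (fun x : Eu n => x i) := by fun_prop

private lemma oex_fderiv (hu : ContDiff ℝ 1 u) (h0 : ∀ x, x i = 0 → u x = 0) (x : Eu n) :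
    HasFDerivAt (oex i u) (oexd i u x) x := by
  have hd : HasFDerivAt u (fderiv ℝ u x) x := ((hu.differentiable (by simp)) x).hasFDerivAt
  have hd2 := (comp_refl_fderiv hu i x).neg
  rcases lt_trichotomy (x i) 0 with hx | hx | hx
  · have e : oexd i u x = - (fderiv ℝ u (Rf i x)).comp
      ((Rf i).toContinuousLinearEquiv : Eu n →L[ℝ] Eu n) := by
      unfold oexd
      rw [if_neg (not_le.mpr hx)]
    rw [e]
    apply hd2.congr_of_eventuallyEq
    have : {y : Eu n | y i < 0} ∈ 𝓝 x := (isOpen_lt (coordc i) continuous_const).mem_nhds hx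
    filter_upwards [this] with y hy
    unfold oex
    rw [if_neg (not_le.mpr hy)]
    rfl
  · have e : oexd i u x = fderiv ℝ u x := by
      unfold oexd
      rw [if_pos hx.ge]
    have e2 := fderiv_hyp hu h0 hx
    have h1 : HasFDerivWithinAt (oex i u) (oexd i u x) {y | 0 ≤ y i} x := by
      rw [e]
      refine hd.hasFDerivWithinAt.congr (fun y hy => ?_) ?_
      · unfold oex
        exact if_pos hy
      · unfold oex
        exact if_pos hx.ge
    have h2 : HasFDerivWithinAt (oex i u) (oexd i u x) {y | y i ≤ 0} x := by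
      rw [e, e2]
      have aux : ∀ y : Eu n, y i ≤ 0 → oex i u y = - u (Rf i y) := by
        intro y hy
        unfold oex
        rcases hy.lt_or_eq with h | h
        · rw [if_neg (not_le.mpr h)]
        · rw [if_pos h.ge, Rf_fix h, h0 y h, neg_zero]
      exact hd2.hasFDerivWithinAt.congr (fun y hy => aux y hy) (aux x hx.le)
    have h3 := h1.union h2
    have h4 : {y : Eu n | 0 ≤ y i} ∪ {y | y i ≤ 0} = univ := by
      ext y
      simp [le_total]
    rw [h4, hasFDerivWithinAt_univ] at h3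
    exact h3
  · have e : oexd i u x = fderiv ℝ u x := by
      unfold oexd
      rw [if_pos hx.le]
    rw [e]
    apply hd.congr_of_eventuallyEq
    have : {y : Eu n | 0 < y i} ∈ 𝓝 x := (isOpen_lt continuous_const (coordc i)).mem_nhds hx
    filter_upwards [this] with y hy
    unfold oex
    rw [if_pos (le_of_lt hy)]

private lemma oex_TF {U L : ℝ} (hu : TF u U L) (h0 : ∀ x, x i = 0 → u x = 0) :
    TF (oex i u) U L where
  cd := by
    have hfd : fderiv ℝ (oex i u) = oexd i u := funext fun x => (oex_fderiv hu.cd h0 x).fderiv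
    rw [contDiff_one_iff_fderiv]
    refine ⟨fun x => (oex_fderiv hu.cd h0 x).differentiableAt, ?_⟩
    rw [hfd]
    unfold oexd
    have hc := hu.cd.continuous_fderiv (by simp)
    have hc2 : Continuous (fun x => - (fderiv ℝ u (Rf i x)).comp
        ((Rf i).toContinuousLinearEquiv : Eu n →L[ℝ] Eu n)) := by
      have h1 : Continuous (fun T : Eu n →L[ℝ] ℝ => - T.comp
        ((Rf i).toContinuousLinearEquiv : Eu n →L[ℝ] Eu n)) := by fun_prop
      exact h1.comp (hc.comp (Rf i).continuous)
    exact Continuous.if_le hc hc2 continuous_const (coordc i)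
      (fun x hx => fderiv_hyp hu.cd h0 hx.symm)
  bd := by
    intro x
    unfold oex
    split_ifs
    · exact hu.bd _
    · rw [abs_neg]; exact hu.bd _
  gd := by
    intro x
    rw [(oex_fderiv hu.cd h0 x).fderiv]
    unfold oexd
    split_ifs
    · exact hu.gd _
    · rw [norm_neg, comp_refl_norm]; exact hu.gd _

private lemma oex_odd (h0 : ∀ x, x i = 0 → u x = 0) : Od i (oex i u) := by
  intro x
  unfold oex
  have e : Rf i x i = - x i := by rw [Rf_apply, if_pos rfl]
  rw [e, Rf_Rf]
  rcases lt_trichotomy (x i) 0 with hx | hx | hx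
  · rw [if_pos (by linarith), if_neg (not_le.mpr hx), neg_neg]
  · rw [if_pos (by linarith), if_pos hx.ge, Rf_fix hx, h0 x hx, neg_zero]
  · rw [if_neg (by linarith), if_pos hx.le]

/-- from test functions to all bounded `C^1` functions with bounded gradient vanishing on the
hyperplane; the form needed by `full_poincare` -/
theorem tf_ext' (hU : UP V κ Λ S) {c : ℝ} (hc : 0 ≤ c) (hO : Hodd V c) {U L : ℝ} (hu : TF u U L)
    (ho : ∀ x, |u x| ≤ L * |x i|) :
    ∫ x, u x ^ 2 ∂(tgt V) ≤ c * ∫ x, ‖fderiv ℝ u x‖ ^ 2 ∂(tgt V) := by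
  have hV := hU.cd.continuous
  have h0 : ∀ x, x i = 0 → u x = 0 := by
    intro x hx
    have := ho x
    rw [hx, abs_zero, mul_zero] at this
    exact abs_nonpos_iff.mp this
  set v : Eu n → ℝ := fun x => u (Rf i x) with hv
  have hvT : TF v U L := by
    refine ⟨hu.cd.comp (Rf i).toContinuousLinearEquiv.contDiff, fun x => hu.bd _, fun x => ?_⟩
    rw [(comp_refl_fderiv hu.cd i x).fderiv, comp_refl_norm]
    exact hu.gd _
  have hv0 : ∀ x, x i = 0 → v x = 0 := by
    intro x hx
    simp only [hv]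
    rw [Rf_fix hx]
    exact h0 x hx
  have k1 := tf_ext hU hc hO (oex_TF hu h0) (oex_odd h0)
  have k2 := tf_ext hU hc hO (oex_TF hvT hv0) (oex_odd hv0)
  have p1 : ∀ x, oex i u x ^ 2 + oex i v x ^ 2 = u x ^ 2 + u (Rf i x) ^ 2 := by
    intro x
    unfold oex
    simp only [hv, Rf_Rf]
    split_ifs <;> ring
  have p2 : ∀ x, ‖fderiv ℝ (oex i u) x‖ ^ 2 + ‖fderiv ℝ (oex i v) x‖ ^ 2 =
      ‖fderiv ℝ u x‖ ^ 2 + ‖fderiv ℝ u (Rf i x)‖ ^ 2 := by
    intro x
    rw [(oex_fderiv hu.cd h0 x).fderiv, (oex_fderiv hvT.cd hv0 x).fderiv]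
    unfold oexd
    have e1 : ∀ y, ‖fderiv ℝ v y‖ = ‖fderiv ℝ u (Rf i y)‖ := by
      intro y
      rw [(comp_refl_fderiv hu.cd i y).fderiv, comp_refl_norm]
    split_ifs
    · rw [e1]
    · rw [norm_neg, norm_neg, comp_refl_norm, comp_refl_norm, e1, Rf_Rf]
      ring
  have hVR : ∀ i x, V (Rf i x) = V x := hU.even
  have : IsFiniteMeasure (tgt V) := by
    unfold tgt
    exact isFiniteMeasure_withDensity_ofReal hU.int.2
  have ib : ∀ {F : Eu n → ℝ} {B : ℝ}, Continuous F → (∀ x, |F x| ≤ B) →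
      Integrable F (tgt V) := by
    intro F B hF hB
    exact Integrable.of_bound hF.aestronglyMeasurable B (by filter_upwards with x using hB x)
  have isq : ∀ {w : Eu n → ℝ}, TF w U L → Integrable (fun x => w x ^ 2) (tgt V) := by
    intro w hw
    apply ib (F := fun x => w x ^ 2) (hw.cd.continuous.pow 2) (B := U ^ 2)
    intro x
    rw [abs_pow]
    exact pow_le_pow_left₀ (abs_nonneg _) (hw.bd x) 2
  have igd : ∀ {w : Eu n → ℝ}, TF w U L → Integrable (fun x => ‖fderiv ℝ w x‖ ^ 2) (tgt V) := by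
    intro w hw
    apply ib (F := fun x => ‖fderiv ℝ w x‖ ^ 2) ((hw.cd.continuous_fderiv (by simp)).norm.pow 2)
      (B := L ^ 2)
    intro x
    rw [abs_pow, abs_norm]
    exact pow_le_pow_left₀ (norm_nonneg _) (hw.gd x) 2
  have q1 : ∫ x, oex i u x ^ 2 ∂(tgt V) + ∫ x, oex i v x ^ 2 ∂(tgt V) =
      2 * ∫ x, u x ^ 2 ∂(tgt V) := by
    rw [← integral_add (isq (oex_TF hu h0)) (isq (oex_TF hvT hv0))]
    simp_rw [p1]
    rw [integral_add (isq hu) (isq hvT), tgt_refl hV hVR i (fun x => u x ^ 2)]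
    ring
  have q2 : ∫ x, ‖fderiv ℝ (oex i u) x‖ ^ 2 ∂(tgt V) + ∫ x, ‖fderiv ℝ (oex i v) x‖ ^ 2 ∂(tgt V) =
      2 * ∫ x, ‖fderiv ℝ u x‖ ^ 2 ∂(tgt V) := by
    rw [← integral_add (igd (oex_TF hu h0)) (igd (oex_TF hvT hv0))]
    simp_rw [p2]
    have e1 : ∀ y, ‖fderiv ℝ u (Rf i y)‖ = ‖fderiv ℝ v y‖ := by
      intro y
      rw [(comp_refl_fderiv hu.cd i y).fderiv, comp_refl_norm]
    have h1 : Integrable (fun x => ‖fderiv ℝ u (Rf i x)‖ ^ 2) (tgt V) := by
      simp_rw [e1]
      exact igd hvT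
    rw [integral_add (igd hu) h1, tgt_refl hV hVR i (fun x => ‖fderiv ℝ u x‖ ^ 2)]
    ring
  nlinarith [k1, k2, q1, q2]

end Pool.Agent.Lib.MP_6d896a_gt.UC
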