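import Mathlib
import Pool.Agent.Lib.MP_6d896a_gt.UC.Defs
import Pool.Agent.Lib.MP_6d896a_gt.Sym16

/-!
Project UC, piece U18: the affine invariant Poincare inequality for unconditional log-concave
measures, deduced from the Poincare inequality with second moments of the coordinates at most one.
-/

set_option autoImplicit false

namespace Pool.Agent.Lib.MP_6d896a_gt.UC

open MeasureTheory Filter Topology Set ProbabilityTheory
open scoped ENNReal NNReal ContDiff

variable {n : ℕ}

/-- diagonal linear maps -/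
noncomputable def dg (a : Fin n → ℝ) : Eu n →L[ℝ] Eu n :=
  LinearMap.toContinuousLinearMap
    { toFun := fun x => WithLp.toLp 2 fun i => a i * x i
      map_add' := fun x y => by
        ext i
        simp [mul_add]
      map_smul' := fun c x => by
        ext i
        simp only [PiLp.smul_apply, smul_eq_mul, RingHom.id_apply]
        ring }

lemma dg_apply (a : Fin n → ℝ) (x : Eu n) (i : Fin n) : dg a x i = a i * x i := rfl

lemma dg_Rf (a : Fin n → ℝ) (i : Fin n) (x : Eu n) : dg a (Rf i x) = Rf i (dg a x) := by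
  ext j
  rw [dg_apply, Rf_apply, Rf_apply, dg_apply]
  split_ifs <;> ring

lemma dg_ej (a : Fin n → ℝ) (i : Fin n) : dg a (ej i) = a i • ej i := by
  ext j
  rw [dg_apply, PiLp.smul_apply, smul_eq_mul]
  by_cases h : j = i
  · subst h
    rfl
  · simp [ej, h]

lemma unc_coord_mean {ν : Measure (Eu n)} (hs : ∀ i : Fin n, ν.map (Rf i) = ν) (w : Fin n) :
    ∫ x, x w ∂ν = 0 := by
  have h1 := hs w
  have h2 : ∫ x, x w ∂ν = ∫ x, -(x w) ∂ν := by
    conv_lhs => rw [← h1]
    rw [integral_map (Rf w).continuous.measurable.aemeasurable (by fun_prop)]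
    congr 1
    funext x
    simp [Rf_apply]
  rw [integral_neg] at h2
  linarith

lemma unc_coord_cross {ν : Measure (Eu n)} (hs : ∀ i : Fin n, ν.map (Rf i) = ν) {v w : Fin n}
    (hvw : v ≠ w) : ∫ x, x v * x w ∂ν = 0 := by
  have h1 := hs w
  have h2 : ∫ x, x v * x w ∂ν = ∫ x, -(x v * x w) ∂ν := by
    conv_lhs => rw [← h1]
    rw [integral_map (Rf w).continuous.measurable.aemeasurable (by fun_prop)]
    congr 1
    funext x
    simp [Rf_apply, hvw]
  rw [integral_neg] at h2
  linarith

lemma unc_expand (L : Eu n →L[ℝ] ℝ) (x : Eu n) : L x = ∑ i, L (ej i) * x i := by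
  conv_lhs => rw [← sum_ej x]
  rw [map_sum]
  refine Finset.sum_congr rfl fun i _ => ?_
  rw [map_smul, smul_eq_mul, mul_comm]

lemma unc_memLp {ν : Measure (Eu n)} [IsProbabilityMeasure ν] (hpl : FP.PLm ν) (w : Fin n) :
    MemLp (fun x : Eu n => x w) 2 ν := by
  rw [memLp_two_iff_integrable_sq (by fun_prop)]
  exact coord_sq_int hpl w

/-- variances of linear functionals -/
lemma unc_var_lin {ν : Measure (Eu n)} [IsProbabilityMeasure ν] (hpl : FP.PLm ν)
    (hs : ∀ i : Fin n, ν.map (Rf i) = ν) (L : Eu n →L[ℝ] ℝ) :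
    Var[fun z => L z; ν] = ∑ i, (∫ x, x i ^ 2 ∂ν) * L (ej i) ^ 2 := by
  have hm : MemLp (fun z : Eu n => L z) 2 ν := by
    have h1 : MemLp (fun z : Eu n => ∑ i, L (ej i) * z i) 2 ν :=
      memLp_finsetSum _ fun i _ => (unc_memLp hpl i).const_mul _
    have h2 : (fun z : Eu n => L z) = fun z => ∑ i, L (ej i) * z i := funext (unc_expand L)
    rw [h2]
    exact h1
  have h0 : ∫ z, L z ∂ν = 0 := by
    have h2 : (fun z : Eu n => L z) = fun z => ∑ i, L (ej i) * z i := funext (unc_expand L)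
    rw [h2, integral_finsetSum _ fun i _ =>
      ((unc_memLp hpl i).integrable one_le_two).const_mul _]
    refine Finset.sum_eq_zero fun i _ => ?_
    rw [integral_const_mul, unc_coord_mean hs i, mul_zero]
  have hsub := variance_eq_sub hm
  have e1 : Var[fun z => L z; ν] = ∫ z, L z ^ 2 ∂ν := by
    rw [hsub]
    simp [h0]
  rw [e1]
  have e2 : (fun z : Eu n => L z ^ 2) =
      fun z => ∑ i, ∑ j, (L (ej i) * L (ej j)) * (z i * z j) := by
    funext z
    rw [unc_expand L z, sq, Finset.sum_mul_sum]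
    refine Finset.sum_congr rfl fun i _ => Finset.sum_congr rfl fun j _ => ?_
    ring
  have hij : ∀ i j : Fin n, Integrable (fun z : Eu n => z i * z j) ν := fun i j =>
    MemLp.integrable_mul (unc_memLp hpl i) (unc_memLp hpl j)
  rw [e2, integral_finsetSum _ fun i _ => integrable_finsetSum _ fun j _ => (hij i j).const_mul _]
  refine Finset.sum_congr rfl fun i _ => ?_
  rw [integral_finsetSum _ fun j _ => (hij i j).const_mul _]
  rw [Finset.sum_eq_single i]
  · rw [integral_const_mul]
    have : (fun z : Eu n => z i * z i) = fun z => z i ^ 2 := by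
      funext z
      ring
    rw [this]
    ring
  · intro j _ hj
    rw [integral_const_mul, unc_coord_cross hs (Ne.symm hj), mul_zero]
  · intro h
    exact absurd (Finset.mem_univ i) h

/-- the affine invariant inequality follows from the inequality for normalised measures -/
theorem unc_ap_of {K : ℝ} (hK : 0 ≤ K)
    (hCL : ∀ (ν : Measure (Eu n)) [IsProbabilityMeasure ν], FP.PLm ν →
      (∀ i : Fin n, ν.map (Rf i) = ν) → Integrable (fun x => ‖x‖ ^ 2) ν →
      (∀ j, ∫ y, y j ^ 2 ∂ν ≤ 1) → ∀ {f : Eu n → ℝ} {b l L : ℝ}, CL f b l L →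
      ∫ x, f x ^ 2 ∂ν - (∫ x, f x ∂ν) ^ 2 ≤ K * ∫ x, ‖fderiv ℝ f x‖ ^ 2 ∂ν)
    (ν : Measure (Eu n)) [IsProbabilityMeasure ν] (hpl : FP.PLm ν)
    (hsym : ∀ i : Fin n, ν.map (Rf i) = ν) :
    FP.AP ν K := by
  rintro f hf ⟨l, hl⟩
  -- the scales
  set σ : Fin n → ℝ := fun i => Real.sqrt (∫ x, x i ^ 2 ∂ν) with hσ
  have hσ2 : ∀ i, σ i ^ 2 = ∫ x, x i ^ 2 ∂ν := fun i =>
    Real.sq_sqrt (integral_nonneg fun x => sq_nonneg _)
  set A : Eu n →L[ℝ] Eu n := dg (fun i => (σ i)⁻¹) with hA
  set B : Eu n →L[ℝ] Eu n := dg σ with hB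
  have hBA : ∀ᵐ x ∂ν, B (A x) = x := by
    have h1 : ∀ i : Fin n, ∀ᵐ x ∂ν, σ i * ((σ i)⁻¹ * x i) = x i := by
      intro i
      by_cases h0 : σ i = 0
      · have h2 : ∫ x, x i ^ 2 ∂ν = 0 := by rw [← hσ2 i, h0]; ring
        have h3 := (integral_eq_zero_iff_of_nonneg (fun x : Eu n => sq_nonneg (x i))
          (coord_sq_int hpl i)).mp h2
        filter_upwards [h3] with x hx
        have hx' : x i = 0 := by
          have : x i ^ 2 = 0 := hx
          exact pow_eq_zero_iff (two_ne_zero) |>.mp this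
        rw [hx', mul_zero, mul_zero]
      · refine ae_of_all _ fun x => ?_
        rw [← mul_assoc, mul_inv_cancel₀ h0, one_mul]
    rw [← ae_all_iff] at h1
    filter_upwards [h1] with x hx
    ext i
    rw [hB, dg_apply, hA, dg_apply]
    exact hx i
  set μ : Measure (Eu n) := ν.map A with hμ
  have hAm : Measurable A := A.continuous.measurable
  have : IsProbabilityMeasure μ := Measure.isProbabilityMeasure_map hAm.aemeasurable
  have hplμ : FP.PLm μ := hpl.map (A : Eu n →ₗ[ℝ] Eu n) hAm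
  have hsymμ : ∀ i : Fin n, μ.map (Rf i) = μ := by
    intro i
    rw [hμ, Measure.map_map (Rf i).continuous.measurable hAm]
    have h1 : (Rf i : Eu n → Eu n) ∘ A = A ∘ (Rf i : Eu n → Eu n) := by
      funext x
      exact (dg_Rf _ i x).symm
    rw [h1, ← Measure.map_map hAm (Rf i).continuous.measurable, hsym i]
  have hvar : ∀ j, ∫ y, y j ^ 2 ∂μ ≤ 1 := by
    intro j
    rw [hμ, integral_map hAm.aemeasurable (by fun_prop)]
    have h1 : (fun x : Eu n => (A x) j ^ 2) = fun x => ((σ j)⁻¹) ^ 2 * x j ^ 2 := by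
      funext x
      rw [hA, dg_apply]
      ring
    rw [h1, integral_const_mul, ← hσ2 j, ← mul_pow]
    by_cases h0 : σ j = 0
    · rw [h0]
      norm_num
    · rw [inv_mul_cancel₀ h0, one_pow]
  have h2μ : Integrable (fun x => ‖x‖ ^ 2) μ := norm_sq_int hplμ
  have hext := FP.poinc_ext μ h2μ hK (fun g hg hb hgl hgL => by
    obtain ⟨b, hgb⟩ := hb
    obtain ⟨l, hgl⟩ := hgl
    obtain ⟨L, hgL⟩ := hgL
    have hgm : MemLp g 2 μ := MemLp.of_bound hg.continuous.aestronglyMeasurable b
      (ae_of_all _ fun x => by rw [Real.norm_eq_abs]; exact hgb x)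
    rw [variance_eq_sub hgm]
    have := hCL μ hplμ hsymμ h2μ hvar (f := g) (b := b) (l := l) (L := L) ⟨hg, hgb, hgl, hgL⟩
    simpa using this)
  have hfB : ContDiff ℝ 1 (fun y => f (B y)) := hf.comp B.contDiff
  have hfd : ∀ y, fderiv ℝ (fun y => f (B y)) y = (fderiv ℝ f (B y)).comp B := by
    intro y
    have h1 : HasFDerivAt (fun y => f (B y)) ((fderiv ℝ f (B y)).comp B) y :=
      ((hf.differentiable one_ne_zero) (B y)).hasFDerivAt.comp y B.hasFDerivAt
    exact h1.fderiv
  have hmain := hext (fun y => f (B y)) hfB ⟨l * ‖B‖, fun y => by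
    rw [hfd]
    exact (ContinuousLinearMap.opNorm_comp_le _ _).trans
      (mul_le_mul_of_nonneg_right (hl _) (norm_nonneg _))⟩
  -- left side
  have hleft : Var[fun y => f (B y); μ] = Var[f; ν] := by
    rw [hμ, variance_map hfB.continuous.measurable.aemeasurable hAm.aemeasurable]
    refine variance_congr ?_
    filter_upwards [hBA] with x hx
    show f (B (A x)) = f x
    rw [hx]
  have hright : ∫ y, ‖fderiv ℝ (fun y => f (B y)) y‖ ^ 2 ∂μ =
      ∫ x, Var[fun z => fderiv ℝ f x z; ν] ∂ν := by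
    have h1 : ∀ y, ‖fderiv ℝ (fun y => f (B y)) y‖ ^ 2 =
        ∑ i, (∫ x, x i ^ 2 ∂ν) * (fderiv ℝ f (B y) (ej i)) ^ 2 := by
      intro y
      rw [opNorm_sq]
      refine Finset.sum_congr rfl fun i _ => ?_
      rw [hfd, ContinuousLinearMap.comp_apply, hB, dg_ej, map_smul, smul_eq_mul, ← hσ2 i]
      ring
    simp_rw [h1]
    rw [hμ, integral_map hAm.aemeasurable]
    · refine integral_congr_ae ?_
      filter_upwards [hBA] with x hx
      rw [hx, unc_var_lin hpl hsym]
    · have hc := hf.continuous_fderiv one_ne_zero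
      refine Continuous.aestronglyMeasurable ?_
      fun_prop
  rw [hleft, hright] at hmain
  exact hmain

end Pool.Agent.Lib.MP_6d896a_gt.UC
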