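import Mathlib
import Pool.Agent.Lib.MP_6d896a_gt.UC.Defs
import Pool.Agent.Lib.MP_6d896a_gt.Sym13

/-!
The Gaussian smoothing of an unconditional log-concave measure with bounded support has an
unconditional strongly convex potential.
-/

set_option autoImplicit false

namespace Pool.Agent.Lib.MP_6d896a_gt.UC

open MeasureTheory Filter Topology Set ProbabilityTheory
open scoped ENNReal NNReal ContDiff

variable {n : ℕ}

section vp
variable {m : Measure (Eu n)} [IsFiniteMeasure m] {d R s : ℝ}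

/-- unconditional measures -/
def UncM (m : Measure (Eu n)) : Prop := ∀ i : Fin n, m.map (Rf i) = m

omit [IsFiniteMeasure m] in
private lemma fG_unc (hm : UncM m) (i : Fin n) (x : Eu n) : FP.fG m d (Rf i x) = FP.fG m d x := by
  unfold FP.fG
  have hc : Continuous (Rf i : Eu n → Eu n) := (Rf i).continuous
  have hk : Continuous (fun z : Eu n => gk d (Rf i x - z)) :=
    (gk_continuous d).comp (continuous_const.sub continuous_id)
  conv_lhs => rw [← hm i]
  rw [integral_map hc.measurable.aemeasurable hk.aestronglyMeasurable]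
  congr 1
  funext z
  unfold gk
  rw [← map_sub, LinearIsometryEquiv.norm_map]

lemma Vp_unc (hm : UncM m) (hd : 0 < d) (hm0 : m ≠ 0) (hR : ∀ᵐ z ∂m, ‖z‖ ≤ R) (hs : 0 < s)
    (i : Fin n) (x : Eu n) : FP.Vp m d s 0 (Rf i x) = FP.Vp m d s 0 x := by
  have h1 := FP.exp_neg_Vp hd hm0 hR hs 0 (Rf i x)
  have h2 := FP.exp_neg_Vp hd hm0 hR hs 0 x
  rw [fG_unc hm i] at h1
  have h3 : gk s (Rf i x - 0) = gk s (x - 0) := by
    unfold gk
    rw [sub_zero, sub_zero, LinearIsometryEquiv.norm_map]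
  rw [h3, ← h2] at h1
  have := Real.exp_injective h1
  linarith

private lemma Qp_lower (hd : 0 < d) (hm0 : m ≠ 0) (hR : ∀ᵐ z ∂m, ‖z‖ ≤ R) (hpl : FP.PLm m)
    (x v : Eu n) : 2 * s * ‖v‖ ^ 2 ≤ FP.Qp m d s x v v := by
  have h1 := FP.line_deriv (FP.Pp_hasFDerivAt hd hm0 hR s 0) x v 0
  have h2 : HasDerivAt (fun t : ℝ => FP.Pp m d s 0 (x + t • v) v) (FP.Qp m d s x v v) 0 := by
    have h3 := h1.clm_apply (hasDerivAt_const (0 : ℝ) v)
    simpa using h3
  have h4 := h2.tendsto_slope_zero_right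
  apply ge_of_tendsto h4
  filter_upwards [self_mem_nhdsWithin] with t ht
  have ht' : (0 : ℝ) < t := ht
  have h5 := FP.Pp_mono hd hm0 hR hpl s 0 (x + t • v) x
  have e : x + t • v - x = t • v := by abel
  rw [e, map_smul, norm_smul, Real.norm_eq_abs, mul_pow, sq_abs, smul_eq_mul] at h5
  simp only [zero_add, zero_smul, add_zero, smul_eq_mul]
  rw [← _root_.sub_apply, ← div_eq_inv_mul, le_div_iff₀ ht']
  have h6 : t * (2 * s * ‖v‖ ^ 2 * t) ≤
      t * ((FP.Pp m d s 0 (x + t • v) - FP.Pp m d s 0 x) v) := by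
    linarith
  exact le_of_mul_le_mul_left h6 ht'

theorem Vp_UP (hm : UncM m) (hd : 0 < d) (hm0 : m ≠ 0) (hR : ∀ᵐ z ∂m, ‖z‖ ≤ R) (hs : 0 < s)
    (hpl : FP.PLm m) (hR0 : 0 ≤ R) {S : ℝ} (hS : 0 < S)
    (hvar : ∀ j, ∫ y, y j ^ 2 ∂(tgt (FP.Vp m d s 0)) ≤ S * (tgt (FP.Vp m d s 0)).real Set.univ) :
    UP (fun x => FP.Vp m d s 0 x + Real.log ((tgt (FP.Vp m d s 0)).real Set.univ)) (2 * s)
      (2 * s + (2 * d + 2 * ((2 * d * R) * (2 * d * R)))) S := by
  have hpot := FP.Vp_pot hd hm0 hR0 hR hpl hs (0 : Eu n)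
  have hV := FP.Vp_hasFDerivAt hd hm0 hR s 0
  have hP := FP.Pp_hasFDerivAt hd hm0 hR s 0
  have hQc : Continuous (FP.Qp m d s) := by
    have hk : ∀ x y : Eu n, dist (FP.Qp m d s x) (FP.Qp m d s y) ≤
        (6 * ((2 * d * R) * ((2 * d * R) * (2 * d * R)))) * dist x y := by
      intro x y
      have h1 := FP.Qp_lip hd hm0 hR s x y
      have h2 := dist_eq_norm (E := Eu n →L[ℝ] Eu n →L[ℝ] ℝ) (FP.Qp m d s x) (FP.Qp m d s y)
      rw [h2, dist_eq_norm x y]
      exact h1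
    exact (LipschitzWith.of_dist_le' hk).continuous
  set M := (tgt (FP.Vp m d s 0)).real Set.univ with hMdef
  have hfd : fderiv ℝ (fun x => FP.Vp m d s 0 x + Real.log M) = FP.Pp m d s 0 :=
    funext fun x => ((hV x).add_const _).fderiv
  have hfd2 : fderiv ℝ (fderiv ℝ (fun x => FP.Vp m d s 0 x + Real.log M)) = FP.Qp m d s := by
    rw [hfd]
    exact funext fun x => (hP x).fderiv
  have hP1 : ContDiff ℝ 1 (FP.Pp m d s 0) := by
    rw [contDiff_one_iff_fderiv]
    refine ⟨fun x => (hP x).differentiableAt, ?_⟩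
    have : fderiv ℝ (FP.Pp m d s 0) = FP.Qp m d s := funext fun x => (hP x).fderiv
    rw [this]
    exact hQc
  -- integrability
  have hcV := hpot.cV
  have hi4 : Integrable (fun x : Eu n => Real.exp (-FP.Vp m d s 0 x) * (1 + ‖x‖) ^ 4) := by
    refine ⟨(Continuous.aestronglyMeasurable (by fun_prop)), ?_⟩
    rw [hasFiniteIntegral_iff_ofReal (ae_of_all _ fun x => by positivity)]
    exact hpot.mom
  have hi0 : Integrable (fun x : Eu n => Real.exp (-FP.Vp m d s 0 x)) := by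
    refine hi4.mono' (Continuous.aestronglyMeasurable (by fun_prop)) (ae_of_all _ fun x => ?_)
    rw [Real.norm_eq_abs, abs_of_pos (Real.exp_pos _)]
    have h1 : (1 : ℝ) ≤ (1 + ‖x‖) ^ 4 := one_le_pow₀ (by linarith [norm_nonneg x])
    exact le_mul_of_one_le_right (Real.exp_pos _).le h1
  have hi2 : ∀ i : Fin n, Integrable (fun x : Eu n => x i ^ 2 * Real.exp (-FP.Vp m d s 0 x)) := by
    intro i
    refine hi4.mono' (Continuous.aestronglyMeasurable (by fun_prop)) (ae_of_all _ fun x => ?_)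
    rw [Real.norm_eq_abs, abs_of_nonneg (by positivity), mul_comm]
    refine mul_le_mul_of_nonneg_left ?_ (Real.exp_pos _).le
    have h1 : |x i| ≤ ‖x‖ := by
      have := PiLp.norm_apply_le x i
      rwa [Real.norm_eq_abs] at this
    have h2 : x i ^ 2 ≤ (1 + ‖x‖) ^ 2 := by
      rw [← sq_abs]
      exact pow_le_pow_left₀ (abs_nonneg _) (by linarith) 2
    have h3 : (1 + ‖x‖) ^ 2 ≤ (1 + ‖x‖) ^ 4 :=
      pow_le_pow_right₀ (by linarith [norm_nonneg x]) (by norm_num)
    exact h2.trans h3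
  have hmass : M = ∫ y, Real.exp (-FP.Vp m d s 0 y) := by
    have h1 : M = ∫ _y, (1 : ℝ) ∂(tgt (FP.Vp m d s 0)) := by
      simp [hMdef]
    rw [h1, integral_tgt hpot.cV]
    simp
  have hM : 0 < M := by
    rw [hmass]
    exact integral_exp_pos hi0
  have hexp : ∀ x, Real.exp (-(FP.Vp m d s 0 x + Real.log M)) =
      M⁻¹ * Real.exp (-FP.Vp m d s 0 x) := by
    intro x
    rw [neg_add, Real.exp_add, Real.exp_neg (Real.log M), Real.exp_log hM]
    ring
  refine ⟨by positivity, hS, ?_, ?_, ?_, ?_, ?_, ?_, ?_, ?_⟩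
  · rw [show (2 : WithTop ℕ∞) = 1 + 1 from by norm_num, contDiff_succ_iff_fderiv]
    refine ⟨fun x => ((hV x).add_const _).differentiableAt, by simp, ?_⟩
    rw [hfd]
    exact hP1
  · intro x v
    rw [hfd2]
    exact Qp_lower hd hm0 hR hpl x v
  · intro x v
    rw [hfd2]
    have h1 : ‖FP.Qp m d s x v v‖ ≤ ‖FP.Qp m d s x‖ * ‖v‖ * ‖v‖ :=
      ContinuousLinearMap.le_opNorm₂ _ _ _
    have h2 := FP.Qp_bound hd hm0 hR hs x
    rw [Real.norm_eq_abs] at h1
    calc FP.Qp m d s x v v ≤ ‖FP.Qp m d s x‖ * ‖v‖ * ‖v‖ := (le_abs_self _).trans h1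
      _ = ‖FP.Qp m d s x‖ * ‖v‖ ^ 2 := by ring
      _ ≤ _ := mul_le_mul_of_nonneg_right h2 (sq_nonneg _)
  · intro i x
    show FP.Vp m d s 0 (Rf i x) + Real.log M = FP.Vp m d s 0 x + Real.log M
    rw [Vp_unc hm hd hm0 hR hs]
  · simp only [hexp]
    exact hi0.const_mul _
  · unfold Ex
    simp only [hexp, one_mul]
    rw [integral_const_mul, ← hmass, inv_mul_cancel₀ hM.ne']
  · intro i
    have := (hi2 i).const_mul M⁻¹
    refine this.congr (ae_of_all _ fun x => ?_)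
    simp only [hexp]
    ring
  · intro i
    have h1 := hvar i
    rw [integral_tgt hpot.cV] at h1
    unfold Ex
    have h2 : ∫ x : Eu n, x i ^ 2 * Real.exp (-(FP.Vp m d s 0 x + Real.log M)) =
        M⁻¹ * ∫ x : Eu n, x i ^ 2 * Real.exp (-FP.Vp m d s 0 x) := by
      rw [← integral_const_mul]
      congr 1
      funext x
      rw [hexp]
      ring
    rw [h2, inv_mul_le_iff₀ hM, mul_comm M S]
    exact h1

end vp

end Pool.Agent.Lib.MP_6d896a_gt.UC
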