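import Mathlib
import Pool.Agent.Lib.MP_6d896a_gt.Sym13
import Pool.Agent.Lib.MP_6d896a_gt.UC.Basic
import Pool.Agent.Lib.MP_6d896a_gt.UC.TFext
import Pool.Agent.Lib.MP_6d896a_gt.UC.VpUP
import Pool.Agent.Lib.MP_6d896a_gt.UC.MainUC

/-!
Project UC: the Poincare inequality for the Gaussian smoothing of an unconditional log-concave
measure.
-/

set_option autoImplicit false

namespace Pool.Agent.Lib.MP_6d896a_gt.UC

open MeasureTheory Filter Topology Set ProbabilityTheory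
open scoped ENNReal NNReal ContDiff

variable {n : ℕ}

section vp
variable {m : Measure (Eu n)} [IsFiniteMeasure m] {d R s : ℝ}

private lemma uncPoinc_grd_refl (hd : 0 < d) (hm0 : m ≠ 0) (hR : ∀ᵐ z ∂m, ‖z‖ ≤ R)
    (hVR : ∀ (i : Fin n) x, FP.Vp m d s 0 (Rf i x) = FP.Vp m d s 0 x)
    (i : Fin n) (x : Eu n) :
    FP.grd (FP.Pp m d s 0) (Rf i x) = Rf i (FP.grd (FP.Pp m d s 0) x) := by
  have hV := FP.Vp_hasFDerivAt hd hm0 hR s 0
  have h1 := (hV (Rf i x)).comp x (Rf i).toContinuousLinearEquiv.hasFDerivAt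
  have h2 : (FP.Vp m d s 0 ∘ (Rf i)) = FP.Vp m d s 0 := by
    funext x
    exact hVR i x
  rw [h2] at h1
  have h3 := (hV x).unique h1
  apply ext_inner_right ℝ
  intro v
  rw [FP.grd_inner]
  have h4 := congrArg (fun L : EuclideanSpace ℝ (Fin n) →L[ℝ] ℝ => L (Rf i v)) h3
  simp only [ContinuousLinearMap.comp_apply, ContinuousLinearEquiv.coe_coe,
    LinearIsometryEquiv.coe_toContinuousLinearEquiv, Rf_Rf] at h4
  rw [← h4, ← FP.grd_inner]
  have h5 := (Rf i).inner_map_map (FP.grd (FP.Pp m d s 0) x) (Rf i v)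
  rw [Rf_Rf] at h5
  exact h5.symm

/-- test functions have bounded Lipschitz gradient -/
private lemma uncPoinc_TT_CL {f : Eu n → ℝ} (hf : TT f) : ∃ b l L, CL f b l L := by
  have hc1 : ContDiff ℝ 1 f := hf.cd.of_le (by exact_mod_cast le_top)
  have hfc : Continuous f := hc1.continuous
  have hfd : ContDiff ℝ 1 (fderiv ℝ f) := by
    have : ContDiff ℝ 2 f := contDiff_infty.1 hf.cd 2
    exact this.fderiv_right (m := 1) (by norm_num)
  have hfs : HasCompactSupport (fderiv ℝ f) := hf.cs.fderiv ℝ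
  obtain ⟨b, hb⟩ := hf.cs.exists_bound_of_continuous hfc
  obtain ⟨l, hl⟩ := hfs.exists_bound_of_continuous hfd.continuous
  obtain ⟨K, hK⟩ := hfd.lipschitzWith_of_hasCompactSupport hfs (by simp)
  refine ⟨b, l, K, hc1, fun x => ?_, hl, fun x y => ?_⟩
  · simpa using hb x
  · have := hK.dist_le_mul x y
    simpa [dist_eq_norm] using this

theorem unc_smooth_poincare (hm : UncM m) (hd : 0 < d) (hm0 : m ≠ 0) (hR : ∀ᵐ z ∂m, ‖z‖ ≤ R)
    (hs : 0 < s) (hpl : FP.PLm m) (hR0 : 0 ≤ R) {S : ℝ} (hS : 0 < S)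
    (hvar : ∀ j, ∫ y, y j ^ 2 ∂(tgt (FP.Vp m d s 0)) ≤ S * (tgt (FP.Vp m d s 0)).real Set.univ)
    {f : Eu n → ℝ} {b l L : ℝ} (hf : CL f b l L) :
    WV (FP.Vp m d s 0) f ≤ (tgt (FP.Vp m d s 0)).real Set.univ * (10 ^ 8 * S) *
      ∫ x, ‖fderiv ℝ f x‖ ^ 2 ∂(tgt (FP.Vp m d s 0)) := by
  have hpot := FP.Vp_pot hd hm0 hR0 hR hpl hs (0 : EuclideanSpace ℝ (Fin n))
  have hU := Vp_UP hm hd hm0 hR hs hpl hR0 hS hvar
  set V := FP.Vp m d s 0 with hVdef
  set Z := (tgt V).real Set.univ with hZdef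
  have hfin := tgt_finite hpot
  have hZ : 0 < Z := by
    rw [hZdef, measureReal_def]
    exact ENNReal.toReal_pos (tgt_univ_pos hpot) (measure_ne_top _ _)
  have hVR : ∀ (i : Fin n) x, V (Rf i x) = V x := by
    intro i x
    have := hU.even i x
    simpa using this
  have hcV : Continuous V := hpot.cV
  have hcV1 : Continuous (fun x => V x + Real.log Z) := hcV.add continuous_const
  have hexp : ∀ x, Real.exp (-(V x + Real.log Z)) = Z⁻¹ * Real.exp (-V x) := by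
    intro x
    rw [neg_add, Real.exp_add, Real.exp_neg (Real.log Z), Real.exp_log hZ, mul_comm]
  -- expectations
  have hE : ∀ F : Eu n → ℝ, Ex (fun x => V x + Real.log Z) F = Z⁻¹ * ∫ x, F x ∂(tgt V) := by
    intro F
    rw [integral_tgt hcV, ← integral_const_mul]
    unfold Ex
    congr 1
    funext x
    simp only [hexp]
    ring
  have hT : ∀ F : Eu n → ℝ, ∫ x, F x ∂(tgt (fun x => V x + Real.log Z)) =
      Z⁻¹ * ∫ x, F x ∂(tgt V) := by
    intro F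
    rw [integral_tgt hcV1]
    exact hE F
  -- from odd test functions to all functions
  have key : ∀ c, 0 < c → Hodd (fun x => V x + Real.log Z) c → ∀ {g : Eu n → ℝ} {b l L : ℝ},
      CL g b l L → WV V g ≤ Z * c * ∫ x, ‖fderiv ℝ g x‖ ^ 2 ∂(tgt V) := by
    intro c hc hO g b l L hg
    refine full_poincare hpot (by positivity) (grd_fderiv_lip hd hm0 hR hs hpl hR0)
      (uncPoinc_grd_refl hd hm0 hR hVR) hVR hc ?_ hg
    intro i u U L hu hodd
    have h1 := tf_ext' hU hc.le hO hu hodd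
    rw [hT, hT] at h1
    have h2 : Z⁻¹ * ∫ x, u x ^ 2 ∂(tgt V) ≤ Z⁻¹ * (c * ∫ x, ‖fderiv ℝ u x‖ ^ 2 ∂(tgt V)) := by
      linarith
    exact le_of_mul_le_mul_left h2 (by positivity)
  refine key (10 ^ 8 * S) (by positivity) (main hU ?_) hf
  intro c hc hO g hg _
  obtain ⟨b, l, L, hCL⟩ := uncPoinc_TT_CL hg
  have h1 := key c hc hO hCL
  rw [Df_eq _ hg hcV1]
  have h2 : ∫ x, ‖fderiv ℝ g x‖ ^ 2 * Real.exp (-(V x + Real.log Z)) =
      Z⁻¹ * ∫ x, ‖fderiv ℝ g x‖ ^ 2 ∂(tgt V) := hE _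
  rw [h2, hE, hE]
  unfold WV at h1
  rw [← hZdef] at h1
  set A := ∫ x, g x ^ 2 ∂(tgt V)
  set B := ∫ x, g x ∂(tgt V)
  set D := ∫ x, ‖fderiv ℝ g x‖ ^ 2 ∂(tgt V)
  have h3 : Z⁻¹ * A - (Z⁻¹ * B) ^ 2 = (Z * A - B ^ 2) / Z ^ 2 := by
    field_simp
  have h4 : c * (Z⁻¹ * D) = Z * c * D / Z ^ 2 := by
    field_simp
  rw [h3, h4]
  exact div_le_div_of_nonneg_right h1 (by positivity)

end vp

end Pool.Agent.Lib.MP_6d896a_gt.UC
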