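import Mathlib
import Pool.Agent.Lib.MP_6d896a_gt.UC.UncCL
import Pool.Agent.Lib.MP_6d896a_gt.UC.UncAPPre

/-!
Project UC, piece U18: the affine invariant Poincare inequality for unconditional log-concave
measures.
-/

set_option autoImplicit false

namespace Pool.Agent.Lib.MP_6d896a_gt.UC

open MeasureTheory Filter Topology Set ProbabilityTheory
open scoped ENNReal NNReal ContDiff

variable {n : ℕ}

theorem unc_ap (ν : Measure (Eu n)) [IsProbabilityMeasure ν] (hpl : FP.PLm ν) (hsym : UncM ν) :
    FP.AP ν (10 ^ 8) :=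
  unc_ap_of (by norm_num) (fun ν _ h1 h2 h3 h4 {f b l L} hf => by
    have := unc_poincare_CL ν h1 h2 h3 one_pos h4 hf
    simpa using this) ν hpl hsym

end Pool.Agent.Lib.MP_6d896a_gt.UC
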