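import Mathlib
import Pool.Agent.Lib.MP_6d896a_gt.Ex18
import Pool.Agent.Lib.MP_6d896a_gt.UC.Defs

/-!
From unconditional log-concave measures to measures invariant under some of the coordinate
reflections, and to their linear images.
-/

set_option autoImplicit false

namespace Pool.Agent.Lib.MP_6d896a_gt.UC

open MeasureTheory ProbabilityTheory Set Filter Pool.Agent.Lib.MP_6d896a_gt.FP
  Pool.Agent.Lib.MP_6d896a_gt.EX
open scoped ENNReal Topology

lemma uf_fG_inv {N : ℕ} {i : Fin N} {μ : Measure (EuclideanSpace ℝ (Fin N))}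
    (h : μ.map (Rf i) = μ) (d : ℝ) (x : EuclideanSpace ℝ (Fin N)) :
    fG μ d (Rf i x) = fG μ d x := by
  unfold fG
  have hk : Continuous (fun z : EuclideanSpace ℝ (Fin N) => gk d (Rf i x - z)) :=
    (gk_continuous d).comp (continuous_const.sub continuous_id)
  conv_lhs => rw [← h]
  rw [integral_map (Rf i).continuous.measurable.aemeasurable hk.aestronglyMeasurable]
  congr 1
  funext z
  rw [← map_sub]
  unfold gk
  rw [LinearIsometryEquiv.norm_map]

/-- the affine invariant inequality for densities on `ℝ^N` even in the coordinates in `U` -/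
theorem uf_dens {K : ℝ} (hK : 1 ≤ K)
    (hap : ∀ (n : ℕ) (ν : Measure (EuclideanSpace ℝ (Fin n))) [IsProbabilityMeasure ν],
      PLm ν → (∀ i, ν.map (Rf i) = ν) → AP ν K) {C : ℝ} (hC : 1 ≤ C) (hfib : FibreStat C)
    (N : ℕ) (U : Finset (Fin N)) (ρ : (Fin N → ℝ) → ℝ) (hρ : LCd ρ)
    (h0 : ∫⁻ x, ENNReal.ofReal (ρ x) ≠ 0) (ht : ∫⁻ x, ENNReal.ofReal (ρ x) ≠ ∞)
    (hinv : ∀ i ∈ U, ∀ x : Fin N → ℝ, ρ (fun j => if j = i then - x j else x j) = ρ x) :
    AP (dens ρ) (C ^ (N - U.card) * K) := by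
  classical
  have hk : (Uᶜ : Finset (Fin N)).card = N - U.card := by
    rw [Finset.card_compl, Fintype.card_fin]
  have hn : ((Uᶜ)ᶜ : Finset (Fin N)).card = U.card := by rw [compl_compl]
  set k : ℕ := N - U.card with hkdef
  set n : ℕ := U.card with hndef
  set π : Fin k ⊕ Fin n ≃ Fin N := finSumEquivOfFinset hk hn with hπ
  have hmem : ∀ j : Fin n, π (Sum.inr j) ∈ U := by
    intro j
    rw [hπ, finSumEquivOfFinset_inr]
    have := Finset.orderEmbOfFin_mem ((Uᶜ)ᶜ : Finset (Fin N)) hn j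
    rw [Finset.mem_compl, Finset.mem_compl, not_not] at this
    exact this
  set e : (Fin k ⊕ Fin n → ℝ) ≃L[ℝ] (Fin N → ℝ) :=
    ContinuousLinearEquiv.piCongrLeft ℝ (fun _ : Fin N => ℝ) π with he
  have heap : ∀ (z : Fin k ⊕ Fin n → ℝ) (i : Fin N), e z i = z (π.symm i) := by
    intro z i
    obtain ⟨w, rfl⟩ := π.surjective i
    rw [he]
    simp [ContinuousLinearEquiv.piCongrLeft]
  refine AP.lin (E := Fin k ⊕ Fin n → ℝ) (F := Fin N → ℝ) e ?_
  obtain ⟨h0', ht'⟩ := lint_lin_ne e h0 ht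
  have hρ' : LCd (fun z => ρ (e z)) := by
    have := LCd.lin (e : (Fin k ⊕ Fin n → ℝ) →L[ℝ] (Fin N → ℝ)) 0 hρ
    simpa using this
  refine base_iter hC hfib k (Fin n) (fun z => ρ (e z)) hρ' h0' ht' _ hK fun y hy0 hyt => ?_
  have hlc : LCd (fun x : Fin n → ℝ => ρ (e (Sum.elim y x))) := by
    refine hρ'.comp_linear (fun x : Fin n → ℝ => (Sum.elim y x : Fin k ⊕ Fin n → ℝ)) ?_ ?_
    · refine measurable_pi_lambda _ fun w => ?_
      rcases w with w | w
      · exact measurable_const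
      · exact measurable_pi_apply w
    · intro x z a b hab
      funext w
      rcases w with w | w
      · show y w = a * y w + b * y w
        rw [← add_mul, hab, one_mul]
      · rfl
  set ε : EuclideanSpace ℝ (Fin n) ≃L[ℝ] (Fin n → ℝ) := EuclideanSpace.equiv (Fin n) ℝ with hε
  refine AP.lin (E := EuclideanSpace ℝ (Fin n)) (F := Fin n → ℝ) ε ?_
  obtain ⟨hz0, hzt⟩ := lint_lin_ne ε hy0 hyt
  have hlc' : LCd (fun x : EuclideanSpace ℝ (Fin n) => ρ (e (Sum.elim y (ε x)))) := by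
    have := LCd.lin (ε : EuclideanSpace ℝ (Fin n) →L[ℝ] (Fin n → ℝ)) 0 hlc
    simpa using this
  have : IsProbabilityMeasure
      (dens (fun x : EuclideanSpace ℝ (Fin n) => ρ (e (Sum.elim y (ε x))))) :=
    dens_prob hz0 hzt
  refine hap n _ (hlc'.plm hz0 hzt) fun i => ?_
  have hR : ∀ x : EuclideanSpace ℝ (Fin n),
      ρ (e (Sum.elim y (ε (Rf i x)))) = ρ (e (Sum.elim y (ε x))) := by
    intro x
    rw [← hinv (π (Sum.inr i)) (hmem i) (e (Sum.elim y (ε x)))]
    congr 1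
    funext j
    rw [heap, heap]
    obtain ⟨w, rfl⟩ := π.surjective j
    rw [Equiv.symm_apply_apply]
    rcases w with w | w
    · simp
    · simp only [Sum.elim_inr, EmbeddingLike.apply_eq_iff_eq, Sum.inr.injEq]
      exact Rf_apply i x w
  have h1 := dens_lin (Rf i).toContinuousLinearEquiv
    (fun x : EuclideanSpace ℝ (Fin n) => ρ (e (Sum.elim y (ε x))))
  have h2 : (fun x : EuclideanSpace ℝ (Fin n) =>
      ρ (e (Sum.elim y (ε ((Rf i).toContinuousLinearEquiv x))))) =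
      fun x => ρ (e (Sum.elim y (ε x))) := funext fun x => hR x
  rw [h2] at h1
  exact h1

/-- the affine invariant inequality for log-concave measures invariant under the reflections in
the coordinates in `U` -/
theorem uf_ap {K : ℝ} (hK : 1 ≤ K)
    (hap : ∀ (n : ℕ) (ν : Measure (EuclideanSpace ℝ (Fin n))) [IsProbabilityMeasure ν],
      PLm ν → (∀ i, ν.map (Rf i) = ν) → AP ν K) : ∃ D : ℝ, 1 ≤ D ∧
    ∀ (N : ℕ) (U : Finset (Fin N)) (μ : Measure (EuclideanSpace ℝ (Fin N)))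
      [IsProbabilityMeasure μ], PLm μ → (∀ i ∈ U, μ.map (Rf i) = μ) →
      AP μ (D ^ (N - U.card + 1)) := by
  obtain ⟨C, hC, hfib⟩ := fibreStat
  refine ⟨max C K, hC.trans (le_max_left _ _), ?_⟩
  intro N U μ _ hpl hinv
  have hD : 1 ≤ max C K := hC.trans (le_max_left _ _)
  have hD1 : 1 ≤ (max C K) ^ (N - U.card + 1) := one_le_pow₀ hD
  refine ap_of_cv hpl.sq_integrable (by linarith) fun t ht => ?_
  set d : ℝ := 1 / (2 * t ^ 2) with hd
  have hd0 : 0 < d := by positivity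
  have hcv : FP.cv μ t = volume.withDensity (fun x => ENNReal.ofReal (fG μ d x)) := cv_eq ht rfl
  have hmass : ∫⁻ x, ENNReal.ofReal (fG μ d x) = 1 := by
    have h1 : IsProbabilityMeasure (FP.cv μ t) := by
      unfold FP.cv
      exact Measure.isProbabilityMeasure_map (by fun_prop)
    have h2 := h1.measure_univ
    rw [hcv, withDensity_apply _ MeasurableSet.univ, Measure.restrict_univ] at h2
    exact h2
  have hdens : FP.cv μ t = dens (fG μ d) := by
    unfold dens
    rw [hmass, inv_one, one_smul, hcv]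
  have hlc : LCd (fG μ d) := by
    refine ⟨fun x => integral_nonneg fun z => (gk_pos hd0 _).le, fG_measurable,
      fun x y a b ha hb hab => ?_⟩
    have := fG_logconcave hd0 hpl x y hb (by linarith : b < 1)
    rwa [show 1 - b = a by linarith] at this
  rw [hdens]
  set e := (EuclideanSpace.equiv (Fin N) ℝ).symm with he
  refine AP.lin (E := Fin N → ℝ) (F := EuclideanSpace ℝ (Fin N)) e ?_
  have h0 : ∫⁻ x, ENNReal.ofReal (fG μ d x) ≠ 0 := by rw [hmass]; simp
  have htt : ∫⁻ x, ENNReal.ofReal (fG μ d x) ≠ ∞ := by rw [hmass]; simp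
  obtain ⟨h0', ht'⟩ := lint_lin_ne e h0 htt
  have hlc' : LCd (fun x => fG μ d (e x)) := by
    have := LCd.lin (e : (Fin N → ℝ) →L[ℝ] EuclideanSpace ℝ (Fin N)) 0 hlc
    simpa using this
  have hmain := uf_dens hK hap hC hfib N U (fun x => fG μ d (e x)) hlc' h0' ht' (by
    intro i hi x
    rw [← uf_fG_inv (hinv i hi) d (e x)]
    congr 1
    ext j
    rw [Rf_apply]
    rfl)
  refine AP.mono hmain ?_
  rw [pow_succ]
  exact mul_le_mul (pow_le_pow_left₀ (by linarith) (le_max_left _ _) _) (le_max_right _ _)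
    (by linarith) (by positivity)

/-- the final statement, from the affine invariant inequality for unconditional measures -/
theorem punc_cheeger_of {K : ℝ} (hK : 1 ≤ K)
    (hap : ∀ (n : ℕ) (ν : Measure (EuclideanSpace ℝ (Fin n))) [IsProbabilityMeasure ν],
      PLm ν → (∀ i, ν.map (Rf i) = ν) → AP ν K) :
    ∃ C : ℝ, 0 < C ∧ ∀ (N : ℕ) (U : Finset (Fin N))
    (μ : Measure (EuclideanSpace ℝ (Fin N))) [IsProbabilityMeasure μ], FP.PLm μ →
    (∀ i ∈ U, μ.map (Rf i) = μ) →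
    ∀ (n : ℕ) (T : EuclideanSpace ℝ (Fin N) →ₗ[ℝ] EuclideanSpace ℝ (Fin n)) (s : ℝ), 0 < s →
    (∀ θ : EuclideanSpace ℝ (Fin n), ‖θ‖ = 1 → Var[fun x => inner ℝ x θ; μ.map T] ≤ s) →
    ∀ S : Set (EuclideanSpace ℝ (Fin n)), MeasurableSet S →
      ENNReal.ofReal (C ^ (N - U.card + 1) / Real.sqrt s) * min (μ.map T S) (μ.map T Sᶜ) ≤
        Filter.liminf
          (fun ε : ℝ => (μ.map T (Metric.thickening ε S) - μ.map T S) / ENNReal.ofReal ε)
          (𝓝[>] 0) := by
  obtain ⟨D, hD, hap'⟩ := uf_ap hK hap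
  obtain ⟨c, hc, hch⟩ := cheeger_image
  set c' : ℝ := min c 1 with hc'
  have hc'0 : 0 < c' := lt_min hc one_pos
  have hsD : 1 ≤ Real.sqrt D := by
    rw [Real.one_le_sqrt]
    exact hD
  refine ⟨c' / Real.sqrt D, by positivity, ?_⟩
  intro N U μ _ hpl hinv n T s hs hvar S hS
  obtain ⟨m, hm⟩ : ∃ m, N - U.card = m := ⟨_, rfl⟩
  have hapm := hap' N U μ hpl hinv
  rw [hm] at hapm ⊢
  have hD1 : 1 ≤ D ^ (m + 1) := one_le_pow₀ hD
  refine le_trans ?_ (hch (EuclideanSpace ℝ (Fin N)) μ hpl _ hD1 hapm n T s hs hvar S hS)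
  refine mul_le_mul_left ?_ _
  apply ENNReal.ofReal_le_ofReal
  have hsq : Real.sqrt (D ^ (m + 1) * s) = (Real.sqrt D) ^ (m + 1) * Real.sqrt s := by
    rw [Real.sqrt_mul (by positivity)]
    congr 1
    rw [Real.sqrt_eq_iff_mul_self_eq (by positivity) (by positivity), ← mul_pow,
      Real.mul_self_sqrt (by linarith)]
  rw [hsq, div_pow, div_div]
  apply div_le_div_of_nonneg_right _ (by positivity)
  calc c' ^ (m + 1) ≤ c' ^ 1 := pow_le_pow_of_le_one hc'0.le (min_le_right _ _) (by omega)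
    _ = c' := pow_one _
    _ ≤ c := min_le_left _ _

end Pool.Agent.Lib.MP_6d896a_gt.UC
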