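import Mathlib
import Pool.Agent.Lib.MP_6d896a_gt.UC.UncFinalOf
import Pool.Agent.Lib.MP_6d896a_gt.UC.UncAP

/-!
The inequality conjectured by Kannan, Lovasz and Simonovits for unconditional measures.
-/

set_option autoImplicit false

namespace Pool.Agent.Lib.MP_6d896a_gt.UC

open MeasureTheory Filter Topology Set ProbabilityTheory
open scoped ENNReal NNReal ContDiff

theorem punc_cheeger : ∃ C : ℝ, 0 < C ∧ ∀ (N : ℕ) (U : Finset (Fin N))
    (μ : Measure (EuclideanSpace ℝ (Fin N))) [IsProbabilityMeasure μ], FP.PLm μ →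
    (∀ i ∈ U, μ.map (Rf i) = μ) →
    ∀ (n : ℕ) (T : EuclideanSpace ℝ (Fin N) →ₗ[ℝ] EuclideanSpace ℝ (Fin n)) (s : ℝ), 0 < s →
    (∀ θ : EuclideanSpace ℝ (Fin n), ‖θ‖ = 1 → Var[fun x => inner ℝ x θ; μ.map T] ≤ s) →
    ∀ S : Set (EuclideanSpace ℝ (Fin n)), MeasurableSet S →
      ENNReal.ofReal (C ^ (N - U.card + 1) / Real.sqrt s) * min (μ.map T S) (μ.map T Sᶜ) ≤
        Filter.liminf
          (fun ε : ℝ => (μ.map T (Metric.thickening ε S) - μ.map T S) / ENNReal.ofReal ε)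
          (𝓝[>] 0) :=
  punc_cheeger_of (K := 10 ^ 8) (by norm_num) fun _ ν _ hpl hs => unc_ap ν hpl hs

end Pool.Agent.Lib.MP_6d896a_gt.UC
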